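import Pool.Agent.Helper5.B54v2.Cell2
import Pool.Agent.Helper5.B54v2.T.A000
import Pool.Agent.Helper5.B54v2.T.A001
import Pool.Agent.Helper5.B54v2.T.A002
import Pool.Agent.Helper5.B54v2.T.A003
import Pool.Agent.Helper5.B54v2.T.A004
import Pool.Agent.Helper5.B54v2.T.A005
import Pool.Agent.Helper5.B54v2.T.A006
import Pool.Agent.Helper5.B54v2.T.A007
import Pool.Agent.Helper5.B54v2.T.A008
import Pool.Agent.Helper5.B54v2.T.A009
import Pool.Agent.Helper5.B54v2.T.A010

/-!
# Cells
-/

namespace Pool.Agent.Helper5.B54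

theorem c16000_5520_5600_0_3040 : Cell2 16000 5520 5600 0 3040 :=
  CellR2.fin c16000_5520_5600_0_3040_f

theorem c16000_5520_5920_0_3680 : Cell2 16000 5520 5920 0 3680 :=
  CellR2.fin c16000_5520_5920_0_3680_f

theorem c16000_5520_5600_3040_5920 : Cell2 16000 5520 5600 3040 5920 :=
  CellR2.fin c16000_5520_5600_3040_5920_f

theorem c16000_5520_5760_3680_5440 : Cell2 16000 5520 5760 3680 5440 :=
  CellR2.fin c16000_5520_5760_3680_5440_f

theorem c16000_5520_5760_5440_7200 : Cell2 16000 5520 5760 5440 7200 :=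
  CellR2.fin c16000_5520_5760_5440_7200_f

theorem c16000_5600_5760_0_3040 : Cell2 16000 5600 5760 0 3040 :=
  CellR2.fin c16000_5600_5760_0_3040_f

theorem c16000_5600_5760_3040_4480 : Cell2 16000 5600 5760 3040 4480 :=
  CellR2.fin c16000_5600_5760_3040_4480_f

theorem c16000_5600_5760_4480_4960 : Cell2 16000 5600 5760 4480 4960 :=
  CellR2.fin c16000_5600_5760_4480_4960_f

theorem c16000_5600_5760_4960_5120 : Cell2 16000 5600 5760 4960 5120 :=
  CellR2.fin c16000_5600_5760_4960_5120_f

theorem c16000_5600_5760_5120_5280 : Cell2 16000 5600 5760 5120 5280 :=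
  CellR2.fin c16000_5600_5760_5120_5280_f

theorem c16000_5600_5760_5280_5440 : Cell2 16000 5600 5760 5280 5440 :=
  CellR2.fin c16000_5600_5760_5280_5440_f

theorem c16000_5600_5760_5440_5600 : Cell2 16000 5600 5760 5440 5600 :=
  CellR2.fin c16000_5600_5760_5440_5600_f

theorem c16000_5600_5760_5600_5760 : Cell2 16000 5600 5760 5600 5760 :=
  CellR2.step (Good.chk c16000_5600_5760_5600_5760_s0) (by decide) (by decide)
    (CellR2.step (Good.chk c16000_5600_5760_5600_5760_s1) (by decide) (by decide)
    (CellR2.fin c16000_5600_5760_5600_5760_f))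

theorem c16000_5760_5920_0_3040 : Cell2 16000 5760 5920 0 3040 :=
  CellR2.fin c16000_5760_5920_0_3040_f

theorem c16000_5760_5920_3040_4480 : Cell2 16000 5760 5920 3040 4480 :=
  CellR2.fin c16000_5760_5920_3040_4480_f

theorem c16000_5760_5920_3680_5440 : Cell2 16000 5760 5920 3680 5440 :=
  CellR2.fin c16000_5760_5920_3680_5440_f

theorem c16000_5760_5920_4480_4800 : Cell2 16000 5760 5920 4480 4800 :=
  CellR2.fin c16000_5760_5920_4480_4800_f

theorem c16000_5760_5920_4800_4960 : Cell2 16000 5760 5920 4800 4960 :=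
  CellR2.fin c16000_5760_5920_4800_4960_f

theorem c16000_5760_5920_4960_5120 : Cell2 16000 5760 5920 4960 5120 :=
  CellR2.fin c16000_5760_5920_4960_5120_f

theorem c16000_5760_5920_5120_5280 : Cell2 16000 5760 5920 5120 5280 :=
  CellR2.fin c16000_5760_5920_5120_5280_f

theorem c16000_5760_5920_5280_5440 : Cell2 16000 5760 5920 5280 5440 :=
  CellR2.step (Good.chk c16000_5760_5920_5280_5440_s0) (by decide) (by decide)
    (CellR2.fin c16000_5760_5920_5280_5440_f)

theorem c16000_5760_5920_5440_5600 : Cell2 16000 5760 5920 5440 5600 :=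
  CellR2.step (Good.chk c16000_5760_5920_5440_5600_s0) (by decide) (by decide)
    (CellR2.fin c16000_5760_5920_5440_5600_f)

theorem c16000_5760_5920_5600_5760 : Cell2 16000 5760 5920 5600 5760 :=
  CellR2.step (Good.chk c16000_5760_5920_5600_5760_s0) (by decide) (by decide)
    (CellR2.fin c16000_5760_5920_5600_5760_f)

theorem c16000_5760_5920_5760_5920 : Cell2 16000 5760 5920 5760 5920 :=
  CellR2.step (Good.chk c16000_5760_5920_5760_5920_s0) (by decide) (by decide)
    (CellR2.step (Good.chk c16000_5760_5920_5760_5920_s1) (by decide) (by decide)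
    (CellR2.fin c16000_5760_5920_5760_5920_f))

theorem c16000_5920_6080_0_3040 : Cell2 16000 5920 6080 0 3040 :=
  CellR2.fin c16000_5920_6080_0_3040_f

theorem c16000_5920_6400_0_3680 : Cell2 16000 5920 6400 0 3680 :=
  CellR2.fin c16000_5920_6400_0_3680_f

theorem c16000_5920_6080_3040_4640 : Cell2 16000 5920 6080 3040 4640 :=
  CellR2.fin c16000_5920_6080_3040_4640_f

theorem c16000_5920_6080_3680_4640 : Cell2 16000 5920 6080 3680 4640 :=
  CellR2.fin c16000_5920_6080_3680_4640_f

theorem c16000_5920_6080_4640_4800 : Cell2 16000 5920 6080 4640 4800 :=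
  CellR2.fin c16000_5920_6080_4640_4800_f

theorem c16000_5920_6080_4640_5120 : Cell2 16000 5920 6080 4640 5120 :=
  CellR2.fin c16000_5920_6080_4640_5120_f

theorem c16000_5920_6080_4800_4960 : Cell2 16000 5920 6080 4800 4960 :=
  CellR2.fin c16000_5920_6080_4800_4960_f

theorem c16000_5920_6080_4960_5120 : Cell2 16000 5920 6080 4960 5120 :=
  CellR2.step (Good.chk c16000_5920_6080_4960_5120_s0) (by decide) (by decide)
    (CellR2.fin c16000_5920_6080_4960_5120_f)

theorem c16000_5920_6080_5120_5280 : Cell2 16000 5920 6080 5120 5280 :=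
  CellR2.step (Good.chk c16000_5920_6080_5120_5280_s0) (by decide) (by decide)
    (CellR2.fin c16000_5920_6080_5120_5280_f)

theorem c16000_5920_6080_5280_5440 : Cell2 16000 5920 6080 5280 5440 :=
  CellR2.step (Good.chk c16000_5920_6080_5280_5440_s0) (by decide) (by decide)
    (CellR2.fin c16000_5920_6080_5280_5440_f)

theorem c16000_5920_6080_5440_5600 : Cell2 16000 5920 6080 5440 5600 :=
  CellR2.step (Good.chk c16000_5920_6080_5440_5600_s0) (by decide) (by decide)
    (CellR2.fin c16000_5920_6080_5440_5600_f)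

theorem c16000_5920_6080_5600_5760 : Cell2 16000 5920 6080 5600 5760 :=
  CellR2.step (Good.chk c16000_5920_6080_5600_5760_s0) (by decide) (by decide)
    (CellR2.step (Good.chk c16000_5920_6080_5600_5760_s1) (by decide) (by decide)
    (CellR2.fin c16000_5920_6080_5600_5760_f))

theorem c16000_5920_6080_5760_5920 : Cell2 16000 5920 6080 5760 5920 :=
  CellR2.step (Good.chk c16000_5920_6080_5760_5920_s0) (by decide) (by decide)
    (CellR2.step (Good.chk c16000_5920_6080_5760_5920_s1) (by decide) (by decide)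
    (CellR2.fin c16000_5920_6080_5760_5920_f))

theorem c16000_5920_6080_5920_6080 : Cell2 16000 5920 6080 5920 6080 :=
  CellR2.step (Good.chk c16000_5920_6080_5920_6080_s0) (by decide) (by decide)
    (CellR2.fin c16000_5920_6080_5920_6080_f)

theorem c16000_6080_6240_0_3200 : Cell2 16000 6080 6240 0 3200 :=
  CellR2.fin c16000_6080_6240_0_3200_f

theorem c16000_6080_6240_3200_4000 : Cell2 16000 6080 6240 3200 4000 :=
  CellR2.fin c16000_6080_6240_3200_4000_f

theorem c16000_6080_6240_3680_4640 : Cell2 16000 6080 6240 3680 4640 :=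
  CellR2.fin c16000_6080_6240_3680_4640_f

theorem c16000_6080_6240_4000_4320 : Cell2 16000 6080 6240 4000 4320 :=
  CellR2.fin c16000_6080_6240_4000_4320_f

theorem c16000_6080_6240_4320_4480 : Cell2 16000 6080 6240 4320 4480 :=
  CellR2.fin c16000_6080_6240_4320_4480_f

theorem c16000_6080_6240_4480_4640 : Cell2 16000 6080 6240 4480 4640 :=
  CellR2.fin c16000_6080_6240_4480_4640_f

theorem c16000_6080_6240_4640_4800 : Cell2 16000 6080 6240 4640 4800 :=
  CellR2.step (Good.chk c16000_6080_6240_4640_4800_s0) (by decide) (by decide)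
    (CellR2.fin c16000_6080_6240_4640_4800_f)

theorem c16000_6080_6240_4640_4960 : Cell2 16000 6080 6240 4640 4960 :=
  CellR2.fin c16000_6080_6240_4640_4960_f

theorem c16000_6080_6240_4800_4960 : Cell2 16000 6080 6240 4800 4960 :=
  CellR2.step (Good.chk c16000_6080_6240_4800_4960_s0) (by decide) (by decide)
    (CellR2.fin c16000_6080_6240_4800_4960_f)

theorem c16000_6080_6240_4960_5120 : Cell2 16000 6080 6240 4960 5120 :=
  CellR2.step (Good.chk c16000_6080_6240_4960_5120_s0) (by decide) (by decide)
    (CellR2.fin c16000_6080_6240_4960_5120_f)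

theorem c16000_6080_6240_5120_5280 : Cell2 16000 6080 6240 5120 5280 :=
  CellR2.step (Good.chk c16000_6080_6240_5120_5280_s0) (by decide) (by decide)
    (CellR2.fin c16000_6080_6240_5120_5280_f)

theorem c16000_6080_6240_5280_5440 : Cell2 16000 6080 6240 5280 5440 :=
  CellR2.step (Good.chk c16000_6080_6240_5280_5440_s0) (by decide) (by decide)
    (CellR2.fin c16000_6080_6240_5280_5440_f)

theorem c16000_6080_6240_5440_5600 : Cell2 16000 6080 6240 5440 5600 :=
  CellR2.step (Good.chk c16000_6080_6240_5440_5600_s0) (by decide) (by decide)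
    (CellR2.fin c16000_6080_6240_5440_5600_f)

theorem c16000_6080_6240_5600_5760 : Cell2 16000 6080 6240 5600 5760 :=
  CellR2.step (Good.chk c16000_6080_6240_5600_5760_s0) (by decide) (by decide)
    (CellR2.step (Good.chk c16000_6080_6240_5600_5760_s1) (by decide) (by decide)
    (CellR2.fin c16000_6080_6240_5600_5760_f))

theorem c16000_6080_6240_5760_5920 : Cell2 16000 6080 6240 5760 5920 :=
  CellR2.step (Good.chk c16000_6080_6240_5760_5920_s0) (by decide) (by decide)
    (CellR2.step (Good.chk c16000_6080_6240_5760_5920_s1) (by decide) (by decide)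
    (CellR2.fin c16000_6080_6240_5760_5920_f))

theorem c16000_6080_6240_5920_6080 : Cell2 16000 6080 6240 5920 6080 :=
  CellR2.step (Good.chk c16000_6080_6240_5920_6080_s0) (by decide) (by decide)
    (CellR2.step (Good.chk c16000_6080_6240_5920_6080_s1) (by decide) (by decide)
    (CellR2.step (Good.chk c16000_6080_6240_5920_6080_s2) (by decide) (by decide)
    (CellR2.step (Good.chk c16000_6080_6240_5920_6080_s3) (by decide) (by decide)
    (CellR2.step (Good.chk c16000_6080_6240_5920_6080_s4) (by decide) (by decide)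
    (CellR2.step (Good.chk c16000_6080_6240_5920_6080_s5) (by decide) (by decide)
    (CellR2.step (Good.chk c16000_6080_6240_5920_6080_s6) (by decide) (by decide)
    (CellR2.fin c16000_6080_6240_5920_6080_f)))))))

theorem c16000_6080_6240_6080_6240 : Cell2 16000 6080 6240 6080 6240 :=
  CellR2.step (Good.chk c16000_6080_6240_6080_6240_s0) (by decide) (by decide)
    (CellR2.step (Good.chk c16000_6080_6240_6080_6240_s1) (by decide) (by decide)
    (CellR2.fin c16000_6080_6240_6080_6240_f))

theorem c16000_6240_6400_0_3200 : Cell2 16000 6240 6400 0 3200 :=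
  CellR2.fin c16000_6240_6400_0_3200_f

theorem c16000_6240_6400_3200_4000 : Cell2 16000 6240 6400 3200 4000 :=
  CellR2.fin c16000_6240_6400_3200_4000_f

theorem c16000_6240_6400_3680_4640 : Cell2 16000 6240 6400 3680 4640 :=
  CellR2.fin c16000_6240_6400_3680_4640_f

theorem c16000_6240_6400_4000_4320 : Cell2 16000 6240 6400 4000 4320 :=
  CellR2.fin c16000_6240_6400_4000_4320_f

theorem c16000_6240_6400_4320_4480 : Cell2 16000 6240 6400 4320 4480 :=
  CellR2.fin c16000_6240_6400_4320_4480_f

end Pool.Agent.Helper5.B54
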