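import Pool.Agent.Helper5.B54v2.Cell2
import Pool.Agent.Helper5.B54v2.T.A010
import Pool.Agent.Helper5.B54v2.T.A011
import Pool.Agent.Helper5.B54v2.T.A012
import Pool.Agent.Helper5.B54v2.T.A013
import Pool.Agent.Helper5.B54v2.T.A014
import Pool.Agent.Helper5.B54v2.T.A015
import Pool.Agent.Helper5.B54v2.T.A016
import Pool.Agent.Helper5.B54v2.T.A017
import Pool.Agent.Helper5.B54v2.T.A018
import Pool.Agent.Helper5.B54v2.T.A019
import Pool.Agent.Helper5.B54v2.T.A020
import Pool.Agent.Helper5.B54v2.T.A021
import Pool.Agent.Helper5.B54v2.T.A022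
import Pool.Agent.Helper5.B54v2.T.A023
import Pool.Agent.Helper5.B54v2.T.A024
import Pool.Agent.Helper5.B54v2.T.A025
import Pool.Agent.Helper5.B54v2.T.A026
import Pool.Agent.Helper5.B54v2.T.A027
import Pool.Agent.Helper5.B54v2.T.A028
import Pool.Agent.Helper5.B54v2.T.A029
import Pool.Agent.Helper5.B54v2.T.A030
import Pool.Agent.Helper5.B54v2.T.A031
import Pool.Agent.Helper5.B54v2.T.A032
import Pool.Agent.Helper5.B54v2.T.A033
import Pool.Agent.Helper5.B54v2.T.A034
import Pool.Agent.Helper5.B54v2.T.A035
import Pool.Agent.Helper5.B54v2.T.A036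
import Pool.Agent.Helper5.B54v2.T.A037
import Pool.Agent.Helper5.B54v2.T.A038
import Pool.Agent.Helper5.B54v2.T.A039
import Pool.Agent.Helper5.B54v2.T.A040
import Pool.Agent.Helper5.B54v2.T.A041
import Pool.Agent.Helper5.B54v2.T.A042
import Pool.Agent.Helper5.B54v2.T.A043
import Pool.Agent.Helper5.B54v2.T.A044
import Pool.Agent.Helper5.B54v2.T.A045
import Pool.Agent.Helper5.B54v2.T.A046
import Pool.Agent.Helper5.B54v2.T.A047
import Pool.Agent.Helper5.B54v2.T.A048
import Pool.Agent.Helper5.B54v2.T.A049
import Pool.Agent.Helper5.B54v2.T.A050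
import Pool.Agent.Helper5.B54v2.T.A051
import Pool.Agent.Helper5.B54v2.T.A052
import Pool.Agent.Helper5.B54v2.T.A053
import Pool.Agent.Helper5.B54v2.T.A054
import Pool.Agent.Helper5.B54v2.T.A055
import Pool.Agent.Helper5.B54v2.T.A056
import Pool.Agent.Helper5.B54v2.T.A057
import Pool.Agent.Helper5.B54v2.T.A058
import Pool.Agent.Helper5.B54v2.T.A059
import Pool.Agent.Helper5.B54v2.T.A060
import Pool.Agent.Helper5.B54v2.T.A061
import Pool.Agent.Helper5.B54v2.T.A062
import Pool.Agent.Helper5.B54v2.T.A063
import Pool.Agent.Helper5.B54v2.T.A064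
import Pool.Agent.Helper5.B54v2.T.A065
import Pool.Agent.Helper5.B54v2.T.A066
import Pool.Agent.Helper5.B54v2.T.A067
import Pool.Agent.Helper5.B54v2.T.A068
import Pool.Agent.Helper5.B54v2.T.A069
import Pool.Agent.Helper5.B54v2.T.A070
import Pool.Agent.Helper5.B54v2.T.A071
import Pool.Agent.Helper5.B54v2.T.A072
import Pool.Agent.Helper5.B54v2.T.A073
import Pool.Agent.Helper5.B54v2.T.A074
import Pool.Agent.Helper5.B54v2.T.A075
import Pool.Agent.Helper5.B54v2.T.A076
import Pool.Agent.Helper5.B54v2.T.A077
import Pool.Agent.Helper5.B54v2.T.A078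
import Pool.Agent.Helper5.B54v2.T.A079
import Pool.Agent.Helper5.B54v2.T.A080
import Pool.Agent.Helper5.B54v2.T.A081
import Pool.Agent.Helper5.B54v2.T.A082
import Pool.Agent.Helper5.B54v2.T.A083
import Pool.Agent.Helper5.B54v2.T.A084
import Pool.Agent.Helper5.B54v2.T.A085
import Pool.Agent.Helper5.B54v2.T.A086
import Pool.Agent.Helper5.B54v2.T.A087
import Pool.Agent.Helper5.B54v2.T.A088
import Pool.Agent.Helper5.B54v2.T.A089
import Pool.Agent.Helper5.B54v2.T.A090
import Pool.Agent.Helper5.B54v2.T.A091
import Pool.Agent.Helper5.B54v2.T.A092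
import Pool.Agent.Helper5.B54v2.T.A093
import Pool.Agent.Helper5.B54v2.T.A094
import Pool.Agent.Helper5.B54v2.T.A095
import Pool.Agent.Helper5.B54v2.T.A096
import Pool.Agent.Helper5.B54v2.T.A097
import Pool.Agent.Helper5.B54v2.T.A098
import Pool.Agent.Helper5.B54v2.T.A099
import Pool.Agent.Helper5.B54v2.T.A100
import Pool.Agent.Helper5.B54v2.T.A101
import Pool.Agent.Helper5.B54v2.T.A102
import Pool.Agent.Helper5.B54v2.T.A103
import Pool.Agent.Helper5.B54v2.T.A104
import Pool.Agent.Helper5.B54v2.T.A105
import Pool.Agent.Helper5.B54v2.T.A106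
import Pool.Agent.Helper5.B54v2.T.A107
import Pool.Agent.Helper5.B54v2.T.A108
import Pool.Agent.Helper5.B54v2.T.A109
import Pool.Agent.Helper5.B54v2.T.A110
import Pool.Agent.Helper5.B54v2.T.A111
import Pool.Agent.Helper5.B54v2.T.A112
import Pool.Agent.Helper5.B54v2.T.A113
import Pool.Agent.Helper5.B54v2.T.A114
import Pool.Agent.Helper5.B54v2.T.A115
import Pool.Agent.Helper5.B54v2.T.A116
import Pool.Agent.Helper5.B54v2.T.A117
import Pool.Agent.Helper5.B54v2.T.A118
import Pool.Agent.Helper5.B54v2.T.A119
import Pool.Agent.Helper5.B54v2.T.A120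
import Pool.Agent.Helper5.B54v2.T.A121
import Pool.Agent.Helper5.B54v2.T.A122
import Pool.Agent.Helper5.B54v2.T.A123
import Pool.Agent.Helper5.B54v2.T.A124
import Pool.Agent.Helper5.B54v2.T.A125
import Pool.Agent.Helper5.B54v2.T.A126
import Pool.Agent.Helper5.B54v2.T.A127
import Pool.Agent.Helper5.B54v2.T.A128
import Pool.Agent.Helper5.B54v2.T.A129
import Pool.Agent.Helper5.B54v2.T.A130
import Pool.Agent.Helper5.B54v2.T.A131
import Pool.Agent.Helper5.B54v2.T.A132
import Pool.Agent.Helper5.B54v2.T.A133
import Pool.Agent.Helper5.B54v2.T.A134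
import Pool.Agent.Helper5.B54v2.T.A135
import Pool.Agent.Helper5.B54v2.T.A136
import Pool.Agent.Helper5.B54v2.T.A137
import Pool.Agent.Helper5.B54v2.T.A138
import Pool.Agent.Helper5.B54v2.T.A139
import Pool.Agent.Helper5.B54v2.T.A140
import Pool.Agent.Helper5.B54v2.T.A141
import Pool.Agent.Helper5.B54v2.T.A142
import Pool.Agent.Helper5.B54v2.T.A143
import Pool.Agent.Helper5.B54v2.T.A144
import Pool.Agent.Helper5.B54v2.T.A145
import Pool.Agent.Helper5.B54v2.T.A146
import Pool.Agent.Helper5.B54v2.T.A147
import Pool.Agent.Helper5.B54v2.T.A148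
import Pool.Agent.Helper5.B54v2.T.A149

/-!
# Cells
-/

namespace Pool.Agent.Helper5.B54

theorem c16000_6240_6400_4480_4640 : Cell2 16000 6240 6400 4480 4640 :=
  CellR2.step (Good.chk c16000_6240_6400_4480_4640_s0) (by decide) (by decide)
    (CellR2.fin c16000_6240_6400_4480_4640_f)

theorem c16000_6240_6400_4640_4800 : Cell2 16000 6240 6400 4640 4800 :=
  CellR2.step (Good.chk c16000_6240_6400_4640_4800_s0) (by decide) (by decide)
    (CellR2.fin c16000_6240_6400_4640_4800_f)

theorem c16000_6240_6400_4800_4960 : Cell2 16000 6240 6400 4800 4960 :=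
  CellR2.step (Good.chk c16000_6240_6400_4800_4960_s0) (by decide) (by decide)
    (CellR2.fin c16000_6240_6400_4800_4960_f)

theorem c16000_6240_6400_4960_5120 : Cell2 16000 6240 6400 4960 5120 :=
  CellR2.step (Good.chk c16000_6240_6400_4960_5120_s0) (by decide) (by decide)
    (CellR2.fin c16000_6240_6400_4960_5120_f)

theorem c16000_6240_6400_5120_5280 : Cell2 16000 6240 6400 5120 5280 :=
  CellR2.step (Good.chk c16000_6240_6400_5120_5280_s0) (by decide) (by decide)
    (CellR2.fin c16000_6240_6400_5120_5280_f)

theorem c16000_6240_6400_5280_5440 : Cell2 16000 6240 6400 5280 5440 :=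
  CellR2.step (Good.chk c16000_6240_6400_5280_5440_s0) (by decide) (by decide)
    (CellR2.fin c16000_6240_6400_5280_5440_f)

theorem c16000_6240_6400_5440_5600 : Cell2 16000 6240 6400 5440 5600 :=
  CellR2.step (Good.chk c16000_6240_6400_5440_5600_s0) (by decide) (by decide)
    (CellR2.fin c16000_6240_6400_5440_5600_f)

theorem c16000_6240_6400_5600_5760 : Cell2 16000 6240 6400 5600 5760 :=
  CellR2.step (Good.chk c16000_6240_6400_5600_5760_s0) (by decide) (by decide)
    (CellR2.step (Good.chk c16000_6240_6400_5600_5760_s1) (by decide) (by decide)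
    (CellR2.fin c16000_6240_6400_5600_5760_f))

theorem c16000_6240_6400_5760_5920 : Cell2 16000 6240 6400 5760 5920 :=
  CellR2.step (Good.chk c16000_6240_6400_5760_5920_s0) (by decide) (by decide)
    (CellR2.step (Good.chk c16000_6240_6400_5760_5920_s1) (by decide) (by decide)
    (CellR2.step (Good.chk c16000_6240_6400_5760_5920_s2) (by decide) (by decide)
    (CellR2.fin c16000_6240_6400_5760_5920_f)))

theorem c16000_6240_6400_5920_6080 : Cell2 16000 6240 6400 5920 6080 :=
  CellR2.step (Good.chk c16000_6240_6400_5920_6080_s0) (by decide) (by decide)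
    (CellR2.step (Good.chk c16000_6240_6400_5920_6080_s1) (by decide) (by decide)
    (CellR2.step (Good.chk c16000_6240_6400_5920_6080_s2) (by decide) (by decide)
    (CellR2.step (Good.chk c16000_6240_6400_5920_6080_s3) (by decide) (by decide)
    (CellR2.step (Good.chk c16000_6240_6400_5920_6080_s4) (by decide) (by decide)
    (CellR2.step (Good.chk c16000_6240_6400_5920_6080_s5) (by decide) (by decide)
    (CellR2.step (Good.chk c16000_6240_6400_5920_6080_s6) (by decide) (by decide)
    (CellR2.fin c16000_6240_6400_5920_6080_f)))))))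

theorem c16000_6240_6400_6080_6240 : Cell2 16000 6240 6400 6080 6240 :=
  CellR2.step (Good.chk c16000_6240_6400_6080_6240_s0) (by decide) (by decide)
    (CellR2.step (Good.chk c16000_6240_6400_6080_6240_s1) (by decide) (by decide)
    (CellR2.step (Good.chk c16000_6240_6400_6080_6240_s2) (by decide) (by decide)
    (CellR2.step (Good.chk c16000_6240_6400_6080_6240_s3) (by decide) (by decide)
    (CellR2.step (Good.chk c16000_6240_6400_6080_6240_s4) (by decide) (by decide)
    (CellR2.fin c16000_6240_6400_6080_6240_f)))))

theorem c16000_6240_6320_6240_6320 : Cell2 16000 6240 6320 6240 6320 :=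
  CellR2.step (Good.chk c16000_6240_6320_6240_6320_s0) (by decide) (by decide)
    (CellR2.step (Good.chk c16000_6240_6320_6240_6320_s1) (by decide) (by decide)
    (CellR2.step (Good.chk c16000_6240_6320_6240_6320_s2) (by decide) (by decide)
    (CellR2.step (Good.chk c16000_6240_6320_6240_6320_s3) (by decide) (by decide)
    (CellR2.fin c16000_6240_6320_6240_6320_f))))

theorem c16000_6320_6400_6240_6320 : Cell2 16000 6320 6400 6240 6320 :=
  CellR2.step (Good.chk c16000_6320_6400_6240_6320_s0) (by decide) (by decide)
    (CellR2.step (Good.chk c16000_6320_6400_6240_6320_s1) (by decide) (by decide)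
    (CellR2.step (Good.chk c16000_6320_6400_6240_6320_s2) (by decide) (by decide)
    (CellR2.step (Good.chk c16000_6320_6400_6240_6320_s3) (by decide) (by decide)
    (CellR2.step (Good.chk c16000_6320_6400_6240_6320_s4) (by decide) (by decide)
    (CellR2.step (Good.chk c16000_6320_6400_6240_6320_s5) (by decide) (by decide)
    (CellR2.step (Good.chk c16000_6320_6400_6240_6320_s6) (by decide) (by decide)
    (CellR2.step (Good.chk c16000_6320_6400_6240_6320_s7) (by decide) (by decide)
    (CellR2.fin c16000_6320_6400_6240_6320_f))))))))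

theorem c16000_6320_6400_6320_6400 : Cell2 16000 6320 6400 6320 6400 :=
  CellR2.step (Good.chk c16000_6320_6400_6320_6400_s0) (by decide) (by decide)
    (CellR2.step (Good.chk c16000_6320_6400_6320_6400_s1) (by decide) (by decide)
    (CellR2.step (Good.chk c16000_6320_6400_6320_6400_s2) (by decide) (by decide)
    (CellR2.step (Good.chk c16000_6320_6400_6320_6400_s3) (by decide) (by decide)
    (CellR2.step (Good.chk c16000_6320_6400_6320_6400_s4) (by decide) (by decide)
    (CellR2.step (Good.chk c16000_6320_6400_6320_6400_s5) (by decide) (by decide)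
    (CellR2.step (Good.chk c16000_6320_6400_6320_6400_s6) (by decide) (by decide)
    (CellR2.step (Good.chk c16000_6320_6400_6320_6400_s7) (by decide) (by decide)
    (CellR2.fin c16000_6320_6400_6320_6400_f))))))))

theorem c16000_6400_7200_0_4000 : Cell2 16000 6400 7200 0 4000 :=
  CellR2.fin c16000_6400_7200_0_4000_f

theorem c16000_6400_6560_4000_4640 : Cell2 16000 6400 6560 4000 4640 :=
  CellR2.fin c16000_6400_6560_4000_4640_f

theorem c16000_6400_6560_4640_4800 : Cell2 16000 6400 6560 4640 4800 :=
  CellR2.step (Good.chk c16000_6400_6560_4640_4800_s0) (by decide) (by decide)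
    (CellR2.fin c16000_6400_6560_4640_4800_f)

theorem c16000_6400_6560_4800_4960 : Cell2 16000 6400 6560 4800 4960 :=
  CellR2.step (Good.chk c16000_6400_6560_4800_4960_s0) (by decide) (by decide)
    (CellR2.fin c16000_6400_6560_4800_4960_f)

theorem c16000_6400_6560_4960_5120 : Cell2 16000 6400 6560 4960 5120 :=
  CellR2.step (Good.chk c16000_6400_6560_4960_5120_s0) (by decide) (by decide)
    (CellR2.fin c16000_6400_6560_4960_5120_f)

theorem c16000_6400_6560_5120_5280 : Cell2 16000 6400 6560 5120 5280 :=
  CellR2.step (Good.chk c16000_6400_6560_5120_5280_s0) (by decide) (by decide)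
    (CellR2.fin c16000_6400_6560_5120_5280_f)

theorem c16000_6400_6560_5280_5440 : Cell2 16000 6400 6560 5280 5440 :=
  CellR2.step (Good.chk c16000_6400_6560_5280_5440_s0) (by decide) (by decide)
    (CellR2.fin c16000_6400_6560_5280_5440_f)

theorem c16000_6400_6560_5440_5600 : Cell2 16000 6400 6560 5440 5600 :=
  CellR2.step (Good.chk c16000_6400_6560_5440_5600_s0) (by decide) (by decide)
    (CellR2.step (Good.chk c16000_6400_6560_5440_5600_s1) (by decide) (by decide)
    (CellR2.fin c16000_6400_6560_5440_5600_f))

theorem c16000_6400_6560_5600_5760 : Cell2 16000 6400 6560 5600 5760 :=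
  CellR2.step (Good.chk c16000_6400_6560_5600_5760_s0) (by decide) (by decide)
    (CellR2.step (Good.chk c16000_6400_6560_5600_5760_s1) (by decide) (by decide)
    (CellR2.step (Good.chk c16000_6400_6560_5600_5760_s2) (by decide) (by decide)
    (CellR2.step (Good.chk c16000_6400_6560_5600_5760_s3) (by decide) (by decide)
    (CellR2.fin c16000_6400_6560_5600_5760_f))))

theorem c16000_6400_6560_5760_5920 : Cell2 16000 6400 6560 5760 5920 :=
  CellR2.step (Good.chk c16000_6400_6560_5760_5920_s0) (by decide) (by decide)
    (CellR2.step (Good.chk c16000_6400_6560_5760_5920_s1) (by decide) (by decide)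
    (CellR2.step (Good.chk c16000_6400_6560_5760_5920_s2) (by decide) (by decide)
    (CellR2.fin c16000_6400_6560_5760_5920_f)))

theorem c16000_6400_6560_5920_6080 : Cell2 16000 6400 6560 5920 6080 :=
  CellR2.step (Good.chk c16000_6400_6560_5920_6080_s0) (by decide) (by decide)
    (CellR2.step (Good.chk c16000_6400_6560_5920_6080_s1) (by decide) (by decide)
    (CellR2.step (Good.chk c16000_6400_6560_5920_6080_s2) (by decide) (by decide)
    (CellR2.step (Good.chk c16000_6400_6560_5920_6080_s3) (by decide) (by decide)
    (CellR2.fin c16000_6400_6560_5920_6080_f))))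

theorem c16000_6400_6560_6080_6240 : Cell2 16000 6400 6560 6080 6240 :=
  CellR2.step (Good.chk c16000_6400_6560_6080_6240_s0) (by decide) (by decide)
    (CellR2.step (Good.chk c16000_6400_6560_6080_6240_s1) (by decide) (by decide)
    (CellR2.step (Good.chk c16000_6400_6560_6080_6240_s2) (by decide) (by decide)
    (CellR2.step (Good.chk c16000_6400_6560_6080_6240_s3) (by decide) (by decide)
    (CellR2.step (Good.chk c16000_6400_6560_6080_6240_s4) (by decide) (by decide)
    (CellR2.step (Good.chk c16000_6400_6560_6080_6240_s5) (by decide) (by decide)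
    (CellR2.step (Good.chk c16000_6400_6560_6080_6240_s6) (by decide) (by decide)
    (CellR2.step (Good.chk c16000_6400_6560_6080_6240_s7) (by decide) (by decide)
    (CellR2.step (Good.chk c16000_6400_6560_6080_6240_s8) (by decide) (by decide)
    (CellR2.fin c16000_6400_6560_6080_6240_f)))))))))

theorem c16000_6400_6480_6240_6320 : Cell2 16000 6400 6480 6240 6320 :=
  CellR2.step (Good.chk c16000_6400_6480_6240_6320_s0) (by decide) (by decide)
    (CellR2.step (Good.chk c16000_6400_6480_6240_6320_s1) (by decide) (by decide)
    (CellR2.step (Good.chk c16000_6400_6480_6240_6320_s2) (by decide) (by decide)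
    (CellR2.fin c16000_6400_6480_6240_6320_f)))

theorem c16000_6400_6480_6320_6400 : Cell2 16000 6400 6480 6320 6400 :=
  CellR2.step (Good.chk c16000_6400_6480_6320_6400_s0) (by decide) (by decide)
    (CellR2.step (Good.chk c16000_6400_6480_6320_6400_s1) (by decide) (by decide)
    (CellR2.fin c16000_6400_6480_6320_6400_f))

theorem c16000_6400_6560_6400_6560 : Cell2 16000 6400 6560 6400 6560 :=
  CellR2.step (Good.chk c16000_6400_6560_6400_6560_s0) (by decide) (by decide)
    (CellR2.step (Good.chk c16000_6400_6560_6400_6560_s1) (by decide) (by decide)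
    (CellR2.step (Good.chk c16000_6400_6560_6400_6560_s2) (by decide) (by decide)
    (CellR2.fin c16000_6400_6560_6400_6560_f)))

theorem c16000_6480_6560_6240_6320 : Cell2 16000 6480 6560 6240 6320 :=
  CellR2.step (Good.chk c16000_6480_6560_6240_6320_s0) (by decide) (by decide)
    (CellR2.step (Good.chk c16000_6480_6560_6240_6320_s1) (by decide) (by decide)
    (CellR2.step (Good.chk c16000_6480_6560_6240_6320_s2) (by decide) (by decide)
    (CellR2.step (Good.chk c16000_6480_6560_6240_6320_s3) (by decide) (by decide)
    (CellR2.fin c16000_6480_6560_6240_6320_f))))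

theorem c16000_6480_6560_6320_6400 : Cell2 16000 6480 6560 6320 6400 :=
  CellR2.step (Good.chk c16000_6480_6560_6320_6400_s0) (by decide) (by decide)
    (CellR2.step (Good.chk c16000_6480_6560_6320_6400_s1) (by decide) (by decide)
    (CellR2.step (Good.chk c16000_6480_6560_6320_6400_s2) (by decide) (by decide)
    (CellR2.step (Good.chk c16000_6480_6560_6320_6400_s3) (by decide) (by decide)
    (CellR2.step (Good.chk c16000_6480_6560_6320_6400_s4) (by decide) (by decide)
    (CellR2.fin c16000_6480_6560_6320_6400_f)))))

theorem c16000_6560_6720_4000_4640 : Cell2 16000 6560 6720 4000 4640 :=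
  CellR2.fin c16000_6560_6720_4000_4640_f

theorem c16000_6560_6720_4640_4800 : Cell2 16000 6560 6720 4640 4800 :=
  CellR2.fin c16000_6560_6720_4640_4800_f

theorem c16000_6560_6720_4800_4960 : Cell2 16000 6560 6720 4800 4960 :=
  CellR2.step (Good.chk c16000_6560_6720_4800_4960_s0) (by decide) (by decide)
    (CellR2.fin c16000_6560_6720_4800_4960_f)

theorem c16000_6560_6720_4960_5120 : Cell2 16000 6560 6720 4960 5120 :=
  CellR2.step (Good.chk c16000_6560_6720_4960_5120_s0) (by decide) (by decide)
    (CellR2.fin c16000_6560_6720_4960_5120_f)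

theorem c16000_6560_6720_5120_5280 : Cell2 16000 6560 6720 5120 5280 :=
  CellR2.step (Good.chk c16000_6560_6720_5120_5280_s0) (by decide) (by decide)
    (CellR2.fin c16000_6560_6720_5120_5280_f)

theorem c16000_6560_6720_5280_5440 : Cell2 16000 6560 6720 5280 5440 :=
  CellR2.step (Good.chk c16000_6560_6720_5280_5440_s0) (by decide) (by decide)
    (CellR2.fin c16000_6560_6720_5280_5440_f)

theorem c16000_6560_6720_5440_5600 : Cell2 16000 6560 6720 5440 5600 :=
  CellR2.step (Good.chk c16000_6560_6720_5440_5600_s0) (by decide) (by decide)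
    (CellR2.step (Good.chk c16000_6560_6720_5440_5600_s1) (by decide) (by decide)
    (CellR2.fin c16000_6560_6720_5440_5600_f))

theorem c16000_6560_6720_5600_5760 : Cell2 16000 6560 6720 5600 5760 :=
  CellR2.step (Good.chk c16000_6560_6720_5600_5760_s0) (by decide) (by decide)
    (CellR2.step (Good.chk c16000_6560_6720_5600_5760_s1) (by decide) (by decide)
    (CellR2.fin c16000_6560_6720_5600_5760_f))

theorem c16000_6560_6720_5760_5920 : Cell2 16000 6560 6720 5760 5920 :=
  CellR2.step (Good.chk c16000_6560_6720_5760_5920_s0) (by decide) (by decide)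
    (CellR2.step (Good.chk c16000_6560_6720_5760_5920_s1) (by decide) (by decide)
    (CellR2.step (Good.chk c16000_6560_6720_5760_5920_s2) (by decide) (by decide)
    (CellR2.step (Good.chk c16000_6560_6720_5760_5920_s3) (by decide) (by decide)
    (CellR2.step (Good.chk c16000_6560_6720_5760_5920_s4) (by decide) (by decide)
    (CellR2.step (Good.chk c16000_6560_6720_5760_5920_s5) (by decide) (by decide)
    (CellR2.step (Good.chk c16000_6560_6720_5760_5920_s6) (by decide) (by decide)
    (CellR2.step (Good.chk c16000_6560_6720_5760_5920_s7) (by decide) (by decide)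
    (CellR2.step (Good.chk c16000_6560_6720_5760_5920_s8) (by decide) (by decide)
    (CellR2.fin c16000_6560_6720_5760_5920_f)))))))))

theorem c16000_6560_6640_5920_6000 : Cell2 16000 6560 6640 5920 6000 :=
  CellR2.step (Good.chk c16000_6560_6640_5920_6000_s0) (by decide) (by decide)
    (CellR2.step (Good.chk c16000_6560_6640_5920_6000_s1) (by decide) (by decide)
    (CellR2.step (Good.chk c16000_6560_6640_5920_6000_s2) (by decide) (by decide)
    (CellR2.step (Good.chk c16000_6560_6640_5920_6000_s3) (by decide) (by decide)
    (CellR2.fin c16000_6560_6640_5920_6000_f))))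

theorem c16000_6560_6640_6000_6080 : Cell2 16000 6560 6640 6000 6080 :=
  CellR2.step (Good.chk c16000_6560_6640_6000_6080_s0) (by decide) (by decide)
    (CellR2.step (Good.chk c16000_6560_6640_6000_6080_s1) (by decide) (by decide)
    (CellR2.step (Good.chk c16000_6560_6640_6000_6080_s2) (by decide) (by decide)
    (CellR2.step (Good.chk c16000_6560_6640_6000_6080_s3) (by decide) (by decide)
    (CellR2.step (Good.chk c16000_6560_6640_6000_6080_s4) (by decide) (by decide)
    (CellR2.step (Good.chk c16000_6560_6640_6000_6080_s5) (by decide) (by decide)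
    (CellR2.fin c16000_6560_6640_6000_6080_f))))))

theorem c16000_6560_6640_6080_6160 : Cell2 16000 6560 6640 6080 6160 :=
  CellR2.step (Good.chk c16000_6560_6640_6080_6160_s0) (by decide) (by decide)
    (CellR2.step (Good.chk c16000_6560_6640_6080_6160_s1) (by decide) (by decide)
    (CellR2.step (Good.chk c16000_6560_6640_6080_6160_s2) (by decide) (by decide)
    (CellR2.step (Good.chk c16000_6560_6640_6080_6160_s3) (by decide) (by decide)
    (CellR2.step (Good.chk c16000_6560_6640_6080_6160_s4) (by decide) (by decide)
    (CellR2.step (Good.chk c16000_6560_6640_6080_6160_s5) (by decide) (by decide)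
    (CellR2.step (Good.chk c16000_6560_6640_6080_6160_s6) (by decide) (by decide)
    (CellR2.step (Good.chk c16000_6560_6640_6080_6160_s7) (by decide) (by decide)
    (CellR2.step (Good.chk c16000_6560_6640_6080_6160_s8) (by decide) (by decide)
    (CellR2.step (Good.chk c16000_6560_6640_6080_6160_s9) (by decide) (by decide)
    (CellR2.step (Good.chk c16000_6560_6640_6080_6160_s10) (by decide) (by decide)
    (CellR2.step (Good.chk c16000_6560_6640_6080_6160_s11) (by decide) (by decide)
    (CellR2.fin c16000_6560_6640_6080_6160_f))))))))))))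

theorem c16000_6560_6640_6160_6240 : Cell2 16000 6560 6640 6160 6240 :=
  CellR2.step (Good.chk c16000_6560_6640_6160_6240_s0) (by decide) (by decide)
    (CellR2.step (Good.chk c16000_6560_6640_6160_6240_s1) (by decide) (by decide)
    (CellR2.step (Good.chk c16000_6560_6640_6160_6240_s2) (by decide) (by decide)
    (CellR2.step (Good.chk c16000_6560_6640_6160_6240_s3) (by decide) (by decide)
    (CellR2.step (Good.chk c16000_6560_6640_6160_6240_s4) (by decide) (by decide)
    (CellR2.step (Good.chk c16000_6560_6640_6160_6240_s5) (by decide) (by decide)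
    (CellR2.step (Good.chk c16000_6560_6640_6160_6240_s6) (by decide) (by decide)
    (CellR2.step (Good.chk c16000_6560_6640_6160_6240_s7) (by decide) (by decide)
    (CellR2.step (Good.chk c16000_6560_6640_6160_6240_s8) (by decide) (by decide)
    (CellR2.step (Good.chk c16000_6560_6640_6160_6240_s9) (by decide) (by decide)
    (CellR2.step (Good.chk c16000_6560_6640_6160_6240_s10) (by decide) (by decide)
    (CellR2.step (Good.chk c16000_6560_6640_6160_6240_s11) (by decide) (by decide)
    (CellR2.step (Good.chk c16000_6560_6640_6160_6240_s12) (by decide) (by decide)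
    (CellR2.step (Good.chk c16000_6560_6640_6160_6240_s13) (by decide) (by decide)
    (CellR2.step (Good.chk c16000_6560_6640_6160_6240_s14) (by decide) (by decide)
    (CellR2.step (Good.chk c16000_6560_6640_6160_6240_s15) (by decide) (by decide)
    (CellR2.step (Good.chk c16000_6560_6640_6160_6240_s16) (by decide) (by decide)
    (CellR2.step (Good.chk c16000_6560_6640_6160_6240_s17) (by decide) (by decide)
    (CellR2.fin c16000_6560_6640_6160_6240_f))))))))))))))))))

theorem c16000_6560_6640_6240_6320 : Cell2 16000 6560 6640 6240 6320 :=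
  CellR2.step (Good.chk c16000_6560_6640_6240_6320_s0) (by decide) (by decide)
    (CellR2.step (Good.chk c16000_6560_6640_6240_6320_s1) (by decide) (by decide)
    (CellR2.step (Good.chk c16000_6560_6640_6240_6320_s2) (by decide) (by decide)
    (CellR2.step (Good.chk c16000_6560_6640_6240_6320_s3) (by decide) (by decide)
    (CellR2.step (Good.chk c16000_6560_6640_6240_6320_s4) (by decide) (by decide)
    (CellR2.step (Good.chk c16000_6560_6640_6240_6320_s5) (by decide) (by decide)
    (CellR2.step (Good.chk c16000_6560_6640_6240_6320_s6) (by decide) (by decide)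
    (CellR2.step (Good.chk c16000_6560_6640_6240_6320_s7) (by decide) (by decide)
    (CellR2.step (Good.chk c16000_6560_6640_6240_6320_s8) (by decide) (by decide)
    (CellR2.step (Good.chk c16000_6560_6640_6240_6320_s9) (by decide) (by decide)
    (CellR2.step (Good.chk c16000_6560_6640_6240_6320_s10) (by decide) (by decide)
    (CellR2.step (Good.chk c16000_6560_6640_6240_6320_s11) (by decide) (by decide)
    (CellR2.step (Good.chk c16000_6560_6640_6240_6320_s12) (by decide) (by decide)
    (CellR2.step (Good.chk c16000_6560_6640_6240_6320_s13) (by decide) (by decide)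
    (CellR2.step (Good.chk c16000_6560_6640_6240_6320_s14) (by decide) (by decide)
    (CellR2.fin c16000_6560_6640_6240_6320_f)))))))))))))))

theorem c16000_6560_6640_6320_6400 : Cell2 16000 6560 6640 6320 6400 :=
  CellR2.step (Good.chk c16000_6560_6640_6320_6400_s0) (by decide) (by decide)
    (CellR2.step (Good.chk c16000_6560_6640_6320_6400_s1) (by decide) (by decide)
    (CellR2.step (Good.chk c16000_6560_6640_6320_6400_s2) (by decide) (by decide)
    (CellR2.step (Good.chk c16000_6560_6640_6320_6400_s3) (by decide) (by decide)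
    (CellR2.step (Good.chk c16000_6560_6640_6320_6400_s4) (by decide) (by decide)
    (CellR2.step (Good.chk c16000_6560_6640_6320_6400_s5) (by decide) (by decide)
    (CellR2.step (Good.chk c16000_6560_6640_6320_6400_s6) (by decide) (by decide)
    (CellR2.step (Good.chk c16000_6560_6640_6320_6400_s7) (by decide) (by decide)
    (CellR2.step (Good.chk c16000_6560_6640_6320_6400_s8) (by decide) (by decide)
    (CellR2.step (Good.chk c16000_6560_6640_6320_6400_s9) (by decide) (by decide)
    (CellR2.fin c16000_6560_6640_6320_6400_f))))))))))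

theorem c16000_6560_6640_6400_6480 : Cell2 16000 6560 6640 6400 6480 :=
  CellR2.step (Good.chk c16000_6560_6640_6400_6480_s0) (by decide) (by decide)
    (CellR2.step (Good.chk c16000_6560_6640_6400_6480_s1) (by decide) (by decide)
    (CellR2.step (Good.chk c16000_6560_6640_6400_6480_s2) (by decide) (by decide)
    (CellR2.step (Good.chk c16000_6560_6640_6400_6480_s3) (by decide) (by decide)
    (CellR2.step (Good.chk c16000_6560_6640_6400_6480_s4) (by decide) (by decide)
    (CellR2.step (Good.chk c16000_6560_6640_6400_6480_s5) (by decide) (by decide)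
    (CellR2.fin c16000_6560_6640_6400_6480_f))))))

theorem c16000_6560_6640_6480_6560 : Cell2 16000 6560 6640 6480 6560 :=
  CellR2.step (Good.chk c16000_6560_6640_6480_6560_s0) (by decide) (by decide)
    (CellR2.step (Good.chk c16000_6560_6640_6480_6560_s1) (by decide) (by decide)
    (CellR2.step (Good.chk c16000_6560_6640_6480_6560_s2) (by decide) (by decide)
    (CellR2.fin c16000_6560_6640_6480_6560_f)))

theorem c16000_6560_6720_6560_6720 : Cell2 16000 6560 6720 6560 6720 :=
  CellR2.step (Good.chk c16000_6560_6720_6560_6720_s0) (by decide) (by decide)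
    (CellR2.step (Good.chk c16000_6560_6720_6560_6720_s1) (by decide) (by decide)
    (CellR2.step (Good.chk c16000_6560_6720_6560_6720_s2) (by decide) (by decide)
    (CellR2.step (Good.chk c16000_6560_6720_6560_6720_s3) (by decide) (by decide)
    (CellR2.step (Good.chk c16000_6560_6720_6560_6720_s4) (by decide) (by decide)
    (CellR2.fin c16000_6560_6720_6560_6720_f)))))

theorem c16000_6640_6720_5920_6000 : Cell2 16000 6640 6720 5920 6000 :=
  CellR2.step (Good.chk c16000_6640_6720_5920_6000_s0) (by decide) (by decide)
    (CellR2.step (Good.chk c16000_6640_6720_5920_6000_s1) (by decide) (by decide)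
    (CellR2.step (Good.chk c16000_6640_6720_5920_6000_s2) (by decide) (by decide)
    (CellR2.step (Good.chk c16000_6640_6720_5920_6000_s3) (by decide) (by decide)
    (CellR2.step (Good.chk c16000_6640_6720_5920_6000_s4) (by decide) (by decide)
    (CellR2.step (Good.chk c16000_6640_6720_5920_6000_s5) (by decide) (by decide)
    (CellR2.step (Good.chk c16000_6640_6720_5920_6000_s6) (by decide) (by decide)
    (CellR2.step (Good.chk c16000_6640_6720_5920_6000_s7) (by decide) (by decide)
    (CellR2.fin c16000_6640_6720_5920_6000_f))))))))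

theorem c16000_6640_6720_6000_6080 : Cell2 16000 6640 6720 6000 6080 :=
  CellR2.step (Good.chk c16000_6640_6720_6000_6080_s0) (by decide) (by decide)
    (CellR2.step (Good.chk c16000_6640_6720_6000_6080_s1) (by decide) (by decide)
    (CellR2.step (Good.chk c16000_6640_6720_6000_6080_s2) (by decide) (by decide)
    (CellR2.step (Good.chk c16000_6640_6720_6000_6080_s3) (by decide) (by decide)
    (CellR2.step (Good.chk c16000_6640_6720_6000_6080_s4) (by decide) (by decide)
    (CellR2.step (Good.chk c16000_6640_6720_6000_6080_s5) (by decide) (by decide)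
    (CellR2.step (Good.chk c16000_6640_6720_6000_6080_s6) (by decide) (by decide)
    (CellR2.step (Good.chk c16000_6640_6720_6000_6080_s7) (by decide) (by decide)
    (CellR2.step (Good.chk c16000_6640_6720_6000_6080_s8) (by decide) (by decide)
    (CellR2.step (Good.chk c16000_6640_6720_6000_6080_s9) (by decide) (by decide)
    (CellR2.step (Good.chk c16000_6640_6720_6000_6080_s10) (by decide) (by decide)
    (CellR2.step (Good.chk c16000_6640_6720_6000_6080_s11) (by decide) (by decide)
    (CellR2.step (Good.chk c16000_6640_6720_6000_6080_s12) (by decide) (by decide)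
    (CellR2.fin c16000_6640_6720_6000_6080_f)))))))))))))

theorem c16000_6640_6720_6080_6160 : Cell2 16000 6640 6720 6080 6160 :=
  CellR2.step (Good.chk c16000_6640_6720_6080_6160_s0) (by decide) (by decide)
    (CellR2.step (Good.chk c16000_6640_6720_6080_6160_s1) (by decide) (by decide)
    (CellR2.step (Good.chk c16000_6640_6720_6080_6160_s2) (by decide) (by decide)
    (CellR2.step (Good.chk c16000_6640_6720_6080_6160_s3) (by decide) (by decide)
    (CellR2.step (Good.chk c16000_6640_6720_6080_6160_s4) (by decide) (by decide)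
    (CellR2.step (Good.chk c16000_6640_6720_6080_6160_s5) (by decide) (by decide)
    (CellR2.step (Good.chk c16000_6640_6720_6080_6160_s6) (by decide) (by decide)
    (CellR2.step (Good.chk c16000_6640_6720_6080_6160_s7) (by decide) (by decide)
    (CellR2.step (Good.chk c16000_6640_6720_6080_6160_s8) (by decide) (by decide)
    (CellR2.step (Good.chk c16000_6640_6720_6080_6160_s9) (by decide) (by decide)
    (CellR2.step (Good.chk c16000_6640_6720_6080_6160_s10) (by decide) (by decide)
    (CellR2.step (Good.chk c16000_6640_6720_6080_6160_s11) (by decide) (by decide)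
    (CellR2.fin c16000_6640_6720_6080_6160_f))))))))))))

theorem c16000_6640_6720_6160_6240 : Cell2 16000 6640 6720 6160 6240 :=
  CellR2.step (Good.chk c16000_6640_6720_6160_6240_s0) (by decide) (by decide)
    (CellR2.step (Good.chk c16000_6640_6720_6160_6240_s1) (by decide) (by decide)
    (CellR2.step (Good.chk c16000_6640_6720_6160_6240_s2) (by decide) (by decide)
    (CellR2.step (Good.chk c16000_6640_6720_6160_6240_s3) (by decide) (by decide)
    (CellR2.step (Good.chk c16000_6640_6720_6160_6240_s4) (by decide) (by decide)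
    (CellR2.step (Good.chk c16000_6640_6720_6160_6240_s5) (by decide) (by decide)
    (CellR2.step (Good.chk c16000_6640_6720_6160_6240_s6) (by decide) (by decide)
    (CellR2.step (Good.chk c16000_6640_6720_6160_6240_s7) (by decide) (by decide)
    (CellR2.step (Good.chk c16000_6640_6720_6160_6240_s8) (by decide) (by decide)
    (CellR2.step (Good.chk c16000_6640_6720_6160_6240_s9) (by decide) (by decide)
    (CellR2.step (Good.chk c16000_6640_6720_6160_6240_s10) (by decide) (by decide)
    (CellR2.step (Good.chk c16000_6640_6720_6160_6240_s11) (by decide) (by decide)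
    (CellR2.fin c16000_6640_6720_6160_6240_f))))))))))))

theorem c16000_6640_6720_6240_6320 : Cell2 16000 6640 6720 6240 6320 :=
  CellR2.step (Good.chk c16000_6640_6720_6240_6320_s0) (by decide) (by decide)
    (CellR2.step (Good.chk c16000_6640_6720_6240_6320_s1) (by decide) (by decide)
    (CellR2.step (Good.chk c16000_6640_6720_6240_6320_s2) (by decide) (by decide)
    (CellR2.step (Good.chk c16000_6640_6720_6240_6320_s3) (by decide) (by decide)
    (CellR2.step (Good.chk c16000_6640_6720_6240_6320_s4) (by decide) (by decide)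
    (CellR2.step (Good.chk c16000_6640_6720_6240_6320_s5) (by decide) (by decide)
    (CellR2.step (Good.chk c16000_6640_6720_6240_6320_s6) (by decide) (by decide)
    (CellR2.step (Good.chk c16000_6640_6720_6240_6320_s7) (by decide) (by decide)
    (CellR2.step (Good.chk c16000_6640_6720_6240_6320_s8) (by decide) (by decide)
    (CellR2.step (Good.chk c16000_6640_6720_6240_6320_s9) (by decide) (by decide)
    (CellR2.step (Good.chk c16000_6640_6720_6240_6320_s10) (by decide) (by decide)
    (CellR2.step (Good.chk c16000_6640_6720_6240_6320_s11) (by decide) (by decide)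
    (CellR2.step (Good.chk c16000_6640_6720_6240_6320_s12) (by decide) (by decide)
    (CellR2.step (Good.chk c16000_6640_6720_6240_6320_s13) (by decide) (by decide)
    (CellR2.step (Good.chk c16000_6640_6720_6240_6320_s14) (by decide) (by decide)
    (CellR2.step (Good.chk c16000_6640_6720_6240_6320_s15) (by decide) (by decide)
    (CellR2.step (Good.chk c16000_6640_6720_6240_6320_s16) (by decide) (by decide)
    (CellR2.step (Good.chk c16000_6640_6720_6240_6320_s17) (by decide) (by decide)
    (CellR2.fin c16000_6640_6720_6240_6320_f))))))))))))))))))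

theorem c16000_6640_6720_6320_6400 : Cell2 16000 6640 6720 6320 6400 :=
  CellR2.step (Good.chk c16000_6640_6720_6320_6400_s0) (by decide) (by decide)
    (CellR2.step (Good.chk c16000_6640_6720_6320_6400_s1) (by decide) (by decide)
    (CellR2.step (Good.chk c16000_6640_6720_6320_6400_s2) (by decide) (by decide)
    (CellR2.step (Good.chk c16000_6640_6720_6320_6400_s3) (by decide) (by decide)
    (CellR2.step (Good.chk c16000_6640_6720_6320_6400_s4) (by decide) (by decide)
    (CellR2.step (Good.chk c16000_6640_6720_6320_6400_s5) (by decide) (by decide)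
    (CellR2.step (Good.chk c16000_6640_6720_6320_6400_s6) (by decide) (by decide)
    (CellR2.step (Good.chk c16000_6640_6720_6320_6400_s7) (by decide) (by decide)
    (CellR2.step (Good.chk c16000_6640_6720_6320_6400_s8) (by decide) (by decide)
    (CellR2.step (Good.chk c16000_6640_6720_6320_6400_s9) (by decide) (by decide)
    (CellR2.step (Good.chk c16000_6640_6720_6320_6400_s10) (by decide) (by decide)
    (CellR2.step (Good.chk c16000_6640_6720_6320_6400_s11) (by decide) (by decide)
    (CellR2.step (Good.chk c16000_6640_6720_6320_6400_s12) (by decide) (by decide)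
    (CellR2.step (Good.chk c16000_6640_6720_6320_6400_s13) (by decide) (by decide)
    (CellR2.step (Good.chk c16000_6640_6720_6320_6400_s14) (by decide) (by decide)
    (CellR2.step (Good.chk c16000_6640_6720_6320_6400_s15) (by decide) (by decide)
    (CellR2.step (Good.chk c16000_6640_6720_6320_6400_s16) (by decide) (by decide)
    (CellR2.step (Good.chk c16000_6640_6720_6320_6400_s17) (by decide) (by decide)
    (CellR2.fin c16000_6640_6720_6320_6400_f))))))))))))))))))

theorem c16000_6640_6720_6400_6480 : Cell2 16000 6640 6720 6400 6480 :=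
  CellR2.step (Good.chk c16000_6640_6720_6400_6480_s0) (by decide) (by decide)
    (CellR2.step (Good.chk c16000_6640_6720_6400_6480_s1) (by decide) (by decide)
    (CellR2.step (Good.chk c16000_6640_6720_6400_6480_s2) (by decide) (by decide)
    (CellR2.step (Good.chk c16000_6640_6720_6400_6480_s3) (by decide) (by decide)
    (CellR2.step (Good.chk c16000_6640_6720_6400_6480_s4) (by decide) (by decide)
    (CellR2.step (Good.chk c16000_6640_6720_6400_6480_s5) (by decide) (by decide)
    (CellR2.step (Good.chk c16000_6640_6720_6400_6480_s6) (by decide) (by decide)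
    (CellR2.step (Good.chk c16000_6640_6720_6400_6480_s7) (by decide) (by decide)
    (CellR2.step (Good.chk c16000_6640_6720_6400_6480_s8) (by decide) (by decide)
    (CellR2.step (Good.chk c16000_6640_6720_6400_6480_s9) (by decide) (by decide)
    (CellR2.step (Good.chk c16000_6640_6720_6400_6480_s10) (by decide) (by decide)
    (CellR2.step (Good.chk c16000_6640_6720_6400_6480_s11) (by decide) (by decide)
    (CellR2.step (Good.chk c16000_6640_6720_6400_6480_s12) (by decide) (by decide)
    (CellR2.step (Good.chk c16000_6640_6720_6400_6480_s13) (by decide) (by decide)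
    (CellR2.step (Good.chk c16000_6640_6720_6400_6480_s14) (by decide) (by decide)
    (CellR2.fin c16000_6640_6720_6400_6480_f)))))))))))))))

theorem c16000_6640_6720_6480_6560 : Cell2 16000 6640 6720 6480 6560 :=
  CellR2.step (Good.chk c16000_6640_6720_6480_6560_s0) (by decide) (by decide)
    (CellR2.step (Good.chk c16000_6640_6720_6480_6560_s1) (by decide) (by decide)
    (CellR2.step (Good.chk c16000_6640_6720_6480_6560_s2) (by decide) (by decide)
    (CellR2.step (Good.chk c16000_6640_6720_6480_6560_s3) (by decide) (by decide)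
    (CellR2.step (Good.chk c16000_6640_6720_6480_6560_s4) (by decide) (by decide)
    (CellR2.step (Good.chk c16000_6640_6720_6480_6560_s5) (by decide) (by decide)
    (CellR2.step (Good.chk c16000_6640_6720_6480_6560_s6) (by decide) (by decide)
    (CellR2.step (Good.chk c16000_6640_6720_6480_6560_s7) (by decide) (by decide)
    (CellR2.step (Good.chk c16000_6640_6720_6480_6560_s8) (by decide) (by decide)
    (CellR2.step (Good.chk c16000_6640_6720_6480_6560_s9) (by decide) (by decide)
    (CellR2.step (Good.chk c16000_6640_6720_6480_6560_s10) (by decide) (by decide)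
    (CellR2.fin c16000_6640_6720_6480_6560_f)))))))))))

theorem c16000_6720_6880_4000_4640 : Cell2 16000 6720 6880 4000 4640 :=
  CellR2.fin c16000_6720_6880_4000_4640_f

theorem c16000_6720_6880_4640_4800 : Cell2 16000 6720 6880 4640 4800 :=
  CellR2.fin c16000_6720_6880_4640_4800_f

theorem c16000_6720_6880_4800_4960 : Cell2 16000 6720 6880 4800 4960 :=
  CellR2.step (Good.chk c16000_6720_6880_4800_4960_s0) (by decide) (by decide)
    (CellR2.fin c16000_6720_6880_4800_4960_f)

end Pool.Agent.Helper5.B54
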