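import Pool.Agent.Helper5.B54v2.Cell2
import Pool.Agent.Helper5.B54v2.T.A149
import Pool.Agent.Helper5.B54v2.T.A150
import Pool.Agent.Helper5.B54v2.T.A151
import Pool.Agent.Helper5.B54v2.T.A152
import Pool.Agent.Helper5.B54v2.T.A153
import Pool.Agent.Helper5.B54v2.T.A154
import Pool.Agent.Helper5.B54v2.T.A155
import Pool.Agent.Helper5.B54v2.T.A156
import Pool.Agent.Helper5.B54v2.T.A157
import Pool.Agent.Helper5.B54v2.T.A158
import Pool.Agent.Helper5.B54v2.T.A159
import Pool.Agent.Helper5.B54v2.T.A160
import Pool.Agent.Helper5.B54v2.T.A161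
import Pool.Agent.Helper5.B54v2.T.A162
import Pool.Agent.Helper5.B54v2.T.A163
import Pool.Agent.Helper5.B54v2.T.A164
import Pool.Agent.Helper5.B54v2.T.A165
import Pool.Agent.Helper5.B54v2.T.A166
import Pool.Agent.Helper5.B54v2.T.A167
import Pool.Agent.Helper5.B54v2.T.A168
import Pool.Agent.Helper5.B54v2.T.A169
import Pool.Agent.Helper5.B54v2.T.A170
import Pool.Agent.Helper5.B54v2.T.A171
import Pool.Agent.Helper5.B54v2.T.A172
import Pool.Agent.Helper5.B54v2.T.A173
import Pool.Agent.Helper5.B54v2.T.A174
import Pool.Agent.Helper5.B54v2.T.A175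
import Pool.Agent.Helper5.B54v2.T.A176
import Pool.Agent.Helper5.B54v2.T.A177
import Pool.Agent.Helper5.B54v2.T.A178
import Pool.Agent.Helper5.B54v2.T.A179
import Pool.Agent.Helper5.B54v2.T.A180
import Pool.Agent.Helper5.B54v2.T.A181
import Pool.Agent.Helper5.B54v2.T.A182
import Pool.Agent.Helper5.B54v2.T.A183
import Pool.Agent.Helper5.B54v2.T.A184
import Pool.Agent.Helper5.B54v2.T.A185
import Pool.Agent.Helper5.B54v2.T.A186
import Pool.Agent.Helper5.B54v2.T.A187
import Pool.Agent.Helper5.B54v2.T.A188
import Pool.Agent.Helper5.B54v2.T.A189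
import Pool.Agent.Helper5.B54v2.T.A190
import Pool.Agent.Helper5.B54v2.T.A191
import Pool.Agent.Helper5.B54v2.T.A192
import Pool.Agent.Helper5.B54v2.T.A193
import Pool.Agent.Helper5.B54v2.T.A194
import Pool.Agent.Helper5.B54v2.T.A195
import Pool.Agent.Helper5.B54v2.T.A196
import Pool.Agent.Helper5.B54v2.T.A197
import Pool.Agent.Helper5.B54v2.T.A198
import Pool.Agent.Helper5.B54v2.T.A199
import Pool.Agent.Helper5.B54v2.T.A200
import Pool.Agent.Helper5.B54v2.T.A201
import Pool.Agent.Helper5.B54v2.T.A202
import Pool.Agent.Helper5.B54v2.T.A203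
import Pool.Agent.Helper5.B54v2.T.A204
import Pool.Agent.Helper5.B54v2.T.A205
import Pool.Agent.Helper5.B54v2.T.A206
import Pool.Agent.Helper5.B54v2.T.A207
import Pool.Agent.Helper5.B54v2.T.A208
import Pool.Agent.Helper5.B54v2.T.A209
import Pool.Agent.Helper5.B54v2.T.A210
import Pool.Agent.Helper5.B54v2.T.A211
import Pool.Agent.Helper5.B54v2.T.A212
import Pool.Agent.Helper5.B54v2.T.A213
import Pool.Agent.Helper5.B54v2.T.A214
import Pool.Agent.Helper5.B54v2.T.A215
import Pool.Agent.Helper5.B54v2.T.A216
import Pool.Agent.Helper5.B54v2.T.A217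
import Pool.Agent.Helper5.B54v2.T.A218
import Pool.Agent.Helper5.B54v2.T.A219
import Pool.Agent.Helper5.B54v2.T.A220
import Pool.Agent.Helper5.B54v2.T.A221
import Pool.Agent.Helper5.B54v2.T.A222
import Pool.Agent.Helper5.B54v2.T.A223
import Pool.Agent.Helper5.B54v2.T.A224
import Pool.Agent.Helper5.B54v2.T.A225
import Pool.Agent.Helper5.B54v2.T.A226
import Pool.Agent.Helper5.B54v2.T.A227
import Pool.Agent.Helper5.B54v2.T.A228
import Pool.Agent.Helper5.B54v2.T.A229
import Pool.Agent.Helper5.B54v2.T.A230
import Pool.Agent.Helper5.B54v2.T.A231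
import Pool.Agent.Helper5.B54v2.T.A232
import Pool.Agent.Helper5.B54v2.T.A233
import Pool.Agent.Helper5.B54v2.T.A234
import Pool.Agent.Helper5.B54v2.T.A235
import Pool.Agent.Helper5.B54v2.T.A236
import Pool.Agent.Helper5.B54v2.T.A237
import Pool.Agent.Helper5.B54v2.T.A238
import Pool.Agent.Helper5.B54v2.T.A239
import Pool.Agent.Helper5.B54v2.T.A240
import Pool.Agent.Helper5.B54v2.T.A241
import Pool.Agent.Helper5.B54v2.T.A242
import Pool.Agent.Helper5.B54v2.T.A243
import Pool.Agent.Helper5.B54v2.T.A244
import Pool.Agent.Helper5.B54v2.T.A245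
import Pool.Agent.Helper5.B54v2.T.A246
import Pool.Agent.Helper5.B54v2.T.A247
import Pool.Agent.Helper5.B54v2.T.A248
import Pool.Agent.Helper5.B54v2.T.A249
import Pool.Agent.Helper5.B54v2.T.A250
import Pool.Agent.Helper5.B54v2.T.A251
import Pool.Agent.Helper5.B54v2.T.A252
import Pool.Agent.Helper5.B54v2.T.A253
import Pool.Agent.Helper5.B54v2.T.A254
import Pool.Agent.Helper5.B54v2.T.A255
import Pool.Agent.Helper5.B54v2.T.A256
import Pool.Agent.Helper5.B54v2.T.A257
import Pool.Agent.Helper5.B54v2.T.A258
import Pool.Agent.Helper5.B54v2.T.A259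
import Pool.Agent.Helper5.B54v2.T.A260
import Pool.Agent.Helper5.B54v2.T.A261
import Pool.Agent.Helper5.B54v2.T.A262
import Pool.Agent.Helper5.B54v2.T.A263
import Pool.Agent.Helper5.B54v2.T.A264
import Pool.Agent.Helper5.B54v2.T.A265
import Pool.Agent.Helper5.B54v2.T.A266
import Pool.Agent.Helper5.B54v2.T.A267
import Pool.Agent.Helper5.B54v2.T.A268
import Pool.Agent.Helper5.B54v2.T.A269
import Pool.Agent.Helper5.B54v2.T.A270
import Pool.Agent.Helper5.B54v2.T.A271
import Pool.Agent.Helper5.B54v2.T.A272
import Pool.Agent.Helper5.B54v2.T.A273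
import Pool.Agent.Helper5.B54v2.T.A274
import Pool.Agent.Helper5.B54v2.T.A275
import Pool.Agent.Helper5.B54v2.T.A276
import Pool.Agent.Helper5.B54v2.T.A277
import Pool.Agent.Helper5.B54v2.T.A278
import Pool.Agent.Helper5.B54v2.T.A279
import Pool.Agent.Helper5.B54v2.T.A280
import Pool.Agent.Helper5.B54v2.T.A281
import Pool.Agent.Helper5.B54v2.T.A282
import Pool.Agent.Helper5.B54v2.T.A283
import Pool.Agent.Helper5.B54v2.T.A284
import Pool.Agent.Helper5.B54v2.T.A285
import Pool.Agent.Helper5.B54v2.T.A286
import Pool.Agent.Helper5.B54v2.T.A287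
import Pool.Agent.Helper5.B54v2.T.A288
import Pool.Agent.Helper5.B54v2.T.A289
import Pool.Agent.Helper5.B54v2.T.A290
import Pool.Agent.Helper5.B54v2.T.A291
import Pool.Agent.Helper5.B54v2.T.A292
import Pool.Agent.Helper5.B54v2.T.A293
import Pool.Agent.Helper5.B54v2.T.A294
import Pool.Agent.Helper5.B54v2.T.A295
import Pool.Agent.Helper5.B54v2.T.A296
import Pool.Agent.Helper5.B54v2.T.A297
import Pool.Agent.Helper5.B54v2.T.A298
import Pool.Agent.Helper5.B54v2.T.A299
import Pool.Agent.Helper5.B54v2.T.A300
import Pool.Agent.Helper5.B54v2.T.A301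
import Pool.Agent.Helper5.B54v2.T.A302
import Pool.Agent.Helper5.B54v2.T.A303
import Pool.Agent.Helper5.B54v2.T.A304
import Pool.Agent.Helper5.B54v2.T.A305
import Pool.Agent.Helper5.B54v2.T.A306
import Pool.Agent.Helper5.B54v2.T.A307
import Pool.Agent.Helper5.B54v2.T.A308
import Pool.Agent.Helper5.B54v2.T.A309
import Pool.Agent.Helper5.B54v2.T.A310
import Pool.Agent.Helper5.B54v2.T.A311
import Pool.Agent.Helper5.B54v2.T.A312
import Pool.Agent.Helper5.B54v2.T.A313
import Pool.Agent.Helper5.B54v2.T.A314
import Pool.Agent.Helper5.B54v2.T.A315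
import Pool.Agent.Helper5.B54v2.T.A316
import Pool.Agent.Helper5.B54v2.T.A317
import Pool.Agent.Helper5.B54v2.T.A318
import Pool.Agent.Helper5.B54v2.T.A319
import Pool.Agent.Helper5.B54v2.T.A320
import Pool.Agent.Helper5.B54v2.T.A321
import Pool.Agent.Helper5.B54v2.T.A322
import Pool.Agent.Helper5.B54v2.T.A323
import Pool.Agent.Helper5.B54v2.T.A324
import Pool.Agent.Helper5.B54v2.T.A325
import Pool.Agent.Helper5.B54v2.T.A326
import Pool.Agent.Helper5.B54v2.T.A327
import Pool.Agent.Helper5.B54v2.T.A328
import Pool.Agent.Helper5.B54v2.T.A329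
import Pool.Agent.Helper5.B54v2.T.A330
import Pool.Agent.Helper5.B54v2.T.A331
import Pool.Agent.Helper5.B54v2.T.A332
import Pool.Agent.Helper5.B54v2.T.A333
import Pool.Agent.Helper5.B54v2.T.A334
import Pool.Agent.Helper5.B54v2.T.A335
import Pool.Agent.Helper5.B54v2.T.A336
import Pool.Agent.Helper5.B54v2.T.A337
import Pool.Agent.Helper5.B54v2.T.A338
import Pool.Agent.Helper5.B54v2.T.A339
import Pool.Agent.Helper5.B54v2.T.A340
import Pool.Agent.Helper5.B54v2.T.A341
import Pool.Agent.Helper5.B54v2.T.A342
import Pool.Agent.Helper5.B54v2.T.A343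

/-!
# Cells
-/

namespace Pool.Agent.Helper5.B54

theorem c16000_6720_6880_4960_5120 : Cell2 16000 6720 6880 4960 5120 :=
  CellR2.step (Good.chk c16000_6720_6880_4960_5120_s0) (by decide) (by decide)
    (CellR2.fin c16000_6720_6880_4960_5120_f)

theorem c16000_6720_6880_5120_5280 : Cell2 16000 6720 6880 5120 5280 :=
  CellR2.step (Good.chk c16000_6720_6880_5120_5280_s0) (by decide) (by decide)
    (CellR2.fin c16000_6720_6880_5120_5280_f)

theorem c16000_6720_6880_5280_5440 : Cell2 16000 6720 6880 5280 5440 :=
  CellR2.step (Good.chk c16000_6720_6880_5280_5440_s0) (by decide) (by decide)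
    (CellR2.fin c16000_6720_6880_5280_5440_f)

theorem c16000_6720_6880_5440_5600 : Cell2 16000 6720 6880 5440 5600 :=
  CellR2.step (Good.chk c16000_6720_6880_5440_5600_s0) (by decide) (by decide)
    (CellR2.step (Good.chk c16000_6720_6880_5440_5600_s1) (by decide) (by decide)
    (CellR2.fin c16000_6720_6880_5440_5600_f))

theorem c16000_6720_6880_5600_5760 : Cell2 16000 6720 6880 5600 5760 :=
  CellR2.step (Good.chk c16000_6720_6880_5600_5760_s0) (by decide) (by decide)
    (CellR2.step (Good.chk c16000_6720_6880_5600_5760_s1) (by decide) (by decide)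
    (CellR2.fin c16000_6720_6880_5600_5760_f))

theorem c16000_6720_6880_5760_5920 : Cell2 16000 6720 6880 5760 5920 :=
  CellR2.step (Good.chk c16000_6720_6880_5760_5920_s0) (by decide) (by decide)
    (CellR2.step (Good.chk c16000_6720_6880_5760_5920_s1) (by decide) (by decide)
    (CellR2.step (Good.chk c16000_6720_6880_5760_5920_s2) (by decide) (by decide)
    (CellR2.step (Good.chk c16000_6720_6880_5760_5920_s3) (by decide) (by decide)
    (CellR2.step (Good.chk c16000_6720_6880_5760_5920_s4) (by decide) (by decide)
    (CellR2.step (Good.chk c16000_6720_6880_5760_5920_s5) (by decide) (by decide)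
    (CellR2.step (Good.chk c16000_6720_6880_5760_5920_s6) (by decide) (by decide)
    (CellR2.step (Good.chk c16000_6720_6880_5760_5920_s7) (by decide) (by decide)
    (CellR2.fin c16000_6720_6880_5760_5920_f))))))))

theorem c16000_6720_6800_5920_6000 : Cell2 16000 6720 6800 5920 6000 :=
  CellR2.step (Good.chk c16000_6720_6800_5920_6000_s0) (by decide) (by decide)
    (CellR2.step (Good.chk c16000_6720_6800_5920_6000_s1) (by decide) (by decide)
    (CellR2.step (Good.chk c16000_6720_6800_5920_6000_s2) (by decide) (by decide)
    (CellR2.step (Good.chk c16000_6720_6800_5920_6000_s3) (by decide) (by decide)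
    (CellR2.step (Good.chk c16000_6720_6800_5920_6000_s4) (by decide) (by decide)
    (CellR2.step (Good.chk c16000_6720_6800_5920_6000_s5) (by decide) (by decide)
    (CellR2.step (Good.chk c16000_6720_6800_5920_6000_s6) (by decide) (by decide)
    (CellR2.step (Good.chk c16000_6720_6800_5920_6000_s7) (by decide) (by decide)
    (CellR2.step (Good.chk c16000_6720_6800_5920_6000_s8) (by decide) (by decide)
    (CellR2.step (Good.chk c16000_6720_6800_5920_6000_s9) (by decide) (by decide)
    (CellR2.step (Good.chk c16000_6720_6800_5920_6000_s10) (by decide) (by decide)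
    (CellR2.fin c16000_6720_6800_5920_6000_f)))))))))))

theorem c16000_6720_6800_6000_6080 : Cell2 16000 6720 6800 6000 6080 :=
  CellR2.step (Good.chk c16000_6720_6800_6000_6080_s0) (by decide) (by decide)
    (CellR2.step (Good.chk c16000_6720_6800_6000_6080_s1) (by decide) (by decide)
    (CellR2.step (Good.chk c16000_6720_6800_6000_6080_s2) (by decide) (by decide)
    (CellR2.step (Good.chk c16000_6720_6800_6000_6080_s3) (by decide) (by decide)
    (CellR2.step (Good.chk c16000_6720_6800_6000_6080_s4) (by decide) (by decide)
    (CellR2.step (Good.chk c16000_6720_6800_6000_6080_s5) (by decide) (by decide)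
    (CellR2.step (Good.chk c16000_6720_6800_6000_6080_s6) (by decide) (by decide)
    (CellR2.step (Good.chk c16000_6720_6800_6000_6080_s7) (by decide) (by decide)
    (CellR2.step (Good.chk c16000_6720_6800_6000_6080_s8) (by decide) (by decide)
    (CellR2.step (Good.chk c16000_6720_6800_6000_6080_s9) (by decide) (by decide)
    (CellR2.step (Good.chk c16000_6720_6800_6000_6080_s10) (by decide) (by decide)
    (CellR2.step (Good.chk c16000_6720_6800_6000_6080_s11) (by decide) (by decide)
    (CellR2.fin c16000_6720_6800_6000_6080_f))))))))))))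

theorem c16000_6720_6800_6080_6160 : Cell2 16000 6720 6800 6080 6160 :=
  CellR2.step (Good.chk c16000_6720_6800_6080_6160_s0) (by decide) (by decide)
    (CellR2.step (Good.chk c16000_6720_6800_6080_6160_s1) (by decide) (by decide)
    (CellR2.step (Good.chk c16000_6720_6800_6080_6160_s2) (by decide) (by decide)
    (CellR2.step (Good.chk c16000_6720_6800_6080_6160_s3) (by decide) (by decide)
    (CellR2.step (Good.chk c16000_6720_6800_6080_6160_s4) (by decide) (by decide)
    (CellR2.step (Good.chk c16000_6720_6800_6080_6160_s5) (by decide) (by decide)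
    (CellR2.step (Good.chk c16000_6720_6800_6080_6160_s6) (by decide) (by decide)
    (CellR2.step (Good.chk c16000_6720_6800_6080_6160_s7) (by decide) (by decide)
    (CellR2.step (Good.chk c16000_6720_6800_6080_6160_s8) (by decide) (by decide)
    (CellR2.step (Good.chk c16000_6720_6800_6080_6160_s9) (by decide) (by decide)
    (CellR2.step (Good.chk c16000_6720_6800_6080_6160_s10) (by decide) (by decide)
    (CellR2.step (Good.chk c16000_6720_6800_6080_6160_s11) (by decide) (by decide)
    (CellR2.step (Good.chk c16000_6720_6800_6080_6160_s12) (by decide) (by decide)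
    (CellR2.fin c16000_6720_6800_6080_6160_f)))))))))))))

theorem c16000_6720_6800_6160_6240 : Cell2 16000 6720 6800 6160 6240 :=
  CellR2.step (Good.chk c16000_6720_6800_6160_6240_s0) (by decide) (by decide)
    (CellR2.step (Good.chk c16000_6720_6800_6160_6240_s1) (by decide) (by decide)
    (CellR2.step (Good.chk c16000_6720_6800_6160_6240_s2) (by decide) (by decide)
    (CellR2.step (Good.chk c16000_6720_6800_6160_6240_s3) (by decide) (by decide)
    (CellR2.step (Good.chk c16000_6720_6800_6160_6240_s4) (by decide) (by decide)
    (CellR2.step (Good.chk c16000_6720_6800_6160_6240_s5) (by decide) (by decide)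
    (CellR2.step (Good.chk c16000_6720_6800_6160_6240_s6) (by decide) (by decide)
    (CellR2.step (Good.chk c16000_6720_6800_6160_6240_s7) (by decide) (by decide)
    (CellR2.step (Good.chk c16000_6720_6800_6160_6240_s8) (by decide) (by decide)
    (CellR2.step (Good.chk c16000_6720_6800_6160_6240_s9) (by decide) (by decide)
    (CellR2.step (Good.chk c16000_6720_6800_6160_6240_s10) (by decide) (by decide)
    (CellR2.step (Good.chk c16000_6720_6800_6160_6240_s11) (by decide) (by decide)
    (CellR2.step (Good.chk c16000_6720_6800_6160_6240_s12) (by decide) (by decide)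
    (CellR2.step (Good.chk c16000_6720_6800_6160_6240_s13) (by decide) (by decide)
    (CellR2.step (Good.chk c16000_6720_6800_6160_6240_s14) (by decide) (by decide)
    (CellR2.step (Good.chk c16000_6720_6800_6160_6240_s15) (by decide) (by decide)
    (CellR2.step (Good.chk c16000_6720_6800_6160_6240_s16) (by decide) (by decide)
    (CellR2.step (Good.chk c16000_6720_6800_6160_6240_s17) (by decide) (by decide)
    (CellR2.step (Good.chk c16000_6720_6800_6160_6240_s18) (by decide) (by decide)
    (CellR2.step (Good.chk c16000_6720_6800_6160_6240_s19) (by decide) (by decide)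
    (CellR2.fin c16000_6720_6800_6160_6240_f))))))))))))))))))))

theorem c16000_6720_6800_6560_6640 : Cell2 16000 6720 6800 6560 6640 :=
  CellR2.step (Good.chk c16000_6720_6800_6560_6640_s0) (by decide) (by decide)
    (CellR2.step (Good.chk c16000_6720_6800_6560_6640_s1) (by decide) (by decide)
    (CellR2.step (Good.chk c16000_6720_6800_6560_6640_s2) (by decide) (by decide)
    (CellR2.step (Good.chk c16000_6720_6800_6560_6640_s3) (by decide) (by decide)
    (CellR2.step (Good.chk c16000_6720_6800_6560_6640_s4) (by decide) (by decide)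
    (CellR2.step (Good.chk c16000_6720_6800_6560_6640_s5) (by decide) (by decide)
    (CellR2.step (Good.chk c16000_6720_6800_6560_6640_s6) (by decide) (by decide)
    (CellR2.step (Good.chk c16000_6720_6800_6560_6640_s7) (by decide) (by decide)
    (CellR2.step (Good.chk c16000_6720_6800_6560_6640_s8) (by decide) (by decide)
    (CellR2.step (Good.chk c16000_6720_6800_6560_6640_s9) (by decide) (by decide)
    (CellR2.step (Good.chk c16000_6720_6800_6560_6640_s10) (by decide) (by decide)
    (CellR2.step (Good.chk c16000_6720_6800_6560_6640_s11) (by decide) (by decide)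
    (CellR2.step (Good.chk c16000_6720_6800_6560_6640_s12) (by decide) (by decide)
    (CellR2.step (Good.chk c16000_6720_6800_6560_6640_s13) (by decide) (by decide)
    (CellR2.step (Good.chk c16000_6720_6800_6560_6640_s14) (by decide) (by decide)
    (CellR2.step (Good.chk c16000_6720_6800_6560_6640_s15) (by decide) (by decide)
    (CellR2.step (Good.chk c16000_6720_6800_6560_6640_s16) (by decide) (by decide)
    (CellR2.step (Good.chk c16000_6720_6800_6560_6640_s17) (by decide) (by decide)
    (CellR2.fin c16000_6720_6800_6560_6640_f))))))))))))))))))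

theorem c16000_6720_6800_6640_6720 : Cell2 16000 6720 6800 6640 6720 :=
  CellR2.step (Good.chk c16000_6720_6800_6640_6720_s0) (by decide) (by decide)
    (CellR2.step (Good.chk c16000_6720_6800_6640_6720_s1) (by decide) (by decide)
    (CellR2.step (Good.chk c16000_6720_6800_6640_6720_s2) (by decide) (by decide)
    (CellR2.step (Good.chk c16000_6720_6800_6640_6720_s3) (by decide) (by decide)
    (CellR2.step (Good.chk c16000_6720_6800_6640_6720_s4) (by decide) (by decide)
    (CellR2.fin c16000_6720_6800_6640_6720_f)))))

theorem c16000_6720_6800_6720_6800 : Cell2 16000 6720 6800 6720 6800 :=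
  CellR2.step (Good.chk c16000_6720_6800_6720_6800_s0) (by decide) (by decide)
    (CellR2.step (Good.chk c16000_6720_6800_6720_6800_s1) (by decide) (by decide)
    (CellR2.step (Good.chk c16000_6720_6800_6720_6800_s2) (by decide) (by decide)
    (CellR2.fin c16000_6720_6800_6720_6800_f)))

theorem c16000_6800_6880_5920_6000 : Cell2 16000 6800 6880 5920 6000 :=
  CellR2.step (Good.chk c16000_6800_6880_5920_6000_s0) (by decide) (by decide)
    (CellR2.step (Good.chk c16000_6800_6880_5920_6000_s1) (by decide) (by decide)
    (CellR2.step (Good.chk c16000_6800_6880_5920_6000_s2) (by decide) (by decide)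
    (CellR2.step (Good.chk c16000_6800_6880_5920_6000_s3) (by decide) (by decide)
    (CellR2.step (Good.chk c16000_6800_6880_5920_6000_s4) (by decide) (by decide)
    (CellR2.step (Good.chk c16000_6800_6880_5920_6000_s5) (by decide) (by decide)
    (CellR2.step (Good.chk c16000_6800_6880_5920_6000_s6) (by decide) (by decide)
    (CellR2.step (Good.chk c16000_6800_6880_5920_6000_s7) (by decide) (by decide)
    (CellR2.step (Good.chk c16000_6800_6880_5920_6000_s8) (by decide) (by decide)
    (CellR2.step (Good.chk c16000_6800_6880_5920_6000_s9) (by decide) (by decide)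
    (CellR2.fin c16000_6800_6880_5920_6000_f))))))))))

theorem c16000_6800_6880_6000_6080 : Cell2 16000 6800 6880 6000 6080 :=
  CellR2.step (Good.chk c16000_6800_6880_6000_6080_s0) (by decide) (by decide)
    (CellR2.step (Good.chk c16000_6800_6880_6000_6080_s1) (by decide) (by decide)
    (CellR2.step (Good.chk c16000_6800_6880_6000_6080_s2) (by decide) (by decide)
    (CellR2.step (Good.chk c16000_6800_6880_6000_6080_s3) (by decide) (by decide)
    (CellR2.step (Good.chk c16000_6800_6880_6000_6080_s4) (by decide) (by decide)
    (CellR2.step (Good.chk c16000_6800_6880_6000_6080_s5) (by decide) (by decide)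
    (CellR2.step (Good.chk c16000_6800_6880_6000_6080_s6) (by decide) (by decide)
    (CellR2.step (Good.chk c16000_6800_6880_6000_6080_s7) (by decide) (by decide)
    (CellR2.step (Good.chk c16000_6800_6880_6000_6080_s8) (by decide) (by decide)
    (CellR2.step (Good.chk c16000_6800_6880_6000_6080_s9) (by decide) (by decide)
    (CellR2.step (Good.chk c16000_6800_6880_6000_6080_s10) (by decide) (by decide)
    (CellR2.step (Good.chk c16000_6800_6880_6000_6080_s11) (by decide) (by decide)
    (CellR2.step (Good.chk c16000_6800_6880_6000_6080_s12) (by decide) (by decide)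
    (CellR2.fin c16000_6800_6880_6000_6080_f)))))))))))))

theorem c16000_6800_6880_6080_6160 : Cell2 16000 6800 6880 6080 6160 :=
  CellR2.step (Good.chk c16000_6800_6880_6080_6160_s0) (by decide) (by decide)
    (CellR2.step (Good.chk c16000_6800_6880_6080_6160_s1) (by decide) (by decide)
    (CellR2.step (Good.chk c16000_6800_6880_6080_6160_s2) (by decide) (by decide)
    (CellR2.step (Good.chk c16000_6800_6880_6080_6160_s3) (by decide) (by decide)
    (CellR2.step (Good.chk c16000_6800_6880_6080_6160_s4) (by decide) (by decide)
    (CellR2.step (Good.chk c16000_6800_6880_6080_6160_s5) (by decide) (by decide)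
    (CellR2.step (Good.chk c16000_6800_6880_6080_6160_s6) (by decide) (by decide)
    (CellR2.step (Good.chk c16000_6800_6880_6080_6160_s7) (by decide) (by decide)
    (CellR2.step (Good.chk c16000_6800_6880_6080_6160_s8) (by decide) (by decide)
    (CellR2.step (Good.chk c16000_6800_6880_6080_6160_s9) (by decide) (by decide)
    (CellR2.step (Good.chk c16000_6800_6880_6080_6160_s10) (by decide) (by decide)
    (CellR2.step (Good.chk c16000_6800_6880_6080_6160_s11) (by decide) (by decide)
    (CellR2.fin c16000_6800_6880_6080_6160_f))))))))))))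

theorem c16000_6800_6880_6160_6240 : Cell2 16000 6800 6880 6160 6240 :=
  CellR2.step (Good.chk c16000_6800_6880_6160_6240_s0) (by decide) (by decide)
    (CellR2.step (Good.chk c16000_6800_6880_6160_6240_s1) (by decide) (by decide)
    (CellR2.step (Good.chk c16000_6800_6880_6160_6240_s2) (by decide) (by decide)
    (CellR2.step (Good.chk c16000_6800_6880_6160_6240_s3) (by decide) (by decide)
    (CellR2.step (Good.chk c16000_6800_6880_6160_6240_s4) (by decide) (by decide)
    (CellR2.step (Good.chk c16000_6800_6880_6160_6240_s5) (by decide) (by decide)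
    (CellR2.step (Good.chk c16000_6800_6880_6160_6240_s6) (by decide) (by decide)
    (CellR2.step (Good.chk c16000_6800_6880_6160_6240_s7) (by decide) (by decide)
    (CellR2.step (Good.chk c16000_6800_6880_6160_6240_s8) (by decide) (by decide)
    (CellR2.step (Good.chk c16000_6800_6880_6160_6240_s9) (by decide) (by decide)
    (CellR2.step (Good.chk c16000_6800_6880_6160_6240_s10) (by decide) (by decide)
    (CellR2.step (Good.chk c16000_6800_6880_6160_6240_s11) (by decide) (by decide)
    (CellR2.step (Good.chk c16000_6800_6880_6160_6240_s12) (by decide) (by decide)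
    (CellR2.step (Good.chk c16000_6800_6880_6160_6240_s13) (by decide) (by decide)
    (CellR2.step (Good.chk c16000_6800_6880_6160_6240_s14) (by decide) (by decide)
    (CellR2.step (Good.chk c16000_6800_6880_6160_6240_s15) (by decide) (by decide)
    (CellR2.step (Good.chk c16000_6800_6880_6160_6240_s16) (by decide) (by decide)
    (CellR2.step (Good.chk c16000_6800_6880_6160_6240_s17) (by decide) (by decide)
    (CellR2.fin c16000_6800_6880_6160_6240_f))))))))))))))))))

theorem c16000_6800_6880_6560_6640 : Cell2 16000 6800 6880 6560 6640 :=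
  CellR2.step (Good.chk c16000_6800_6880_6560_6640_s0) (by decide) (by decide)
    (CellR2.step (Good.chk c16000_6800_6880_6560_6640_s1) (by decide) (by decide)
    (CellR2.step (Good.chk c16000_6800_6880_6560_6640_s2) (by decide) (by decide)
    (CellR2.step (Good.chk c16000_6800_6880_6560_6640_s3) (by decide) (by decide)
    (CellR2.step (Good.chk c16000_6800_6880_6560_6640_s4) (by decide) (by decide)
    (CellR2.step (Good.chk c16000_6800_6880_6560_6640_s5) (by decide) (by decide)
    (CellR2.step (Good.chk c16000_6800_6880_6560_6640_s6) (by decide) (by decide)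
    (CellR2.step (Good.chk c16000_6800_6880_6560_6640_s7) (by decide) (by decide)
    (CellR2.step (Good.chk c16000_6800_6880_6560_6640_s8) (by decide) (by decide)
    (CellR2.step (Good.chk c16000_6800_6880_6560_6640_s9) (by decide) (by decide)
    (CellR2.step (Good.chk c16000_6800_6880_6560_6640_s10) (by decide) (by decide)
    (CellR2.step (Good.chk c16000_6800_6880_6560_6640_s11) (by decide) (by decide)
    (CellR2.step (Good.chk c16000_6800_6880_6560_6640_s12) (by decide) (by decide)
    (CellR2.step (Good.chk c16000_6800_6880_6560_6640_s13) (by decide) (by decide)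
    (CellR2.step (Good.chk c16000_6800_6880_6560_6640_s14) (by decide) (by decide)
    (CellR2.step (Good.chk c16000_6800_6880_6560_6640_s15) (by decide) (by decide)
    (CellR2.step (Good.chk c16000_6800_6880_6560_6640_s16) (by decide) (by decide)
    (CellR2.step (Good.chk c16000_6800_6880_6560_6640_s17) (by decide) (by decide)
    (CellR2.step (Good.chk c16000_6800_6880_6560_6640_s18) (by decide) (by decide)
    (CellR2.step (Good.chk c16000_6800_6880_6560_6640_s19) (by decide) (by decide)
    (CellR2.step (Good.chk c16000_6800_6880_6560_6640_s20) (by decide) (by decide)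
    (CellR2.fin c16000_6800_6880_6560_6640_f)))))))))))))))))))))

theorem c16000_6800_6880_6640_6720 : Cell2 16000 6800 6880 6640 6720 :=
  CellR2.step (Good.chk c16000_6800_6880_6640_6720_s0) (by decide) (by decide)
    (CellR2.step (Good.chk c16000_6800_6880_6640_6720_s1) (by decide) (by decide)
    (CellR2.step (Good.chk c16000_6800_6880_6640_6720_s2) (by decide) (by decide)
    (CellR2.step (Good.chk c16000_6800_6880_6640_6720_s3) (by decide) (by decide)
    (CellR2.step (Good.chk c16000_6800_6880_6640_6720_s4) (by decide) (by decide)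
    (CellR2.step (Good.chk c16000_6800_6880_6640_6720_s5) (by decide) (by decide)
    (CellR2.step (Good.chk c16000_6800_6880_6640_6720_s6) (by decide) (by decide)
    (CellR2.step (Good.chk c16000_6800_6880_6640_6720_s7) (by decide) (by decide)
    (CellR2.step (Good.chk c16000_6800_6880_6640_6720_s8) (by decide) (by decide)
    (CellR2.step (Good.chk c16000_6800_6880_6640_6720_s9) (by decide) (by decide)
    (CellR2.step (Good.chk c16000_6800_6880_6640_6720_s10) (by decide) (by decide)
    (CellR2.step (Good.chk c16000_6800_6880_6640_6720_s11) (by decide) (by decide)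
    (CellR2.step (Good.chk c16000_6800_6880_6640_6720_s12) (by decide) (by decide)
    (CellR2.step (Good.chk c16000_6800_6880_6640_6720_s13) (by decide) (by decide)
    (CellR2.step (Good.chk c16000_6800_6880_6640_6720_s14) (by decide) (by decide)
    (CellR2.step (Good.chk c16000_6800_6880_6640_6720_s15) (by decide) (by decide)
    (CellR2.step (Good.chk c16000_6800_6880_6640_6720_s16) (by decide) (by decide)
    (CellR2.step (Good.chk c16000_6800_6880_6640_6720_s17) (by decide) (by decide)
    (CellR2.step (Good.chk c16000_6800_6880_6640_6720_s18) (by decide) (by decide)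
    (CellR2.step (Good.chk c16000_6800_6880_6640_6720_s19) (by decide) (by decide)
    (CellR2.step (Good.chk c16000_6800_6880_6640_6720_s20) (by decide) (by decide)
    (CellR2.step (Good.chk c16000_6800_6880_6640_6720_s21) (by decide) (by decide)
    (CellR2.fin c16000_6800_6880_6640_6720_f))))))))))))))))))))))

theorem c16000_6800_6880_6720_6800 : Cell2 16000 6800 6880 6720 6800 :=
  CellR2.step (Good.chk c16000_6800_6880_6720_6800_s0) (by decide) (by decide)
    (CellR2.step (Good.chk c16000_6800_6880_6720_6800_s1) (by decide) (by decide)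
    (CellR2.step (Good.chk c16000_6800_6880_6720_6800_s2) (by decide) (by decide)
    (CellR2.step (Good.chk c16000_6800_6880_6720_6800_s3) (by decide) (by decide)
    (CellR2.step (Good.chk c16000_6800_6880_6720_6800_s4) (by decide) (by decide)
    (CellR2.step (Good.chk c16000_6800_6880_6720_6800_s5) (by decide) (by decide)
    (CellR2.step (Good.chk c16000_6800_6880_6720_6800_s6) (by decide) (by decide)
    (CellR2.step (Good.chk c16000_6800_6880_6720_6800_s7) (by decide) (by decide)
    (CellR2.fin c16000_6800_6880_6720_6800_f))))))))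

theorem c16000_6800_6880_6800_6880 : Cell2 16000 6800 6880 6800 6880 :=
  CellR2.step (Good.chk c16000_6800_6880_6800_6880_s0) (by decide) (by decide)
    (CellR2.step (Good.chk c16000_6800_6880_6800_6880_s1) (by decide) (by decide)
    (CellR2.step (Good.chk c16000_6800_6880_6800_6880_s2) (by decide) (by decide)
    (CellR2.fin c16000_6800_6880_6800_6880_f)))

theorem c16000_6880_7040_4000_4640 : Cell2 16000 6880 7040 4000 4640 :=
  CellR2.fin c16000_6880_7040_4000_4640_f

theorem c16000_6880_7040_4640_4800 : Cell2 16000 6880 7040 4640 4800 :=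
  CellR2.fin c16000_6880_7040_4640_4800_f

theorem c16000_6880_7040_4800_4960 : Cell2 16000 6880 7040 4800 4960 :=
  CellR2.step (Good.chk c16000_6880_7040_4800_4960_s0) (by decide) (by decide)
    (CellR2.fin c16000_6880_7040_4800_4960_f)

theorem c16000_6880_7040_4960_5120 : Cell2 16000 6880 7040 4960 5120 :=
  CellR2.step (Good.chk c16000_6880_7040_4960_5120_s0) (by decide) (by decide)
    (CellR2.fin c16000_6880_7040_4960_5120_f)

theorem c16000_6880_7040_5120_5280 : Cell2 16000 6880 7040 5120 5280 :=
  CellR2.step (Good.chk c16000_6880_7040_5120_5280_s0) (by decide) (by decide)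
    (CellR2.fin c16000_6880_7040_5120_5280_f)

theorem c16000_6880_7040_5280_5440 : Cell2 16000 6880 7040 5280 5440 :=
  CellR2.step (Good.chk c16000_6880_7040_5280_5440_s0) (by decide) (by decide)
    (CellR2.fin c16000_6880_7040_5280_5440_f)

theorem c16000_6880_7040_5440_5600 : Cell2 16000 6880 7040 5440 5600 :=
  CellR2.step (Good.chk c16000_6880_7040_5440_5600_s0) (by decide) (by decide)
    (CellR2.step (Good.chk c16000_6880_7040_5440_5600_s1) (by decide) (by decide)
    (CellR2.fin c16000_6880_7040_5440_5600_f))

theorem c16000_6880_7040_5600_5760 : Cell2 16000 6880 7040 5600 5760 :=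
  CellR2.step (Good.chk c16000_6880_7040_5600_5760_s0) (by decide) (by decide)
    (CellR2.step (Good.chk c16000_6880_7040_5600_5760_s1) (by decide) (by decide)
    (CellR2.step (Good.chk c16000_6880_7040_5600_5760_s2) (by decide) (by decide)
    (CellR2.step (Good.chk c16000_6880_7040_5600_5760_s3) (by decide) (by decide)
    (CellR2.fin c16000_6880_7040_5600_5760_f))))

theorem c16000_6880_7040_5760_5920 : Cell2 16000 6880 7040 5760 5920 :=
  CellR2.step (Good.chk c16000_6880_7040_5760_5920_s0) (by decide) (by decide)
    (CellR2.step (Good.chk c16000_6880_7040_5760_5920_s1) (by decide) (by decide)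
    (CellR2.step (Good.chk c16000_6880_7040_5760_5920_s2) (by decide) (by decide)
    (CellR2.step (Good.chk c16000_6880_7040_5760_5920_s3) (by decide) (by decide)
    (CellR2.step (Good.chk c16000_6880_7040_5760_5920_s4) (by decide) (by decide)
    (CellR2.fin c16000_6880_7040_5760_5920_f)))))

theorem c16000_6880_6960_5920_6000 : Cell2 16000 6880 6960 5920 6000 :=
  CellR2.step (Good.chk c16000_6880_6960_5920_6000_s0) (by decide) (by decide)
    (CellR2.step (Good.chk c16000_6880_6960_5920_6000_s1) (by decide) (by decide)
    (CellR2.step (Good.chk c16000_6880_6960_5920_6000_s2) (by decide) (by decide)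
    (CellR2.step (Good.chk c16000_6880_6960_5920_6000_s3) (by decide) (by decide)
    (CellR2.step (Good.chk c16000_6880_6960_5920_6000_s4) (by decide) (by decide)
    (CellR2.step (Good.chk c16000_6880_6960_5920_6000_s5) (by decide) (by decide)
    (CellR2.step (Good.chk c16000_6880_6960_5920_6000_s6) (by decide) (by decide)
    (CellR2.step (Good.chk c16000_6880_6960_5920_6000_s7) (by decide) (by decide)
    (CellR2.step (Good.chk c16000_6880_6960_5920_6000_s8) (by decide) (by decide)
    (CellR2.step (Good.chk c16000_6880_6960_5920_6000_s9) (by decide) (by decide)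
    (CellR2.step (Good.chk c16000_6880_6960_5920_6000_s10) (by decide) (by decide)
    (CellR2.step (Good.chk c16000_6880_6960_5920_6000_s11) (by decide) (by decide)
    (CellR2.step (Good.chk c16000_6880_6960_5920_6000_s12) (by decide) (by decide)
    (CellR2.step (Good.chk c16000_6880_6960_5920_6000_s13) (by decide) (by decide)
    (CellR2.step (Good.chk c16000_6880_6960_5920_6000_s14) (by decide) (by decide)
    (CellR2.step (Good.chk c16000_6880_6960_5920_6000_s15) (by decide) (by decide)
    (CellR2.fin c16000_6880_6960_5920_6000_f))))))))))))))))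

theorem c16000_6880_6960_6000_6080 : Cell2 16000 6880 6960 6000 6080 :=
  CellR2.step (Good.chk c16000_6880_6960_6000_6080_s0) (by decide) (by decide)
    (CellR2.step (Good.chk c16000_6880_6960_6000_6080_s1) (by decide) (by decide)
    (CellR2.step (Good.chk c16000_6880_6960_6000_6080_s2) (by decide) (by decide)
    (CellR2.step (Good.chk c16000_6880_6960_6000_6080_s3) (by decide) (by decide)
    (CellR2.step (Good.chk c16000_6880_6960_6000_6080_s4) (by decide) (by decide)
    (CellR2.step (Good.chk c16000_6880_6960_6000_6080_s5) (by decide) (by decide)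
    (CellR2.step (Good.chk c16000_6880_6960_6000_6080_s6) (by decide) (by decide)
    (CellR2.step (Good.chk c16000_6880_6960_6000_6080_s7) (by decide) (by decide)
    (CellR2.step (Good.chk c16000_6880_6960_6000_6080_s8) (by decide) (by decide)
    (CellR2.step (Good.chk c16000_6880_6960_6000_6080_s9) (by decide) (by decide)
    (CellR2.step (Good.chk c16000_6880_6960_6000_6080_s10) (by decide) (by decide)
    (CellR2.step (Good.chk c16000_6880_6960_6000_6080_s11) (by decide) (by decide)
    (CellR2.step (Good.chk c16000_6880_6960_6000_6080_s12) (by decide) (by decide)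
    (CellR2.step (Good.chk c16000_6880_6960_6000_6080_s13) (by decide) (by decide)
    (CellR2.step (Good.chk c16000_6880_6960_6000_6080_s14) (by decide) (by decide)
    (CellR2.step (Good.chk c16000_6880_6960_6000_6080_s15) (by decide) (by decide)
    (CellR2.step (Good.chk c16000_6880_6960_6000_6080_s16) (by decide) (by decide)
    (CellR2.fin c16000_6880_6960_6000_6080_f)))))))))))))))))

theorem c16000_6880_6960_6560_6640 : Cell2 16000 6880 6960 6560 6640 :=
  CellR2.step (Good.chk c16000_6880_6960_6560_6640_s0) (by decide) (by decide)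
    (CellR2.step (Good.chk c16000_6880_6960_6560_6640_s1) (by decide) (by decide)
    (CellR2.step (Good.chk c16000_6880_6960_6560_6640_s2) (by decide) (by decide)
    (CellR2.step (Good.chk c16000_6880_6960_6560_6640_s3) (by decide) (by decide)
    (CellR2.step (Good.chk c16000_6880_6960_6560_6640_s4) (by decide) (by decide)
    (CellR2.step (Good.chk c16000_6880_6960_6560_6640_s5) (by decide) (by decide)
    (CellR2.step (Good.chk c16000_6880_6960_6560_6640_s6) (by decide) (by decide)
    (CellR2.step (Good.chk c16000_6880_6960_6560_6640_s7) (by decide) (by decide)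
    (CellR2.step (Good.chk c16000_6880_6960_6560_6640_s8) (by decide) (by decide)
    (CellR2.step (Good.chk c16000_6880_6960_6560_6640_s9) (by decide) (by decide)
    (CellR2.step (Good.chk c16000_6880_6960_6560_6640_s10) (by decide) (by decide)
    (CellR2.step (Good.chk c16000_6880_6960_6560_6640_s11) (by decide) (by decide)
    (CellR2.step (Good.chk c16000_6880_6960_6560_6640_s12) (by decide) (by decide)
    (CellR2.step (Good.chk c16000_6880_6960_6560_6640_s13) (by decide) (by decide)
    (CellR2.step (Good.chk c16000_6880_6960_6560_6640_s14) (by decide) (by decide)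
    (CellR2.step (Good.chk c16000_6880_6960_6560_6640_s15) (by decide) (by decide)
    (CellR2.step (Good.chk c16000_6880_6960_6560_6640_s16) (by decide) (by decide)
    (CellR2.step (Good.chk c16000_6880_6960_6560_6640_s17) (by decide) (by decide)
    (CellR2.step (Good.chk c16000_6880_6960_6560_6640_s18) (by decide) (by decide)
    (CellR2.step (Good.chk c16000_6880_6960_6560_6640_s19) (by decide) (by decide)
    (CellR2.step (Good.chk c16000_6880_6960_6560_6640_s20) (by decide) (by decide)
    (CellR2.step (Good.chk c16000_6880_6960_6560_6640_s21) (by decide) (by decide)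
    (CellR2.step (Good.chk c16000_6880_6960_6560_6640_s22) (by decide) (by decide)
    (CellR2.step (Good.chk c16000_6880_6960_6560_6640_s23) (by decide) (by decide)
    (CellR2.step (Good.chk c16000_6880_6960_6560_6640_s24) (by decide) (by decide)
    (CellR2.step (Good.chk c16000_6880_6960_6560_6640_s25) (by decide) (by decide)
    (CellR2.fin c16000_6880_6960_6560_6640_f))))))))))))))))))))))))))

theorem c16000_6880_6960_6640_6720 : Cell2 16000 6880 6960 6640 6720 :=
  CellR2.step (Good.chk c16000_6880_6960_6640_6720_s0) (by decide) (by decide)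
    (CellR2.step (Good.chk c16000_6880_6960_6640_6720_s1) (by decide) (by decide)
    (CellR2.step (Good.chk c16000_6880_6960_6640_6720_s2) (by decide) (by decide)
    (CellR2.step (Good.chk c16000_6880_6960_6640_6720_s3) (by decide) (by decide)
    (CellR2.step (Good.chk c16000_6880_6960_6640_6720_s4) (by decide) (by decide)
    (CellR2.step (Good.chk c16000_6880_6960_6640_6720_s5) (by decide) (by decide)
    (CellR2.step (Good.chk c16000_6880_6960_6640_6720_s6) (by decide) (by decide)
    (CellR2.step (Good.chk c16000_6880_6960_6640_6720_s7) (by decide) (by decide)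
    (CellR2.step (Good.chk c16000_6880_6960_6640_6720_s8) (by decide) (by decide)
    (CellR2.step (Good.chk c16000_6880_6960_6640_6720_s9) (by decide) (by decide)
    (CellR2.step (Good.chk c16000_6880_6960_6640_6720_s10) (by decide) (by decide)
    (CellR2.step (Good.chk c16000_6880_6960_6640_6720_s11) (by decide) (by decide)
    (CellR2.step (Good.chk c16000_6880_6960_6640_6720_s12) (by decide) (by decide)
    (CellR2.step (Good.chk c16000_6880_6960_6640_6720_s13) (by decide) (by decide)
    (CellR2.step (Good.chk c16000_6880_6960_6640_6720_s14) (by decide) (by decide)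
    (CellR2.fin c16000_6880_6960_6640_6720_f)))))))))))))))

theorem c16000_6880_6960_6720_6800 : Cell2 16000 6880 6960 6720 6800 :=
  CellR2.step (Good.chk c16000_6880_6960_6720_6800_s0) (by decide) (by decide)
    (CellR2.step (Good.chk c16000_6880_6960_6720_6800_s1) (by decide) (by decide)
    (CellR2.step (Good.chk c16000_6880_6960_6720_6800_s2) (by decide) (by decide)
    (CellR2.step (Good.chk c16000_6880_6960_6720_6800_s3) (by decide) (by decide)
    (CellR2.step (Good.chk c16000_6880_6960_6720_6800_s4) (by decide) (by decide)
    (CellR2.step (Good.chk c16000_6880_6960_6720_6800_s5) (by decide) (by decide)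
    (CellR2.step (Good.chk c16000_6880_6960_6720_6800_s6) (by decide) (by decide)
    (CellR2.step (Good.chk c16000_6880_6960_6720_6800_s7) (by decide) (by decide)
    (CellR2.step (Good.chk c16000_6880_6960_6720_6800_s8) (by decide) (by decide)
    (CellR2.step (Good.chk c16000_6880_6960_6720_6800_s9) (by decide) (by decide)
    (CellR2.step (Good.chk c16000_6880_6960_6720_6800_s10) (by decide) (by decide)
    (CellR2.step (Good.chk c16000_6880_6960_6720_6800_s11) (by decide) (by decide)
    (CellR2.step (Good.chk c16000_6880_6960_6720_6800_s12) (by decide) (by decide)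
    (CellR2.step (Good.chk c16000_6880_6960_6720_6800_s13) (by decide) (by decide)
    (CellR2.step (Good.chk c16000_6880_6960_6720_6800_s14) (by decide) (by decide)
    (CellR2.step (Good.chk c16000_6880_6960_6720_6800_s15) (by decide) (by decide)
    (CellR2.step (Good.chk c16000_6880_6960_6720_6800_s16) (by decide) (by decide)
    (CellR2.step (Good.chk c16000_6880_6960_6720_6800_s17) (by decide) (by decide)
    (CellR2.step (Good.chk c16000_6880_6960_6720_6800_s18) (by decide) (by decide)
    (CellR2.step (Good.chk c16000_6880_6960_6720_6800_s19) (by decide) (by decide)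
    (CellR2.step (Good.chk c16000_6880_6960_6720_6800_s20) (by decide) (by decide)
    (CellR2.step (Good.chk c16000_6880_6960_6720_6800_s21) (by decide) (by decide)
    (CellR2.fin c16000_6880_6960_6720_6800_f))))))))))))))))))))))

theorem c16000_6880_6960_6800_6880 : Cell2 16000 6880 6960 6800 6880 :=
  CellR2.step (Good.chk c16000_6880_6960_6800_6880_s0) (by decide) (by decide)
    (CellR2.step (Good.chk c16000_6880_6960_6800_6880_s1) (by decide) (by decide)
    (CellR2.step (Good.chk c16000_6880_6960_6800_6880_s2) (by decide) (by decide)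
    (CellR2.step (Good.chk c16000_6880_6960_6800_6880_s3) (by decide) (by decide)
    (CellR2.step (Good.chk c16000_6880_6960_6800_6880_s4) (by decide) (by decide)
    (CellR2.step (Good.chk c16000_6880_6960_6800_6880_s5) (by decide) (by decide)
    (CellR2.fin c16000_6880_6960_6800_6880_f))))))

theorem c16000_6880_7040_6880_7040 : Cell2 16000 6880 7040 6880 7040 :=
  CellR2.step (Good.chk c16000_6880_7040_6880_7040_s0) (by decide) (by decide)
    (CellR2.step (Good.chk c16000_6880_7040_6880_7040_s1) (by decide) (by decide)
    (CellR2.step (Good.chk c16000_6880_7040_6880_7040_s2) (by decide) (by decide)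
    (CellR2.step (Good.chk c16000_6880_7040_6880_7040_s3) (by decide) (by decide)
    (CellR2.fin c16000_6880_7040_6880_7040_f))))

theorem c16000_6960_7040_5920_6000 : Cell2 16000 6960 7040 5920 6000 :=
  CellR2.step (Good.chk c16000_6960_7040_5920_6000_s0) (by decide) (by decide)
    (CellR2.step (Good.chk c16000_6960_7040_5920_6000_s1) (by decide) (by decide)
    (CellR2.step (Good.chk c16000_6960_7040_5920_6000_s2) (by decide) (by decide)
    (CellR2.step (Good.chk c16000_6960_7040_5920_6000_s3) (by decide) (by decide)
    (CellR2.step (Good.chk c16000_6960_7040_5920_6000_s4) (by decide) (by decide)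
    (CellR2.step (Good.chk c16000_6960_7040_5920_6000_s5) (by decide) (by decide)
    (CellR2.step (Good.chk c16000_6960_7040_5920_6000_s6) (by decide) (by decide)
    (CellR2.step (Good.chk c16000_6960_7040_5920_6000_s7) (by decide) (by decide)
    (CellR2.step (Good.chk c16000_6960_7040_5920_6000_s8) (by decide) (by decide)
    (CellR2.step (Good.chk c16000_6960_7040_5920_6000_s9) (by decide) (by decide)
    (CellR2.fin c16000_6960_7040_5920_6000_f))))))))))

theorem c16000_6960_7040_6000_6080 : Cell2 16000 6960 7040 6000 6080 :=
  CellR2.step (Good.chk c16000_6960_7040_6000_6080_s0) (by decide) (by decide)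
    (CellR2.step (Good.chk c16000_6960_7040_6000_6080_s1) (by decide) (by decide)
    (CellR2.step (Good.chk c16000_6960_7040_6000_6080_s2) (by decide) (by decide)
    (CellR2.step (Good.chk c16000_6960_7040_6000_6080_s3) (by decide) (by decide)
    (CellR2.step (Good.chk c16000_6960_7040_6000_6080_s4) (by decide) (by decide)
    (CellR2.step (Good.chk c16000_6960_7040_6000_6080_s5) (by decide) (by decide)
    (CellR2.step (Good.chk c16000_6960_7040_6000_6080_s6) (by decide) (by decide)
    (CellR2.step (Good.chk c16000_6960_7040_6000_6080_s7) (by decide) (by decide)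
    (CellR2.step (Good.chk c16000_6960_7040_6000_6080_s8) (by decide) (by decide)
    (CellR2.step (Good.chk c16000_6960_7040_6000_6080_s9) (by decide) (by decide)
    (CellR2.step (Good.chk c16000_6960_7040_6000_6080_s10) (by decide) (by decide)
    (CellR2.step (Good.chk c16000_6960_7040_6000_6080_s11) (by decide) (by decide)
    (CellR2.step (Good.chk c16000_6960_7040_6000_6080_s12) (by decide) (by decide)
    (CellR2.step (Good.chk c16000_6960_7040_6000_6080_s13) (by decide) (by decide)
    (CellR2.step (Good.chk c16000_6960_7040_6000_6080_s14) (by decide) (by decide)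
    (CellR2.step (Good.chk c16000_6960_7040_6000_6080_s15) (by decide) (by decide)
    (CellR2.step (Good.chk c16000_6960_7040_6000_6080_s16) (by decide) (by decide)
    (CellR2.fin c16000_6960_7040_6000_6080_f)))))))))))))))))

theorem c16000_6960_7000_6560_6600 : Cell2 16000 6960 7000 6560 6600 :=
  CellR2.step (Good.chk c16000_6960_7000_6560_6600_s0) (by decide) (by decide)
    (CellR2.step (Good.chk c16000_6960_7000_6560_6600_s1) (by decide) (by decide)
    (CellR2.step (Good.chk c16000_6960_7000_6560_6600_s2) (by decide) (by decide)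
    (CellR2.step (Good.chk c16000_6960_7000_6560_6600_s3) (by decide) (by decide)
    (CellR2.step (Good.chk c16000_6960_7000_6560_6600_s4) (by decide) (by decide)
    (CellR2.step (Good.chk c16000_6960_7000_6560_6600_s5) (by decide) (by decide)
    (CellR2.step (Good.chk c16000_6960_7000_6560_6600_s6) (by decide) (by decide)
    (CellR2.step (Good.chk c16000_6960_7000_6560_6600_s7) (by decide) (by decide)
    (CellR2.step (Good.chk c16000_6960_7000_6560_6600_s8) (by decide) (by decide)
    (CellR2.step (Good.chk c16000_6960_7000_6560_6600_s9) (by decide) (by decide)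
    (CellR2.step (Good.chk c16000_6960_7000_6560_6600_s10) (by decide) (by decide)
    (CellR2.step (Good.chk c16000_6960_7000_6560_6600_s11) (by decide) (by decide)
    (CellR2.step (Good.chk c16000_6960_7000_6560_6600_s12) (by decide) (by decide)
    (CellR2.step (Good.chk c16000_6960_7000_6560_6600_s13) (by decide) (by decide)
    (CellR2.step (Good.chk c16000_6960_7000_6560_6600_s14) (by decide) (by decide)
    (CellR2.step (Good.chk c16000_6960_7000_6560_6600_s15) (by decide) (by decide)
    (CellR2.step (Good.chk c16000_6960_7000_6560_6600_s16) (by decide) (by decide)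
    (CellR2.step (Good.chk c16000_6960_7000_6560_6600_s17) (by decide) (by decide)
    (CellR2.step (Good.chk c16000_6960_7000_6560_6600_s18) (by decide) (by decide)
    (CellR2.fin c16000_6960_7000_6560_6600_f)))))))))))))))))))

theorem c16000_6960_7000_6600_6640 : Cell2 16000 6960 7000 6600 6640 :=
  CellR2.step (Good.chk c16000_6960_7000_6600_6640_s0) (by decide) (by decide)
    (CellR2.step (Good.chk c16000_6960_7000_6600_6640_s1) (by decide) (by decide)
    (CellR2.step (Good.chk c16000_6960_7000_6600_6640_s2) (by decide) (by decide)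
    (CellR2.step (Good.chk c16000_6960_7000_6600_6640_s3) (by decide) (by decide)
    (CellR2.step (Good.chk c16000_6960_7000_6600_6640_s4) (by decide) (by decide)
    (CellR2.step (Good.chk c16000_6960_7000_6600_6640_s5) (by decide) (by decide)
    (CellR2.step (Good.chk c16000_6960_7000_6600_6640_s6) (by decide) (by decide)
    (CellR2.step (Good.chk c16000_6960_7000_6600_6640_s7) (by decide) (by decide)
    (CellR2.step (Good.chk c16000_6960_7000_6600_6640_s8) (by decide) (by decide)
    (CellR2.step (Good.chk c16000_6960_7000_6600_6640_s9) (by decide) (by decide)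
    (CellR2.step (Good.chk c16000_6960_7000_6600_6640_s10) (by decide) (by decide)
    (CellR2.step (Good.chk c16000_6960_7000_6600_6640_s11) (by decide) (by decide)
    (CellR2.step (Good.chk c16000_6960_7000_6600_6640_s12) (by decide) (by decide)
    (CellR2.step (Good.chk c16000_6960_7000_6600_6640_s13) (by decide) (by decide)
    (CellR2.step (Good.chk c16000_6960_7000_6600_6640_s14) (by decide) (by decide)
    (CellR2.fin c16000_6960_7000_6600_6640_f)))))))))))))))

theorem c16000_6960_7000_6640_6680 : Cell2 16000 6960 7000 6640 6680 :=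
  CellR2.step (Good.chk c16000_6960_7000_6640_6680_s0) (by decide) (by decide)
    (CellR2.step (Good.chk c16000_6960_7000_6640_6680_s1) (by decide) (by decide)
    (CellR2.step (Good.chk c16000_6960_7000_6640_6680_s2) (by decide) (by decide)
    (CellR2.step (Good.chk c16000_6960_7000_6640_6680_s3) (by decide) (by decide)
    (CellR2.step (Good.chk c16000_6960_7000_6640_6680_s4) (by decide) (by decide)
    (CellR2.step (Good.chk c16000_6960_7000_6640_6680_s5) (by decide) (by decide)
    (CellR2.step (Good.chk c16000_6960_7000_6640_6680_s6) (by decide) (by decide)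
    (CellR2.step (Good.chk c16000_6960_7000_6640_6680_s7) (by decide) (by decide)
    (CellR2.step (Good.chk c16000_6960_7000_6640_6680_s8) (by decide) (by decide)
    (CellR2.step (Good.chk c16000_6960_7000_6640_6680_s9) (by decide) (by decide)
    (CellR2.step (Good.chk c16000_6960_7000_6640_6680_s10) (by decide) (by decide)
    (CellR2.fin c16000_6960_7000_6640_6680_f)))))))))))

theorem c16000_6960_7000_6680_6720 : Cell2 16000 6960 7000 6680 6720 :=
  CellR2.step (Good.chk c16000_6960_7000_6680_6720_s0) (by decide) (by decide)
    (CellR2.step (Good.chk c16000_6960_7000_6680_6720_s1) (by decide) (by decide)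
    (CellR2.step (Good.chk c16000_6960_7000_6680_6720_s2) (by decide) (by decide)
    (CellR2.step (Good.chk c16000_6960_7000_6680_6720_s3) (by decide) (by decide)
    (CellR2.step (Good.chk c16000_6960_7000_6680_6720_s4) (by decide) (by decide)
    (CellR2.step (Good.chk c16000_6960_7000_6680_6720_s5) (by decide) (by decide)
    (CellR2.step (Good.chk c16000_6960_7000_6680_6720_s6) (by decide) (by decide)
    (CellR2.step (Good.chk c16000_6960_7000_6680_6720_s7) (by decide) (by decide)
    (CellR2.fin c16000_6960_7000_6680_6720_f))))))))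

theorem c16000_6960_7040_6720_6800 : Cell2 16000 6960 7040 6720 6800 :=
  CellR2.step (Good.chk c16000_6960_7040_6720_6800_s0) (by decide) (by decide)
    (CellR2.step (Good.chk c16000_6960_7040_6720_6800_s1) (by decide) (by decide)
    (CellR2.step (Good.chk c16000_6960_7040_6720_6800_s2) (by decide) (by decide)
    (CellR2.step (Good.chk c16000_6960_7040_6720_6800_s3) (by decide) (by decide)
    (CellR2.step (Good.chk c16000_6960_7040_6720_6800_s4) (by decide) (by decide)
    (CellR2.step (Good.chk c16000_6960_7040_6720_6800_s5) (by decide) (by decide)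
    (CellR2.step (Good.chk c16000_6960_7040_6720_6800_s6) (by decide) (by decide)
    (CellR2.step (Good.chk c16000_6960_7040_6720_6800_s7) (by decide) (by decide)
    (CellR2.step (Good.chk c16000_6960_7040_6720_6800_s8) (by decide) (by decide)
    (CellR2.step (Good.chk c16000_6960_7040_6720_6800_s9) (by decide) (by decide)
    (CellR2.step (Good.chk c16000_6960_7040_6720_6800_s10) (by decide) (by decide)
    (CellR2.step (Good.chk c16000_6960_7040_6720_6800_s11) (by decide) (by decide)
    (CellR2.step (Good.chk c16000_6960_7040_6720_6800_s12) (by decide) (by decide)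
    (CellR2.step (Good.chk c16000_6960_7040_6720_6800_s13) (by decide) (by decide)
    (CellR2.step (Good.chk c16000_6960_7040_6720_6800_s14) (by decide) (by decide)
    (CellR2.step (Good.chk c16000_6960_7040_6720_6800_s15) (by decide) (by decide)
    (CellR2.step (Good.chk c16000_6960_7040_6720_6800_s16) (by decide) (by decide)
    (CellR2.step (Good.chk c16000_6960_7040_6720_6800_s17) (by decide) (by decide)
    (CellR2.step (Good.chk c16000_6960_7040_6720_6800_s18) (by decide) (by decide)
    (CellR2.step (Good.chk c16000_6960_7040_6720_6800_s19) (by decide) (by decide)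
    (CellR2.step (Good.chk c16000_6960_7040_6720_6800_s20) (by decide) (by decide)
    (CellR2.step (Good.chk c16000_6960_7040_6720_6800_s21) (by decide) (by decide)
    (CellR2.step (Good.chk c16000_6960_7040_6720_6800_s22) (by decide) (by decide)
    (CellR2.step (Good.chk c16000_6960_7040_6720_6800_s23) (by decide) (by decide)
    (CellR2.step (Good.chk c16000_6960_7040_6720_6800_s24) (by decide) (by decide)
    (CellR2.step (Good.chk c16000_6960_7040_6720_6800_s25) (by decide) (by decide)
    (CellR2.step (Good.chk c16000_6960_7040_6720_6800_s26) (by decide) (by decide)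
    (CellR2.step (Good.chk c16000_6960_7040_6720_6800_s27) (by decide) (by decide)
    (CellR2.fin c16000_6960_7040_6720_6800_f))))))))))))))))))))))))))))

theorem c16000_6960_7040_6800_6880 : Cell2 16000 6960 7040 6800 6880 :=
  CellR2.step (Good.chk c16000_6960_7040_6800_6880_s0) (by decide) (by decide)
    (CellR2.step (Good.chk c16000_6960_7040_6800_6880_s1) (by decide) (by decide)
    (CellR2.step (Good.chk c16000_6960_7040_6800_6880_s2) (by decide) (by decide)
    (CellR2.step (Good.chk c16000_6960_7040_6800_6880_s3) (by decide) (by decide)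
    (CellR2.step (Good.chk c16000_6960_7040_6800_6880_s4) (by decide) (by decide)
    (CellR2.step (Good.chk c16000_6960_7040_6800_6880_s5) (by decide) (by decide)
    (CellR2.step (Good.chk c16000_6960_7040_6800_6880_s6) (by decide) (by decide)
    (CellR2.step (Good.chk c16000_6960_7040_6800_6880_s7) (by decide) (by decide)
    (CellR2.step (Good.chk c16000_6960_7040_6800_6880_s8) (by decide) (by decide)
    (CellR2.step (Good.chk c16000_6960_7040_6800_6880_s9) (by decide) (by decide)
    (CellR2.step (Good.chk c16000_6960_7040_6800_6880_s10) (by decide) (by decide)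
    (CellR2.step (Good.chk c16000_6960_7040_6800_6880_s11) (by decide) (by decide)
    (CellR2.step (Good.chk c16000_6960_7040_6800_6880_s12) (by decide) (by decide)
    (CellR2.fin c16000_6960_7040_6800_6880_f)))))))))))))

theorem c16000_7000_7040_6560_6600 : Cell2 16000 7000 7040 6560 6600 :=
  CellR2.step (Good.chk c16000_7000_7040_6560_6600_s0) (by decide) (by decide)
    (CellR2.step (Good.chk c16000_7000_7040_6560_6600_s1) (by decide) (by decide)
    (CellR2.step (Good.chk c16000_7000_7040_6560_6600_s2) (by decide) (by decide)
    (CellR2.step (Good.chk c16000_7000_7040_6560_6600_s3) (by decide) (by decide)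
    (CellR2.step (Good.chk c16000_7000_7040_6560_6600_s4) (by decide) (by decide)
    (CellR2.step (Good.chk c16000_7000_7040_6560_6600_s5) (by decide) (by decide)
    (CellR2.step (Good.chk c16000_7000_7040_6560_6600_s6) (by decide) (by decide)
    (CellR2.step (Good.chk c16000_7000_7040_6560_6600_s7) (by decide) (by decide)
    (CellR2.step (Good.chk c16000_7000_7040_6560_6600_s8) (by decide) (by decide)
    (CellR2.step (Good.chk c16000_7000_7040_6560_6600_s9) (by decide) (by decide)
    (CellR2.step (Good.chk c16000_7000_7040_6560_6600_s10) (by decide) (by decide)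
    (CellR2.step (Good.chk c16000_7000_7040_6560_6600_s11) (by decide) (by decide)
    (CellR2.step (Good.chk c16000_7000_7040_6560_6600_s12) (by decide) (by decide)
    (CellR2.step (Good.chk c16000_7000_7040_6560_6600_s13) (by decide) (by decide)
    (CellR2.step (Good.chk c16000_7000_7040_6560_6600_s14) (by decide) (by decide)
    (CellR2.step (Good.chk c16000_7000_7040_6560_6600_s15) (by decide) (by decide)
    (CellR2.fin c16000_7000_7040_6560_6600_f))))))))))))))))

theorem c16000_7000_7040_6600_6640 : Cell2 16000 7000 7040 6600 6640 :=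
  CellR2.step (Good.chk c16000_7000_7040_6600_6640_s0) (by decide) (by decide)
    (CellR2.step (Good.chk c16000_7000_7040_6600_6640_s1) (by decide) (by decide)
    (CellR2.step (Good.chk c16000_7000_7040_6600_6640_s2) (by decide) (by decide)
    (CellR2.step (Good.chk c16000_7000_7040_6600_6640_s3) (by decide) (by decide)
    (CellR2.step (Good.chk c16000_7000_7040_6600_6640_s4) (by decide) (by decide)
    (CellR2.step (Good.chk c16000_7000_7040_6600_6640_s5) (by decide) (by decide)
    (CellR2.step (Good.chk c16000_7000_7040_6600_6640_s6) (by decide) (by decide)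
    (CellR2.step (Good.chk c16000_7000_7040_6600_6640_s7) (by decide) (by decide)
    (CellR2.step (Good.chk c16000_7000_7040_6600_6640_s8) (by decide) (by decide)
    (CellR2.step (Good.chk c16000_7000_7040_6600_6640_s9) (by decide) (by decide)
    (CellR2.step (Good.chk c16000_7000_7040_6600_6640_s10) (by decide) (by decide)
    (CellR2.step (Good.chk c16000_7000_7040_6600_6640_s11) (by decide) (by decide)
    (CellR2.step (Good.chk c16000_7000_7040_6600_6640_s12) (by decide) (by decide)
    (CellR2.step (Good.chk c16000_7000_7040_6600_6640_s13) (by decide) (by decide)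
    (CellR2.step (Good.chk c16000_7000_7040_6600_6640_s14) (by decide) (by decide)
    (CellR2.step (Good.chk c16000_7000_7040_6600_6640_s15) (by decide) (by decide)
    (CellR2.step (Good.chk c16000_7000_7040_6600_6640_s16) (by decide) (by decide)
    (CellR2.step (Good.chk c16000_7000_7040_6600_6640_s17) (by decide) (by decide)
    (CellR2.fin c16000_7000_7040_6600_6640_f))))))))))))))))))

theorem c16000_7000_7040_6640_6680 : Cell2 16000 7000 7040 6640 6680 :=
  CellR2.step (Good.chk c16000_7000_7040_6640_6680_s0) (by decide) (by decide)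
    (CellR2.step (Good.chk c16000_7000_7040_6640_6680_s1) (by decide) (by decide)
    (CellR2.step (Good.chk c16000_7000_7040_6640_6680_s2) (by decide) (by decide)
    (CellR2.step (Good.chk c16000_7000_7040_6640_6680_s3) (by decide) (by decide)
    (CellR2.step (Good.chk c16000_7000_7040_6640_6680_s4) (by decide) (by decide)
    (CellR2.step (Good.chk c16000_7000_7040_6640_6680_s5) (by decide) (by decide)
    (CellR2.step (Good.chk c16000_7000_7040_6640_6680_s6) (by decide) (by decide)
    (CellR2.step (Good.chk c16000_7000_7040_6640_6680_s7) (by decide) (by decide)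
    (CellR2.step (Good.chk c16000_7000_7040_6640_6680_s8) (by decide) (by decide)
    (CellR2.step (Good.chk c16000_7000_7040_6640_6680_s9) (by decide) (by decide)
    (CellR2.fin c16000_7000_7040_6640_6680_f))))))))))

theorem c16000_7000_7040_6680_6720 : Cell2 16000 7000 7040 6680 6720 :=
  CellR2.step (Good.chk c16000_7000_7040_6680_6720_s0) (by decide) (by decide)
    (CellR2.step (Good.chk c16000_7000_7040_6680_6720_s1) (by decide) (by decide)
    (CellR2.step (Good.chk c16000_7000_7040_6680_6720_s2) (by decide) (by decide)
    (CellR2.step (Good.chk c16000_7000_7040_6680_6720_s3) (by decide) (by decide)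
    (CellR2.step (Good.chk c16000_7000_7040_6680_6720_s4) (by decide) (by decide)
    (CellR2.step (Good.chk c16000_7000_7040_6680_6720_s5) (by decide) (by decide)
    (CellR2.step (Good.chk c16000_7000_7040_6680_6720_s6) (by decide) (by decide)
    (CellR2.step (Good.chk c16000_7000_7040_6680_6720_s7) (by decide) (by decide)
    (CellR2.fin c16000_7000_7040_6680_6720_f))))))))

theorem c16000_7040_7200_4000_4640 : Cell2 16000 7040 7200 4000 4640 :=
  CellR2.fin c16000_7040_7200_4000_4640_f

theorem c16000_7040_7200_4640_4800 : Cell2 16000 7040 7200 4640 4800 :=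
  CellR2.fin c16000_7040_7200_4640_4800_f

theorem c16000_7040_7200_4800_4960 : Cell2 16000 7040 7200 4800 4960 :=
  CellR2.step (Good.chk c16000_7040_7200_4800_4960_s0) (by decide) (by decide)
    (CellR2.fin c16000_7040_7200_4800_4960_f)

theorem c16000_7040_7200_4960_5120 : Cell2 16000 7040 7200 4960 5120 :=
  CellR2.step (Good.chk c16000_7040_7200_4960_5120_s0) (by decide) (by decide)
    (CellR2.fin c16000_7040_7200_4960_5120_f)

theorem c16000_7040_7200_5120_5280 : Cell2 16000 7040 7200 5120 5280 :=
  CellR2.step (Good.chk c16000_7040_7200_5120_5280_s0) (by decide) (by decide)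
    (CellR2.fin c16000_7040_7200_5120_5280_f)

theorem c16000_7040_7200_5280_5440 : Cell2 16000 7040 7200 5280 5440 :=
  CellR2.step (Good.chk c16000_7040_7200_5280_5440_s0) (by decide) (by decide)
    (CellR2.fin c16000_7040_7200_5280_5440_f)

theorem c16000_7040_7200_5440_5600 : Cell2 16000 7040 7200 5440 5600 :=
  CellR2.step (Good.chk c16000_7040_7200_5440_5600_s0) (by decide) (by decide)
    (CellR2.step (Good.chk c16000_7040_7200_5440_5600_s1) (by decide) (by decide)
    (CellR2.fin c16000_7040_7200_5440_5600_f))

theorem c16000_7040_7200_5600_5760 : Cell2 16000 7040 7200 5600 5760 :=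
  CellR2.step (Good.chk c16000_7040_7200_5600_5760_s0) (by decide) (by decide)
    (CellR2.step (Good.chk c16000_7040_7200_5600_5760_s1) (by decide) (by decide)
    (CellR2.step (Good.chk c16000_7040_7200_5600_5760_s2) (by decide) (by decide)
    (CellR2.fin c16000_7040_7200_5600_5760_f)))

theorem c16000_7040_7200_5760_5920 : Cell2 16000 7040 7200 5760 5920 :=
  CellR2.step (Good.chk c16000_7040_7200_5760_5920_s0) (by decide) (by decide)
    (CellR2.step (Good.chk c16000_7040_7200_5760_5920_s1) (by decide) (by decide)
    (CellR2.step (Good.chk c16000_7040_7200_5760_5920_s2) (by decide) (by decide)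
    (CellR2.step (Good.chk c16000_7040_7200_5760_5920_s3) (by decide) (by decide)
    (CellR2.step (Good.chk c16000_7040_7200_5760_5920_s4) (by decide) (by decide)
    (CellR2.fin c16000_7040_7200_5760_5920_f)))))

theorem c16000_7040_7120_5920_6000 : Cell2 16000 7040 7120 5920 6000 :=
  CellR2.step (Good.chk c16000_7040_7120_5920_6000_s0) (by decide) (by decide)
    (CellR2.step (Good.chk c16000_7040_7120_5920_6000_s1) (by decide) (by decide)
    (CellR2.step (Good.chk c16000_7040_7120_5920_6000_s2) (by decide) (by decide)
    (CellR2.step (Good.chk c16000_7040_7120_5920_6000_s3) (by decide) (by decide)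
    (CellR2.step (Good.chk c16000_7040_7120_5920_6000_s4) (by decide) (by decide)
    (CellR2.step (Good.chk c16000_7040_7120_5920_6000_s5) (by decide) (by decide)
    (CellR2.step (Good.chk c16000_7040_7120_5920_6000_s6) (by decide) (by decide)
    (CellR2.step (Good.chk c16000_7040_7120_5920_6000_s7) (by decide) (by decide)
    (CellR2.step (Good.chk c16000_7040_7120_5920_6000_s8) (by decide) (by decide)
    (CellR2.step (Good.chk c16000_7040_7120_5920_6000_s9) (by decide) (by decide)
    (CellR2.step (Good.chk c16000_7040_7120_5920_6000_s10) (by decide) (by decide)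
    (CellR2.step (Good.chk c16000_7040_7120_5920_6000_s11) (by decide) (by decide)
    (CellR2.step (Good.chk c16000_7040_7120_5920_6000_s12) (by decide) (by decide)
    (CellR2.step (Good.chk c16000_7040_7120_5920_6000_s13) (by decide) (by decide)
    (CellR2.step (Good.chk c16000_7040_7120_5920_6000_s14) (by decide) (by decide)
    (CellR2.fin c16000_7040_7120_5920_6000_f)))))))))))))))

theorem c16000_7040_7120_6000_6080 : Cell2 16000 7040 7120 6000 6080 :=
  CellR2.step (Good.chk c16000_7040_7120_6000_6080_s0) (by decide) (by decide)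
    (CellR2.step (Good.chk c16000_7040_7120_6000_6080_s1) (by decide) (by decide)
    (CellR2.step (Good.chk c16000_7040_7120_6000_6080_s2) (by decide) (by decide)
    (CellR2.step (Good.chk c16000_7040_7120_6000_6080_s3) (by decide) (by decide)
    (CellR2.step (Good.chk c16000_7040_7120_6000_6080_s4) (by decide) (by decide)
    (CellR2.step (Good.chk c16000_7040_7120_6000_6080_s5) (by decide) (by decide)
    (CellR2.step (Good.chk c16000_7040_7120_6000_6080_s6) (by decide) (by decide)
    (CellR2.step (Good.chk c16000_7040_7120_6000_6080_s7) (by decide) (by decide)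
    (CellR2.step (Good.chk c16000_7040_7120_6000_6080_s8) (by decide) (by decide)
    (CellR2.step (Good.chk c16000_7040_7120_6000_6080_s9) (by decide) (by decide)
    (CellR2.step (Good.chk c16000_7040_7120_6000_6080_s10) (by decide) (by decide)
    (CellR2.step (Good.chk c16000_7040_7120_6000_6080_s11) (by decide) (by decide)
    (CellR2.step (Good.chk c16000_7040_7120_6000_6080_s12) (by decide) (by decide)
    (CellR2.step (Good.chk c16000_7040_7120_6000_6080_s13) (by decide) (by decide)
    (CellR2.step (Good.chk c16000_7040_7120_6000_6080_s14) (by decide) (by decide)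
    (CellR2.step (Good.chk c16000_7040_7120_6000_6080_s15) (by decide) (by decide)
    (CellR2.step (Good.chk c16000_7040_7120_6000_6080_s16) (by decide) (by decide)
    (CellR2.step (Good.chk c16000_7040_7120_6000_6080_s17) (by decide) (by decide)
    (CellR2.fin c16000_7040_7120_6000_6080_f))))))))))))))))))

end Pool.Agent.Helper5.B54
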