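import Pool.Agent.Helper5.B54v2.Cell2
import Pool.Agent.Helper5.B54v2.T.A344
import Pool.Agent.Helper5.B54v2.T.A345
import Pool.Agent.Helper5.B54v2.T.A346
import Pool.Agent.Helper5.B54v2.T.A347
import Pool.Agent.Helper5.B54v2.T.A348
import Pool.Agent.Helper5.B54v2.T.A349
import Pool.Agent.Helper5.B54v2.T.A350
import Pool.Agent.Helper5.B54v2.T.A351
import Pool.Agent.Helper5.B54v2.T.A352
import Pool.Agent.Helper5.B54v2.T.A353
import Pool.Agent.Helper5.B54v2.T.A354
import Pool.Agent.Helper5.B54v2.T.A355
import Pool.Agent.Helper5.B54v2.T.A356
import Pool.Agent.Helper5.B54v2.T.A357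
import Pool.Agent.Helper5.B54v2.T.A358
import Pool.Agent.Helper5.B54v2.T.A359
import Pool.Agent.Helper5.B54v2.T.A360
import Pool.Agent.Helper5.B54v2.T.A361
import Pool.Agent.Helper5.B54v2.T.A362
import Pool.Agent.Helper5.B54v2.T.A363
import Pool.Agent.Helper5.B54v2.T.A364
import Pool.Agent.Helper5.B54v2.T.A365
import Pool.Agent.Helper5.B54v2.T.A366
import Pool.Agent.Helper5.B54v2.T.A367
import Pool.Agent.Helper5.B54v2.T.A368
import Pool.Agent.Helper5.B54v2.T.A369
import Pool.Agent.Helper5.B54v2.T.A370
import Pool.Agent.Helper5.B54v2.T.A371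
import Pool.Agent.Helper5.B54v2.T.A372
import Pool.Agent.Helper5.B54v2.T.A373
import Pool.Agent.Helper5.B54v2.T.A374
import Pool.Agent.Helper5.B54v2.T.A375
import Pool.Agent.Helper5.B54v2.T.A376
import Pool.Agent.Helper5.B54v2.T.A377
import Pool.Agent.Helper5.B54v2.T.A378
import Pool.Agent.Helper5.B54v2.T.A379
import Pool.Agent.Helper5.B54v2.T.A380
import Pool.Agent.Helper5.B54v2.T.A381
import Pool.Agent.Helper5.B54v2.T.A382
import Pool.Agent.Helper5.B54v2.T.A383
import Pool.Agent.Helper5.B54v2.T.A384
import Pool.Agent.Helper5.B54v2.T.A385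
import Pool.Agent.Helper5.B54v2.T.A386
import Pool.Agent.Helper5.B54v2.T.A387
import Pool.Agent.Helper5.B54v2.T.A388
import Pool.Agent.Helper5.B54v2.T.A389
import Pool.Agent.Helper5.B54v2.T.A390
import Pool.Agent.Helper5.B54v2.T.A391
import Pool.Agent.Helper5.B54v2.T.A392
import Pool.Agent.Helper5.B54v2.T.A393
import Pool.Agent.Helper5.B54v2.T.A394
import Pool.Agent.Helper5.B54v2.T.A395
import Pool.Agent.Helper5.B54v2.T.A396
import Pool.Agent.Helper5.B54v2.T.A397
import Pool.Agent.Helper5.B54v2.T.A398
import Pool.Agent.Helper5.B54v2.T.A399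
import Pool.Agent.Helper5.B54v2.T.A400
import Pool.Agent.Helper5.B54v2.T.A401
import Pool.Agent.Helper5.B54v2.T.A402
import Pool.Agent.Helper5.B54v2.T.A403
import Pool.Agent.Helper5.B54v2.T.A404
import Pool.Agent.Helper5.B54v2.T.A405
import Pool.Agent.Helper5.B54v2.T.A406
import Pool.Agent.Helper5.B54v2.T.A407
import Pool.Agent.Helper5.B54v2.T.A408
import Pool.Agent.Helper5.B54v2.T.A409
import Pool.Agent.Helper5.B54v2.T.A410
import Pool.Agent.Helper5.B54v2.T.A411
import Pool.Agent.Helper5.B54v2.T.A412
import Pool.Agent.Helper5.B54v2.T.A413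
import Pool.Agent.Helper5.B54v2.T.A414
import Pool.Agent.Helper5.B54v2.T.A415
import Pool.Agent.Helper5.B54v2.T.A416
import Pool.Agent.Helper5.B54v2.T.A417
import Pool.Agent.Helper5.B54v2.T.A418
import Pool.Agent.Helper5.B54v2.T.A419
import Pool.Agent.Helper5.B54v2.T.A420
import Pool.Agent.Helper5.B54v2.T.A421
import Pool.Agent.Helper5.B54v2.T.A422
import Pool.Agent.Helper5.B54v2.T.A423
import Pool.Agent.Helper5.B54v2.T.A424
import Pool.Agent.Helper5.B54v2.T.A425
import Pool.Agent.Helper5.B54v2.T.A426
import Pool.Agent.Helper5.B54v2.T.A427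
import Pool.Agent.Helper5.B54v2.T.A428
import Pool.Agent.Helper5.B54v2.T.A429
import Pool.Agent.Helper5.B54v2.T.A430
import Pool.Agent.Helper5.B54v2.T.A431
import Pool.Agent.Helper5.B54v2.T.A432
import Pool.Agent.Helper5.B54v2.T.A433
import Pool.Agent.Helper5.B54v2.T.A434
import Pool.Agent.Helper5.B54v2.T.A435
import Pool.Agent.Helper5.B54v2.T.A436
import Pool.Agent.Helper5.B54v2.T.A437
import Pool.Agent.Helper5.B54v2.T.A438
import Pool.Agent.Helper5.B54v2.T.A439
import Pool.Agent.Helper5.B54v2.T.A440
import Pool.Agent.Helper5.B54v2.T.A441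
import Pool.Agent.Helper5.B54v2.T.A442
import Pool.Agent.Helper5.B54v2.T.A443
import Pool.Agent.Helper5.B54v2.T.A444
import Pool.Agent.Helper5.B54v2.T.A445
import Pool.Agent.Helper5.B54v2.T.A446
import Pool.Agent.Helper5.B54v2.T.A447
import Pool.Agent.Helper5.B54v2.T.A448
import Pool.Agent.Helper5.B54v2.T.A449
import Pool.Agent.Helper5.B54v2.T.A450
import Pool.Agent.Helper5.B54v2.T.A451
import Pool.Agent.Helper5.B54v2.T.A452
import Pool.Agent.Helper5.B54v2.T.A453
import Pool.Agent.Helper5.B54v2.T.A454
import Pool.Agent.Helper5.B54v2.T.A455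
import Pool.Agent.Helper5.B54v2.T.A456
import Pool.Agent.Helper5.B54v2.T.A457
import Pool.Agent.Helper5.B54v2.T.A458
import Pool.Agent.Helper5.B54v2.T.A459
import Pool.Agent.Helper5.B54v2.T.A460
import Pool.Agent.Helper5.B54v2.T.A461
import Pool.Agent.Helper5.B54v2.T.A462
import Pool.Agent.Helper5.B54v2.T.A463
import Pool.Agent.Helper5.B54v2.T.A464
import Pool.Agent.Helper5.B54v2.T.A465
import Pool.Agent.Helper5.B54v2.T.A466
import Pool.Agent.Helper5.B54v2.T.A467
import Pool.Agent.Helper5.B54v2.T.A468
import Pool.Agent.Helper5.B54v2.T.A469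
import Pool.Agent.Helper5.B54v2.T.A470
import Pool.Agent.Helper5.B54v2.T.A471
import Pool.Agent.Helper5.B54v2.T.A472
import Pool.Agent.Helper5.B54v2.T.A473
import Pool.Agent.Helper5.B54v2.T.A474
import Pool.Agent.Helper5.B54v2.T.A475
import Pool.Agent.Helper5.B54v2.T.A476
import Pool.Agent.Helper5.B54v2.T.A477
import Pool.Agent.Helper5.B54v2.T.A478
import Pool.Agent.Helper5.B54v2.T.A479
import Pool.Agent.Helper5.B54v2.T.A480
import Pool.Agent.Helper5.B54v2.T.A481
import Pool.Agent.Helper5.B54v2.T.A482
import Pool.Agent.Helper5.B54v2.T.A483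
import Pool.Agent.Helper5.B54v2.T.A484
import Pool.Agent.Helper5.B54v2.T.A485
import Pool.Agent.Helper5.B54v2.T.A486
import Pool.Agent.Helper5.B54v2.T.A487
import Pool.Agent.Helper5.B54v2.T.A488
import Pool.Agent.Helper5.B54v2.T.A489
import Pool.Agent.Helper5.B54v2.T.A490
import Pool.Agent.Helper5.B54v2.T.A491
import Pool.Agent.Helper5.B54v2.T.A492
import Pool.Agent.Helper5.B54v2.T.A493
import Pool.Agent.Helper5.B54v2.T.A494
import Pool.Agent.Helper5.B54v2.T.A495
import Pool.Agent.Helper5.B54v2.T.A496
import Pool.Agent.Helper5.B54v2.T.A497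
import Pool.Agent.Helper5.B54v2.T.A498
import Pool.Agent.Helper5.B54v2.T.A499
import Pool.Agent.Helper5.B54v2.T.A500
import Pool.Agent.Helper5.B54v2.T.A501
import Pool.Agent.Helper5.B54v2.T.A502
import Pool.Agent.Helper5.B54v2.T.A503
import Pool.Agent.Helper5.B54v2.T.A504
import Pool.Agent.Helper5.B54v2.T.A505
import Pool.Agent.Helper5.B54v2.T.A506
import Pool.Agent.Helper5.B54v2.T.A507
import Pool.Agent.Helper5.B54v2.T.A508
import Pool.Agent.Helper5.B54v2.T.A509
import Pool.Agent.Helper5.B54v2.T.A510

/-!
# Cells
-/

namespace Pool.Agent.Helper5.B54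

theorem c16000_7040_7120_6080_6160 : Cell2 16000 7040 7120 6080 6160 :=
  CellR2.step (Good.chk c16000_7040_7120_6080_6160_s0) (by decide) (by decide)
    (CellR2.step (Good.chk c16000_7040_7120_6080_6160_s1) (by decide) (by decide)
    (CellR2.step (Good.chk c16000_7040_7120_6080_6160_s2) (by decide) (by decide)
    (CellR2.step (Good.chk c16000_7040_7120_6080_6160_s3) (by decide) (by decide)
    (CellR2.step (Good.chk c16000_7040_7120_6080_6160_s4) (by decide) (by decide)
    (CellR2.step (Good.chk c16000_7040_7120_6080_6160_s5) (by decide) (by decide)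
    (CellR2.step (Good.chk c16000_7040_7120_6080_6160_s6) (by decide) (by decide)
    (CellR2.step (Good.chk c16000_7040_7120_6080_6160_s7) (by decide) (by decide)
    (CellR2.step (Good.chk c16000_7040_7120_6080_6160_s8) (by decide) (by decide)
    (CellR2.step (Good.chk c16000_7040_7120_6080_6160_s9) (by decide) (by decide)
    (CellR2.step (Good.chk c16000_7040_7120_6080_6160_s10) (by decide) (by decide)
    (CellR2.step (Good.chk c16000_7040_7120_6080_6160_s11) (by decide) (by decide)
    (CellR2.step (Good.chk c16000_7040_7120_6080_6160_s12) (by decide) (by decide)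
    (CellR2.step (Good.chk c16000_7040_7120_6080_6160_s13) (by decide) (by decide)
    (CellR2.step (Good.chk c16000_7040_7120_6080_6160_s14) (by decide) (by decide)
    (CellR2.step (Good.chk c16000_7040_7120_6080_6160_s15) (by decide) (by decide)
    (CellR2.step (Good.chk c16000_7040_7120_6080_6160_s16) (by decide) (by decide)
    (CellR2.step (Good.chk c16000_7040_7120_6080_6160_s17) (by decide) (by decide)
    (CellR2.step (Good.chk c16000_7040_7120_6080_6160_s18) (by decide) (by decide)
    (CellR2.step (Good.chk c16000_7040_7120_6080_6160_s19) (by decide) (by decide)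
    (CellR2.step (Good.chk c16000_7040_7120_6080_6160_s20) (by decide) (by decide)
    (CellR2.step (Good.chk c16000_7040_7120_6080_6160_s21) (by decide) (by decide)
    (CellR2.step (Good.chk c16000_7040_7120_6080_6160_s22) (by decide) (by decide)
    (CellR2.step (Good.chk c16000_7040_7120_6080_6160_s23) (by decide) (by decide)
    (CellR2.step (Good.chk c16000_7040_7120_6080_6160_s24) (by decide) (by decide)
    (CellR2.step (Good.chk c16000_7040_7120_6080_6160_s25) (by decide) (by decide)
    (CellR2.step (Good.chk c16000_7040_7120_6080_6160_s26) (by decide) (by decide)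
    (CellR2.step (Good.chk c16000_7040_7120_6080_6160_s27) (by decide) (by decide)
    (CellR2.step (Good.chk c16000_7040_7120_6080_6160_s28) (by decide) (by decide)
    (CellR2.step (Good.chk c16000_7040_7120_6080_6160_s29) (by decide) (by decide)
    (CellR2.fin c16000_7040_7120_6080_6160_f))))))))))))))))))))))))))))))

theorem c16000_7040_7080_6160_6200 : Cell2 16000 7040 7080 6160 6200 :=
  CellR2.step (Good.chk c16000_7040_7080_6160_6200_s0) (by decide) (by decide)
    (CellR2.step (Good.chk c16000_7040_7080_6160_6200_s1) (by decide) (by decide)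
    (CellR2.step (Good.chk c16000_7040_7080_6160_6200_s2) (by decide) (by decide)
    (CellR2.step (Good.chk c16000_7040_7080_6160_6200_s3) (by decide) (by decide)
    (CellR2.step (Good.chk c16000_7040_7080_6160_6200_s4) (by decide) (by decide)
    (CellR2.step (Good.chk c16000_7040_7080_6160_6200_s5) (by decide) (by decide)
    (CellR2.step (Good.chk c16000_7040_7080_6160_6200_s6) (by decide) (by decide)
    (CellR2.step (Good.chk c16000_7040_7080_6160_6200_s7) (by decide) (by decide)
    (CellR2.step (Good.chk c16000_7040_7080_6160_6200_s8) (by decide) (by decide)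
    (CellR2.step (Good.chk c16000_7040_7080_6160_6200_s9) (by decide) (by decide)
    (CellR2.step (Good.chk c16000_7040_7080_6160_6200_s10) (by decide) (by decide)
    (CellR2.step (Good.chk c16000_7040_7080_6160_6200_s11) (by decide) (by decide)
    (CellR2.step (Good.chk c16000_7040_7080_6160_6200_s12) (by decide) (by decide)
    (CellR2.step (Good.chk c16000_7040_7080_6160_6200_s13) (by decide) (by decide)
    (CellR2.step (Good.chk c16000_7040_7080_6160_6200_s14) (by decide) (by decide)
    (CellR2.step (Good.chk c16000_7040_7080_6160_6200_s15) (by decide) (by decide)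
    (CellR2.step (Good.chk c16000_7040_7080_6160_6200_s16) (by decide) (by decide)
    (CellR2.fin c16000_7040_7080_6160_6200_f)))))))))))))))))

theorem c16000_7040_7080_6200_6240 : Cell2 16000 7040 7080 6200 6240 :=
  CellR2.step (Good.chk c16000_7040_7080_6200_6240_s0) (by decide) (by decide)
    (CellR2.step (Good.chk c16000_7040_7080_6200_6240_s1) (by decide) (by decide)
    (CellR2.step (Good.chk c16000_7040_7080_6200_6240_s2) (by decide) (by decide)
    (CellR2.step (Good.chk c16000_7040_7080_6200_6240_s3) (by decide) (by decide)
    (CellR2.step (Good.chk c16000_7040_7080_6200_6240_s4) (by decide) (by decide)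
    (CellR2.step (Good.chk c16000_7040_7080_6200_6240_s5) (by decide) (by decide)
    (CellR2.step (Good.chk c16000_7040_7080_6200_6240_s6) (by decide) (by decide)
    (CellR2.step (Good.chk c16000_7040_7080_6200_6240_s7) (by decide) (by decide)
    (CellR2.step (Good.chk c16000_7040_7080_6200_6240_s8) (by decide) (by decide)
    (CellR2.step (Good.chk c16000_7040_7080_6200_6240_s9) (by decide) (by decide)
    (CellR2.step (Good.chk c16000_7040_7080_6200_6240_s10) (by decide) (by decide)
    (CellR2.step (Good.chk c16000_7040_7080_6200_6240_s11) (by decide) (by decide)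
    (CellR2.step (Good.chk c16000_7040_7080_6200_6240_s12) (by decide) (by decide)
    (CellR2.step (Good.chk c16000_7040_7080_6200_6240_s13) (by decide) (by decide)
    (CellR2.step (Good.chk c16000_7040_7080_6200_6240_s14) (by decide) (by decide)
    (CellR2.step (Good.chk c16000_7040_7080_6200_6240_s15) (by decide) (by decide)
    (CellR2.step (Good.chk c16000_7040_7080_6200_6240_s16) (by decide) (by decide)
    (CellR2.step (Good.chk c16000_7040_7080_6200_6240_s17) (by decide) (by decide)
    (CellR2.step (Good.chk c16000_7040_7080_6200_6240_s18) (by decide) (by decide)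
    (CellR2.step (Good.chk c16000_7040_7080_6200_6240_s19) (by decide) (by decide)
    (CellR2.step (Good.chk c16000_7040_7080_6200_6240_s20) (by decide) (by decide)
    (CellR2.fin c16000_7040_7080_6200_6240_f)))))))))))))))))))))

theorem c16000_7040_7120_6720_6800 : Cell2 16000 7040 7120 6720 6800 :=
  CellR2.step (Good.chk c16000_7040_7120_6720_6800_s0) (by decide) (by decide)
    (CellR2.step (Good.chk c16000_7040_7120_6720_6800_s1) (by decide) (by decide)
    (CellR2.step (Good.chk c16000_7040_7120_6720_6800_s2) (by decide) (by decide)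
    (CellR2.step (Good.chk c16000_7040_7120_6720_6800_s3) (by decide) (by decide)
    (CellR2.step (Good.chk c16000_7040_7120_6720_6800_s4) (by decide) (by decide)
    (CellR2.step (Good.chk c16000_7040_7120_6720_6800_s5) (by decide) (by decide)
    (CellR2.step (Good.chk c16000_7040_7120_6720_6800_s6) (by decide) (by decide)
    (CellR2.step (Good.chk c16000_7040_7120_6720_6800_s7) (by decide) (by decide)
    (CellR2.step (Good.chk c16000_7040_7120_6720_6800_s8) (by decide) (by decide)
    (CellR2.step (Good.chk c16000_7040_7120_6720_6800_s9) (by decide) (by decide)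
    (CellR2.step (Good.chk c16000_7040_7120_6720_6800_s10) (by decide) (by decide)
    (CellR2.step (Good.chk c16000_7040_7120_6720_6800_s11) (by decide) (by decide)
    (CellR2.step (Good.chk c16000_7040_7120_6720_6800_s12) (by decide) (by decide)
    (CellR2.step (Good.chk c16000_7040_7120_6720_6800_s13) (by decide) (by decide)
    (CellR2.step (Good.chk c16000_7040_7120_6720_6800_s14) (by decide) (by decide)
    (CellR2.step (Good.chk c16000_7040_7120_6720_6800_s15) (by decide) (by decide)
    (CellR2.step (Good.chk c16000_7040_7120_6720_6800_s16) (by decide) (by decide)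
    (CellR2.step (Good.chk c16000_7040_7120_6720_6800_s17) (by decide) (by decide)
    (CellR2.step (Good.chk c16000_7040_7120_6720_6800_s18) (by decide) (by decide)
    (CellR2.step (Good.chk c16000_7040_7120_6720_6800_s19) (by decide) (by decide)
    (CellR2.step (Good.chk c16000_7040_7120_6720_6800_s20) (by decide) (by decide)
    (CellR2.step (Good.chk c16000_7040_7120_6720_6800_s21) (by decide) (by decide)
    (CellR2.step (Good.chk c16000_7040_7120_6720_6800_s22) (by decide) (by decide)
    (CellR2.step (Good.chk c16000_7040_7120_6720_6800_s23) (by decide) (by decide)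
    (CellR2.step (Good.chk c16000_7040_7120_6720_6800_s24) (by decide) (by decide)
    (CellR2.step (Good.chk c16000_7040_7120_6720_6800_s25) (by decide) (by decide)
    (CellR2.step (Good.chk c16000_7040_7120_6720_6800_s26) (by decide) (by decide)
    (CellR2.fin c16000_7040_7120_6720_6800_f)))))))))))))))))))))))))))

theorem c16000_7040_7120_6800_6880 : Cell2 16000 7040 7120 6800 6880 :=
  CellR2.step (Good.chk c16000_7040_7120_6800_6880_s0) (by decide) (by decide)
    (CellR2.step (Good.chk c16000_7040_7120_6800_6880_s1) (by decide) (by decide)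
    (CellR2.step (Good.chk c16000_7040_7120_6800_6880_s2) (by decide) (by decide)
    (CellR2.step (Good.chk c16000_7040_7120_6800_6880_s3) (by decide) (by decide)
    (CellR2.step (Good.chk c16000_7040_7120_6800_6880_s4) (by decide) (by decide)
    (CellR2.step (Good.chk c16000_7040_7120_6800_6880_s5) (by decide) (by decide)
    (CellR2.step (Good.chk c16000_7040_7120_6800_6880_s6) (by decide) (by decide)
    (CellR2.step (Good.chk c16000_7040_7120_6800_6880_s7) (by decide) (by decide)
    (CellR2.step (Good.chk c16000_7040_7120_6800_6880_s8) (by decide) (by decide)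
    (CellR2.step (Good.chk c16000_7040_7120_6800_6880_s9) (by decide) (by decide)
    (CellR2.step (Good.chk c16000_7040_7120_6800_6880_s10) (by decide) (by decide)
    (CellR2.step (Good.chk c16000_7040_7120_6800_6880_s11) (by decide) (by decide)
    (CellR2.step (Good.chk c16000_7040_7120_6800_6880_s12) (by decide) (by decide)
    (CellR2.step (Good.chk c16000_7040_7120_6800_6880_s13) (by decide) (by decide)
    (CellR2.step (Good.chk c16000_7040_7120_6800_6880_s14) (by decide) (by decide)
    (CellR2.fin c16000_7040_7120_6800_6880_f)))))))))))))))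

theorem c16000_7040_7120_6880_6960 : Cell2 16000 7040 7120 6880 6960 :=
  CellR2.step (Good.chk c16000_7040_7120_6880_6960_s0) (by decide) (by decide)
    (CellR2.step (Good.chk c16000_7040_7120_6880_6960_s1) (by decide) (by decide)
    (CellR2.step (Good.chk c16000_7040_7120_6880_6960_s2) (by decide) (by decide)
    (CellR2.step (Good.chk c16000_7040_7120_6880_6960_s3) (by decide) (by decide)
    (CellR2.step (Good.chk c16000_7040_7120_6880_6960_s4) (by decide) (by decide)
    (CellR2.step (Good.chk c16000_7040_7120_6880_6960_s5) (by decide) (by decide)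
    (CellR2.step (Good.chk c16000_7040_7120_6880_6960_s6) (by decide) (by decide)
    (CellR2.step (Good.chk c16000_7040_7120_6880_6960_s7) (by decide) (by decide)
    (CellR2.step (Good.chk c16000_7040_7120_6880_6960_s8) (by decide) (by decide)
    (CellR2.step (Good.chk c16000_7040_7120_6880_6960_s9) (by decide) (by decide)
    (CellR2.step (Good.chk c16000_7040_7120_6880_6960_s10) (by decide) (by decide)
    (CellR2.step (Good.chk c16000_7040_7120_6880_6960_s11) (by decide) (by decide)
    (CellR2.step (Good.chk c16000_7040_7120_6880_6960_s12) (by decide) (by decide)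
    (CellR2.step (Good.chk c16000_7040_7120_6880_6960_s13) (by decide) (by decide)
    (CellR2.fin c16000_7040_7120_6880_6960_f))))))))))))))

theorem c16000_7040_7120_6960_7040 : Cell2 16000 7040 7120 6960 7040 :=
  CellR2.step (Good.chk c16000_7040_7120_6960_7040_s0) (by decide) (by decide)
    (CellR2.step (Good.chk c16000_7040_7120_6960_7040_s1) (by decide) (by decide)
    (CellR2.step (Good.chk c16000_7040_7120_6960_7040_s2) (by decide) (by decide)
    (CellR2.fin c16000_7040_7120_6960_7040_f)))

theorem c16000_7040_7200_7040_7200 : Cell2 16000 7040 7200 7040 7200 :=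
  CellR2.step (Good.chk c16000_7040_7200_7040_7200_s0) (by decide) (by decide)
    (CellR2.step (Good.chk c16000_7040_7200_7040_7200_s1) (by decide) (by decide)
    (CellR2.fin c16000_7040_7200_7040_7200_f))

theorem c16000_7080_7120_6160_6200 : Cell2 16000 7080 7120 6160 6200 :=
  CellR2.step (Good.chk c16000_7080_7120_6160_6200_s0) (by decide) (by decide)
    (CellR2.step (Good.chk c16000_7080_7120_6160_6200_s1) (by decide) (by decide)
    (CellR2.step (Good.chk c16000_7080_7120_6160_6200_s2) (by decide) (by decide)
    (CellR2.step (Good.chk c16000_7080_7120_6160_6200_s3) (by decide) (by decide)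
    (CellR2.step (Good.chk c16000_7080_7120_6160_6200_s4) (by decide) (by decide)
    (CellR2.step (Good.chk c16000_7080_7120_6160_6200_s5) (by decide) (by decide)
    (CellR2.step (Good.chk c16000_7080_7120_6160_6200_s6) (by decide) (by decide)
    (CellR2.step (Good.chk c16000_7080_7120_6160_6200_s7) (by decide) (by decide)
    (CellR2.step (Good.chk c16000_7080_7120_6160_6200_s8) (by decide) (by decide)
    (CellR2.step (Good.chk c16000_7080_7120_6160_6200_s9) (by decide) (by decide)
    (CellR2.step (Good.chk c16000_7080_7120_6160_6200_s10) (by decide) (by decide)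
    (CellR2.step (Good.chk c16000_7080_7120_6160_6200_s11) (by decide) (by decide)
    (CellR2.fin c16000_7080_7120_6160_6200_f))))))))))))

theorem c16000_7080_7120_6200_6240 : Cell2 16000 7080 7120 6200 6240 :=
  CellR2.step (Good.chk c16000_7080_7120_6200_6240_s0) (by decide) (by decide)
    (CellR2.step (Good.chk c16000_7080_7120_6200_6240_s1) (by decide) (by decide)
    (CellR2.step (Good.chk c16000_7080_7120_6200_6240_s2) (by decide) (by decide)
    (CellR2.step (Good.chk c16000_7080_7120_6200_6240_s3) (by decide) (by decide)
    (CellR2.step (Good.chk c16000_7080_7120_6200_6240_s4) (by decide) (by decide)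
    (CellR2.step (Good.chk c16000_7080_7120_6200_6240_s5) (by decide) (by decide)
    (CellR2.step (Good.chk c16000_7080_7120_6200_6240_s6) (by decide) (by decide)
    (CellR2.step (Good.chk c16000_7080_7120_6200_6240_s7) (by decide) (by decide)
    (CellR2.step (Good.chk c16000_7080_7120_6200_6240_s8) (by decide) (by decide)
    (CellR2.step (Good.chk c16000_7080_7120_6200_6240_s9) (by decide) (by decide)
    (CellR2.step (Good.chk c16000_7080_7120_6200_6240_s10) (by decide) (by decide)
    (CellR2.step (Good.chk c16000_7080_7120_6200_6240_s11) (by decide) (by decide)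
    (CellR2.step (Good.chk c16000_7080_7120_6200_6240_s12) (by decide) (by decide)
    (CellR2.step (Good.chk c16000_7080_7120_6200_6240_s13) (by decide) (by decide)
    (CellR2.fin c16000_7080_7120_6200_6240_f))))))))))))))

theorem c16000_7120_7200_5920_6000 : Cell2 16000 7120 7200 5920 6000 :=
  CellR2.step (Good.chk c16000_7120_7200_5920_6000_s0) (by decide) (by decide)
    (CellR2.step (Good.chk c16000_7120_7200_5920_6000_s1) (by decide) (by decide)
    (CellR2.step (Good.chk c16000_7120_7200_5920_6000_s2) (by decide) (by decide)
    (CellR2.step (Good.chk c16000_7120_7200_5920_6000_s3) (by decide) (by decide)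
    (CellR2.step (Good.chk c16000_7120_7200_5920_6000_s4) (by decide) (by decide)
    (CellR2.step (Good.chk c16000_7120_7200_5920_6000_s5) (by decide) (by decide)
    (CellR2.step (Good.chk c16000_7120_7200_5920_6000_s6) (by decide) (by decide)
    (CellR2.step (Good.chk c16000_7120_7200_5920_6000_s7) (by decide) (by decide)
    (CellR2.step (Good.chk c16000_7120_7200_5920_6000_s8) (by decide) (by decide)
    (CellR2.fin c16000_7120_7200_5920_6000_f)))))))))

theorem c16000_7120_7200_6000_6080 : Cell2 16000 7120 7200 6000 6080 :=
  CellR2.step (Good.chk c16000_7120_7200_6000_6080_s0) (by decide) (by decide)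
    (CellR2.step (Good.chk c16000_7120_7200_6000_6080_s1) (by decide) (by decide)
    (CellR2.step (Good.chk c16000_7120_7200_6000_6080_s2) (by decide) (by decide)
    (CellR2.step (Good.chk c16000_7120_7200_6000_6080_s3) (by decide) (by decide)
    (CellR2.step (Good.chk c16000_7120_7200_6000_6080_s4) (by decide) (by decide)
    (CellR2.step (Good.chk c16000_7120_7200_6000_6080_s5) (by decide) (by decide)
    (CellR2.step (Good.chk c16000_7120_7200_6000_6080_s6) (by decide) (by decide)
    (CellR2.step (Good.chk c16000_7120_7200_6000_6080_s7) (by decide) (by decide)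
    (CellR2.step (Good.chk c16000_7120_7200_6000_6080_s8) (by decide) (by decide)
    (CellR2.step (Good.chk c16000_7120_7200_6000_6080_s9) (by decide) (by decide)
    (CellR2.step (Good.chk c16000_7120_7200_6000_6080_s10) (by decide) (by decide)
    (CellR2.step (Good.chk c16000_7120_7200_6000_6080_s11) (by decide) (by decide)
    (CellR2.step (Good.chk c16000_7120_7200_6000_6080_s12) (by decide) (by decide)
    (CellR2.step (Good.chk c16000_7120_7200_6000_6080_s13) (by decide) (by decide)
    (CellR2.step (Good.chk c16000_7120_7200_6000_6080_s14) (by decide) (by decide)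
    (CellR2.step (Good.chk c16000_7120_7200_6000_6080_s15) (by decide) (by decide)
    (CellR2.step (Good.chk c16000_7120_7200_6000_6080_s16) (by decide) (by decide)
    (CellR2.fin c16000_7120_7200_6000_6080_f)))))))))))))))))

theorem c16000_7120_7200_6080_6160 : Cell2 16000 7120 7200 6080 6160 :=
  CellR2.step (Good.chk c16000_7120_7200_6080_6160_s0) (by decide) (by decide)
    (CellR2.step (Good.chk c16000_7120_7200_6080_6160_s1) (by decide) (by decide)
    (CellR2.step (Good.chk c16000_7120_7200_6080_6160_s2) (by decide) (by decide)
    (CellR2.step (Good.chk c16000_7120_7200_6080_6160_s3) (by decide) (by decide)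
    (CellR2.step (Good.chk c16000_7120_7200_6080_6160_s4) (by decide) (by decide)
    (CellR2.step (Good.chk c16000_7120_7200_6080_6160_s5) (by decide) (by decide)
    (CellR2.step (Good.chk c16000_7120_7200_6080_6160_s6) (by decide) (by decide)
    (CellR2.step (Good.chk c16000_7120_7200_6080_6160_s7) (by decide) (by decide)
    (CellR2.step (Good.chk c16000_7120_7200_6080_6160_s8) (by decide) (by decide)
    (CellR2.step (Good.chk c16000_7120_7200_6080_6160_s9) (by decide) (by decide)
    (CellR2.step (Good.chk c16000_7120_7200_6080_6160_s10) (by decide) (by decide)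
    (CellR2.step (Good.chk c16000_7120_7200_6080_6160_s11) (by decide) (by decide)
    (CellR2.step (Good.chk c16000_7120_7200_6080_6160_s12) (by decide) (by decide)
    (CellR2.step (Good.chk c16000_7120_7200_6080_6160_s13) (by decide) (by decide)
    (CellR2.step (Good.chk c16000_7120_7200_6080_6160_s14) (by decide) (by decide)
    (CellR2.step (Good.chk c16000_7120_7200_6080_6160_s15) (by decide) (by decide)
    (CellR2.step (Good.chk c16000_7120_7200_6080_6160_s16) (by decide) (by decide)
    (CellR2.step (Good.chk c16000_7120_7200_6080_6160_s17) (by decide) (by decide)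
    (CellR2.step (Good.chk c16000_7120_7200_6080_6160_s18) (by decide) (by decide)
    (CellR2.step (Good.chk c16000_7120_7200_6080_6160_s19) (by decide) (by decide)
    (CellR2.step (Good.chk c16000_7120_7200_6080_6160_s20) (by decide) (by decide)
    (CellR2.fin c16000_7120_7200_6080_6160_f)))))))))))))))))))))

theorem c16000_7120_7200_6160_6240 : Cell2 16000 7120 7200 6160 6240 :=
  CellR2.step (Good.chk c16000_7120_7200_6160_6240_s0) (by decide) (by decide)
    (CellR2.step (Good.chk c16000_7120_7200_6160_6240_s1) (by decide) (by decide)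
    (CellR2.step (Good.chk c16000_7120_7200_6160_6240_s2) (by decide) (by decide)
    (CellR2.step (Good.chk c16000_7120_7200_6160_6240_s3) (by decide) (by decide)
    (CellR2.step (Good.chk c16000_7120_7200_6160_6240_s4) (by decide) (by decide)
    (CellR2.step (Good.chk c16000_7120_7200_6160_6240_s5) (by decide) (by decide)
    (CellR2.step (Good.chk c16000_7120_7200_6160_6240_s6) (by decide) (by decide)
    (CellR2.step (Good.chk c16000_7120_7200_6160_6240_s7) (by decide) (by decide)
    (CellR2.step (Good.chk c16000_7120_7200_6160_6240_s8) (by decide) (by decide)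
    (CellR2.step (Good.chk c16000_7120_7200_6160_6240_s9) (by decide) (by decide)
    (CellR2.step (Good.chk c16000_7120_7200_6160_6240_s10) (by decide) (by decide)
    (CellR2.step (Good.chk c16000_7120_7200_6160_6240_s11) (by decide) (by decide)
    (CellR2.step (Good.chk c16000_7120_7200_6160_6240_s12) (by decide) (by decide)
    (CellR2.step (Good.chk c16000_7120_7200_6160_6240_s13) (by decide) (by decide)
    (CellR2.step (Good.chk c16000_7120_7200_6160_6240_s14) (by decide) (by decide)
    (CellR2.step (Good.chk c16000_7120_7200_6160_6240_s15) (by decide) (by decide)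
    (CellR2.step (Good.chk c16000_7120_7200_6160_6240_s16) (by decide) (by decide)
    (CellR2.step (Good.chk c16000_7120_7200_6160_6240_s17) (by decide) (by decide)
    (CellR2.step (Good.chk c16000_7120_7200_6160_6240_s18) (by decide) (by decide)
    (CellR2.step (Good.chk c16000_7120_7200_6160_6240_s19) (by decide) (by decide)
    (CellR2.step (Good.chk c16000_7120_7200_6160_6240_s20) (by decide) (by decide)
    (CellR2.step (Good.chk c16000_7120_7200_6160_6240_s21) (by decide) (by decide)
    (CellR2.step (Good.chk c16000_7120_7200_6160_6240_s22) (by decide) (by decide)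
    (CellR2.step (Good.chk c16000_7120_7200_6160_6240_s23) (by decide) (by decide)
    (CellR2.step (Good.chk c16000_7120_7200_6160_6240_s24) (by decide) (by decide)
    (CellR2.step (Good.chk c16000_7120_7200_6160_6240_s25) (by decide) (by decide)
    (CellR2.fin c16000_7120_7200_6160_6240_f))))))))))))))))))))))))))

theorem c16000_7120_7160_6720_6760 : Cell2 16000 7120 7160 6720 6760 :=
  CellR2.step (Good.chk c16000_7120_7160_6720_6760_s0) (by decide) (by decide)
    (CellR2.step (Good.chk c16000_7120_7160_6720_6760_s1) (by decide) (by decide)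
    (CellR2.step (Good.chk c16000_7120_7160_6720_6760_s2) (by decide) (by decide)
    (CellR2.step (Good.chk c16000_7120_7160_6720_6760_s3) (by decide) (by decide)
    (CellR2.step (Good.chk c16000_7120_7160_6720_6760_s4) (by decide) (by decide)
    (CellR2.step (Good.chk c16000_7120_7160_6720_6760_s5) (by decide) (by decide)
    (CellR2.step (Good.chk c16000_7120_7160_6720_6760_s6) (by decide) (by decide)
    (CellR2.step (Good.chk c16000_7120_7160_6720_6760_s7) (by decide) (by decide)
    (CellR2.step (Good.chk c16000_7120_7160_6720_6760_s8) (by decide) (by decide)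
    (CellR2.step (Good.chk c16000_7120_7160_6720_6760_s9) (by decide) (by decide)
    (CellR2.step (Good.chk c16000_7120_7160_6720_6760_s10) (by decide) (by decide)
    (CellR2.step (Good.chk c16000_7120_7160_6720_6760_s11) (by decide) (by decide)
    (CellR2.fin c16000_7120_7160_6720_6760_f))))))))))))

theorem c16000_7120_7160_6760_6800 : Cell2 16000 7120 7160 6760 6800 :=
  CellR2.step (Good.chk c16000_7120_7160_6760_6800_s0) (by decide) (by decide)
    (CellR2.step (Good.chk c16000_7120_7160_6760_6800_s1) (by decide) (by decide)
    (CellR2.step (Good.chk c16000_7120_7160_6760_6800_s2) (by decide) (by decide)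
    (CellR2.step (Good.chk c16000_7120_7160_6760_6800_s3) (by decide) (by decide)
    (CellR2.step (Good.chk c16000_7120_7160_6760_6800_s4) (by decide) (by decide)
    (CellR2.step (Good.chk c16000_7120_7160_6760_6800_s5) (by decide) (by decide)
    (CellR2.step (Good.chk c16000_7120_7160_6760_6800_s6) (by decide) (by decide)
    (CellR2.step (Good.chk c16000_7120_7160_6760_6800_s7) (by decide) (by decide)
    (CellR2.step (Good.chk c16000_7120_7160_6760_6800_s8) (by decide) (by decide)
    (CellR2.fin c16000_7120_7160_6760_6800_f)))))))))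

theorem c16000_7120_7200_6800_6880 : Cell2 16000 7120 7200 6800 6880 :=
  CellR2.step (Good.chk c16000_7120_7200_6800_6880_s0) (by decide) (by decide)
    (CellR2.step (Good.chk c16000_7120_7200_6800_6880_s1) (by decide) (by decide)
    (CellR2.step (Good.chk c16000_7120_7200_6800_6880_s2) (by decide) (by decide)
    (CellR2.step (Good.chk c16000_7120_7200_6800_6880_s3) (by decide) (by decide)
    (CellR2.step (Good.chk c16000_7120_7200_6800_6880_s4) (by decide) (by decide)
    (CellR2.step (Good.chk c16000_7120_7200_6800_6880_s5) (by decide) (by decide)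
    (CellR2.step (Good.chk c16000_7120_7200_6800_6880_s6) (by decide) (by decide)
    (CellR2.step (Good.chk c16000_7120_7200_6800_6880_s7) (by decide) (by decide)
    (CellR2.step (Good.chk c16000_7120_7200_6800_6880_s8) (by decide) (by decide)
    (CellR2.step (Good.chk c16000_7120_7200_6800_6880_s9) (by decide) (by decide)
    (CellR2.fin c16000_7120_7200_6800_6880_f))))))))))

theorem c16000_7120_7200_6880_6960 : Cell2 16000 7120 7200 6880 6960 :=
  CellR2.step (Good.chk c16000_7120_7200_6880_6960_s0) (by decide) (by decide)
    (CellR2.step (Good.chk c16000_7120_7200_6880_6960_s1) (by decide) (by decide)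
    (CellR2.step (Good.chk c16000_7120_7200_6880_6960_s2) (by decide) (by decide)
    (CellR2.step (Good.chk c16000_7120_7200_6880_6960_s3) (by decide) (by decide)
    (CellR2.step (Good.chk c16000_7120_7200_6880_6960_s4) (by decide) (by decide)
    (CellR2.step (Good.chk c16000_7120_7200_6880_6960_s5) (by decide) (by decide)
    (CellR2.step (Good.chk c16000_7120_7200_6880_6960_s6) (by decide) (by decide)
    (CellR2.step (Good.chk c16000_7120_7200_6880_6960_s7) (by decide) (by decide)
    (CellR2.fin c16000_7120_7200_6880_6960_f))))))))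

theorem c16000_7120_7200_6960_7040 : Cell2 16000 7120 7200 6960 7040 :=
  CellR2.step (Good.chk c16000_7120_7200_6960_7040_s0) (by decide) (by decide)
    (CellR2.step (Good.chk c16000_7120_7200_6960_7040_s1) (by decide) (by decide)
    (CellR2.step (Good.chk c16000_7120_7200_6960_7040_s2) (by decide) (by decide)
    (CellR2.step (Good.chk c16000_7120_7200_6960_7040_s3) (by decide) (by decide)
    (CellR2.step (Good.chk c16000_7120_7200_6960_7040_s4) (by decide) (by decide)
    (CellR2.step (Good.chk c16000_7120_7200_6960_7040_s5) (by decide) (by decide)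
    (CellR2.step (Good.chk c16000_7120_7200_6960_7040_s6) (by decide) (by decide)
    (CellR2.step (Good.chk c16000_7120_7200_6960_7040_s7) (by decide) (by decide)
    (CellR2.step (Good.chk c16000_7120_7200_6960_7040_s8) (by decide) (by decide)
    (CellR2.step (Good.chk c16000_7120_7200_6960_7040_s9) (by decide) (by decide)
    (CellR2.fin c16000_7120_7200_6960_7040_f))))))))))

theorem c16000_7160_7200_6720_6760 : Cell2 16000 7160 7200 6720 6760 :=
  CellR2.step (Good.chk c16000_7160_7200_6720_6760_s0) (by decide) (by decide)
    (CellR2.step (Good.chk c16000_7160_7200_6720_6760_s1) (by decide) (by decide)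
    (CellR2.step (Good.chk c16000_7160_7200_6720_6760_s2) (by decide) (by decide)
    (CellR2.step (Good.chk c16000_7160_7200_6720_6760_s3) (by decide) (by decide)
    (CellR2.step (Good.chk c16000_7160_7200_6720_6760_s4) (by decide) (by decide)
    (CellR2.step (Good.chk c16000_7160_7200_6720_6760_s5) (by decide) (by decide)
    (CellR2.step (Good.chk c16000_7160_7200_6720_6760_s6) (by decide) (by decide)
    (CellR2.step (Good.chk c16000_7160_7200_6720_6760_s7) (by decide) (by decide)
    (CellR2.step (Good.chk c16000_7160_7200_6720_6760_s8) (by decide) (by decide)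
    (CellR2.step (Good.chk c16000_7160_7200_6720_6760_s9) (by decide) (by decide)
    (CellR2.step (Good.chk c16000_7160_7200_6720_6760_s10) (by decide) (by decide)
    (CellR2.fin c16000_7160_7200_6720_6760_f)))))))))))

theorem c16000_7160_7200_6760_6800 : Cell2 16000 7160 7200 6760 6800 :=
  CellR2.step (Good.chk c16000_7160_7200_6760_6800_s0) (by decide) (by decide)
    (CellR2.step (Good.chk c16000_7160_7200_6760_6800_s1) (by decide) (by decide)
    (CellR2.step (Good.chk c16000_7160_7200_6760_6800_s2) (by decide) (by decide)
    (CellR2.step (Good.chk c16000_7160_7200_6760_6800_s3) (by decide) (by decide)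
    (CellR2.step (Good.chk c16000_7160_7200_6760_6800_s4) (by decide) (by decide)
    (CellR2.step (Good.chk c16000_7160_7200_6760_6800_s5) (by decide) (by decide)
    (CellR2.step (Good.chk c16000_7160_7200_6760_6800_s6) (by decide) (by decide)
    (CellR2.step (Good.chk c16000_7160_7200_6760_6800_s7) (by decide) (by decide)
    (CellR2.step (Good.chk c16000_7160_7200_6760_6800_s8) (by decide) (by decide)
    (CellR2.fin c16000_7160_7200_6760_6800_f)))))))))

theorem c16000_7200_8000_0_4000 : Cell2 16000 7200 8000 0 4000 :=
  CellR2.fin c16000_7200_8000_0_4000_f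

theorem c16000_7200_7360_4000_4640 : Cell2 16000 7200 7360 4000 4640 :=
  CellR2.fin c16000_7200_7360_4000_4640_f

theorem c16000_7200_7360_4640_4800 : Cell2 16000 7200 7360 4640 4800 :=
  CellR2.fin c16000_7200_7360_4640_4800_f

theorem c16000_7200_7360_4800_4960 : Cell2 16000 7200 7360 4800 4960 :=
  CellR2.step (Good.chk c16000_7200_7360_4800_4960_s0) (by decide) (by decide)
    (CellR2.fin c16000_7200_7360_4800_4960_f)

theorem c16000_7200_7360_4960_5120 : Cell2 16000 7200 7360 4960 5120 :=
  CellR2.step (Good.chk c16000_7200_7360_4960_5120_s0) (by decide) (by decide)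
    (CellR2.fin c16000_7200_7360_4960_5120_f)

theorem c16000_7200_7360_5120_5280 : Cell2 16000 7200 7360 5120 5280 :=
  CellR2.step (Good.chk c16000_7200_7360_5120_5280_s0) (by decide) (by decide)
    (CellR2.fin c16000_7200_7360_5120_5280_f)

theorem c16000_7200_7360_5280_5440 : Cell2 16000 7200 7360 5280 5440 :=
  CellR2.step (Good.chk c16000_7200_7360_5280_5440_s0) (by decide) (by decide)
    (CellR2.fin c16000_7200_7360_5280_5440_f)

theorem c16000_7200_7360_5440_5600 : Cell2 16000 7200 7360 5440 5600 :=
  CellR2.step (Good.chk c16000_7200_7360_5440_5600_s0) (by decide) (by decide)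
    (CellR2.step (Good.chk c16000_7200_7360_5440_5600_s1) (by decide) (by decide)
    (CellR2.fin c16000_7200_7360_5440_5600_f))

theorem c16000_7200_7360_5600_5760 : Cell2 16000 7200 7360 5600 5760 :=
  CellR2.step (Good.chk c16000_7200_7360_5600_5760_s0) (by decide) (by decide)
    (CellR2.step (Good.chk c16000_7200_7360_5600_5760_s1) (by decide) (by decide)
    (CellR2.step (Good.chk c16000_7200_7360_5600_5760_s2) (by decide) (by decide)
    (CellR2.step (Good.chk c16000_7200_7360_5600_5760_s3) (by decide) (by decide)
    (CellR2.fin c16000_7200_7360_5600_5760_f))))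

theorem c16000_7200_7360_5760_5920 : Cell2 16000 7200 7360 5760 5920 :=
  CellR2.step (Good.chk c16000_7200_7360_5760_5920_s0) (by decide) (by decide)
    (CellR2.step (Good.chk c16000_7200_7360_5760_5920_s1) (by decide) (by decide)
    (CellR2.step (Good.chk c16000_7200_7360_5760_5920_s2) (by decide) (by decide)
    (CellR2.step (Good.chk c16000_7200_7360_5760_5920_s3) (by decide) (by decide)
    (CellR2.fin c16000_7200_7360_5760_5920_f))))

theorem c16000_7200_7280_5920_6000 : Cell2 16000 7200 7280 5920 6000 :=
  CellR2.step (Good.chk c16000_7200_7280_5920_6000_s0) (by decide) (by decide)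
    (CellR2.step (Good.chk c16000_7200_7280_5920_6000_s1) (by decide) (by decide)
    (CellR2.step (Good.chk c16000_7200_7280_5920_6000_s2) (by decide) (by decide)
    (CellR2.step (Good.chk c16000_7200_7280_5920_6000_s3) (by decide) (by decide)
    (CellR2.step (Good.chk c16000_7200_7280_5920_6000_s4) (by decide) (by decide)
    (CellR2.step (Good.chk c16000_7200_7280_5920_6000_s5) (by decide) (by decide)
    (CellR2.step (Good.chk c16000_7200_7280_5920_6000_s6) (by decide) (by decide)
    (CellR2.step (Good.chk c16000_7200_7280_5920_6000_s7) (by decide) (by decide)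
    (CellR2.step (Good.chk c16000_7200_7280_5920_6000_s8) (by decide) (by decide)
    (CellR2.step (Good.chk c16000_7200_7280_5920_6000_s9) (by decide) (by decide)
    (CellR2.step (Good.chk c16000_7200_7280_5920_6000_s10) (by decide) (by decide)
    (CellR2.step (Good.chk c16000_7200_7280_5920_6000_s11) (by decide) (by decide)
    (CellR2.step (Good.chk c16000_7200_7280_5920_6000_s12) (by decide) (by decide)
    (CellR2.fin c16000_7200_7280_5920_6000_f)))))))))))))

theorem c16000_7200_7280_6000_6080 : Cell2 16000 7200 7280 6000 6080 :=
  CellR2.step (Good.chk c16000_7200_7280_6000_6080_s0) (by decide) (by decide)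
    (CellR2.step (Good.chk c16000_7200_7280_6000_6080_s1) (by decide) (by decide)
    (CellR2.step (Good.chk c16000_7200_7280_6000_6080_s2) (by decide) (by decide)
    (CellR2.step (Good.chk c16000_7200_7280_6000_6080_s3) (by decide) (by decide)
    (CellR2.step (Good.chk c16000_7200_7280_6000_6080_s4) (by decide) (by decide)
    (CellR2.step (Good.chk c16000_7200_7280_6000_6080_s5) (by decide) (by decide)
    (CellR2.step (Good.chk c16000_7200_7280_6000_6080_s6) (by decide) (by decide)
    (CellR2.step (Good.chk c16000_7200_7280_6000_6080_s7) (by decide) (by decide)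
    (CellR2.step (Good.chk c16000_7200_7280_6000_6080_s8) (by decide) (by decide)
    (CellR2.step (Good.chk c16000_7200_7280_6000_6080_s9) (by decide) (by decide)
    (CellR2.step (Good.chk c16000_7200_7280_6000_6080_s10) (by decide) (by decide)
    (CellR2.step (Good.chk c16000_7200_7280_6000_6080_s11) (by decide) (by decide)
    (CellR2.step (Good.chk c16000_7200_7280_6000_6080_s12) (by decide) (by decide)
    (CellR2.step (Good.chk c16000_7200_7280_6000_6080_s13) (by decide) (by decide)
    (CellR2.step (Good.chk c16000_7200_7280_6000_6080_s14) (by decide) (by decide)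
    (CellR2.step (Good.chk c16000_7200_7280_6000_6080_s15) (by decide) (by decide)
    (CellR2.step (Good.chk c16000_7200_7280_6000_6080_s16) (by decide) (by decide)
    (CellR2.step (Good.chk c16000_7200_7280_6000_6080_s17) (by decide) (by decide)
    (CellR2.fin c16000_7200_7280_6000_6080_f))))))))))))))))))

theorem c16000_7200_7280_6080_6160 : Cell2 16000 7200 7280 6080 6160 :=
  CellR2.step (Good.chk c16000_7200_7280_6080_6160_s0) (by decide) (by decide)
    (CellR2.step (Good.chk c16000_7200_7280_6080_6160_s1) (by decide) (by decide)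
    (CellR2.step (Good.chk c16000_7200_7280_6080_6160_s2) (by decide) (by decide)
    (CellR2.step (Good.chk c16000_7200_7280_6080_6160_s3) (by decide) (by decide)
    (CellR2.step (Good.chk c16000_7200_7280_6080_6160_s4) (by decide) (by decide)
    (CellR2.step (Good.chk c16000_7200_7280_6080_6160_s5) (by decide) (by decide)
    (CellR2.step (Good.chk c16000_7200_7280_6080_6160_s6) (by decide) (by decide)
    (CellR2.step (Good.chk c16000_7200_7280_6080_6160_s7) (by decide) (by decide)
    (CellR2.step (Good.chk c16000_7200_7280_6080_6160_s8) (by decide) (by decide)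
    (CellR2.step (Good.chk c16000_7200_7280_6080_6160_s9) (by decide) (by decide)
    (CellR2.step (Good.chk c16000_7200_7280_6080_6160_s10) (by decide) (by decide)
    (CellR2.step (Good.chk c16000_7200_7280_6080_6160_s11) (by decide) (by decide)
    (CellR2.step (Good.chk c16000_7200_7280_6080_6160_s12) (by decide) (by decide)
    (CellR2.fin c16000_7200_7280_6080_6160_f)))))))))))))

theorem c16000_7200_7280_6160_6240 : Cell2 16000 7200 7280 6160 6240 :=
  CellR2.step (Good.chk c16000_7200_7280_6160_6240_s0) (by decide) (by decide)
    (CellR2.step (Good.chk c16000_7200_7280_6160_6240_s1) (by decide) (by decide)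
    (CellR2.step (Good.chk c16000_7200_7280_6160_6240_s2) (by decide) (by decide)
    (CellR2.step (Good.chk c16000_7200_7280_6160_6240_s3) (by decide) (by decide)
    (CellR2.step (Good.chk c16000_7200_7280_6160_6240_s4) (by decide) (by decide)
    (CellR2.step (Good.chk c16000_7200_7280_6160_6240_s5) (by decide) (by decide)
    (CellR2.step (Good.chk c16000_7200_7280_6160_6240_s6) (by decide) (by decide)
    (CellR2.step (Good.chk c16000_7200_7280_6160_6240_s7) (by decide) (by decide)
    (CellR2.step (Good.chk c16000_7200_7280_6160_6240_s8) (by decide) (by decide)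
    (CellR2.step (Good.chk c16000_7200_7280_6160_6240_s9) (by decide) (by decide)
    (CellR2.step (Good.chk c16000_7200_7280_6160_6240_s10) (by decide) (by decide)
    (CellR2.step (Good.chk c16000_7200_7280_6160_6240_s11) (by decide) (by decide)
    (CellR2.step (Good.chk c16000_7200_7280_6160_6240_s12) (by decide) (by decide)
    (CellR2.step (Good.chk c16000_7200_7280_6160_6240_s13) (by decide) (by decide)
    (CellR2.step (Good.chk c16000_7200_7280_6160_6240_s14) (by decide) (by decide)
    (CellR2.step (Good.chk c16000_7200_7280_6160_6240_s15) (by decide) (by decide)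
    (CellR2.step (Good.chk c16000_7200_7280_6160_6240_s16) (by decide) (by decide)
    (CellR2.step (Good.chk c16000_7200_7280_6160_6240_s17) (by decide) (by decide)
    (CellR2.fin c16000_7200_7280_6160_6240_f))))))))))))))))))

theorem c16000_7200_7240_6720_6760 : Cell2 16000 7200 7240 6720 6760 :=
  CellR2.step (Good.chk c16000_7200_7240_6720_6760_s0) (by decide) (by decide)
    (CellR2.step (Good.chk c16000_7200_7240_6720_6760_s1) (by decide) (by decide)
    (CellR2.step (Good.chk c16000_7200_7240_6720_6760_s2) (by decide) (by decide)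
    (CellR2.step (Good.chk c16000_7200_7240_6720_6760_s3) (by decide) (by decide)
    (CellR2.step (Good.chk c16000_7200_7240_6720_6760_s4) (by decide) (by decide)
    (CellR2.step (Good.chk c16000_7200_7240_6720_6760_s5) (by decide) (by decide)
    (CellR2.step (Good.chk c16000_7200_7240_6720_6760_s6) (by decide) (by decide)
    (CellR2.step (Good.chk c16000_7200_7240_6720_6760_s7) (by decide) (by decide)
    (CellR2.step (Good.chk c16000_7200_7240_6720_6760_s8) (by decide) (by decide)
    (CellR2.step (Good.chk c16000_7200_7240_6720_6760_s9) (by decide) (by decide)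
    (CellR2.step (Good.chk c16000_7200_7240_6720_6760_s10) (by decide) (by decide)
    (CellR2.fin c16000_7200_7240_6720_6760_f)))))))))))

theorem c16000_7200_7240_6760_6800 : Cell2 16000 7200 7240 6760 6800 :=
  CellR2.step (Good.chk c16000_7200_7240_6760_6800_s0) (by decide) (by decide)
    (CellR2.step (Good.chk c16000_7200_7240_6760_6800_s1) (by decide) (by decide)
    (CellR2.step (Good.chk c16000_7200_7240_6760_6800_s2) (by decide) (by decide)
    (CellR2.step (Good.chk c16000_7200_7240_6760_6800_s3) (by decide) (by decide)
    (CellR2.step (Good.chk c16000_7200_7240_6760_6800_s4) (by decide) (by decide)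
    (CellR2.step (Good.chk c16000_7200_7240_6760_6800_s5) (by decide) (by decide)
    (CellR2.step (Good.chk c16000_7200_7240_6760_6800_s6) (by decide) (by decide)
    (CellR2.step (Good.chk c16000_7200_7240_6760_6800_s7) (by decide) (by decide)
    (CellR2.step (Good.chk c16000_7200_7240_6760_6800_s8) (by decide) (by decide)
    (CellR2.step (Good.chk c16000_7200_7240_6760_6800_s9) (by decide) (by decide)
    (CellR2.fin c16000_7200_7240_6760_6800_f))))))))))

theorem c16000_7200_7280_6800_6880 : Cell2 16000 7200 7280 6800 6880 :=
  CellR2.step (Good.chk c16000_7200_7280_6800_6880_s0) (by decide) (by decide)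
    (CellR2.step (Good.chk c16000_7200_7280_6800_6880_s1) (by decide) (by decide)
    (CellR2.step (Good.chk c16000_7200_7280_6800_6880_s2) (by decide) (by decide)
    (CellR2.step (Good.chk c16000_7200_7280_6800_6880_s3) (by decide) (by decide)
    (CellR2.step (Good.chk c16000_7200_7280_6800_6880_s4) (by decide) (by decide)
    (CellR2.step (Good.chk c16000_7200_7280_6800_6880_s5) (by decide) (by decide)
    (CellR2.step (Good.chk c16000_7200_7280_6800_6880_s6) (by decide) (by decide)
    (CellR2.step (Good.chk c16000_7200_7280_6800_6880_s7) (by decide) (by decide)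
    (CellR2.step (Good.chk c16000_7200_7280_6800_6880_s8) (by decide) (by decide)
    (CellR2.step (Good.chk c16000_7200_7280_6800_6880_s9) (by decide) (by decide)
    (CellR2.step (Good.chk c16000_7200_7280_6800_6880_s10) (by decide) (by decide)
    (CellR2.step (Good.chk c16000_7200_7280_6800_6880_s11) (by decide) (by decide)
    (CellR2.step (Good.chk c16000_7200_7280_6800_6880_s12) (by decide) (by decide)
    (CellR2.step (Good.chk c16000_7200_7280_6800_6880_s13) (by decide) (by decide)
    (CellR2.step (Good.chk c16000_7200_7280_6800_6880_s14) (by decide) (by decide)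
    (CellR2.step (Good.chk c16000_7200_7280_6800_6880_s15) (by decide) (by decide)
    (CellR2.step (Good.chk c16000_7200_7280_6800_6880_s16) (by decide) (by decide)
    (CellR2.step (Good.chk c16000_7200_7280_6800_6880_s17) (by decide) (by decide)
    (CellR2.fin c16000_7200_7280_6800_6880_f))))))))))))))))))

theorem c16000_7200_7280_6880_6960 : Cell2 16000 7200 7280 6880 6960 :=
  CellR2.step (Good.chk c16000_7200_7280_6880_6960_s0) (by decide) (by decide)
    (CellR2.step (Good.chk c16000_7200_7280_6880_6960_s1) (by decide) (by decide)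
    (CellR2.step (Good.chk c16000_7200_7280_6880_6960_s2) (by decide) (by decide)
    (CellR2.step (Good.chk c16000_7200_7280_6880_6960_s3) (by decide) (by decide)
    (CellR2.step (Good.chk c16000_7200_7280_6880_6960_s4) (by decide) (by decide)
    (CellR2.step (Good.chk c16000_7200_7280_6880_6960_s5) (by decide) (by decide)
    (CellR2.step (Good.chk c16000_7200_7280_6880_6960_s6) (by decide) (by decide)
    (CellR2.step (Good.chk c16000_7200_7280_6880_6960_s7) (by decide) (by decide)
    (CellR2.step (Good.chk c16000_7200_7280_6880_6960_s8) (by decide) (by decide)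
    (CellR2.step (Good.chk c16000_7200_7280_6880_6960_s9) (by decide) (by decide)
    (CellR2.step (Good.chk c16000_7200_7280_6880_6960_s10) (by decide) (by decide)
    (CellR2.step (Good.chk c16000_7200_7280_6880_6960_s11) (by decide) (by decide)
    (CellR2.step (Good.chk c16000_7200_7280_6880_6960_s12) (by decide) (by decide)
    (CellR2.step (Good.chk c16000_7200_7280_6880_6960_s13) (by decide) (by decide)
    (CellR2.step (Good.chk c16000_7200_7280_6880_6960_s14) (by decide) (by decide)
    (CellR2.fin c16000_7200_7280_6880_6960_f)))))))))))))))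

theorem c16000_7200_7280_6960_7040 : Cell2 16000 7200 7280 6960 7040 :=
  CellR2.step (Good.chk c16000_7200_7280_6960_7040_s0) (by decide) (by decide)
    (CellR2.step (Good.chk c16000_7200_7280_6960_7040_s1) (by decide) (by decide)
    (CellR2.step (Good.chk c16000_7200_7280_6960_7040_s2) (by decide) (by decide)
    (CellR2.step (Good.chk c16000_7200_7280_6960_7040_s3) (by decide) (by decide)
    (CellR2.step (Good.chk c16000_7200_7280_6960_7040_s4) (by decide) (by decide)
    (CellR2.step (Good.chk c16000_7200_7280_6960_7040_s5) (by decide) (by decide)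
    (CellR2.step (Good.chk c16000_7200_7280_6960_7040_s6) (by decide) (by decide)
    (CellR2.step (Good.chk c16000_7200_7280_6960_7040_s7) (by decide) (by decide)
    (CellR2.fin c16000_7200_7280_6960_7040_f))))))))

theorem c16000_7200_7280_7040_7120 : Cell2 16000 7200 7280 7040 7120 :=
  CellR2.step (Good.chk c16000_7200_7280_7040_7120_s0) (by decide) (by decide)
    (CellR2.step (Good.chk c16000_7200_7280_7040_7120_s1) (by decide) (by decide)
    (CellR2.step (Good.chk c16000_7200_7280_7040_7120_s2) (by decide) (by decide)
    (CellR2.step (Good.chk c16000_7200_7280_7040_7120_s3) (by decide) (by decide)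
    (CellR2.step (Good.chk c16000_7200_7280_7040_7120_s4) (by decide) (by decide)
    (CellR2.step (Good.chk c16000_7200_7280_7040_7120_s5) (by decide) (by decide)
    (CellR2.step (Good.chk c16000_7200_7280_7040_7120_s6) (by decide) (by decide)
    (CellR2.fin c16000_7200_7280_7040_7120_f)))))))

theorem c16000_7200_7280_7120_7200 : Cell2 16000 7200 7280 7120 7200 :=
  CellR2.step (Good.chk c16000_7200_7280_7120_7200_s0) (by decide) (by decide)
    (CellR2.step (Good.chk c16000_7200_7280_7120_7200_s1) (by decide) (by decide)
    (CellR2.fin c16000_7200_7280_7120_7200_f))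

theorem c16000_7200_7360_7200_7360 : Cell2 16000 7200 7360 7200 7360 :=
  CellR2.step (Good.chk c16000_7200_7360_7200_7360_s0) (by decide) (by decide)
    (CellR2.fin c16000_7200_7360_7200_7360_f)

theorem c16000_7240_7280_6720_6760 : Cell2 16000 7240 7280 6720 6760 :=
  CellR2.step (Good.chk c16000_7240_7280_6720_6760_s0) (by decide) (by decide)
    (CellR2.step (Good.chk c16000_7240_7280_6720_6760_s1) (by decide) (by decide)
    (CellR2.step (Good.chk c16000_7240_7280_6720_6760_s2) (by decide) (by decide)
    (CellR2.step (Good.chk c16000_7240_7280_6720_6760_s3) (by decide) (by decide)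
    (CellR2.step (Good.chk c16000_7240_7280_6720_6760_s4) (by decide) (by decide)
    (CellR2.step (Good.chk c16000_7240_7280_6720_6760_s5) (by decide) (by decide)
    (CellR2.step (Good.chk c16000_7240_7280_6720_6760_s6) (by decide) (by decide)
    (CellR2.step (Good.chk c16000_7240_7280_6720_6760_s7) (by decide) (by decide)
    (CellR2.step (Good.chk c16000_7240_7280_6720_6760_s8) (by decide) (by decide)
    (CellR2.step (Good.chk c16000_7240_7280_6720_6760_s9) (by decide) (by decide)
    (CellR2.fin c16000_7240_7280_6720_6760_f))))))))))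

theorem c16000_7240_7280_6760_6800 : Cell2 16000 7240 7280 6760 6800 :=
  CellR2.step (Good.chk c16000_7240_7280_6760_6800_s0) (by decide) (by decide)
    (CellR2.step (Good.chk c16000_7240_7280_6760_6800_s1) (by decide) (by decide)
    (CellR2.step (Good.chk c16000_7240_7280_6760_6800_s2) (by decide) (by decide)
    (CellR2.step (Good.chk c16000_7240_7280_6760_6800_s3) (by decide) (by decide)
    (CellR2.step (Good.chk c16000_7240_7280_6760_6800_s4) (by decide) (by decide)
    (CellR2.step (Good.chk c16000_7240_7280_6760_6800_s5) (by decide) (by decide)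
    (CellR2.step (Good.chk c16000_7240_7280_6760_6800_s6) (by decide) (by decide)
    (CellR2.step (Good.chk c16000_7240_7280_6760_6800_s7) (by decide) (by decide)
    (CellR2.step (Good.chk c16000_7240_7280_6760_6800_s8) (by decide) (by decide)
    (CellR2.step (Good.chk c16000_7240_7280_6760_6800_s9) (by decide) (by decide)
    (CellR2.step (Good.chk c16000_7240_7280_6760_6800_s10) (by decide) (by decide)
    (CellR2.step (Good.chk c16000_7240_7280_6760_6800_s11) (by decide) (by decide)
    (CellR2.step (Good.chk c16000_7240_7280_6760_6800_s12) (by decide) (by decide)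
    (CellR2.fin c16000_7240_7280_6760_6800_f)))))))))))))

theorem c16000_7280_7360_5920_6000 : Cell2 16000 7280 7360 5920 6000 :=
  CellR2.step (Good.chk c16000_7280_7360_5920_6000_s0) (by decide) (by decide)
    (CellR2.step (Good.chk c16000_7280_7360_5920_6000_s1) (by decide) (by decide)
    (CellR2.step (Good.chk c16000_7280_7360_5920_6000_s2) (by decide) (by decide)
    (CellR2.step (Good.chk c16000_7280_7360_5920_6000_s3) (by decide) (by decide)
    (CellR2.step (Good.chk c16000_7280_7360_5920_6000_s4) (by decide) (by decide)
    (CellR2.step (Good.chk c16000_7280_7360_5920_6000_s5) (by decide) (by decide)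
    (CellR2.fin c16000_7280_7360_5920_6000_f))))))

theorem c16000_7280_7360_6000_6080 : Cell2 16000 7280 7360 6000 6080 :=
  CellR2.step (Good.chk c16000_7280_7360_6000_6080_s0) (by decide) (by decide)
    (CellR2.step (Good.chk c16000_7280_7360_6000_6080_s1) (by decide) (by decide)
    (CellR2.step (Good.chk c16000_7280_7360_6000_6080_s2) (by decide) (by decide)
    (CellR2.step (Good.chk c16000_7280_7360_6000_6080_s3) (by decide) (by decide)
    (CellR2.step (Good.chk c16000_7280_7360_6000_6080_s4) (by decide) (by decide)
    (CellR2.step (Good.chk c16000_7280_7360_6000_6080_s5) (by decide) (by decide)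
    (CellR2.step (Good.chk c16000_7280_7360_6000_6080_s6) (by decide) (by decide)
    (CellR2.step (Good.chk c16000_7280_7360_6000_6080_s7) (by decide) (by decide)
    (CellR2.step (Good.chk c16000_7280_7360_6000_6080_s8) (by decide) (by decide)
    (CellR2.step (Good.chk c16000_7280_7360_6000_6080_s9) (by decide) (by decide)
    (CellR2.step (Good.chk c16000_7280_7360_6000_6080_s10) (by decide) (by decide)
    (CellR2.fin c16000_7280_7360_6000_6080_f)))))))))))

theorem c16000_7280_7360_6080_6160 : Cell2 16000 7280 7360 6080 6160 :=
  CellR2.step (Good.chk c16000_7280_7360_6080_6160_s0) (by decide) (by decide)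
    (CellR2.step (Good.chk c16000_7280_7360_6080_6160_s1) (by decide) (by decide)
    (CellR2.step (Good.chk c16000_7280_7360_6080_6160_s2) (by decide) (by decide)
    (CellR2.step (Good.chk c16000_7280_7360_6080_6160_s3) (by decide) (by decide)
    (CellR2.step (Good.chk c16000_7280_7360_6080_6160_s4) (by decide) (by decide)
    (CellR2.step (Good.chk c16000_7280_7360_6080_6160_s5) (by decide) (by decide)
    (CellR2.step (Good.chk c16000_7280_7360_6080_6160_s6) (by decide) (by decide)
    (CellR2.step (Good.chk c16000_7280_7360_6080_6160_s7) (by decide) (by decide)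
    (CellR2.step (Good.chk c16000_7280_7360_6080_6160_s8) (by decide) (by decide)
    (CellR2.step (Good.chk c16000_7280_7360_6080_6160_s9) (by decide) (by decide)
    (CellR2.step (Good.chk c16000_7280_7360_6080_6160_s10) (by decide) (by decide)
    (CellR2.fin c16000_7280_7360_6080_6160_f)))))))))))

theorem c16000_7280_7360_6160_6240 : Cell2 16000 7280 7360 6160 6240 :=
  CellR2.step (Good.chk c16000_7280_7360_6160_6240_s0) (by decide) (by decide)
    (CellR2.step (Good.chk c16000_7280_7360_6160_6240_s1) (by decide) (by decide)
    (CellR2.step (Good.chk c16000_7280_7360_6160_6240_s2) (by decide) (by decide)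
    (CellR2.step (Good.chk c16000_7280_7360_6160_6240_s3) (by decide) (by decide)
    (CellR2.step (Good.chk c16000_7280_7360_6160_6240_s4) (by decide) (by decide)
    (CellR2.step (Good.chk c16000_7280_7360_6160_6240_s5) (by decide) (by decide)
    (CellR2.step (Good.chk c16000_7280_7360_6160_6240_s6) (by decide) (by decide)
    (CellR2.step (Good.chk c16000_7280_7360_6160_6240_s7) (by decide) (by decide)
    (CellR2.step (Good.chk c16000_7280_7360_6160_6240_s8) (by decide) (by decide)
    (CellR2.step (Good.chk c16000_7280_7360_6160_6240_s9) (by decide) (by decide)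
    (CellR2.step (Good.chk c16000_7280_7360_6160_6240_s10) (by decide) (by decide)
    (CellR2.step (Good.chk c16000_7280_7360_6160_6240_s11) (by decide) (by decide)
    (CellR2.step (Good.chk c16000_7280_7360_6160_6240_s12) (by decide) (by decide)
    (CellR2.fin c16000_7280_7360_6160_6240_f)))))))))))))

theorem c16000_7280_7320_6720_6760 : Cell2 16000 7280 7320 6720 6760 :=
  CellR2.step (Good.chk c16000_7280_7320_6720_6760_s0) (by decide) (by decide)
    (CellR2.step (Good.chk c16000_7280_7320_6720_6760_s1) (by decide) (by decide)
    (CellR2.step (Good.chk c16000_7280_7320_6720_6760_s2) (by decide) (by decide)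
    (CellR2.step (Good.chk c16000_7280_7320_6720_6760_s3) (by decide) (by decide)
    (CellR2.step (Good.chk c16000_7280_7320_6720_6760_s4) (by decide) (by decide)
    (CellR2.step (Good.chk c16000_7280_7320_6720_6760_s5) (by decide) (by decide)
    (CellR2.step (Good.chk c16000_7280_7320_6720_6760_s6) (by decide) (by decide)
    (CellR2.step (Good.chk c16000_7280_7320_6720_6760_s7) (by decide) (by decide)
    (CellR2.step (Good.chk c16000_7280_7320_6720_6760_s8) (by decide) (by decide)
    (CellR2.fin c16000_7280_7320_6720_6760_f)))))))))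

theorem c16000_7280_7320_6760_6800 : Cell2 16000 7280 7320 6760 6800 :=
  CellR2.step (Good.chk c16000_7280_7320_6760_6800_s0) (by decide) (by decide)
    (CellR2.step (Good.chk c16000_7280_7320_6760_6800_s1) (by decide) (by decide)
    (CellR2.step (Good.chk c16000_7280_7320_6760_6800_s2) (by decide) (by decide)
    (CellR2.step (Good.chk c16000_7280_7320_6760_6800_s3) (by decide) (by decide)
    (CellR2.step (Good.chk c16000_7280_7320_6760_6800_s4) (by decide) (by decide)
    (CellR2.step (Good.chk c16000_7280_7320_6760_6800_s5) (by decide) (by decide)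
    (CellR2.step (Good.chk c16000_7280_7320_6760_6800_s6) (by decide) (by decide)
    (CellR2.step (Good.chk c16000_7280_7320_6760_6800_s7) (by decide) (by decide)
    (CellR2.fin c16000_7280_7320_6760_6800_f))))))))

theorem c16000_7280_7320_6800_6840 : Cell2 16000 7280 7320 6800 6840 :=
  CellR2.step (Good.chk c16000_7280_7320_6800_6840_s0) (by decide) (by decide)
    (CellR2.step (Good.chk c16000_7280_7320_6800_6840_s1) (by decide) (by decide)
    (CellR2.step (Good.chk c16000_7280_7320_6800_6840_s2) (by decide) (by decide)
    (CellR2.step (Good.chk c16000_7280_7320_6800_6840_s3) (by decide) (by decide)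
    (CellR2.step (Good.chk c16000_7280_7320_6800_6840_s4) (by decide) (by decide)
    (CellR2.step (Good.chk c16000_7280_7320_6800_6840_s5) (by decide) (by decide)
    (CellR2.step (Good.chk c16000_7280_7320_6800_6840_s6) (by decide) (by decide)
    (CellR2.step (Good.chk c16000_7280_7320_6800_6840_s7) (by decide) (by decide)
    (CellR2.fin c16000_7280_7320_6800_6840_f))))))))

theorem c16000_7280_7320_6840_6880 : Cell2 16000 7280 7320 6840 6880 :=
  CellR2.step (Good.chk c16000_7280_7320_6840_6880_s0) (by decide) (by decide)
    (CellR2.step (Good.chk c16000_7280_7320_6840_6880_s1) (by decide) (by decide)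
    (CellR2.step (Good.chk c16000_7280_7320_6840_6880_s2) (by decide) (by decide)
    (CellR2.step (Good.chk c16000_7280_7320_6840_6880_s3) (by decide) (by decide)
    (CellR2.step (Good.chk c16000_7280_7320_6840_6880_s4) (by decide) (by decide)
    (CellR2.step (Good.chk c16000_7280_7320_6840_6880_s5) (by decide) (by decide)
    (CellR2.fin c16000_7280_7320_6840_6880_f))))))

theorem c16000_7280_7360_6880_6960 : Cell2 16000 7280 7360 6880 6960 :=
  CellR2.step (Good.chk c16000_7280_7360_6880_6960_s0) (by decide) (by decide)
    (CellR2.step (Good.chk c16000_7280_7360_6880_6960_s1) (by decide) (by decide)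
    (CellR2.step (Good.chk c16000_7280_7360_6880_6960_s2) (by decide) (by decide)
    (CellR2.step (Good.chk c16000_7280_7360_6880_6960_s3) (by decide) (by decide)
    (CellR2.step (Good.chk c16000_7280_7360_6880_6960_s4) (by decide) (by decide)
    (CellR2.step (Good.chk c16000_7280_7360_6880_6960_s5) (by decide) (by decide)
    (CellR2.step (Good.chk c16000_7280_7360_6880_6960_s6) (by decide) (by decide)
    (CellR2.step (Good.chk c16000_7280_7360_6880_6960_s7) (by decide) (by decide)
    (CellR2.step (Good.chk c16000_7280_7360_6880_6960_s8) (by decide) (by decide)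
    (CellR2.step (Good.chk c16000_7280_7360_6880_6960_s9) (by decide) (by decide)
    (CellR2.fin c16000_7280_7360_6880_6960_f))))))))))

theorem c16000_7280_7360_6960_7040 : Cell2 16000 7280 7360 6960 7040 :=
  CellR2.step (Good.chk c16000_7280_7360_6960_7040_s0) (by decide) (by decide)
    (CellR2.step (Good.chk c16000_7280_7360_6960_7040_s1) (by decide) (by decide)
    (CellR2.step (Good.chk c16000_7280_7360_6960_7040_s2) (by decide) (by decide)
    (CellR2.step (Good.chk c16000_7280_7360_6960_7040_s3) (by decide) (by decide)
    (CellR2.fin c16000_7280_7360_6960_7040_f))))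

theorem c16000_7280_7360_7040_7120 : Cell2 16000 7280 7360 7040 7120 :=
  CellR2.step (Good.chk c16000_7280_7360_7040_7120_s0) (by decide) (by decide)
    (CellR2.step (Good.chk c16000_7280_7360_7040_7120_s1) (by decide) (by decide)
    (CellR2.step (Good.chk c16000_7280_7360_7040_7120_s2) (by decide) (by decide)
    (CellR2.fin c16000_7280_7360_7040_7120_f)))

theorem c16000_7280_7360_7120_7200 : Cell2 16000 7280 7360 7120 7200 :=
  CellR2.step (Good.chk c16000_7280_7360_7120_7200_s0) (by decide) (by decide)
    (CellR2.step (Good.chk c16000_7280_7360_7120_7200_s1) (by decide) (by decide)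
    (CellR2.fin c16000_7280_7360_7120_7200_f))

theorem c16000_7320_7360_6720_6760 : Cell2 16000 7320 7360 6720 6760 :=
  CellR2.step (Good.chk c16000_7320_7360_6720_6760_s0) (by decide) (by decide)
    (CellR2.step (Good.chk c16000_7320_7360_6720_6760_s1) (by decide) (by decide)
    (CellR2.step (Good.chk c16000_7320_7360_6720_6760_s2) (by decide) (by decide)
    (CellR2.step (Good.chk c16000_7320_7360_6720_6760_s3) (by decide) (by decide)
    (CellR2.step (Good.chk c16000_7320_7360_6720_6760_s4) (by decide) (by decide)
    (CellR2.step (Good.chk c16000_7320_7360_6720_6760_s5) (by decide) (by decide)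
    (CellR2.step (Good.chk c16000_7320_7360_6720_6760_s6) (by decide) (by decide)
    (CellR2.step (Good.chk c16000_7320_7360_6720_6760_s7) (by decide) (by decide)
    (CellR2.fin c16000_7320_7360_6720_6760_f))))))))

theorem c16000_7320_7360_6760_6800 : Cell2 16000 7320 7360 6760 6800 :=
  CellR2.step (Good.chk c16000_7320_7360_6760_6800_s0) (by decide) (by decide)
    (CellR2.step (Good.chk c16000_7320_7360_6760_6800_s1) (by decide) (by decide)
    (CellR2.step (Good.chk c16000_7320_7360_6760_6800_s2) (by decide) (by decide)
    (CellR2.step (Good.chk c16000_7320_7360_6760_6800_s3) (by decide) (by decide)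
    (CellR2.step (Good.chk c16000_7320_7360_6760_6800_s4) (by decide) (by decide)
    (CellR2.step (Good.chk c16000_7320_7360_6760_6800_s5) (by decide) (by decide)
    (CellR2.step (Good.chk c16000_7320_7360_6760_6800_s6) (by decide) (by decide)
    (CellR2.step (Good.chk c16000_7320_7360_6760_6800_s7) (by decide) (by decide)
    (CellR2.fin c16000_7320_7360_6760_6800_f))))))))

theorem c16000_7320_7360_6800_6840 : Cell2 16000 7320 7360 6800 6840 :=
  CellR2.step (Good.chk c16000_7320_7360_6800_6840_s0) (by decide) (by decide)
    (CellR2.step (Good.chk c16000_7320_7360_6800_6840_s1) (by decide) (by decide)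
    (CellR2.step (Good.chk c16000_7320_7360_6800_6840_s2) (by decide) (by decide)
    (CellR2.step (Good.chk c16000_7320_7360_6800_6840_s3) (by decide) (by decide)
    (CellR2.step (Good.chk c16000_7320_7360_6800_6840_s4) (by decide) (by decide)
    (CellR2.fin c16000_7320_7360_6800_6840_f)))))

end Pool.Agent.Helper5.B54
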