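import Pool.Agent.Helper5.B54v2.Cell2
import Pool.Agent.Helper5.B54v2.T.A510
import Pool.Agent.Helper5.B54v2.T.A511
import Pool.Agent.Helper5.B54v2.T.A512
import Pool.Agent.Helper5.B54v2.T.A513
import Pool.Agent.Helper5.B54v2.T.A514
import Pool.Agent.Helper5.B54v2.T.A515
import Pool.Agent.Helper5.B54v2.T.A516
import Pool.Agent.Helper5.B54v2.T.A517
import Pool.Agent.Helper5.B54v2.T.A518
import Pool.Agent.Helper5.B54v2.T.A519
import Pool.Agent.Helper5.B54v2.T.A520
import Pool.Agent.Helper5.B54v2.T.A521
import Pool.Agent.Helper5.B54v2.T.A522
import Pool.Agent.Helper5.B54v2.T.A523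
import Pool.Agent.Helper5.B54v2.T.A524
import Pool.Agent.Helper5.B54v2.T.A525
import Pool.Agent.Helper5.B54v2.T.A526
import Pool.Agent.Helper5.B54v2.T.A527
import Pool.Agent.Helper5.B54v2.T.A528
import Pool.Agent.Helper5.B54v2.T.A529
import Pool.Agent.Helper5.B54v2.T.A530
import Pool.Agent.Helper5.B54v2.T.A531
import Pool.Agent.Helper5.B54v2.T.A532
import Pool.Agent.Helper5.B54v2.T.A533
import Pool.Agent.Helper5.B54v2.T.A534
import Pool.Agent.Helper5.B54v2.T.A535
import Pool.Agent.Helper5.B54v2.T.A536
import Pool.Agent.Helper5.B54v2.T.A537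
import Pool.Agent.Helper5.B54v2.T.A538
import Pool.Agent.Helper5.B54v2.T.A539
import Pool.Agent.Helper5.B54v2.T.A540
import Pool.Agent.Helper5.B54v2.T.A541
import Pool.Agent.Helper5.B54v2.T.A542
import Pool.Agent.Helper5.B54v2.T.A543
import Pool.Agent.Helper5.B54v2.T.A544
import Pool.Agent.Helper5.B54v2.T.A545
import Pool.Agent.Helper5.B54v2.T.A546
import Pool.Agent.Helper5.B54v2.T.A547
import Pool.Agent.Helper5.B54v2.T.A548
import Pool.Agent.Helper5.B54v2.T.A549
import Pool.Agent.Helper5.B54v2.T.A550
import Pool.Agent.Helper5.B54v2.T.A551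
import Pool.Agent.Helper5.B54v2.T.A552
import Pool.Agent.Helper5.B54v2.T.A553
import Pool.Agent.Helper5.B54v2.T.A554
import Pool.Agent.Helper5.B54v2.T.A555
import Pool.Agent.Helper5.B54v2.T.A556
import Pool.Agent.Helper5.B54v2.T.A557
import Pool.Agent.Helper5.B54v2.T.A558
import Pool.Agent.Helper5.B54v2.T.A559
import Pool.Agent.Helper5.B54v2.T.A560
import Pool.Agent.Helper5.B54v2.T.A561
import Pool.Agent.Helper5.B54v2.T.A562
import Pool.Agent.Helper5.B54v2.T.A563
import Pool.Agent.Helper5.B54v2.T.A564
import Pool.Agent.Helper5.B54v2.T.A565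
import Pool.Agent.Helper5.B54v2.T.A566
import Pool.Agent.Helper5.B54v2.T.A567
import Pool.Agent.Helper5.B54v2.T.A568
import Pool.Agent.Helper5.B54v2.T.A569
import Pool.Agent.Helper5.B54v2.T.A570
import Pool.Agent.Helper5.B54v2.T.A571
import Pool.Agent.Helper5.B54v2.T.A572
import Pool.Agent.Helper5.B54v2.T.A573
import Pool.Agent.Helper5.B54v2.T.A574
import Pool.Agent.Helper5.B54v2.T.A575
import Pool.Agent.Helper5.B54v2.T.A576
import Pool.Agent.Helper5.B54v2.T.A577
import Pool.Agent.Helper5.B54v2.T.A578
import Pool.Agent.Helper5.B54v2.T.A579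
import Pool.Agent.Helper5.B54v2.T.A580
import Pool.Agent.Helper5.B54v2.T.A581
import Pool.Agent.Helper5.B54v2.T.A582
import Pool.Agent.Helper5.B54v2.T.A583
import Pool.Agent.Helper5.B54v2.T.A584
import Pool.Agent.Helper5.B54v2.T.A585
import Pool.Agent.Helper5.B54v2.T.A586
import Pool.Agent.Helper5.B54v2.T.A587
import Pool.Agent.Helper5.B54v2.T.A588
import Pool.Agent.Helper5.B54v2.T.A589
import Pool.Agent.Helper5.B54v2.T.A590
import Pool.Agent.Helper5.B54v2.T.A591
import Pool.Agent.Helper5.B54v2.T.A592
import Pool.Agent.Helper5.B54v2.T.A593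
import Pool.Agent.Helper5.B54v2.T.A594
import Pool.Agent.Helper5.B54v2.T.A595
import Pool.Agent.Helper5.B54v2.T.A596
import Pool.Agent.Helper5.B54v2.T.A597
import Pool.Agent.Helper5.B54v2.T.A598
import Pool.Agent.Helper5.B54v2.T.A599
import Pool.Agent.Helper5.B54v2.T.A600
import Pool.Agent.Helper5.B54v2.T.A601
import Pool.Agent.Helper5.B54v2.T.A602
import Pool.Agent.Helper5.B54v2.T.A603
import Pool.Agent.Helper5.B54v2.T.A604
import Pool.Agent.Helper5.B54v2.T.A605
import Pool.Agent.Helper5.B54v2.T.A606
import Pool.Agent.Helper5.B54v2.T.A607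
import Pool.Agent.Helper5.B54v2.T.A608
import Pool.Agent.Helper5.B54v2.T.A609
import Pool.Agent.Helper5.B54v2.T.A610
import Pool.Agent.Helper5.B54v2.T.A611
import Pool.Agent.Helper5.B54v2.T.A612
import Pool.Agent.Helper5.B54v2.T.A613
import Pool.Agent.Helper5.B54v2.T.A614
import Pool.Agent.Helper5.B54v2.T.A615
import Pool.Agent.Helper5.B54v2.T.A616
import Pool.Agent.Helper5.B54v2.T.A617
import Pool.Agent.Helper5.B54v2.T.A618
import Pool.Agent.Helper5.B54v2.T.A619
import Pool.Agent.Helper5.B54v2.T.A620
import Pool.Agent.Helper5.B54v2.T.A621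
import Pool.Agent.Helper5.B54v2.T.A622
import Pool.Agent.Helper5.B54v2.T.A623
import Pool.Agent.Helper5.B54v2.T.A624
import Pool.Agent.Helper5.B54v2.T.A625
import Pool.Agent.Helper5.B54v2.T.A626
import Pool.Agent.Helper5.B54v2.T.A627
import Pool.Agent.Helper5.B54v2.T.A628
import Pool.Agent.Helper5.B54v2.T.A629
import Pool.Agent.Helper5.B54v2.T.A630
import Pool.Agent.Helper5.B54v2.T.A631
import Pool.Agent.Helper5.B54v2.T.A632
import Pool.Agent.Helper5.B54v2.T.A633
import Pool.Agent.Helper5.B54v2.T.A634
import Pool.Agent.Helper5.B54v2.T.A635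

/-!
# Cells
-/

namespace Pool.Agent.Helper5.B54

theorem c16000_7320_7360_6840_6880 : Cell2 16000 7320 7360 6840 6880 :=
  CellR2.step (Good.chk c16000_7320_7360_6840_6880_s0) (by decide) (by decide)
    (CellR2.step (Good.chk c16000_7320_7360_6840_6880_s1) (by decide) (by decide)
    (CellR2.step (Good.chk c16000_7320_7360_6840_6880_s2) (by decide) (by decide)
    (CellR2.step (Good.chk c16000_7320_7360_6840_6880_s3) (by decide) (by decide)
    (CellR2.step (Good.chk c16000_7320_7360_6840_6880_s4) (by decide) (by decide)
    (CellR2.step (Good.chk c16000_7320_7360_6840_6880_s5) (by decide) (by decide)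
    (CellR2.fin c16000_7320_7360_6840_6880_f))))))

theorem c16000_7360_7520_4000_4640 : Cell2 16000 7360 7520 4000 4640 :=
  CellR2.fin c16000_7360_7520_4000_4640_f

theorem c16000_7360_7520_4640_4960 : Cell2 16000 7360 7520 4640 4960 :=
  CellR2.fin c16000_7360_7520_4640_4960_f

theorem c16000_7360_7520_4960_5120 : Cell2 16000 7360 7520 4960 5120 :=
  CellR2.step (Good.chk c16000_7360_7520_4960_5120_s0) (by decide) (by decide)
    (CellR2.fin c16000_7360_7520_4960_5120_f)

theorem c16000_7360_7520_5120_5280 : Cell2 16000 7360 7520 5120 5280 :=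
  CellR2.step (Good.chk c16000_7360_7520_5120_5280_s0) (by decide) (by decide)
    (CellR2.fin c16000_7360_7520_5120_5280_f)

theorem c16000_7360_7520_5280_5440 : Cell2 16000 7360 7520 5280 5440 :=
  CellR2.step (Good.chk c16000_7360_7520_5280_5440_s0) (by decide) (by decide)
    (CellR2.fin c16000_7360_7520_5280_5440_f)

theorem c16000_7360_7520_5440_5600 : Cell2 16000 7360 7520 5440 5600 :=
  CellR2.step (Good.chk c16000_7360_7520_5440_5600_s0) (by decide) (by decide)
    (CellR2.fin c16000_7360_7520_5440_5600_f)

theorem c16000_7360_7520_5600_5760 : Cell2 16000 7360 7520 5600 5760 :=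
  CellR2.step (Good.chk c16000_7360_7520_5600_5760_s0) (by decide) (by decide)
    (CellR2.step (Good.chk c16000_7360_7520_5600_5760_s1) (by decide) (by decide)
    (CellR2.fin c16000_7360_7520_5600_5760_f))

theorem c16000_7360_7520_5760_5920 : Cell2 16000 7360 7520 5760 5920 :=
  CellR2.step (Good.chk c16000_7360_7520_5760_5920_s0) (by decide) (by decide)
    (CellR2.step (Good.chk c16000_7360_7520_5760_5920_s1) (by decide) (by decide)
    (CellR2.fin c16000_7360_7520_5760_5920_f))

theorem c16000_7360_7440_5920_6000 : Cell2 16000 7360 7440 5920 6000 :=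
  CellR2.step (Good.chk c16000_7360_7440_5920_6000_s0) (by decide) (by decide)
    (CellR2.step (Good.chk c16000_7360_7440_5920_6000_s1) (by decide) (by decide)
    (CellR2.step (Good.chk c16000_7360_7440_5920_6000_s2) (by decide) (by decide)
    (CellR2.step (Good.chk c16000_7360_7440_5920_6000_s3) (by decide) (by decide)
    (CellR2.fin c16000_7360_7440_5920_6000_f))))

theorem c16000_7360_7440_6000_6080 : Cell2 16000 7360 7440 6000 6080 :=
  CellR2.step (Good.chk c16000_7360_7440_6000_6080_s0) (by decide) (by decide)
    (CellR2.step (Good.chk c16000_7360_7440_6000_6080_s1) (by decide) (by decide)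
    (CellR2.step (Good.chk c16000_7360_7440_6000_6080_s2) (by decide) (by decide)
    (CellR2.step (Good.chk c16000_7360_7440_6000_6080_s3) (by decide) (by decide)
    (CellR2.step (Good.chk c16000_7360_7440_6000_6080_s4) (by decide) (by decide)
    (CellR2.step (Good.chk c16000_7360_7440_6000_6080_s5) (by decide) (by decide)
    (CellR2.step (Good.chk c16000_7360_7440_6000_6080_s6) (by decide) (by decide)
    (CellR2.step (Good.chk c16000_7360_7440_6000_6080_s7) (by decide) (by decide)
    (CellR2.step (Good.chk c16000_7360_7440_6000_6080_s8) (by decide) (by decide)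
    (CellR2.fin c16000_7360_7440_6000_6080_f)))))))))

theorem c16000_7360_7440_6080_6160 : Cell2 16000 7360 7440 6080 6160 :=
  CellR2.step (Good.chk c16000_7360_7440_6080_6160_s0) (by decide) (by decide)
    (CellR2.step (Good.chk c16000_7360_7440_6080_6160_s1) (by decide) (by decide)
    (CellR2.step (Good.chk c16000_7360_7440_6080_6160_s2) (by decide) (by decide)
    (CellR2.step (Good.chk c16000_7360_7440_6080_6160_s3) (by decide) (by decide)
    (CellR2.step (Good.chk c16000_7360_7440_6080_6160_s4) (by decide) (by decide)
    (CellR2.step (Good.chk c16000_7360_7440_6080_6160_s5) (by decide) (by decide)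
    (CellR2.step (Good.chk c16000_7360_7440_6080_6160_s6) (by decide) (by decide)
    (CellR2.step (Good.chk c16000_7360_7440_6080_6160_s7) (by decide) (by decide)
    (CellR2.step (Good.chk c16000_7360_7440_6080_6160_s8) (by decide) (by decide)
    (CellR2.step (Good.chk c16000_7360_7440_6080_6160_s9) (by decide) (by decide)
    (CellR2.step (Good.chk c16000_7360_7440_6080_6160_s10) (by decide) (by decide)
    (CellR2.step (Good.chk c16000_7360_7440_6080_6160_s11) (by decide) (by decide)
    (CellR2.step (Good.chk c16000_7360_7440_6080_6160_s12) (by decide) (by decide)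
    (CellR2.fin c16000_7360_7440_6080_6160_f)))))))))))))

theorem c16000_7360_7400_6160_6200 : Cell2 16000 7360 7400 6160 6200 :=
  CellR2.step (Good.chk c16000_7360_7400_6160_6200_s0) (by decide) (by decide)
    (CellR2.step (Good.chk c16000_7360_7400_6160_6200_s1) (by decide) (by decide)
    (CellR2.step (Good.chk c16000_7360_7400_6160_6200_s2) (by decide) (by decide)
    (CellR2.step (Good.chk c16000_7360_7400_6160_6200_s3) (by decide) (by decide)
    (CellR2.step (Good.chk c16000_7360_7400_6160_6200_s4) (by decide) (by decide)
    (CellR2.step (Good.chk c16000_7360_7400_6160_6200_s5) (by decide) (by decide)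
    (CellR2.step (Good.chk c16000_7360_7400_6160_6200_s6) (by decide) (by decide)
    (CellR2.step (Good.chk c16000_7360_7400_6160_6200_s7) (by decide) (by decide)
    (CellR2.step (Good.chk c16000_7360_7400_6160_6200_s8) (by decide) (by decide)
    (CellR2.step (Good.chk c16000_7360_7400_6160_6200_s9) (by decide) (by decide)
    (CellR2.step (Good.chk c16000_7360_7400_6160_6200_s10) (by decide) (by decide)
    (CellR2.step (Good.chk c16000_7360_7400_6160_6200_s11) (by decide) (by decide)
    (CellR2.step (Good.chk c16000_7360_7400_6160_6200_s12) (by decide) (by decide)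
    (CellR2.step (Good.chk c16000_7360_7400_6160_6200_s13) (by decide) (by decide)
    (CellR2.step (Good.chk c16000_7360_7400_6160_6200_s14) (by decide) (by decide)
    (CellR2.fin c16000_7360_7400_6160_6200_f)))))))))))))))

theorem c16000_7360_7400_6200_6240 : Cell2 16000 7360 7400 6200 6240 :=
  CellR2.step (Good.chk c16000_7360_7400_6200_6240_s0) (by decide) (by decide)
    (CellR2.step (Good.chk c16000_7360_7400_6200_6240_s1) (by decide) (by decide)
    (CellR2.step (Good.chk c16000_7360_7400_6200_6240_s2) (by decide) (by decide)
    (CellR2.step (Good.chk c16000_7360_7400_6200_6240_s3) (by decide) (by decide)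
    (CellR2.step (Good.chk c16000_7360_7400_6200_6240_s4) (by decide) (by decide)
    (CellR2.step (Good.chk c16000_7360_7400_6200_6240_s5) (by decide) (by decide)
    (CellR2.step (Good.chk c16000_7360_7400_6200_6240_s6) (by decide) (by decide)
    (CellR2.step (Good.chk c16000_7360_7400_6200_6240_s7) (by decide) (by decide)
    (CellR2.step (Good.chk c16000_7360_7400_6200_6240_s8) (by decide) (by decide)
    (CellR2.fin c16000_7360_7400_6200_6240_f)))))))))

theorem c16000_7360_7440_6240_6320 : Cell2 16000 7360 7440 6240 6320 :=
  CellR2.step (Good.chk c16000_7360_7440_6240_6320_s0) (by decide) (by decide)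
    (CellR2.step (Good.chk c16000_7360_7440_6240_6320_s1) (by decide) (by decide)
    (CellR2.step (Good.chk c16000_7360_7440_6240_6320_s2) (by decide) (by decide)
    (CellR2.step (Good.chk c16000_7360_7440_6240_6320_s3) (by decide) (by decide)
    (CellR2.step (Good.chk c16000_7360_7440_6240_6320_s4) (by decide) (by decide)
    (CellR2.step (Good.chk c16000_7360_7440_6240_6320_s5) (by decide) (by decide)
    (CellR2.step (Good.chk c16000_7360_7440_6240_6320_s6) (by decide) (by decide)
    (CellR2.step (Good.chk c16000_7360_7440_6240_6320_s7) (by decide) (by decide)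
    (CellR2.step (Good.chk c16000_7360_7440_6240_6320_s8) (by decide) (by decide)
    (CellR2.step (Good.chk c16000_7360_7440_6240_6320_s9) (by decide) (by decide)
    (CellR2.step (Good.chk c16000_7360_7440_6240_6320_s10) (by decide) (by decide)
    (CellR2.step (Good.chk c16000_7360_7440_6240_6320_s11) (by decide) (by decide)
    (CellR2.step (Good.chk c16000_7360_7440_6240_6320_s12) (by decide) (by decide)
    (CellR2.step (Good.chk c16000_7360_7440_6240_6320_s13) (by decide) (by decide)
    (CellR2.step (Good.chk c16000_7360_7440_6240_6320_s14) (by decide) (by decide)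
    (CellR2.step (Good.chk c16000_7360_7440_6240_6320_s15) (by decide) (by decide)
    (CellR2.step (Good.chk c16000_7360_7440_6240_6320_s16) (by decide) (by decide)
    (CellR2.step (Good.chk c16000_7360_7440_6240_6320_s17) (by decide) (by decide)
    (CellR2.step (Good.chk c16000_7360_7440_6240_6320_s18) (by decide) (by decide)
    (CellR2.step (Good.chk c16000_7360_7440_6240_6320_s19) (by decide) (by decide)
    (CellR2.step (Good.chk c16000_7360_7440_6240_6320_s20) (by decide) (by decide)
    (CellR2.fin c16000_7360_7440_6240_6320_f)))))))))))))))))))))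

theorem c16000_7360_7400_6320_6360 : Cell2 16000 7360 7400 6320 6360 :=
  CellR2.step (Good.chk c16000_7360_7400_6320_6360_s0) (by decide) (by decide)
    (CellR2.step (Good.chk c16000_7360_7400_6320_6360_s1) (by decide) (by decide)
    (CellR2.step (Good.chk c16000_7360_7400_6320_6360_s2) (by decide) (by decide)
    (CellR2.step (Good.chk c16000_7360_7400_6320_6360_s3) (by decide) (by decide)
    (CellR2.step (Good.chk c16000_7360_7400_6320_6360_s4) (by decide) (by decide)
    (CellR2.step (Good.chk c16000_7360_7400_6320_6360_s5) (by decide) (by decide)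
    (CellR2.step (Good.chk c16000_7360_7400_6320_6360_s6) (by decide) (by decide)
    (CellR2.step (Good.chk c16000_7360_7400_6320_6360_s7) (by decide) (by decide)
    (CellR2.step (Good.chk c16000_7360_7400_6320_6360_s8) (by decide) (by decide)
    (CellR2.step (Good.chk c16000_7360_7400_6320_6360_s9) (by decide) (by decide)
    (CellR2.step (Good.chk c16000_7360_7400_6320_6360_s10) (by decide) (by decide)
    (CellR2.step (Good.chk c16000_7360_7400_6320_6360_s11) (by decide) (by decide)
    (CellR2.step (Good.chk c16000_7360_7400_6320_6360_s12) (by decide) (by decide)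
    (CellR2.step (Good.chk c16000_7360_7400_6320_6360_s13) (by decide) (by decide)
    (CellR2.step (Good.chk c16000_7360_7400_6320_6360_s14) (by decide) (by decide)
    (CellR2.step (Good.chk c16000_7360_7400_6320_6360_s15) (by decide) (by decide)
    (CellR2.step (Good.chk c16000_7360_7400_6320_6360_s16) (by decide) (by decide)
    (CellR2.step (Good.chk c16000_7360_7400_6320_6360_s17) (by decide) (by decide)
    (CellR2.step (Good.chk c16000_7360_7400_6320_6360_s18) (by decide) (by decide)
    (CellR2.step (Good.chk c16000_7360_7400_6320_6360_s19) (by decide) (by decide)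
    (CellR2.step (Good.chk c16000_7360_7400_6320_6360_s20) (by decide) (by decide)
    (CellR2.fin c16000_7360_7400_6320_6360_f)))))))))))))))))))))

theorem c16000_7360_7400_6360_6400 : Cell2 16000 7360 7400 6360 6400 :=
  CellR2.step (Good.chk c16000_7360_7400_6360_6400_s0) (by decide) (by decide)
    (CellR2.step (Good.chk c16000_7360_7400_6360_6400_s1) (by decide) (by decide)
    (CellR2.step (Good.chk c16000_7360_7400_6360_6400_s2) (by decide) (by decide)
    (CellR2.step (Good.chk c16000_7360_7400_6360_6400_s3) (by decide) (by decide)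
    (CellR2.step (Good.chk c16000_7360_7400_6360_6400_s4) (by decide) (by decide)
    (CellR2.step (Good.chk c16000_7360_7400_6360_6400_s5) (by decide) (by decide)
    (CellR2.step (Good.chk c16000_7360_7400_6360_6400_s6) (by decide) (by decide)
    (CellR2.step (Good.chk c16000_7360_7400_6360_6400_s7) (by decide) (by decide)
    (CellR2.step (Good.chk c16000_7360_7400_6360_6400_s8) (by decide) (by decide)
    (CellR2.step (Good.chk c16000_7360_7400_6360_6400_s9) (by decide) (by decide)
    (CellR2.step (Good.chk c16000_7360_7400_6360_6400_s10) (by decide) (by decide)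
    (CellR2.step (Good.chk c16000_7360_7400_6360_6400_s11) (by decide) (by decide)
    (CellR2.step (Good.chk c16000_7360_7400_6360_6400_s12) (by decide) (by decide)
    (CellR2.step (Good.chk c16000_7360_7400_6360_6400_s13) (by decide) (by decide)
    (CellR2.step (Good.chk c16000_7360_7400_6360_6400_s14) (by decide) (by decide)
    (CellR2.fin c16000_7360_7400_6360_6400_f)))))))))))))))

theorem c16000_7360_7400_6400_6440 : Cell2 16000 7360 7400 6400 6440 :=
  CellR2.step (Good.chk c16000_7360_7400_6400_6440_s0) (by decide) (by decide)
    (CellR2.step (Good.chk c16000_7360_7400_6400_6440_s1) (by decide) (by decide)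
    (CellR2.step (Good.chk c16000_7360_7400_6400_6440_s2) (by decide) (by decide)
    (CellR2.step (Good.chk c16000_7360_7400_6400_6440_s3) (by decide) (by decide)
    (CellR2.step (Good.chk c16000_7360_7400_6400_6440_s4) (by decide) (by decide)
    (CellR2.step (Good.chk c16000_7360_7400_6400_6440_s5) (by decide) (by decide)
    (CellR2.step (Good.chk c16000_7360_7400_6400_6440_s6) (by decide) (by decide)
    (CellR2.step (Good.chk c16000_7360_7400_6400_6440_s7) (by decide) (by decide)
    (CellR2.step (Good.chk c16000_7360_7400_6400_6440_s8) (by decide) (by decide)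
    (CellR2.step (Good.chk c16000_7360_7400_6400_6440_s9) (by decide) (by decide)
    (CellR2.step (Good.chk c16000_7360_7400_6400_6440_s10) (by decide) (by decide)
    (CellR2.step (Good.chk c16000_7360_7400_6400_6440_s11) (by decide) (by decide)
    (CellR2.step (Good.chk c16000_7360_7400_6400_6440_s12) (by decide) (by decide)
    (CellR2.step (Good.chk c16000_7360_7400_6400_6440_s13) (by decide) (by decide)
    (CellR2.step (Good.chk c16000_7360_7400_6400_6440_s14) (by decide) (by decide)
    (CellR2.fin c16000_7360_7400_6400_6440_f)))))))))))))))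

theorem c16000_7360_7400_6440_6480 : Cell2 16000 7360 7400 6440 6480 :=
  CellR2.step (Good.chk c16000_7360_7400_6440_6480_s0) (by decide) (by decide)
    (CellR2.step (Good.chk c16000_7360_7400_6440_6480_s1) (by decide) (by decide)
    (CellR2.step (Good.chk c16000_7360_7400_6440_6480_s2) (by decide) (by decide)
    (CellR2.step (Good.chk c16000_7360_7400_6440_6480_s3) (by decide) (by decide)
    (CellR2.step (Good.chk c16000_7360_7400_6440_6480_s4) (by decide) (by decide)
    (CellR2.step (Good.chk c16000_7360_7400_6440_6480_s5) (by decide) (by decide)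
    (CellR2.step (Good.chk c16000_7360_7400_6440_6480_s6) (by decide) (by decide)
    (CellR2.step (Good.chk c16000_7360_7400_6440_6480_s7) (by decide) (by decide)
    (CellR2.step (Good.chk c16000_7360_7400_6440_6480_s8) (by decide) (by decide)
    (CellR2.step (Good.chk c16000_7360_7400_6440_6480_s9) (by decide) (by decide)
    (CellR2.step (Good.chk c16000_7360_7400_6440_6480_s10) (by decide) (by decide)
    (CellR2.fin c16000_7360_7400_6440_6480_f)))))))))))

theorem c16000_7360_7440_6480_6560 : Cell2 16000 7360 7440 6480 6560 :=
  CellR2.step (Good.chk c16000_7360_7440_6480_6560_s0) (by decide) (by decide)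
    (CellR2.step (Good.chk c16000_7360_7440_6480_6560_s1) (by decide) (by decide)
    (CellR2.step (Good.chk c16000_7360_7440_6480_6560_s2) (by decide) (by decide)
    (CellR2.step (Good.chk c16000_7360_7440_6480_6560_s3) (by decide) (by decide)
    (CellR2.step (Good.chk c16000_7360_7440_6480_6560_s4) (by decide) (by decide)
    (CellR2.step (Good.chk c16000_7360_7440_6480_6560_s5) (by decide) (by decide)
    (CellR2.step (Good.chk c16000_7360_7440_6480_6560_s6) (by decide) (by decide)
    (CellR2.step (Good.chk c16000_7360_7440_6480_6560_s7) (by decide) (by decide)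
    (CellR2.step (Good.chk c16000_7360_7440_6480_6560_s8) (by decide) (by decide)
    (CellR2.step (Good.chk c16000_7360_7440_6480_6560_s9) (by decide) (by decide)
    (CellR2.step (Good.chk c16000_7360_7440_6480_6560_s10) (by decide) (by decide)
    (CellR2.step (Good.chk c16000_7360_7440_6480_6560_s11) (by decide) (by decide)
    (CellR2.step (Good.chk c16000_7360_7440_6480_6560_s12) (by decide) (by decide)
    (CellR2.step (Good.chk c16000_7360_7440_6480_6560_s13) (by decide) (by decide)
    (CellR2.step (Good.chk c16000_7360_7440_6480_6560_s14) (by decide) (by decide)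
    (CellR2.step (Good.chk c16000_7360_7440_6480_6560_s15) (by decide) (by decide)
    (CellR2.step (Good.chk c16000_7360_7440_6480_6560_s16) (by decide) (by decide)
    (CellR2.fin c16000_7360_7440_6480_6560_f)))))))))))))))))

theorem c16000_7360_7400_6560_6600 : Cell2 16000 7360 7400 6560 6600 :=
  CellR2.step (Good.chk c16000_7360_7400_6560_6600_s0) (by decide) (by decide)
    (CellR2.step (Good.chk c16000_7360_7400_6560_6600_s1) (by decide) (by decide)
    (CellR2.step (Good.chk c16000_7360_7400_6560_6600_s2) (by decide) (by decide)
    (CellR2.step (Good.chk c16000_7360_7400_6560_6600_s3) (by decide) (by decide)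
    (CellR2.step (Good.chk c16000_7360_7400_6560_6600_s4) (by decide) (by decide)
    (CellR2.step (Good.chk c16000_7360_7400_6560_6600_s5) (by decide) (by decide)
    (CellR2.step (Good.chk c16000_7360_7400_6560_6600_s6) (by decide) (by decide)
    (CellR2.step (Good.chk c16000_7360_7400_6560_6600_s7) (by decide) (by decide)
    (CellR2.step (Good.chk c16000_7360_7400_6560_6600_s8) (by decide) (by decide)
    (CellR2.step (Good.chk c16000_7360_7400_6560_6600_s9) (by decide) (by decide)
    (CellR2.fin c16000_7360_7400_6560_6600_f))))))))))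

theorem c16000_7360_7400_6600_6640 : Cell2 16000 7360 7400 6600 6640 :=
  CellR2.step (Good.chk c16000_7360_7400_6600_6640_s0) (by decide) (by decide)
    (CellR2.step (Good.chk c16000_7360_7400_6600_6640_s1) (by decide) (by decide)
    (CellR2.step (Good.chk c16000_7360_7400_6600_6640_s2) (by decide) (by decide)
    (CellR2.step (Good.chk c16000_7360_7400_6600_6640_s3) (by decide) (by decide)
    (CellR2.step (Good.chk c16000_7360_7400_6600_6640_s4) (by decide) (by decide)
    (CellR2.step (Good.chk c16000_7360_7400_6600_6640_s5) (by decide) (by decide)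
    (CellR2.step (Good.chk c16000_7360_7400_6600_6640_s6) (by decide) (by decide)
    (CellR2.step (Good.chk c16000_7360_7400_6600_6640_s7) (by decide) (by decide)
    (CellR2.step (Good.chk c16000_7360_7400_6600_6640_s8) (by decide) (by decide)
    (CellR2.step (Good.chk c16000_7360_7400_6600_6640_s9) (by decide) (by decide)
    (CellR2.step (Good.chk c16000_7360_7400_6600_6640_s10) (by decide) (by decide)
    (CellR2.step (Good.chk c16000_7360_7400_6600_6640_s11) (by decide) (by decide)
    (CellR2.step (Good.chk c16000_7360_7400_6600_6640_s12) (by decide) (by decide)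
    (CellR2.step (Good.chk c16000_7360_7400_6600_6640_s13) (by decide) (by decide)
    (CellR2.fin c16000_7360_7400_6600_6640_f))))))))))))))

theorem c16000_7360_7400_6640_6680 : Cell2 16000 7360 7400 6640 6680 :=
  CellR2.step (Good.chk c16000_7360_7400_6640_6680_s0) (by decide) (by decide)
    (CellR2.step (Good.chk c16000_7360_7400_6640_6680_s1) (by decide) (by decide)
    (CellR2.step (Good.chk c16000_7360_7400_6640_6680_s2) (by decide) (by decide)
    (CellR2.step (Good.chk c16000_7360_7400_6640_6680_s3) (by decide) (by decide)
    (CellR2.step (Good.chk c16000_7360_7400_6640_6680_s4) (by decide) (by decide)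
    (CellR2.step (Good.chk c16000_7360_7400_6640_6680_s5) (by decide) (by decide)
    (CellR2.step (Good.chk c16000_7360_7400_6640_6680_s6) (by decide) (by decide)
    (CellR2.step (Good.chk c16000_7360_7400_6640_6680_s7) (by decide) (by decide)
    (CellR2.step (Good.chk c16000_7360_7400_6640_6680_s8) (by decide) (by decide)
    (CellR2.step (Good.chk c16000_7360_7400_6640_6680_s9) (by decide) (by decide)
    (CellR2.step (Good.chk c16000_7360_7400_6640_6680_s10) (by decide) (by decide)
    (CellR2.step (Good.chk c16000_7360_7400_6640_6680_s11) (by decide) (by decide)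
    (CellR2.fin c16000_7360_7400_6640_6680_f))))))))))))

theorem c16000_7360_7400_6680_6720 : Cell2 16000 7360 7400 6680 6720 :=
  CellR2.step (Good.chk c16000_7360_7400_6680_6720_s0) (by decide) (by decide)
    (CellR2.step (Good.chk c16000_7360_7400_6680_6720_s1) (by decide) (by decide)
    (CellR2.step (Good.chk c16000_7360_7400_6680_6720_s2) (by decide) (by decide)
    (CellR2.step (Good.chk c16000_7360_7400_6680_6720_s3) (by decide) (by decide)
    (CellR2.step (Good.chk c16000_7360_7400_6680_6720_s4) (by decide) (by decide)
    (CellR2.step (Good.chk c16000_7360_7400_6680_6720_s5) (by decide) (by decide)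
    (CellR2.step (Good.chk c16000_7360_7400_6680_6720_s6) (by decide) (by decide)
    (CellR2.step (Good.chk c16000_7360_7400_6680_6720_s7) (by decide) (by decide)
    (CellR2.step (Good.chk c16000_7360_7400_6680_6720_s8) (by decide) (by decide)
    (CellR2.step (Good.chk c16000_7360_7400_6680_6720_s9) (by decide) (by decide)
    (CellR2.fin c16000_7360_7400_6680_6720_f))))))))))

theorem c16000_7360_7440_6720_6800 : Cell2 16000 7360 7440 6720 6800 :=
  CellR2.step (Good.chk c16000_7360_7440_6720_6800_s0) (by decide) (by decide)
    (CellR2.step (Good.chk c16000_7360_7440_6720_6800_s1) (by decide) (by decide)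
    (CellR2.step (Good.chk c16000_7360_7440_6720_6800_s2) (by decide) (by decide)
    (CellR2.step (Good.chk c16000_7360_7440_6720_6800_s3) (by decide) (by decide)
    (CellR2.step (Good.chk c16000_7360_7440_6720_6800_s4) (by decide) (by decide)
    (CellR2.step (Good.chk c16000_7360_7440_6720_6800_s5) (by decide) (by decide)
    (CellR2.step (Good.chk c16000_7360_7440_6720_6800_s6) (by decide) (by decide)
    (CellR2.step (Good.chk c16000_7360_7440_6720_6800_s7) (by decide) (by decide)
    (CellR2.step (Good.chk c16000_7360_7440_6720_6800_s8) (by decide) (by decide)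
    (CellR2.step (Good.chk c16000_7360_7440_6720_6800_s9) (by decide) (by decide)
    (CellR2.step (Good.chk c16000_7360_7440_6720_6800_s10) (by decide) (by decide)
    (CellR2.step (Good.chk c16000_7360_7440_6720_6800_s11) (by decide) (by decide)
    (CellR2.step (Good.chk c16000_7360_7440_6720_6800_s12) (by decide) (by decide)
    (CellR2.step (Good.chk c16000_7360_7440_6720_6800_s13) (by decide) (by decide)
    (CellR2.step (Good.chk c16000_7360_7440_6720_6800_s14) (by decide) (by decide)
    (CellR2.step (Good.chk c16000_7360_7440_6720_6800_s15) (by decide) (by decide)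
    (CellR2.step (Good.chk c16000_7360_7440_6720_6800_s16) (by decide) (by decide)
    (CellR2.step (Good.chk c16000_7360_7440_6720_6800_s17) (by decide) (by decide)
    (CellR2.step (Good.chk c16000_7360_7440_6720_6800_s18) (by decide) (by decide)
    (CellR2.step (Good.chk c16000_7360_7440_6720_6800_s19) (by decide) (by decide)
    (CellR2.step (Good.chk c16000_7360_7440_6720_6800_s20) (by decide) (by decide)
    (CellR2.step (Good.chk c16000_7360_7440_6720_6800_s21) (by decide) (by decide)
    (CellR2.fin c16000_7360_7440_6720_6800_f))))))))))))))))))))))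

theorem c16000_7360_7440_6800_6880 : Cell2 16000 7360 7440 6800 6880 :=
  CellR2.step (Good.chk c16000_7360_7440_6800_6880_s0) (by decide) (by decide)
    (CellR2.step (Good.chk c16000_7360_7440_6800_6880_s1) (by decide) (by decide)
    (CellR2.step (Good.chk c16000_7360_7440_6800_6880_s2) (by decide) (by decide)
    (CellR2.step (Good.chk c16000_7360_7440_6800_6880_s3) (by decide) (by decide)
    (CellR2.step (Good.chk c16000_7360_7440_6800_6880_s4) (by decide) (by decide)
    (CellR2.step (Good.chk c16000_7360_7440_6800_6880_s5) (by decide) (by decide)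
    (CellR2.step (Good.chk c16000_7360_7440_6800_6880_s6) (by decide) (by decide)
    (CellR2.step (Good.chk c16000_7360_7440_6800_6880_s7) (by decide) (by decide)
    (CellR2.step (Good.chk c16000_7360_7440_6800_6880_s8) (by decide) (by decide)
    (CellR2.step (Good.chk c16000_7360_7440_6800_6880_s9) (by decide) (by decide)
    (CellR2.step (Good.chk c16000_7360_7440_6800_6880_s10) (by decide) (by decide)
    (CellR2.step (Good.chk c16000_7360_7440_6800_6880_s11) (by decide) (by decide)
    (CellR2.fin c16000_7360_7440_6800_6880_f))))))))))))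

theorem c16000_7360_7440_6880_6960 : Cell2 16000 7360 7440 6880 6960 :=
  CellR2.step (Good.chk c16000_7360_7440_6880_6960_s0) (by decide) (by decide)
    (CellR2.step (Good.chk c16000_7360_7440_6880_6960_s1) (by decide) (by decide)
    (CellR2.step (Good.chk c16000_7360_7440_6880_6960_s2) (by decide) (by decide)
    (CellR2.step (Good.chk c16000_7360_7440_6880_6960_s3) (by decide) (by decide)
    (CellR2.step (Good.chk c16000_7360_7440_6880_6960_s4) (by decide) (by decide)
    (CellR2.step (Good.chk c16000_7360_7440_6880_6960_s5) (by decide) (by decide)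
    (CellR2.step (Good.chk c16000_7360_7440_6880_6960_s6) (by decide) (by decide)
    (CellR2.step (Good.chk c16000_7360_7440_6880_6960_s7) (by decide) (by decide)
    (CellR2.fin c16000_7360_7440_6880_6960_f))))))))

theorem c16000_7360_7440_6960_7040 : Cell2 16000 7360 7440 6960 7040 :=
  CellR2.step (Good.chk c16000_7360_7440_6960_7040_s0) (by decide) (by decide)
    (CellR2.step (Good.chk c16000_7360_7440_6960_7040_s1) (by decide) (by decide)
    (CellR2.step (Good.chk c16000_7360_7440_6960_7040_s2) (by decide) (by decide)
    (CellR2.step (Good.chk c16000_7360_7440_6960_7040_s3) (by decide) (by decide)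
    (CellR2.fin c16000_7360_7440_6960_7040_f))))

theorem c16000_7360_7440_7040_7120 : Cell2 16000 7360 7440 7040 7120 :=
  CellR2.step (Good.chk c16000_7360_7440_7040_7120_s0) (by decide) (by decide)
    (CellR2.step (Good.chk c16000_7360_7440_7040_7120_s1) (by decide) (by decide)
    (CellR2.step (Good.chk c16000_7360_7440_7040_7120_s2) (by decide) (by decide)
    (CellR2.step (Good.chk c16000_7360_7440_7040_7120_s3) (by decide) (by decide)
    (CellR2.step (Good.chk c16000_7360_7440_7040_7120_s4) (by decide) (by decide)
    (CellR2.fin c16000_7360_7440_7040_7120_f)))))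

theorem c16000_7360_7440_7120_7200 : Cell2 16000 7360 7440 7120 7200 :=
  CellR2.step (Good.chk c16000_7360_7440_7120_7200_s0) (by decide) (by decide)
    (CellR2.step (Good.chk c16000_7360_7440_7120_7200_s1) (by decide) (by decide)
    (CellR2.step (Good.chk c16000_7360_7440_7120_7200_s2) (by decide) (by decide)
    (CellR2.fin c16000_7360_7440_7120_7200_f)))

theorem c16000_7360_7520_7200_7360 : Cell2 16000 7360 7520 7200 7360 :=
  CellR2.step (Good.chk c16000_7360_7520_7200_7360_s0) (by decide) (by decide)
    (CellR2.fin c16000_7360_7520_7200_7360_f)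

theorem c16000_7360_7520_7360_7520 : Cell2 16000 7360 7520 7360 7520 :=
  CellR2.fin c16000_7360_7520_7360_7520_f

theorem c16000_7400_7440_6160_6200 : Cell2 16000 7400 7440 6160 6200 :=
  CellR2.step (Good.chk c16000_7400_7440_6160_6200_s0) (by decide) (by decide)
    (CellR2.step (Good.chk c16000_7400_7440_6160_6200_s1) (by decide) (by decide)
    (CellR2.step (Good.chk c16000_7400_7440_6160_6200_s2) (by decide) (by decide)
    (CellR2.step (Good.chk c16000_7400_7440_6160_6200_s3) (by decide) (by decide)
    (CellR2.step (Good.chk c16000_7400_7440_6160_6200_s4) (by decide) (by decide)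
    (CellR2.step (Good.chk c16000_7400_7440_6160_6200_s5) (by decide) (by decide)
    (CellR2.step (Good.chk c16000_7400_7440_6160_6200_s6) (by decide) (by decide)
    (CellR2.step (Good.chk c16000_7400_7440_6160_6200_s7) (by decide) (by decide)
    (CellR2.step (Good.chk c16000_7400_7440_6160_6200_s8) (by decide) (by decide)
    (CellR2.step (Good.chk c16000_7400_7440_6160_6200_s9) (by decide) (by decide)
    (CellR2.step (Good.chk c16000_7400_7440_6160_6200_s10) (by decide) (by decide)
    (CellR2.step (Good.chk c16000_7400_7440_6160_6200_s11) (by decide) (by decide)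
    (CellR2.step (Good.chk c16000_7400_7440_6160_6200_s12) (by decide) (by decide)
    (CellR2.step (Good.chk c16000_7400_7440_6160_6200_s13) (by decide) (by decide)
    (CellR2.step (Good.chk c16000_7400_7440_6160_6200_s14) (by decide) (by decide)
    (CellR2.step (Good.chk c16000_7400_7440_6160_6200_s15) (by decide) (by decide)
    (CellR2.step (Good.chk c16000_7400_7440_6160_6200_s16) (by decide) (by decide)
    (CellR2.fin c16000_7400_7440_6160_6200_f)))))))))))))))))

theorem c16000_7400_7440_6200_6240 : Cell2 16000 7400 7440 6200 6240 :=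
  CellR2.step (Good.chk c16000_7400_7440_6200_6240_s0) (by decide) (by decide)
    (CellR2.step (Good.chk c16000_7400_7440_6200_6240_s1) (by decide) (by decide)
    (CellR2.step (Good.chk c16000_7400_7440_6200_6240_s2) (by decide) (by decide)
    (CellR2.step (Good.chk c16000_7400_7440_6200_6240_s3) (by decide) (by decide)
    (CellR2.step (Good.chk c16000_7400_7440_6200_6240_s4) (by decide) (by decide)
    (CellR2.step (Good.chk c16000_7400_7440_6200_6240_s5) (by decide) (by decide)
    (CellR2.step (Good.chk c16000_7400_7440_6200_6240_s6) (by decide) (by decide)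
    (CellR2.step (Good.chk c16000_7400_7440_6200_6240_s7) (by decide) (by decide)
    (CellR2.step (Good.chk c16000_7400_7440_6200_6240_s8) (by decide) (by decide)
    (CellR2.step (Good.chk c16000_7400_7440_6200_6240_s9) (by decide) (by decide)
    (CellR2.fin c16000_7400_7440_6200_6240_f))))))))))

theorem c16000_7400_7440_6320_6360 : Cell2 16000 7400 7440 6320 6360 :=
  CellR2.step (Good.chk c16000_7400_7440_6320_6360_s0) (by decide) (by decide)
    (CellR2.step (Good.chk c16000_7400_7440_6320_6360_s1) (by decide) (by decide)
    (CellR2.step (Good.chk c16000_7400_7440_6320_6360_s2) (by decide) (by decide)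
    (CellR2.step (Good.chk c16000_7400_7440_6320_6360_s3) (by decide) (by decide)
    (CellR2.step (Good.chk c16000_7400_7440_6320_6360_s4) (by decide) (by decide)
    (CellR2.step (Good.chk c16000_7400_7440_6320_6360_s5) (by decide) (by decide)
    (CellR2.step (Good.chk c16000_7400_7440_6320_6360_s6) (by decide) (by decide)
    (CellR2.step (Good.chk c16000_7400_7440_6320_6360_s7) (by decide) (by decide)
    (CellR2.step (Good.chk c16000_7400_7440_6320_6360_s8) (by decide) (by decide)
    (CellR2.step (Good.chk c16000_7400_7440_6320_6360_s9) (by decide) (by decide)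
    (CellR2.step (Good.chk c16000_7400_7440_6320_6360_s10) (by decide) (by decide)
    (CellR2.step (Good.chk c16000_7400_7440_6320_6360_s11) (by decide) (by decide)
    (CellR2.step (Good.chk c16000_7400_7440_6320_6360_s12) (by decide) (by decide)
    (CellR2.step (Good.chk c16000_7400_7440_6320_6360_s13) (by decide) (by decide)
    (CellR2.step (Good.chk c16000_7400_7440_6320_6360_s14) (by decide) (by decide)
    (CellR2.step (Good.chk c16000_7400_7440_6320_6360_s15) (by decide) (by decide)
    (CellR2.fin c16000_7400_7440_6320_6360_f))))))))))))))))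

theorem c16000_7400_7440_6360_6400 : Cell2 16000 7400 7440 6360 6400 :=
  CellR2.step (Good.chk c16000_7400_7440_6360_6400_s0) (by decide) (by decide)
    (CellR2.step (Good.chk c16000_7400_7440_6360_6400_s1) (by decide) (by decide)
    (CellR2.step (Good.chk c16000_7400_7440_6360_6400_s2) (by decide) (by decide)
    (CellR2.step (Good.chk c16000_7400_7440_6360_6400_s3) (by decide) (by decide)
    (CellR2.step (Good.chk c16000_7400_7440_6360_6400_s4) (by decide) (by decide)
    (CellR2.step (Good.chk c16000_7400_7440_6360_6400_s5) (by decide) (by decide)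
    (CellR2.step (Good.chk c16000_7400_7440_6360_6400_s6) (by decide) (by decide)
    (CellR2.step (Good.chk c16000_7400_7440_6360_6400_s7) (by decide) (by decide)
    (CellR2.step (Good.chk c16000_7400_7440_6360_6400_s8) (by decide) (by decide)
    (CellR2.step (Good.chk c16000_7400_7440_6360_6400_s9) (by decide) (by decide)
    (CellR2.step (Good.chk c16000_7400_7440_6360_6400_s10) (by decide) (by decide)
    (CellR2.step (Good.chk c16000_7400_7440_6360_6400_s11) (by decide) (by decide)
    (CellR2.step (Good.chk c16000_7400_7440_6360_6400_s12) (by decide) (by decide)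
    (CellR2.step (Good.chk c16000_7400_7440_6360_6400_s13) (by decide) (by decide)
    (CellR2.step (Good.chk c16000_7400_7440_6360_6400_s14) (by decide) (by decide)
    (CellR2.step (Good.chk c16000_7400_7440_6360_6400_s15) (by decide) (by decide)
    (CellR2.step (Good.chk c16000_7400_7440_6360_6400_s16) (by decide) (by decide)
    (CellR2.step (Good.chk c16000_7400_7440_6360_6400_s17) (by decide) (by decide)
    (CellR2.fin c16000_7400_7440_6360_6400_f))))))))))))))))))

theorem c16000_7400_7440_6400_6440 : Cell2 16000 7400 7440 6400 6440 :=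
  CellR2.step (Good.chk c16000_7400_7440_6400_6440_s0) (by decide) (by decide)
    (CellR2.step (Good.chk c16000_7400_7440_6400_6440_s1) (by decide) (by decide)
    (CellR2.step (Good.chk c16000_7400_7440_6400_6440_s2) (by decide) (by decide)
    (CellR2.step (Good.chk c16000_7400_7440_6400_6440_s3) (by decide) (by decide)
    (CellR2.step (Good.chk c16000_7400_7440_6400_6440_s4) (by decide) (by decide)
    (CellR2.step (Good.chk c16000_7400_7440_6400_6440_s5) (by decide) (by decide)
    (CellR2.step (Good.chk c16000_7400_7440_6400_6440_s6) (by decide) (by decide)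
    (CellR2.step (Good.chk c16000_7400_7440_6400_6440_s7) (by decide) (by decide)
    (CellR2.step (Good.chk c16000_7400_7440_6400_6440_s8) (by decide) (by decide)
    (CellR2.step (Good.chk c16000_7400_7440_6400_6440_s9) (by decide) (by decide)
    (CellR2.step (Good.chk c16000_7400_7440_6400_6440_s10) (by decide) (by decide)
    (CellR2.step (Good.chk c16000_7400_7440_6400_6440_s11) (by decide) (by decide)
    (CellR2.fin c16000_7400_7440_6400_6440_f))))))))))))

theorem c16000_7400_7440_6440_6480 : Cell2 16000 7400 7440 6440 6480 :=
  CellR2.step (Good.chk c16000_7400_7440_6440_6480_s0) (by decide) (by decide)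
    (CellR2.step (Good.chk c16000_7400_7440_6440_6480_s1) (by decide) (by decide)
    (CellR2.step (Good.chk c16000_7400_7440_6440_6480_s2) (by decide) (by decide)
    (CellR2.step (Good.chk c16000_7400_7440_6440_6480_s3) (by decide) (by decide)
    (CellR2.step (Good.chk c16000_7400_7440_6440_6480_s4) (by decide) (by decide)
    (CellR2.step (Good.chk c16000_7400_7440_6440_6480_s5) (by decide) (by decide)
    (CellR2.step (Good.chk c16000_7400_7440_6440_6480_s6) (by decide) (by decide)
    (CellR2.step (Good.chk c16000_7400_7440_6440_6480_s7) (by decide) (by decide)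
    (CellR2.step (Good.chk c16000_7400_7440_6440_6480_s8) (by decide) (by decide)
    (CellR2.step (Good.chk c16000_7400_7440_6440_6480_s9) (by decide) (by decide)
    (CellR2.fin c16000_7400_7440_6440_6480_f))))))))))

theorem c16000_7400_7440_6560_6600 : Cell2 16000 7400 7440 6560 6600 :=
  CellR2.step (Good.chk c16000_7400_7440_6560_6600_s0) (by decide) (by decide)
    (CellR2.step (Good.chk c16000_7400_7440_6560_6600_s1) (by decide) (by decide)
    (CellR2.step (Good.chk c16000_7400_7440_6560_6600_s2) (by decide) (by decide)
    (CellR2.step (Good.chk c16000_7400_7440_6560_6600_s3) (by decide) (by decide)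
    (CellR2.step (Good.chk c16000_7400_7440_6560_6600_s4) (by decide) (by decide)
    (CellR2.step (Good.chk c16000_7400_7440_6560_6600_s5) (by decide) (by decide)
    (CellR2.step (Good.chk c16000_7400_7440_6560_6600_s6) (by decide) (by decide)
    (CellR2.step (Good.chk c16000_7400_7440_6560_6600_s7) (by decide) (by decide)
    (CellR2.step (Good.chk c16000_7400_7440_6560_6600_s8) (by decide) (by decide)
    (CellR2.step (Good.chk c16000_7400_7440_6560_6600_s9) (by decide) (by decide)
    (CellR2.step (Good.chk c16000_7400_7440_6560_6600_s10) (by decide) (by decide)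
    (CellR2.step (Good.chk c16000_7400_7440_6560_6600_s11) (by decide) (by decide)
    (CellR2.step (Good.chk c16000_7400_7440_6560_6600_s12) (by decide) (by decide)
    (CellR2.step (Good.chk c16000_7400_7440_6560_6600_s13) (by decide) (by decide)
    (CellR2.step (Good.chk c16000_7400_7440_6560_6600_s14) (by decide) (by decide)
    (CellR2.step (Good.chk c16000_7400_7440_6560_6600_s15) (by decide) (by decide)
    (CellR2.step (Good.chk c16000_7400_7440_6560_6600_s16) (by decide) (by decide)
    (CellR2.fin c16000_7400_7440_6560_6600_f)))))))))))))))))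

theorem c16000_7400_7440_6600_6640 : Cell2 16000 7400 7440 6600 6640 :=
  CellR2.step (Good.chk c16000_7400_7440_6600_6640_s0) (by decide) (by decide)
    (CellR2.step (Good.chk c16000_7400_7440_6600_6640_s1) (by decide) (by decide)
    (CellR2.step (Good.chk c16000_7400_7440_6600_6640_s2) (by decide) (by decide)
    (CellR2.step (Good.chk c16000_7400_7440_6600_6640_s3) (by decide) (by decide)
    (CellR2.step (Good.chk c16000_7400_7440_6600_6640_s4) (by decide) (by decide)
    (CellR2.step (Good.chk c16000_7400_7440_6600_6640_s5) (by decide) (by decide)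
    (CellR2.step (Good.chk c16000_7400_7440_6600_6640_s6) (by decide) (by decide)
    (CellR2.step (Good.chk c16000_7400_7440_6600_6640_s7) (by decide) (by decide)
    (CellR2.step (Good.chk c16000_7400_7440_6600_6640_s8) (by decide) (by decide)
    (CellR2.step (Good.chk c16000_7400_7440_6600_6640_s9) (by decide) (by decide)
    (CellR2.step (Good.chk c16000_7400_7440_6600_6640_s10) (by decide) (by decide)
    (CellR2.fin c16000_7400_7440_6600_6640_f)))))))))))

theorem c16000_7400_7440_6640_6680 : Cell2 16000 7400 7440 6640 6680 :=
  CellR2.step (Good.chk c16000_7400_7440_6640_6680_s0) (by decide) (by decide)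
    (CellR2.step (Good.chk c16000_7400_7440_6640_6680_s1) (by decide) (by decide)
    (CellR2.step (Good.chk c16000_7400_7440_6640_6680_s2) (by decide) (by decide)
    (CellR2.step (Good.chk c16000_7400_7440_6640_6680_s3) (by decide) (by decide)
    (CellR2.step (Good.chk c16000_7400_7440_6640_6680_s4) (by decide) (by decide)
    (CellR2.step (Good.chk c16000_7400_7440_6640_6680_s5) (by decide) (by decide)
    (CellR2.step (Good.chk c16000_7400_7440_6640_6680_s6) (by decide) (by decide)
    (CellR2.fin c16000_7400_7440_6640_6680_f)))))))

theorem c16000_7400_7440_6680_6720 : Cell2 16000 7400 7440 6680 6720 :=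
  CellR2.step (Good.chk c16000_7400_7440_6680_6720_s0) (by decide) (by decide)
    (CellR2.step (Good.chk c16000_7400_7440_6680_6720_s1) (by decide) (by decide)
    (CellR2.step (Good.chk c16000_7400_7440_6680_6720_s2) (by decide) (by decide)
    (CellR2.step (Good.chk c16000_7400_7440_6680_6720_s3) (by decide) (by decide)
    (CellR2.step (Good.chk c16000_7400_7440_6680_6720_s4) (by decide) (by decide)
    (CellR2.step (Good.chk c16000_7400_7440_6680_6720_s5) (by decide) (by decide)
    (CellR2.step (Good.chk c16000_7400_7440_6680_6720_s6) (by decide) (by decide)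
    (CellR2.step (Good.chk c16000_7400_7440_6680_6720_s7) (by decide) (by decide)
    (CellR2.step (Good.chk c16000_7400_7440_6680_6720_s8) (by decide) (by decide)
    (CellR2.fin c16000_7400_7440_6680_6720_f)))))))))

theorem c16000_7440_7520_5920_6000 : Cell2 16000 7440 7520 5920 6000 :=
  CellR2.step (Good.chk c16000_7440_7520_5920_6000_s0) (by decide) (by decide)
    (CellR2.step (Good.chk c16000_7440_7520_5920_6000_s1) (by decide) (by decide)
    (CellR2.step (Good.chk c16000_7440_7520_5920_6000_s2) (by decide) (by decide)
    (CellR2.step (Good.chk c16000_7440_7520_5920_6000_s3) (by decide) (by decide)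
    (CellR2.fin c16000_7440_7520_5920_6000_f))))

theorem c16000_7440_7520_6000_6080 : Cell2 16000 7440 7520 6000 6080 :=
  CellR2.step (Good.chk c16000_7440_7520_6000_6080_s0) (by decide) (by decide)
    (CellR2.step (Good.chk c16000_7440_7520_6000_6080_s1) (by decide) (by decide)
    (CellR2.step (Good.chk c16000_7440_7520_6000_6080_s2) (by decide) (by decide)
    (CellR2.step (Good.chk c16000_7440_7520_6000_6080_s3) (by decide) (by decide)
    (CellR2.step (Good.chk c16000_7440_7520_6000_6080_s4) (by decide) (by decide)
    (CellR2.step (Good.chk c16000_7440_7520_6000_6080_s5) (by decide) (by decide)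
    (CellR2.step (Good.chk c16000_7440_7520_6000_6080_s6) (by decide) (by decide)
    (CellR2.fin c16000_7440_7520_6000_6080_f)))))))

theorem c16000_7440_7520_6080_6160 : Cell2 16000 7440 7520 6080 6160 :=
  CellR2.step (Good.chk c16000_7440_7520_6080_6160_s0) (by decide) (by decide)
    (CellR2.step (Good.chk c16000_7440_7520_6080_6160_s1) (by decide) (by decide)
    (CellR2.step (Good.chk c16000_7440_7520_6080_6160_s2) (by decide) (by decide)
    (CellR2.step (Good.chk c16000_7440_7520_6080_6160_s3) (by decide) (by decide)
    (CellR2.step (Good.chk c16000_7440_7520_6080_6160_s4) (by decide) (by decide)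
    (CellR2.step (Good.chk c16000_7440_7520_6080_6160_s5) (by decide) (by decide)
    (CellR2.step (Good.chk c16000_7440_7520_6080_6160_s6) (by decide) (by decide)
    (CellR2.step (Good.chk c16000_7440_7520_6080_6160_s7) (by decide) (by decide)
    (CellR2.step (Good.chk c16000_7440_7520_6080_6160_s8) (by decide) (by decide)
    (CellR2.step (Good.chk c16000_7440_7520_6080_6160_s9) (by decide) (by decide)
    (CellR2.step (Good.chk c16000_7440_7520_6080_6160_s10) (by decide) (by decide)
    (CellR2.step (Good.chk c16000_7440_7520_6080_6160_s11) (by decide) (by decide)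
    (CellR2.step (Good.chk c16000_7440_7520_6080_6160_s12) (by decide) (by decide)
    (CellR2.step (Good.chk c16000_7440_7520_6080_6160_s13) (by decide) (by decide)
    (CellR2.step (Good.chk c16000_7440_7520_6080_6160_s14) (by decide) (by decide)
    (CellR2.step (Good.chk c16000_7440_7520_6080_6160_s15) (by decide) (by decide)
    (CellR2.step (Good.chk c16000_7440_7520_6080_6160_s16) (by decide) (by decide)
    (CellR2.step (Good.chk c16000_7440_7520_6080_6160_s17) (by decide) (by decide)
    (CellR2.fin c16000_7440_7520_6080_6160_f))))))))))))))))))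

theorem c16000_7440_7520_6160_6240 : Cell2 16000 7440 7520 6160 6240 :=
  CellR2.step (Good.chk c16000_7440_7520_6160_6240_s0) (by decide) (by decide)
    (CellR2.step (Good.chk c16000_7440_7520_6160_6240_s1) (by decide) (by decide)
    (CellR2.step (Good.chk c16000_7440_7520_6160_6240_s2) (by decide) (by decide)
    (CellR2.step (Good.chk c16000_7440_7520_6160_6240_s3) (by decide) (by decide)
    (CellR2.step (Good.chk c16000_7440_7520_6160_6240_s4) (by decide) (by decide)
    (CellR2.step (Good.chk c16000_7440_7520_6160_6240_s5) (by decide) (by decide)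
    (CellR2.step (Good.chk c16000_7440_7520_6160_6240_s6) (by decide) (by decide)
    (CellR2.step (Good.chk c16000_7440_7520_6160_6240_s7) (by decide) (by decide)
    (CellR2.step (Good.chk c16000_7440_7520_6160_6240_s8) (by decide) (by decide)
    (CellR2.step (Good.chk c16000_7440_7520_6160_6240_s9) (by decide) (by decide)
    (CellR2.step (Good.chk c16000_7440_7520_6160_6240_s10) (by decide) (by decide)
    (CellR2.step (Good.chk c16000_7440_7520_6160_6240_s11) (by decide) (by decide)
    (CellR2.fin c16000_7440_7520_6160_6240_f))))))))))))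

theorem c16000_7440_7520_6240_6320 : Cell2 16000 7440 7520 6240 6320 :=
  CellR2.step (Good.chk c16000_7440_7520_6240_6320_s0) (by decide) (by decide)
    (CellR2.step (Good.chk c16000_7440_7520_6240_6320_s1) (by decide) (by decide)
    (CellR2.step (Good.chk c16000_7440_7520_6240_6320_s2) (by decide) (by decide)
    (CellR2.step (Good.chk c16000_7440_7520_6240_6320_s3) (by decide) (by decide)
    (CellR2.step (Good.chk c16000_7440_7520_6240_6320_s4) (by decide) (by decide)
    (CellR2.step (Good.chk c16000_7440_7520_6240_6320_s5) (by decide) (by decide)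
    (CellR2.step (Good.chk c16000_7440_7520_6240_6320_s6) (by decide) (by decide)
    (CellR2.step (Good.chk c16000_7440_7520_6240_6320_s7) (by decide) (by decide)
    (CellR2.step (Good.chk c16000_7440_7520_6240_6320_s8) (by decide) (by decide)
    (CellR2.step (Good.chk c16000_7440_7520_6240_6320_s9) (by decide) (by decide)
    (CellR2.step (Good.chk c16000_7440_7520_6240_6320_s10) (by decide) (by decide)
    (CellR2.step (Good.chk c16000_7440_7520_6240_6320_s11) (by decide) (by decide)
    (CellR2.step (Good.chk c16000_7440_7520_6240_6320_s12) (by decide) (by decide)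
    (CellR2.step (Good.chk c16000_7440_7520_6240_6320_s13) (by decide) (by decide)
    (CellR2.step (Good.chk c16000_7440_7520_6240_6320_s14) (by decide) (by decide)
    (CellR2.step (Good.chk c16000_7440_7520_6240_6320_s15) (by decide) (by decide)
    (CellR2.step (Good.chk c16000_7440_7520_6240_6320_s16) (by decide) (by decide)
    (CellR2.fin c16000_7440_7520_6240_6320_f)))))))))))))))))

theorem c16000_7440_7520_6320_6400 : Cell2 16000 7440 7520 6320 6400 :=
  CellR2.step (Good.chk c16000_7440_7520_6320_6400_s0) (by decide) (by decide)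
    (CellR2.step (Good.chk c16000_7440_7520_6320_6400_s1) (by decide) (by decide)
    (CellR2.step (Good.chk c16000_7440_7520_6320_6400_s2) (by decide) (by decide)
    (CellR2.step (Good.chk c16000_7440_7520_6320_6400_s3) (by decide) (by decide)
    (CellR2.step (Good.chk c16000_7440_7520_6320_6400_s4) (by decide) (by decide)
    (CellR2.step (Good.chk c16000_7440_7520_6320_6400_s5) (by decide) (by decide)
    (CellR2.step (Good.chk c16000_7440_7520_6320_6400_s6) (by decide) (by decide)
    (CellR2.fin c16000_7440_7520_6320_6400_f)))))))

theorem c16000_7440_7480_6400_6440 : Cell2 16000 7440 7480 6400 6440 :=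
  CellR2.step (Good.chk c16000_7440_7480_6400_6440_s0) (by decide) (by decide)
    (CellR2.step (Good.chk c16000_7440_7480_6400_6440_s1) (by decide) (by decide)
    (CellR2.step (Good.chk c16000_7440_7480_6400_6440_s2) (by decide) (by decide)
    (CellR2.step (Good.chk c16000_7440_7480_6400_6440_s3) (by decide) (by decide)
    (CellR2.step (Good.chk c16000_7440_7480_6400_6440_s4) (by decide) (by decide)
    (CellR2.step (Good.chk c16000_7440_7480_6400_6440_s5) (by decide) (by decide)
    (CellR2.step (Good.chk c16000_7440_7480_6400_6440_s6) (by decide) (by decide)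
    (CellR2.step (Good.chk c16000_7440_7480_6400_6440_s7) (by decide) (by decide)
    (CellR2.step (Good.chk c16000_7440_7480_6400_6440_s8) (by decide) (by decide)
    (CellR2.step (Good.chk c16000_7440_7480_6400_6440_s9) (by decide) (by decide)
    (CellR2.step (Good.chk c16000_7440_7480_6400_6440_s10) (by decide) (by decide)
    (CellR2.step (Good.chk c16000_7440_7480_6400_6440_s11) (by decide) (by decide)
    (CellR2.step (Good.chk c16000_7440_7480_6400_6440_s12) (by decide) (by decide)
    (CellR2.step (Good.chk c16000_7440_7480_6400_6440_s13) (by decide) (by decide)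
    (CellR2.step (Good.chk c16000_7440_7480_6400_6440_s14) (by decide) (by decide)
    (CellR2.step (Good.chk c16000_7440_7480_6400_6440_s15) (by decide) (by decide)
    (CellR2.step (Good.chk c16000_7440_7480_6400_6440_s16) (by decide) (by decide)
    (CellR2.fin c16000_7440_7480_6400_6440_f)))))))))))))))))

theorem c16000_7440_7480_6440_6480 : Cell2 16000 7440 7480 6440 6480 :=
  CellR2.step (Good.chk c16000_7440_7480_6440_6480_s0) (by decide) (by decide)
    (CellR2.step (Good.chk c16000_7440_7480_6440_6480_s1) (by decide) (by decide)
    (CellR2.step (Good.chk c16000_7440_7480_6440_6480_s2) (by decide) (by decide)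
    (CellR2.step (Good.chk c16000_7440_7480_6440_6480_s3) (by decide) (by decide)
    (CellR2.step (Good.chk c16000_7440_7480_6440_6480_s4) (by decide) (by decide)
    (CellR2.step (Good.chk c16000_7440_7480_6440_6480_s5) (by decide) (by decide)
    (CellR2.step (Good.chk c16000_7440_7480_6440_6480_s6) (by decide) (by decide)
    (CellR2.step (Good.chk c16000_7440_7480_6440_6480_s7) (by decide) (by decide)
    (CellR2.step (Good.chk c16000_7440_7480_6440_6480_s8) (by decide) (by decide)
    (CellR2.step (Good.chk c16000_7440_7480_6440_6480_s9) (by decide) (by decide)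
    (CellR2.step (Good.chk c16000_7440_7480_6440_6480_s10) (by decide) (by decide)
    (CellR2.step (Good.chk c16000_7440_7480_6440_6480_s11) (by decide) (by decide)
    (CellR2.step (Good.chk c16000_7440_7480_6440_6480_s12) (by decide) (by decide)
    (CellR2.step (Good.chk c16000_7440_7480_6440_6480_s13) (by decide) (by decide)
    (CellR2.step (Good.chk c16000_7440_7480_6440_6480_s14) (by decide) (by decide)
    (CellR2.fin c16000_7440_7480_6440_6480_f)))))))))))))))

theorem c16000_7440_7520_6480_6560 : Cell2 16000 7440 7520 6480 6560 :=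
  CellR2.step (Good.chk c16000_7440_7520_6480_6560_s0) (by decide) (by decide)
    (CellR2.step (Good.chk c16000_7440_7520_6480_6560_s1) (by decide) (by decide)
    (CellR2.step (Good.chk c16000_7440_7520_6480_6560_s2) (by decide) (by decide)
    (CellR2.step (Good.chk c16000_7440_7520_6480_6560_s3) (by decide) (by decide)
    (CellR2.step (Good.chk c16000_7440_7520_6480_6560_s4) (by decide) (by decide)
    (CellR2.step (Good.chk c16000_7440_7520_6480_6560_s5) (by decide) (by decide)
    (CellR2.step (Good.chk c16000_7440_7520_6480_6560_s6) (by decide) (by decide)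
    (CellR2.step (Good.chk c16000_7440_7520_6480_6560_s7) (by decide) (by decide)
    (CellR2.fin c16000_7440_7520_6480_6560_f))))))))

theorem c16000_7440_7520_6560_6640 : Cell2 16000 7440 7520 6560 6640 :=
  CellR2.step (Good.chk c16000_7440_7520_6560_6640_s0) (by decide) (by decide)
    (CellR2.step (Good.chk c16000_7440_7520_6560_6640_s1) (by decide) (by decide)
    (CellR2.step (Good.chk c16000_7440_7520_6560_6640_s2) (by decide) (by decide)
    (CellR2.step (Good.chk c16000_7440_7520_6560_6640_s3) (by decide) (by decide)
    (CellR2.step (Good.chk c16000_7440_7520_6560_6640_s4) (by decide) (by decide)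
    (CellR2.step (Good.chk c16000_7440_7520_6560_6640_s5) (by decide) (by decide)
    (CellR2.step (Good.chk c16000_7440_7520_6560_6640_s6) (by decide) (by decide)
    (CellR2.step (Good.chk c16000_7440_7520_6560_6640_s7) (by decide) (by decide)
    (CellR2.step (Good.chk c16000_7440_7520_6560_6640_s8) (by decide) (by decide)
    (CellR2.step (Good.chk c16000_7440_7520_6560_6640_s9) (by decide) (by decide)
    (CellR2.step (Good.chk c16000_7440_7520_6560_6640_s10) (by decide) (by decide)
    (CellR2.step (Good.chk c16000_7440_7520_6560_6640_s11) (by decide) (by decide)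
    (CellR2.step (Good.chk c16000_7440_7520_6560_6640_s12) (by decide) (by decide)
    (CellR2.fin c16000_7440_7520_6560_6640_f)))))))))))))

theorem c16000_7440_7520_6640_6720 : Cell2 16000 7440 7520 6640 6720 :=
  CellR2.step (Good.chk c16000_7440_7520_6640_6720_s0) (by decide) (by decide)
    (CellR2.step (Good.chk c16000_7440_7520_6640_6720_s1) (by decide) (by decide)
    (CellR2.step (Good.chk c16000_7440_7520_6640_6720_s2) (by decide) (by decide)
    (CellR2.step (Good.chk c16000_7440_7520_6640_6720_s3) (by decide) (by decide)
    (CellR2.step (Good.chk c16000_7440_7520_6640_6720_s4) (by decide) (by decide)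
    (CellR2.step (Good.chk c16000_7440_7520_6640_6720_s5) (by decide) (by decide)
    (CellR2.step (Good.chk c16000_7440_7520_6640_6720_s6) (by decide) (by decide)
    (CellR2.step (Good.chk c16000_7440_7520_6640_6720_s7) (by decide) (by decide)
    (CellR2.step (Good.chk c16000_7440_7520_6640_6720_s8) (by decide) (by decide)
    (CellR2.step (Good.chk c16000_7440_7520_6640_6720_s9) (by decide) (by decide)
    (CellR2.step (Good.chk c16000_7440_7520_6640_6720_s10) (by decide) (by decide)
    (CellR2.step (Good.chk c16000_7440_7520_6640_6720_s11) (by decide) (by decide)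
    (CellR2.fin c16000_7440_7520_6640_6720_f))))))))))))

theorem c16000_7440_7480_6720_6760 : Cell2 16000 7440 7480 6720 6760 :=
  CellR2.step (Good.chk c16000_7440_7480_6720_6760_s0) (by decide) (by decide)
    (CellR2.step (Good.chk c16000_7440_7480_6720_6760_s1) (by decide) (by decide)
    (CellR2.step (Good.chk c16000_7440_7480_6720_6760_s2) (by decide) (by decide)
    (CellR2.step (Good.chk c16000_7440_7480_6720_6760_s3) (by decide) (by decide)
    (CellR2.step (Good.chk c16000_7440_7480_6720_6760_s4) (by decide) (by decide)
    (CellR2.step (Good.chk c16000_7440_7480_6720_6760_s5) (by decide) (by decide)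
    (CellR2.step (Good.chk c16000_7440_7480_6720_6760_s6) (by decide) (by decide)
    (CellR2.step (Good.chk c16000_7440_7480_6720_6760_s7) (by decide) (by decide)
    (CellR2.step (Good.chk c16000_7440_7480_6720_6760_s8) (by decide) (by decide)
    (CellR2.step (Good.chk c16000_7440_7480_6720_6760_s9) (by decide) (by decide)
    (CellR2.step (Good.chk c16000_7440_7480_6720_6760_s10) (by decide) (by decide)
    (CellR2.fin c16000_7440_7480_6720_6760_f)))))))))))

theorem c16000_7440_7480_6760_6800 : Cell2 16000 7440 7480 6760 6800 :=
  CellR2.step (Good.chk c16000_7440_7480_6760_6800_s0) (by decide) (by decide)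
    (CellR2.step (Good.chk c16000_7440_7480_6760_6800_s1) (by decide) (by decide)
    (CellR2.step (Good.chk c16000_7440_7480_6760_6800_s2) (by decide) (by decide)
    (CellR2.fin c16000_7440_7480_6760_6800_f)))

theorem c16000_7440_7520_6800_6880 : Cell2 16000 7440 7520 6800 6880 :=
  CellR2.step (Good.chk c16000_7440_7520_6800_6880_s0) (by decide) (by decide)
    (CellR2.step (Good.chk c16000_7440_7520_6800_6880_s1) (by decide) (by decide)
    (CellR2.step (Good.chk c16000_7440_7520_6800_6880_s2) (by decide) (by decide)
    (CellR2.step (Good.chk c16000_7440_7520_6800_6880_s3) (by decide) (by decide)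
    (CellR2.step (Good.chk c16000_7440_7520_6800_6880_s4) (by decide) (by decide)
    (CellR2.fin c16000_7440_7520_6800_6880_f)))))

theorem c16000_7440_7520_6880_6960 : Cell2 16000 7440 7520 6880 6960 :=
  CellR2.step (Good.chk c16000_7440_7520_6880_6960_s0) (by decide) (by decide)
    (CellR2.step (Good.chk c16000_7440_7520_6880_6960_s1) (by decide) (by decide)
    (CellR2.step (Good.chk c16000_7440_7520_6880_6960_s2) (by decide) (by decide)
    (CellR2.step (Good.chk c16000_7440_7520_6880_6960_s3) (by decide) (by decide)
    (CellR2.fin c16000_7440_7520_6880_6960_f))))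

theorem c16000_7440_7520_6960_7040 : Cell2 16000 7440 7520 6960 7040 :=
  CellR2.step (Good.chk c16000_7440_7520_6960_7040_s0) (by decide) (by decide)
    (CellR2.step (Good.chk c16000_7440_7520_6960_7040_s1) (by decide) (by decide)
    (CellR2.step (Good.chk c16000_7440_7520_6960_7040_s2) (by decide) (by decide)
    (CellR2.step (Good.chk c16000_7440_7520_6960_7040_s3) (by decide) (by decide)
    (CellR2.fin c16000_7440_7520_6960_7040_f))))

theorem c16000_7440_7520_7040_7120 : Cell2 16000 7440 7520 7040 7120 :=
  CellR2.step (Good.chk c16000_7440_7520_7040_7120_s0) (by decide) (by decide)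
    (CellR2.step (Good.chk c16000_7440_7520_7040_7120_s1) (by decide) (by decide)
    (CellR2.step (Good.chk c16000_7440_7520_7040_7120_s2) (by decide) (by decide)
    (CellR2.step (Good.chk c16000_7440_7520_7040_7120_s3) (by decide) (by decide)
    (CellR2.fin c16000_7440_7520_7040_7120_f))))

theorem c16000_7440_7520_7120_7200 : Cell2 16000 7440 7520 7120 7200 :=
  CellR2.step (Good.chk c16000_7440_7520_7120_7200_s0) (by decide) (by decide)
    (CellR2.step (Good.chk c16000_7440_7520_7120_7200_s1) (by decide) (by decide)
    (CellR2.step (Good.chk c16000_7440_7520_7120_7200_s2) (by decide) (by decide)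
    (CellR2.fin c16000_7440_7520_7120_7200_f)))

end Pool.Agent.Helper5.B54
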