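import Pool.Agent.Helper5.B54v2.Cell2
import Pool.Agent.Helper5.B54v2.T.A635
import Pool.Agent.Helper5.B54v2.T.A636
import Pool.Agent.Helper5.B54v2.T.A637
import Pool.Agent.Helper5.B54v2.T.A638
import Pool.Agent.Helper5.B54v2.T.A639
import Pool.Agent.Helper5.B54v2.T.A640
import Pool.Agent.Helper5.B54v2.T.A641
import Pool.Agent.Helper5.B54v2.T.A642
import Pool.Agent.Helper5.B54v2.T.A643
import Pool.Agent.Helper5.B54v2.T.A644
import Pool.Agent.Helper5.B54v2.T.A645
import Pool.Agent.Helper5.B54v2.T.A646
import Pool.Agent.Helper5.B54v2.T.A647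
import Pool.Agent.Helper5.B54v2.T.A648
import Pool.Agent.Helper5.B54v2.T.A649
import Pool.Agent.Helper5.B54v2.T.A650
import Pool.Agent.Helper5.B54v2.T.A651
import Pool.Agent.Helper5.B54v2.T.A652
import Pool.Agent.Helper5.B54v2.T.A653
import Pool.Agent.Helper5.B54v2.T.A654
import Pool.Agent.Helper5.B54v2.T.A655
import Pool.Agent.Helper5.B54v2.T.A656
import Pool.Agent.Helper5.B54v2.T.A657
import Pool.Agent.Helper5.B54v2.T.A658
import Pool.Agent.Helper5.B54v2.T.A659
import Pool.Agent.Helper5.B54v2.T.A660
import Pool.Agent.Helper5.B54v2.T.A661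
import Pool.Agent.Helper5.B54v2.T.A662
import Pool.Agent.Helper5.B54v2.T.A663
import Pool.Agent.Helper5.B54v2.T.A664
import Pool.Agent.Helper5.B54v2.T.A665
import Pool.Agent.Helper5.B54v2.T.A666
import Pool.Agent.Helper5.B54v2.T.A667
import Pool.Agent.Helper5.B54v2.T.A668
import Pool.Agent.Helper5.B54v2.T.A669
import Pool.Agent.Helper5.B54v2.T.A670
import Pool.Agent.Helper5.B54v2.T.A671
import Pool.Agent.Helper5.B54v2.T.A672
import Pool.Agent.Helper5.B54v2.T.A673
import Pool.Agent.Helper5.B54v2.T.A674
import Pool.Agent.Helper5.B54v2.T.A675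
import Pool.Agent.Helper5.B54v2.T.A676
import Pool.Agent.Helper5.B54v2.T.A677
import Pool.Agent.Helper5.B54v2.T.A678
import Pool.Agent.Helper5.B54v2.T.A679
import Pool.Agent.Helper5.B54v2.T.A680
import Pool.Agent.Helper5.B54v2.T.A681
import Pool.Agent.Helper5.B54v2.T.A682
import Pool.Agent.Helper5.B54v2.T.A683
import Pool.Agent.Helper5.B54v2.T.A684
import Pool.Agent.Helper5.B54v2.T.A685
import Pool.Agent.Helper5.B54v2.T.A686
import Pool.Agent.Helper5.B54v2.T.A687
import Pool.Agent.Helper5.B54v2.T.A688
import Pool.Agent.Helper5.B54v2.T.A689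
import Pool.Agent.Helper5.B54v2.T.A690
import Pool.Agent.Helper5.B54v2.T.A691
import Pool.Agent.Helper5.B54v2.T.A692
import Pool.Agent.Helper5.B54v2.T.A693
import Pool.Agent.Helper5.B54v2.T.A694
import Pool.Agent.Helper5.B54v2.T.A695
import Pool.Agent.Helper5.B54v2.T.A696
import Pool.Agent.Helper5.B54v2.T.A697
import Pool.Agent.Helper5.B54v2.T.A698
import Pool.Agent.Helper5.B54v2.T.A699
import Pool.Agent.Helper5.B54v2.T.A700
import Pool.Agent.Helper5.B54v2.T.A701
import Pool.Agent.Helper5.B54v2.T.A702
import Pool.Agent.Helper5.B54v2.T.A703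
import Pool.Agent.Helper5.B54v2.T.A704
import Pool.Agent.Helper5.B54v2.T.A705
import Pool.Agent.Helper5.B54v2.T.A706
import Pool.Agent.Helper5.B54v2.T.A707
import Pool.Agent.Helper5.B54v2.T.A708
import Pool.Agent.Helper5.B54v2.T.A709

/-!
# Cells
-/

namespace Pool.Agent.Helper5.B54

theorem c16000_7480_7520_6400_6440 : Cell2 16000 7480 7520 6400 6440 :=
  CellR2.step (Good.chk c16000_7480_7520_6400_6440_s0) (by decide) (by decide)
    (CellR2.step (Good.chk c16000_7480_7520_6400_6440_s1) (by decide) (by decide)
    (CellR2.step (Good.chk c16000_7480_7520_6400_6440_s2) (by decide) (by decide)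
    (CellR2.step (Good.chk c16000_7480_7520_6400_6440_s3) (by decide) (by decide)
    (CellR2.step (Good.chk c16000_7480_7520_6400_6440_s4) (by decide) (by decide)
    (CellR2.step (Good.chk c16000_7480_7520_6400_6440_s5) (by decide) (by decide)
    (CellR2.step (Good.chk c16000_7480_7520_6400_6440_s6) (by decide) (by decide)
    (CellR2.step (Good.chk c16000_7480_7520_6400_6440_s7) (by decide) (by decide)
    (CellR2.step (Good.chk c16000_7480_7520_6400_6440_s8) (by decide) (by decide)
    (CellR2.step (Good.chk c16000_7480_7520_6400_6440_s9) (by decide) (by decide)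
    (CellR2.step (Good.chk c16000_7480_7520_6400_6440_s10) (by decide) (by decide)
    (CellR2.step (Good.chk c16000_7480_7520_6400_6440_s11) (by decide) (by decide)
    (CellR2.fin c16000_7480_7520_6400_6440_f))))))))))))

theorem c16000_7480_7520_6440_6480 : Cell2 16000 7480 7520 6440 6480 :=
  CellR2.step (Good.chk c16000_7480_7520_6440_6480_s0) (by decide) (by decide)
    (CellR2.step (Good.chk c16000_7480_7520_6440_6480_s1) (by decide) (by decide)
    (CellR2.step (Good.chk c16000_7480_7520_6440_6480_s2) (by decide) (by decide)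
    (CellR2.step (Good.chk c16000_7480_7520_6440_6480_s3) (by decide) (by decide)
    (CellR2.fin c16000_7480_7520_6440_6480_f))))

theorem c16000_7480_7520_6720_6760 : Cell2 16000 7480 7520 6720 6760 :=
  CellR2.step (Good.chk c16000_7480_7520_6720_6760_s0) (by decide) (by decide)
    (CellR2.step (Good.chk c16000_7480_7520_6720_6760_s1) (by decide) (by decide)
    (CellR2.step (Good.chk c16000_7480_7520_6720_6760_s2) (by decide) (by decide)
    (CellR2.fin c16000_7480_7520_6720_6760_f)))

theorem c16000_7480_7520_6760_6800 : Cell2 16000 7480 7520 6760 6800 :=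
  CellR2.step (Good.chk c16000_7480_7520_6760_6800_s0) (by decide) (by decide)
    (CellR2.step (Good.chk c16000_7480_7520_6760_6800_s1) (by decide) (by decide)
    (CellR2.step (Good.chk c16000_7480_7520_6760_6800_s2) (by decide) (by decide)
    (CellR2.fin c16000_7480_7520_6760_6800_f)))

theorem c16000_7520_7680_4000_4640 : Cell2 16000 7520 7680 4000 4640 :=
  CellR2.fin c16000_7520_7680_4000_4640_f

theorem c16000_7520_7680_4640_4960 : Cell2 16000 7520 7680 4640 4960 :=
  CellR2.fin c16000_7520_7680_4640_4960_f

theorem c16000_7520_7680_4960_5120 : Cell2 16000 7520 7680 4960 5120 :=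
  CellR2.step (Good.chk c16000_7520_7680_4960_5120_s0) (by decide) (by decide)
    (CellR2.fin c16000_7520_7680_4960_5120_f)

theorem c16000_7520_7680_5120_5280 : Cell2 16000 7520 7680 5120 5280 :=
  CellR2.step (Good.chk c16000_7520_7680_5120_5280_s0) (by decide) (by decide)
    (CellR2.fin c16000_7520_7680_5120_5280_f)

theorem c16000_7520_7680_5280_5440 : Cell2 16000 7520 7680 5280 5440 :=
  CellR2.step (Good.chk c16000_7520_7680_5280_5440_s0) (by decide) (by decide)
    (CellR2.fin c16000_7520_7680_5280_5440_f)

theorem c16000_7520_7680_5440_5600 : Cell2 16000 7520 7680 5440 5600 :=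
  CellR2.step (Good.chk c16000_7520_7680_5440_5600_s0) (by decide) (by decide)
    (CellR2.fin c16000_7520_7680_5440_5600_f)

theorem c16000_7520_7680_5600_5760 : Cell2 16000 7520 7680 5600 5760 :=
  CellR2.step (Good.chk c16000_7520_7680_5600_5760_s0) (by decide) (by decide)
    (CellR2.step (Good.chk c16000_7520_7680_5600_5760_s1) (by decide) (by decide)
    (CellR2.fin c16000_7520_7680_5600_5760_f))

theorem c16000_7520_7680_5760_5920 : Cell2 16000 7520 7680 5760 5920 :=
  CellR2.step (Good.chk c16000_7520_7680_5760_5920_s0) (by decide) (by decide)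
    (CellR2.step (Good.chk c16000_7520_7680_5760_5920_s1) (by decide) (by decide)
    (CellR2.fin c16000_7520_7680_5760_5920_f))

theorem c16000_7520_7680_5920_6080 : Cell2 16000 7520 7680 5920 6080 :=
  CellR2.step (Good.chk c16000_7520_7680_5920_6080_s0) (by decide) (by decide)
    (CellR2.step (Good.chk c16000_7520_7680_5920_6080_s1) (by decide) (by decide)
    (CellR2.step (Good.chk c16000_7520_7680_5920_6080_s2) (by decide) (by decide)
    (CellR2.step (Good.chk c16000_7520_7680_5920_6080_s3) (by decide) (by decide)
    (CellR2.fin c16000_7520_7680_5920_6080_f))))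

theorem c16000_7520_7600_6080_6160 : Cell2 16000 7520 7600 6080 6160 :=
  CellR2.step (Good.chk c16000_7520_7600_6080_6160_s0) (by decide) (by decide)
    (CellR2.step (Good.chk c16000_7520_7600_6080_6160_s1) (by decide) (by decide)
    (CellR2.step (Good.chk c16000_7520_7600_6080_6160_s2) (by decide) (by decide)
    (CellR2.step (Good.chk c16000_7520_7600_6080_6160_s3) (by decide) (by decide)
    (CellR2.step (Good.chk c16000_7520_7600_6080_6160_s4) (by decide) (by decide)
    (CellR2.step (Good.chk c16000_7520_7600_6080_6160_s5) (by decide) (by decide)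
    (CellR2.step (Good.chk c16000_7520_7600_6080_6160_s6) (by decide) (by decide)
    (CellR2.step (Good.chk c16000_7520_7600_6080_6160_s7) (by decide) (by decide)
    (CellR2.fin c16000_7520_7600_6080_6160_f))))))))

theorem c16000_7520_7600_6160_6240 : Cell2 16000 7520 7600 6160 6240 :=
  CellR2.step (Good.chk c16000_7520_7600_6160_6240_s0) (by decide) (by decide)
    (CellR2.step (Good.chk c16000_7520_7600_6160_6240_s1) (by decide) (by decide)
    (CellR2.step (Good.chk c16000_7520_7600_6160_6240_s2) (by decide) (by decide)
    (CellR2.step (Good.chk c16000_7520_7600_6160_6240_s3) (by decide) (by decide)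
    (CellR2.step (Good.chk c16000_7520_7600_6160_6240_s4) (by decide) (by decide)
    (CellR2.step (Good.chk c16000_7520_7600_6160_6240_s5) (by decide) (by decide)
    (CellR2.step (Good.chk c16000_7520_7600_6160_6240_s6) (by decide) (by decide)
    (CellR2.step (Good.chk c16000_7520_7600_6160_6240_s7) (by decide) (by decide)
    (CellR2.fin c16000_7520_7600_6160_6240_f))))))))

theorem c16000_7520_7600_6240_6320 : Cell2 16000 7520 7600 6240 6320 :=
  CellR2.step (Good.chk c16000_7520_7600_6240_6320_s0) (by decide) (by decide)
    (CellR2.step (Good.chk c16000_7520_7600_6240_6320_s1) (by decide) (by decide)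
    (CellR2.step (Good.chk c16000_7520_7600_6240_6320_s2) (by decide) (by decide)
    (CellR2.step (Good.chk c16000_7520_7600_6240_6320_s3) (by decide) (by decide)
    (CellR2.step (Good.chk c16000_7520_7600_6240_6320_s4) (by decide) (by decide)
    (CellR2.step (Good.chk c16000_7520_7600_6240_6320_s5) (by decide) (by decide)
    (CellR2.step (Good.chk c16000_7520_7600_6240_6320_s6) (by decide) (by decide)
    (CellR2.step (Good.chk c16000_7520_7600_6240_6320_s7) (by decide) (by decide)
    (CellR2.step (Good.chk c16000_7520_7600_6240_6320_s8) (by decide) (by decide)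
    (CellR2.step (Good.chk c16000_7520_7600_6240_6320_s9) (by decide) (by decide)
    (CellR2.step (Good.chk c16000_7520_7600_6240_6320_s10) (by decide) (by decide)
    (CellR2.step (Good.chk c16000_7520_7600_6240_6320_s11) (by decide) (by decide)
    (CellR2.step (Good.chk c16000_7520_7600_6240_6320_s12) (by decide) (by decide)
    (CellR2.step (Good.chk c16000_7520_7600_6240_6320_s13) (by decide) (by decide)
    (CellR2.fin c16000_7520_7600_6240_6320_f))))))))))))))

theorem c16000_7520_7600_6320_6400 : Cell2 16000 7520 7600 6320 6400 :=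
  CellR2.step (Good.chk c16000_7520_7600_6320_6400_s0) (by decide) (by decide)
    (CellR2.step (Good.chk c16000_7520_7600_6320_6400_s1) (by decide) (by decide)
    (CellR2.step (Good.chk c16000_7520_7600_6320_6400_s2) (by decide) (by decide)
    (CellR2.step (Good.chk c16000_7520_7600_6320_6400_s3) (by decide) (by decide)
    (CellR2.step (Good.chk c16000_7520_7600_6320_6400_s4) (by decide) (by decide)
    (CellR2.step (Good.chk c16000_7520_7600_6320_6400_s5) (by decide) (by decide)
    (CellR2.step (Good.chk c16000_7520_7600_6320_6400_s6) (by decide) (by decide)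
    (CellR2.step (Good.chk c16000_7520_7600_6320_6400_s7) (by decide) (by decide)
    (CellR2.step (Good.chk c16000_7520_7600_6320_6400_s8) (by decide) (by decide)
    (CellR2.fin c16000_7520_7600_6320_6400_f)))))))))

theorem c16000_7520_7600_6400_6480 : Cell2 16000 7520 7600 6400 6480 :=
  CellR2.step (Good.chk c16000_7520_7600_6400_6480_s0) (by decide) (by decide)
    (CellR2.step (Good.chk c16000_7520_7600_6400_6480_s1) (by decide) (by decide)
    (CellR2.step (Good.chk c16000_7520_7600_6400_6480_s2) (by decide) (by decide)
    (CellR2.step (Good.chk c16000_7520_7600_6400_6480_s3) (by decide) (by decide)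
    (CellR2.step (Good.chk c16000_7520_7600_6400_6480_s4) (by decide) (by decide)
    (CellR2.step (Good.chk c16000_7520_7600_6400_6480_s5) (by decide) (by decide)
    (CellR2.step (Good.chk c16000_7520_7600_6400_6480_s6) (by decide) (by decide)
    (CellR2.step (Good.chk c16000_7520_7600_6400_6480_s7) (by decide) (by decide)
    (CellR2.step (Good.chk c16000_7520_7600_6400_6480_s8) (by decide) (by decide)
    (CellR2.step (Good.chk c16000_7520_7600_6400_6480_s9) (by decide) (by decide)
    (CellR2.step (Good.chk c16000_7520_7600_6400_6480_s10) (by decide) (by decide)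
    (CellR2.step (Good.chk c16000_7520_7600_6400_6480_s11) (by decide) (by decide)
    (CellR2.step (Good.chk c16000_7520_7600_6400_6480_s12) (by decide) (by decide)
    (CellR2.step (Good.chk c16000_7520_7600_6400_6480_s13) (by decide) (by decide)
    (CellR2.step (Good.chk c16000_7520_7600_6400_6480_s14) (by decide) (by decide)
    (CellR2.fin c16000_7520_7600_6400_6480_f)))))))))))))))

theorem c16000_7520_7600_6480_6560 : Cell2 16000 7520 7600 6480 6560 :=
  CellR2.step (Good.chk c16000_7520_7600_6480_6560_s0) (by decide) (by decide)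
    (CellR2.step (Good.chk c16000_7520_7600_6480_6560_s1) (by decide) (by decide)
    (CellR2.step (Good.chk c16000_7520_7600_6480_6560_s2) (by decide) (by decide)
    (CellR2.step (Good.chk c16000_7520_7600_6480_6560_s3) (by decide) (by decide)
    (CellR2.step (Good.chk c16000_7520_7600_6480_6560_s4) (by decide) (by decide)
    (CellR2.step (Good.chk c16000_7520_7600_6480_6560_s5) (by decide) (by decide)
    (CellR2.step (Good.chk c16000_7520_7600_6480_6560_s6) (by decide) (by decide)
    (CellR2.step (Good.chk c16000_7520_7600_6480_6560_s7) (by decide) (by decide)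
    (CellR2.step (Good.chk c16000_7520_7600_6480_6560_s8) (by decide) (by decide)
    (CellR2.step (Good.chk c16000_7520_7600_6480_6560_s9) (by decide) (by decide)
    (CellR2.step (Good.chk c16000_7520_7600_6480_6560_s10) (by decide) (by decide)
    (CellR2.fin c16000_7520_7600_6480_6560_f)))))))))))

theorem c16000_7520_7600_6560_6640 : Cell2 16000 7520 7600 6560 6640 :=
  CellR2.step (Good.chk c16000_7520_7600_6560_6640_s0) (by decide) (by decide)
    (CellR2.step (Good.chk c16000_7520_7600_6560_6640_s1) (by decide) (by decide)
    (CellR2.step (Good.chk c16000_7520_7600_6560_6640_s2) (by decide) (by decide)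
    (CellR2.step (Good.chk c16000_7520_7600_6560_6640_s3) (by decide) (by decide)
    (CellR2.step (Good.chk c16000_7520_7600_6560_6640_s4) (by decide) (by decide)
    (CellR2.step (Good.chk c16000_7520_7600_6560_6640_s5) (by decide) (by decide)
    (CellR2.step (Good.chk c16000_7520_7600_6560_6640_s6) (by decide) (by decide)
    (CellR2.step (Good.chk c16000_7520_7600_6560_6640_s7) (by decide) (by decide)
    (CellR2.step (Good.chk c16000_7520_7600_6560_6640_s8) (by decide) (by decide)
    (CellR2.step (Good.chk c16000_7520_7600_6560_6640_s9) (by decide) (by decide)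
    (CellR2.step (Good.chk c16000_7520_7600_6560_6640_s10) (by decide) (by decide)
    (CellR2.step (Good.chk c16000_7520_7600_6560_6640_s11) (by decide) (by decide)
    (CellR2.step (Good.chk c16000_7520_7600_6560_6640_s12) (by decide) (by decide)
    (CellR2.step (Good.chk c16000_7520_7600_6560_6640_s13) (by decide) (by decide)
    (CellR2.step (Good.chk c16000_7520_7600_6560_6640_s14) (by decide) (by decide)
    (CellR2.step (Good.chk c16000_7520_7600_6560_6640_s15) (by decide) (by decide)
    (CellR2.step (Good.chk c16000_7520_7600_6560_6640_s16) (by decide) (by decide)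
    (CellR2.step (Good.chk c16000_7520_7600_6560_6640_s17) (by decide) (by decide)
    (CellR2.step (Good.chk c16000_7520_7600_6560_6640_s18) (by decide) (by decide)
    (CellR2.fin c16000_7520_7600_6560_6640_f)))))))))))))))))))

theorem c16000_7520_7600_6640_6720 : Cell2 16000 7520 7600 6640 6720 :=
  CellR2.step (Good.chk c16000_7520_7600_6640_6720_s0) (by decide) (by decide)
    (CellR2.step (Good.chk c16000_7520_7600_6640_6720_s1) (by decide) (by decide)
    (CellR2.step (Good.chk c16000_7520_7600_6640_6720_s2) (by decide) (by decide)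
    (CellR2.step (Good.chk c16000_7520_7600_6640_6720_s3) (by decide) (by decide)
    (CellR2.step (Good.chk c16000_7520_7600_6640_6720_s4) (by decide) (by decide)
    (CellR2.step (Good.chk c16000_7520_7600_6640_6720_s5) (by decide) (by decide)
    (CellR2.step (Good.chk c16000_7520_7600_6640_6720_s6) (by decide) (by decide)
    (CellR2.step (Good.chk c16000_7520_7600_6640_6720_s7) (by decide) (by decide)
    (CellR2.step (Good.chk c16000_7520_7600_6640_6720_s8) (by decide) (by decide)
    (CellR2.fin c16000_7520_7600_6640_6720_f)))))))))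

theorem c16000_7520_7600_6720_6800 : Cell2 16000 7520 7600 6720 6800 :=
  CellR2.step (Good.chk c16000_7520_7600_6720_6800_s0) (by decide) (by decide)
    (CellR2.step (Good.chk c16000_7520_7600_6720_6800_s1) (by decide) (by decide)
    (CellR2.step (Good.chk c16000_7520_7600_6720_6800_s2) (by decide) (by decide)
    (CellR2.step (Good.chk c16000_7520_7600_6720_6800_s3) (by decide) (by decide)
    (CellR2.fin c16000_7520_7600_6720_6800_f))))

theorem c16000_7520_7600_6800_6880 : Cell2 16000 7520 7600 6800 6880 :=
  CellR2.step (Good.chk c16000_7520_7600_6800_6880_s0) (by decide) (by decide)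
    (CellR2.step (Good.chk c16000_7520_7600_6800_6880_s1) (by decide) (by decide)
    (CellR2.step (Good.chk c16000_7520_7600_6800_6880_s2) (by decide) (by decide)
    (CellR2.step (Good.chk c16000_7520_7600_6800_6880_s3) (by decide) (by decide)
    (CellR2.step (Good.chk c16000_7520_7600_6800_6880_s4) (by decide) (by decide)
    (CellR2.step (Good.chk c16000_7520_7600_6800_6880_s5) (by decide) (by decide)
    (CellR2.step (Good.chk c16000_7520_7600_6800_6880_s6) (by decide) (by decide)
    (CellR2.step (Good.chk c16000_7520_7600_6800_6880_s7) (by decide) (by decide)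
    (CellR2.fin c16000_7520_7600_6800_6880_f))))))))

theorem c16000_7520_7680_6880_7040 : Cell2 16000 7520 7680 6880 7040 :=
  CellR2.step (Good.chk c16000_7520_7680_6880_7040_s0) (by decide) (by decide)
    (CellR2.step (Good.chk c16000_7520_7680_6880_7040_s1) (by decide) (by decide)
    (CellR2.step (Good.chk c16000_7520_7680_6880_7040_s2) (by decide) (by decide)
    (CellR2.step (Good.chk c16000_7520_7680_6880_7040_s3) (by decide) (by decide)
    (CellR2.step (Good.chk c16000_7520_7680_6880_7040_s4) (by decide) (by decide)
    (CellR2.step (Good.chk c16000_7520_7680_6880_7040_s5) (by decide) (by decide)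
    (CellR2.step (Good.chk c16000_7520_7680_6880_7040_s6) (by decide) (by decide)
    (CellR2.fin c16000_7520_7680_6880_7040_f)))))))

theorem c16000_7520_7680_7040_7200 : Cell2 16000 7520 7680 7040 7200 :=
  CellR2.step (Good.chk c16000_7520_7680_7040_7200_s0) (by decide) (by decide)
    (CellR2.step (Good.chk c16000_7520_7680_7040_7200_s1) (by decide) (by decide)
    (CellR2.step (Good.chk c16000_7520_7680_7040_7200_s2) (by decide) (by decide)
    (CellR2.step (Good.chk c16000_7520_7680_7040_7200_s3) (by decide) (by decide)
    (CellR2.fin c16000_7520_7680_7040_7200_f))))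

theorem c16000_7520_7680_7200_7360 : Cell2 16000 7520 7680 7200 7360 :=
  CellR2.step (Good.chk c16000_7520_7680_7200_7360_s0) (by decide) (by decide)
    (CellR2.step (Good.chk c16000_7520_7680_7200_7360_s1) (by decide) (by decide)
    (CellR2.fin c16000_7520_7680_7200_7360_f))

theorem c16000_7520_7680_7360_7520 : Cell2 16000 7520 7680 7360 7520 :=
  CellR2.fin c16000_7520_7680_7360_7520_f

theorem c16000_7520_7680_7520_8000 : Cell2 16000 7520 7680 7520 8000 :=
  CellR2.fin c16000_7520_7680_7520_8000_f

theorem c16000_7600_7680_6080_6160 : Cell2 16000 7600 7680 6080 6160 :=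
  CellR2.step (Good.chk c16000_7600_7680_6080_6160_s0) (by decide) (by decide)
    (CellR2.step (Good.chk c16000_7600_7680_6080_6160_s1) (by decide) (by decide)
    (CellR2.step (Good.chk c16000_7600_7680_6080_6160_s2) (by decide) (by decide)
    (CellR2.step (Good.chk c16000_7600_7680_6080_6160_s3) (by decide) (by decide)
    (CellR2.fin c16000_7600_7680_6080_6160_f))))

theorem c16000_7600_7680_6160_6240 : Cell2 16000 7600 7680 6160 6240 :=
  CellR2.step (Good.chk c16000_7600_7680_6160_6240_s0) (by decide) (by decide)
    (CellR2.step (Good.chk c16000_7600_7680_6160_6240_s1) (by decide) (by decide)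
    (CellR2.step (Good.chk c16000_7600_7680_6160_6240_s2) (by decide) (by decide)
    (CellR2.step (Good.chk c16000_7600_7680_6160_6240_s3) (by decide) (by decide)
    (CellR2.step (Good.chk c16000_7600_7680_6160_6240_s4) (by decide) (by decide)
    (CellR2.fin c16000_7600_7680_6160_6240_f)))))

theorem c16000_7600_7680_6240_6320 : Cell2 16000 7600 7680 6240 6320 :=
  CellR2.step (Good.chk c16000_7600_7680_6240_6320_s0) (by decide) (by decide)
    (CellR2.step (Good.chk c16000_7600_7680_6240_6320_s1) (by decide) (by decide)
    (CellR2.step (Good.chk c16000_7600_7680_6240_6320_s2) (by decide) (by decide)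
    (CellR2.step (Good.chk c16000_7600_7680_6240_6320_s3) (by decide) (by decide)
    (CellR2.step (Good.chk c16000_7600_7680_6240_6320_s4) (by decide) (by decide)
    (CellR2.step (Good.chk c16000_7600_7680_6240_6320_s5) (by decide) (by decide)
    (CellR2.fin c16000_7600_7680_6240_6320_f))))))

theorem c16000_7600_7680_6320_6400 : Cell2 16000 7600 7680 6320 6400 :=
  CellR2.step (Good.chk c16000_7600_7680_6320_6400_s0) (by decide) (by decide)
    (CellR2.step (Good.chk c16000_7600_7680_6320_6400_s1) (by decide) (by decide)
    (CellR2.step (Good.chk c16000_7600_7680_6320_6400_s2) (by decide) (by decide)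
    (CellR2.step (Good.chk c16000_7600_7680_6320_6400_s3) (by decide) (by decide)
    (CellR2.step (Good.chk c16000_7600_7680_6320_6400_s4) (by decide) (by decide)
    (CellR2.step (Good.chk c16000_7600_7680_6320_6400_s5) (by decide) (by decide)
    (CellR2.step (Good.chk c16000_7600_7680_6320_6400_s6) (by decide) (by decide)
    (CellR2.step (Good.chk c16000_7600_7680_6320_6400_s7) (by decide) (by decide)
    (CellR2.fin c16000_7600_7680_6320_6400_f))))))))

theorem c16000_7600_7680_6400_6480 : Cell2 16000 7600 7680 6400 6480 :=
  CellR2.step (Good.chk c16000_7600_7680_6400_6480_s0) (by decide) (by decide)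
    (CellR2.step (Good.chk c16000_7600_7680_6400_6480_s1) (by decide) (by decide)
    (CellR2.step (Good.chk c16000_7600_7680_6400_6480_s2) (by decide) (by decide)
    (CellR2.step (Good.chk c16000_7600_7680_6400_6480_s3) (by decide) (by decide)
    (CellR2.step (Good.chk c16000_7600_7680_6400_6480_s4) (by decide) (by decide)
    (CellR2.step (Good.chk c16000_7600_7680_6400_6480_s5) (by decide) (by decide)
    (CellR2.step (Good.chk c16000_7600_7680_6400_6480_s6) (by decide) (by decide)
    (CellR2.fin c16000_7600_7680_6400_6480_f)))))))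

theorem c16000_7600_7680_6480_6560 : Cell2 16000 7600 7680 6480 6560 :=
  CellR2.step (Good.chk c16000_7600_7680_6480_6560_s0) (by decide) (by decide)
    (CellR2.step (Good.chk c16000_7600_7680_6480_6560_s1) (by decide) (by decide)
    (CellR2.step (Good.chk c16000_7600_7680_6480_6560_s2) (by decide) (by decide)
    (CellR2.step (Good.chk c16000_7600_7680_6480_6560_s3) (by decide) (by decide)
    (CellR2.step (Good.chk c16000_7600_7680_6480_6560_s4) (by decide) (by decide)
    (CellR2.step (Good.chk c16000_7600_7680_6480_6560_s5) (by decide) (by decide)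
    (CellR2.fin c16000_7600_7680_6480_6560_f))))))

theorem c16000_7600_7680_6560_6640 : Cell2 16000 7600 7680 6560 6640 :=
  CellR2.step (Good.chk c16000_7600_7680_6560_6640_s0) (by decide) (by decide)
    (CellR2.step (Good.chk c16000_7600_7680_6560_6640_s1) (by decide) (by decide)
    (CellR2.step (Good.chk c16000_7600_7680_6560_6640_s2) (by decide) (by decide)
    (CellR2.step (Good.chk c16000_7600_7680_6560_6640_s3) (by decide) (by decide)
    (CellR2.fin c16000_7600_7680_6560_6640_f))))

theorem c16000_7600_7680_6640_6720 : Cell2 16000 7600 7680 6640 6720 :=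
  CellR2.step (Good.chk c16000_7600_7680_6640_6720_s0) (by decide) (by decide)
    (CellR2.step (Good.chk c16000_7600_7680_6640_6720_s1) (by decide) (by decide)
    (CellR2.step (Good.chk c16000_7600_7680_6640_6720_s2) (by decide) (by decide)
    (CellR2.step (Good.chk c16000_7600_7680_6640_6720_s3) (by decide) (by decide)
    (CellR2.fin c16000_7600_7680_6640_6720_f))))

theorem c16000_7600_7680_6720_6800 : Cell2 16000 7600 7680 6720 6800 :=
  CellR2.step (Good.chk c16000_7600_7680_6720_6800_s0) (by decide) (by decide)
    (CellR2.step (Good.chk c16000_7600_7680_6720_6800_s1) (by decide) (by decide)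
    (CellR2.step (Good.chk c16000_7600_7680_6720_6800_s2) (by decide) (by decide)
    (CellR2.step (Good.chk c16000_7600_7680_6720_6800_s3) (by decide) (by decide)
    (CellR2.step (Good.chk c16000_7600_7680_6720_6800_s4) (by decide) (by decide)
    (CellR2.fin c16000_7600_7680_6720_6800_f)))))

theorem c16000_7600_7680_6800_6880 : Cell2 16000 7600 7680 6800 6880 :=
  CellR2.step (Good.chk c16000_7600_7680_6800_6880_s0) (by decide) (by decide)
    (CellR2.step (Good.chk c16000_7600_7680_6800_6880_s1) (by decide) (by decide)
    (CellR2.step (Good.chk c16000_7600_7680_6800_6880_s2) (by decide) (by decide)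
    (CellR2.fin c16000_7600_7680_6800_6880_f)))

theorem c16000_7680_7840_4000_4640 : Cell2 16000 7680 7840 4000 4640 :=
  CellR2.fin c16000_7680_7840_4000_4640_f

theorem c16000_7680_7840_4640_4960 : Cell2 16000 7680 7840 4640 4960 :=
  CellR2.fin c16000_7680_7840_4640_4960_f

theorem c16000_7680_7840_4960_5120 : Cell2 16000 7680 7840 4960 5120 :=
  CellR2.step (Good.chk c16000_7680_7840_4960_5120_s0) (by decide) (by decide)
    (CellR2.fin c16000_7680_7840_4960_5120_f)

theorem c16000_7680_7840_5120_5280 : Cell2 16000 7680 7840 5120 5280 :=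
  CellR2.step (Good.chk c16000_7680_7840_5120_5280_s0) (by decide) (by decide)
    (CellR2.fin c16000_7680_7840_5120_5280_f)

theorem c16000_7680_7840_5280_5440 : Cell2 16000 7680 7840 5280 5440 :=
  CellR2.step (Good.chk c16000_7680_7840_5280_5440_s0) (by decide) (by decide)
    (CellR2.fin c16000_7680_7840_5280_5440_f)

theorem c16000_7680_7840_5440_5600 : Cell2 16000 7680 7840 5440 5600 :=
  CellR2.step (Good.chk c16000_7680_7840_5440_5600_s0) (by decide) (by decide)
    (CellR2.fin c16000_7680_7840_5440_5600_f)

theorem c16000_7680_7840_5600_5760 : Cell2 16000 7680 7840 5600 5760 :=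
  CellR2.step (Good.chk c16000_7680_7840_5600_5760_s0) (by decide) (by decide)
    (CellR2.step (Good.chk c16000_7680_7840_5600_5760_s1) (by decide) (by decide)
    (CellR2.fin c16000_7680_7840_5600_5760_f))

theorem c16000_7680_7840_5760_5920 : Cell2 16000 7680 7840 5760 5920 :=
  CellR2.step (Good.chk c16000_7680_7840_5760_5920_s0) (by decide) (by decide)
    (CellR2.step (Good.chk c16000_7680_7840_5760_5920_s1) (by decide) (by decide)
    (CellR2.fin c16000_7680_7840_5760_5920_f))

theorem c16000_7680_7840_5920_6080 : Cell2 16000 7680 7840 5920 6080 :=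
  CellR2.step (Good.chk c16000_7680_7840_5920_6080_s0) (by decide) (by decide)
    (CellR2.step (Good.chk c16000_7680_7840_5920_6080_s1) (by decide) (by decide)
    (CellR2.fin c16000_7680_7840_5920_6080_f))

theorem c16000_7680_7840_6080_6240 : Cell2 16000 7680 7840 6080 6240 :=
  CellR2.step (Good.chk c16000_7680_7840_6080_6240_s0) (by decide) (by decide)
    (CellR2.step (Good.chk c16000_7680_7840_6080_6240_s1) (by decide) (by decide)
    (CellR2.step (Good.chk c16000_7680_7840_6080_6240_s2) (by decide) (by decide)
    (CellR2.step (Good.chk c16000_7680_7840_6080_6240_s3) (by decide) (by decide)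
    (CellR2.step (Good.chk c16000_7680_7840_6080_6240_s4) (by decide) (by decide)
    (CellR2.step (Good.chk c16000_7680_7840_6080_6240_s5) (by decide) (by decide)
    (CellR2.step (Good.chk c16000_7680_7840_6080_6240_s6) (by decide) (by decide)
    (CellR2.step (Good.chk c16000_7680_7840_6080_6240_s7) (by decide) (by decide)
    (CellR2.step (Good.chk c16000_7680_7840_6080_6240_s8) (by decide) (by decide)
    (CellR2.fin c16000_7680_7840_6080_6240_f)))))))))

theorem c16000_7680_7760_6240_6320 : Cell2 16000 7680 7760 6240 6320 :=
  CellR2.step (Good.chk c16000_7680_7760_6240_6320_s0) (by decide) (by decide)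
    (CellR2.step (Good.chk c16000_7680_7760_6240_6320_s1) (by decide) (by decide)
    (CellR2.step (Good.chk c16000_7680_7760_6240_6320_s2) (by decide) (by decide)
    (CellR2.step (Good.chk c16000_7680_7760_6240_6320_s3) (by decide) (by decide)
    (CellR2.step (Good.chk c16000_7680_7760_6240_6320_s4) (by decide) (by decide)
    (CellR2.step (Good.chk c16000_7680_7760_6240_6320_s5) (by decide) (by decide)
    (CellR2.step (Good.chk c16000_7680_7760_6240_6320_s6) (by decide) (by decide)
    (CellR2.step (Good.chk c16000_7680_7760_6240_6320_s7) (by decide) (by decide)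
    (CellR2.step (Good.chk c16000_7680_7760_6240_6320_s8) (by decide) (by decide)
    (CellR2.fin c16000_7680_7760_6240_6320_f)))))))))

theorem c16000_7680_7760_6320_6400 : Cell2 16000 7680 7760 6320 6400 :=
  CellR2.step (Good.chk c16000_7680_7760_6320_6400_s0) (by decide) (by decide)
    (CellR2.step (Good.chk c16000_7680_7760_6320_6400_s1) (by decide) (by decide)
    (CellR2.step (Good.chk c16000_7680_7760_6320_6400_s2) (by decide) (by decide)
    (CellR2.step (Good.chk c16000_7680_7760_6320_6400_s3) (by decide) (by decide)
    (CellR2.fin c16000_7680_7760_6320_6400_f))))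

theorem c16000_7680_7840_6400_6560 : Cell2 16000 7680 7840 6400 6560 :=
  CellR2.step (Good.chk c16000_7680_7840_6400_6560_s0) (by decide) (by decide)
    (CellR2.step (Good.chk c16000_7680_7840_6400_6560_s1) (by decide) (by decide)
    (CellR2.step (Good.chk c16000_7680_7840_6400_6560_s2) (by decide) (by decide)
    (CellR2.step (Good.chk c16000_7680_7840_6400_6560_s3) (by decide) (by decide)
    (CellR2.step (Good.chk c16000_7680_7840_6400_6560_s4) (by decide) (by decide)
    (CellR2.step (Good.chk c16000_7680_7840_6400_6560_s5) (by decide) (by decide)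
    (CellR2.step (Good.chk c16000_7680_7840_6400_6560_s6) (by decide) (by decide)
    (CellR2.fin c16000_7680_7840_6400_6560_f)))))))

theorem c16000_7680_7840_6560_6720 : Cell2 16000 7680 7840 6560 6720 :=
  CellR2.step (Good.chk c16000_7680_7840_6560_6720_s0) (by decide) (by decide)
    (CellR2.step (Good.chk c16000_7680_7840_6560_6720_s1) (by decide) (by decide)
    (CellR2.step (Good.chk c16000_7680_7840_6560_6720_s2) (by decide) (by decide)
    (CellR2.step (Good.chk c16000_7680_7840_6560_6720_s3) (by decide) (by decide)
    (CellR2.step (Good.chk c16000_7680_7840_6560_6720_s4) (by decide) (by decide)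
    (CellR2.step (Good.chk c16000_7680_7840_6560_6720_s5) (by decide) (by decide)
    (CellR2.step (Good.chk c16000_7680_7840_6560_6720_s6) (by decide) (by decide)
    (CellR2.step (Good.chk c16000_7680_7840_6560_6720_s7) (by decide) (by decide)
    (CellR2.fin c16000_7680_7840_6560_6720_f))))))))

theorem c16000_7680_7840_6720_6880 : Cell2 16000 7680 7840 6720 6880 :=
  CellR2.step (Good.chk c16000_7680_7840_6720_6880_s0) (by decide) (by decide)
    (CellR2.step (Good.chk c16000_7680_7840_6720_6880_s1) (by decide) (by decide)
    (CellR2.step (Good.chk c16000_7680_7840_6720_6880_s2) (by decide) (by decide)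
    (CellR2.step (Good.chk c16000_7680_7840_6720_6880_s3) (by decide) (by decide)
    (CellR2.step (Good.chk c16000_7680_7840_6720_6880_s4) (by decide) (by decide)
    (CellR2.fin c16000_7680_7840_6720_6880_f)))))

theorem c16000_7680_7840_6880_7040 : Cell2 16000 7680 7840 6880 7040 :=
  CellR2.step (Good.chk c16000_7680_7840_6880_7040_s0) (by decide) (by decide)
    (CellR2.step (Good.chk c16000_7680_7840_6880_7040_s1) (by decide) (by decide)
    (CellR2.fin c16000_7680_7840_6880_7040_f))

theorem c16000_7680_7840_7040_7200 : Cell2 16000 7680 7840 7040 7200 :=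
  CellR2.step (Good.chk c16000_7680_7840_7040_7200_s0) (by decide) (by decide)
    (CellR2.step (Good.chk c16000_7680_7840_7040_7200_s1) (by decide) (by decide)
    (CellR2.fin c16000_7680_7840_7040_7200_f))

theorem c16000_7680_7840_7200_7520 : Cell2 16000 7680 7840 7200 7520 :=
  CellR2.fin c16000_7680_7840_7200_7520_f

theorem c16000_7680_7840_7520_8000 : Cell2 16000 7680 7840 7520 8000 :=
  CellR2.fin c16000_7680_7840_7520_8000_f

theorem c16000_7760_7840_6240_6320 : Cell2 16000 7760 7840 6240 6320 :=
  CellR2.step (Good.chk c16000_7760_7840_6240_6320_s0) (by decide) (by decide)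
    (CellR2.step (Good.chk c16000_7760_7840_6240_6320_s1) (by decide) (by decide)
    (CellR2.step (Good.chk c16000_7760_7840_6240_6320_s2) (by decide) (by decide)
    (CellR2.step (Good.chk c16000_7760_7840_6240_6320_s3) (by decide) (by decide)
    (CellR2.fin c16000_7760_7840_6240_6320_f))))

theorem c16000_7760_7840_6320_6400 : Cell2 16000 7760 7840 6320 6400 :=
  CellR2.step (Good.chk c16000_7760_7840_6320_6400_s0) (by decide) (by decide)
    (CellR2.step (Good.chk c16000_7760_7840_6320_6400_s1) (by decide) (by decide)
    (CellR2.fin c16000_7760_7840_6320_6400_f))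

theorem c16000_7840_8000_4000_5120 : Cell2 16000 7840 8000 4000 5120 :=
  CellR2.fin c16000_7840_8000_4000_5120_f

end Pool.Agent.Helper5.B54
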