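import Pool.Agent.Helper5.B54v2.Cell2
import Pool.Agent.Helper5.B54v2.T.A709
import Pool.Agent.Helper5.B54v2.T.A710
import Pool.Agent.Helper5.B54v2.T.A711
import Pool.Agent.Helper5.B54v2.T.A712
import Pool.Agent.Helper5.B54v2.T.A713
import Pool.Agent.Helper5.B54v2.T.A714
import Pool.Agent.Helper5.B54v2.T.A715
import Pool.Agent.Helper5.B54v2.T.A716
import Pool.Agent.Helper5.B54v2.T.A717
import Pool.Agent.Helper5.B54v2.T.A718
import Pool.Agent.Helper5.B54v2.T.A719
import Pool.Agent.Helper5.B54v2.T.A720
import Pool.Agent.Helper5.B54v2.T.A721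
import Pool.Agent.Helper5.B54v2.T.A722
import Pool.Agent.Helper5.B54v2.T.A723
import Pool.Agent.Helper5.B54v2.T.A724
import Pool.Agent.Helper5.B54v2.T.A725
import Pool.Agent.Helper5.B54v2.T.A726
import Pool.Agent.Helper5.B54v2.T.A727
import Pool.Agent.Helper5.B54v2.T.A728
import Pool.Agent.Helper5.B54v2.T.A729
import Pool.Agent.Helper5.B54v2.T.A730
import Pool.Agent.Helper5.B54v2.T.A731
import Pool.Agent.Helper5.B54v2.T.A732
import Pool.Agent.Helper5.B54v2.T.A733
import Pool.Agent.Helper5.B54v2.T.A734
import Pool.Agent.Helper5.B54v2.T.A735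
import Pool.Agent.Helper5.B54v2.T.A736
import Pool.Agent.Helper5.B54v2.T.A737
import Pool.Agent.Helper5.B54v2.T.A738
import Pool.Agent.Helper5.B54v2.T.A739

/-!
# Cells
-/

namespace Pool.Agent.Helper5.B54

theorem c16000_7840_8000_5120_5280 : Cell2 16000 7840 8000 5120 5280 :=
  CellR2.step (Good.chk c16000_7840_8000_5120_5280_s0) (by decide) (by decide)
    (CellR2.fin c16000_7840_8000_5120_5280_f)

theorem c16000_7840_8000_5280_5440 : Cell2 16000 7840 8000 5280 5440 :=
  CellR2.step (Good.chk c16000_7840_8000_5280_5440_s0) (by decide) (by decide)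
    (CellR2.fin c16000_7840_8000_5280_5440_f)

theorem c16000_7840_8000_5440_5600 : Cell2 16000 7840 8000 5440 5600 :=
  CellR2.step (Good.chk c16000_7840_8000_5440_5600_s0) (by decide) (by decide)
    (CellR2.fin c16000_7840_8000_5440_5600_f)

theorem c16000_7840_8000_5600_5760 : Cell2 16000 7840 8000 5600 5760 :=
  CellR2.step (Good.chk c16000_7840_8000_5600_5760_s0) (by decide) (by decide)
    (CellR2.step (Good.chk c16000_7840_8000_5600_5760_s1) (by decide) (by decide)
    (CellR2.fin c16000_7840_8000_5600_5760_f))

theorem c16000_7840_8000_5760_5920 : Cell2 16000 7840 8000 5760 5920 :=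
  CellR2.step (Good.chk c16000_7840_8000_5760_5920_s0) (by decide) (by decide)
    (CellR2.step (Good.chk c16000_7840_8000_5760_5920_s1) (by decide) (by decide)
    (CellR2.fin c16000_7840_8000_5760_5920_f))

theorem c16000_7840_8000_5920_6080 : Cell2 16000 7840 8000 5920 6080 :=
  CellR2.step (Good.chk c16000_7840_8000_5920_6080_s0) (by decide) (by decide)
    (CellR2.step (Good.chk c16000_7840_8000_5920_6080_s1) (by decide) (by decide)
    (CellR2.fin c16000_7840_8000_5920_6080_f))

theorem c16000_7840_8000_6080_6240 : Cell2 16000 7840 8000 6080 6240 :=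
  CellR2.step (Good.chk c16000_7840_8000_6080_6240_s0) (by decide) (by decide)
    (CellR2.step (Good.chk c16000_7840_8000_6080_6240_s1) (by decide) (by decide)
    (CellR2.step (Good.chk c16000_7840_8000_6080_6240_s2) (by decide) (by decide)
    (CellR2.step (Good.chk c16000_7840_8000_6080_6240_s3) (by decide) (by decide)
    (CellR2.step (Good.chk c16000_7840_8000_6080_6240_s4) (by decide) (by decide)
    (CellR2.step (Good.chk c16000_7840_8000_6080_6240_s5) (by decide) (by decide)
    (CellR2.fin c16000_7840_8000_6080_6240_f))))))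

theorem c16000_7840_8000_6240_6400 : Cell2 16000 7840 8000 6240 6400 :=
  CellR2.step (Good.chk c16000_7840_8000_6240_6400_s0) (by decide) (by decide)
    (CellR2.step (Good.chk c16000_7840_8000_6240_6400_s1) (by decide) (by decide)
    (CellR2.step (Good.chk c16000_7840_8000_6240_6400_s2) (by decide) (by decide)
    (CellR2.step (Good.chk c16000_7840_8000_6240_6400_s3) (by decide) (by decide)
    (CellR2.step (Good.chk c16000_7840_8000_6240_6400_s4) (by decide) (by decide)
    (CellR2.step (Good.chk c16000_7840_8000_6240_6400_s5) (by decide) (by decide)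
    (CellR2.step (Good.chk c16000_7840_8000_6240_6400_s6) (by decide) (by decide)
    (CellR2.step (Good.chk c16000_7840_8000_6240_6400_s7) (by decide) (by decide)
    (CellR2.fin c16000_7840_8000_6240_6400_f))))))))

theorem c16000_7840_8000_6400_6560 : Cell2 16000 7840 8000 6400 6560 :=
  CellR2.step (Good.chk c16000_7840_8000_6400_6560_s0) (by decide) (by decide)
    (CellR2.step (Good.chk c16000_7840_8000_6400_6560_s1) (by decide) (by decide)
    (CellR2.step (Good.chk c16000_7840_8000_6400_6560_s2) (by decide) (by decide)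
    (CellR2.step (Good.chk c16000_7840_8000_6400_6560_s3) (by decide) (by decide)
    (CellR2.step (Good.chk c16000_7840_8000_6400_6560_s4) (by decide) (by decide)
    (CellR2.step (Good.chk c16000_7840_8000_6400_6560_s5) (by decide) (by decide)
    (CellR2.fin c16000_7840_8000_6400_6560_f))))))

theorem c16000_7840_8000_6560_6720 : Cell2 16000 7840 8000 6560 6720 :=
  CellR2.step (Good.chk c16000_7840_8000_6560_6720_s0) (by decide) (by decide)
    (CellR2.step (Good.chk c16000_7840_8000_6560_6720_s1) (by decide) (by decide)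
    (CellR2.step (Good.chk c16000_7840_8000_6560_6720_s2) (by decide) (by decide)
    (CellR2.fin c16000_7840_8000_6560_6720_f)))

theorem c16000_7840_8000_6720_6880 : Cell2 16000 7840 8000 6720 6880 :=
  CellR2.step (Good.chk c16000_7840_8000_6720_6880_s0) (by decide) (by decide)
    (CellR2.step (Good.chk c16000_7840_8000_6720_6880_s1) (by decide) (by decide)
    (CellR2.step (Good.chk c16000_7840_8000_6720_6880_s2) (by decide) (by decide)
    (CellR2.fin c16000_7840_8000_6720_6880_f)))

theorem c16000_7840_8000_6880_7040 : Cell2 16000 7840 8000 6880 7040 :=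
  CellR2.step (Good.chk c16000_7840_8000_6880_7040_s0) (by decide) (by decide)
    (CellR2.step (Good.chk c16000_7840_8000_6880_7040_s1) (by decide) (by decide)
    (CellR2.fin c16000_7840_8000_6880_7040_f))

theorem c16000_7840_8000_7040_7200 : Cell2 16000 7840 8000 7040 7200 :=
  CellR2.step (Good.chk c16000_7840_8000_7040_7200_s0) (by decide) (by decide)
    (CellR2.fin c16000_7840_8000_7040_7200_f)

theorem c16000_7840_8000_7200_7520 : Cell2 16000 7840 8000 7200 7520 :=
  CellR2.fin c16000_7840_8000_7200_7520_f

theorem c16000_7840_8000_7520_8000 : Cell2 16000 7840 8000 7520 8000 :=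
  CellR2.fin c16000_7840_8000_7520_8000_f

theorem c16000_8000_8480_0_4000 : Cell2 16000 8000 8480 0 4000 :=
  CellR2.fin c16000_8000_8480_0_4000_f

theorem c16000_8000_8160_4000_4640 : Cell2 16000 8000 8160 4000 4640 :=
  CellR2.fin c16000_8000_8160_4000_4640_f

theorem c16000_8000_8160_4640_4800 : Cell2 16000 8000 8160 4640 4800 :=
  CellR2.fin c16000_8000_8160_4640_4800_f

theorem c16000_8000_8160_4800_4960 : Cell2 16000 8000 8160 4800 4960 :=
  CellR2.fin c16000_8000_8160_4800_4960_f

theorem c16000_8000_8160_4960_5120 : Cell2 16000 8000 8160 4960 5120 :=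
  CellR2.step (Good.chk c16000_8000_8160_4960_5120_s0) (by decide) (by decide)
    (CellR2.fin c16000_8000_8160_4960_5120_f)

theorem c16000_8000_8160_5120_5280 : Cell2 16000 8000 8160 5120 5280 :=
  CellR2.step (Good.chk c16000_8000_8160_5120_5280_s0) (by decide) (by decide)
    (CellR2.fin c16000_8000_8160_5120_5280_f)

theorem c16000_8000_8160_5280_5440 : Cell2 16000 8000 8160 5280 5440 :=
  CellR2.step (Good.chk c16000_8000_8160_5280_5440_s0) (by decide) (by decide)
    (CellR2.fin c16000_8000_8160_5280_5440_f)

theorem c16000_8000_8160_5440_5600 : Cell2 16000 8000 8160 5440 5600 :=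
  CellR2.step (Good.chk c16000_8000_8160_5440_5600_s0) (by decide) (by decide)
    (CellR2.fin c16000_8000_8160_5440_5600_f)

theorem c16000_8000_8160_5600_5760 : Cell2 16000 8000 8160 5600 5760 :=
  CellR2.step (Good.chk c16000_8000_8160_5600_5760_s0) (by decide) (by decide)
    (CellR2.step (Good.chk c16000_8000_8160_5600_5760_s1) (by decide) (by decide)
    (CellR2.fin c16000_8000_8160_5600_5760_f))

theorem c16000_8000_8160_5760_5920 : Cell2 16000 8000 8160 5760 5920 :=
  CellR2.step (Good.chk c16000_8000_8160_5760_5920_s0) (by decide) (by decide)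
    (CellR2.step (Good.chk c16000_8000_8160_5760_5920_s1) (by decide) (by decide)
    (CellR2.step (Good.chk c16000_8000_8160_5760_5920_s2) (by decide) (by decide)
    (CellR2.fin c16000_8000_8160_5760_5920_f)))

theorem c16000_8000_8160_5920_6080 : Cell2 16000 8000 8160 5920 6080 :=
  CellR2.step (Good.chk c16000_8000_8160_5920_6080_s0) (by decide) (by decide)
    (CellR2.step (Good.chk c16000_8000_8160_5920_6080_s1) (by decide) (by decide)
    (CellR2.step (Good.chk c16000_8000_8160_5920_6080_s2) (by decide) (by decide)
    (CellR2.step (Good.chk c16000_8000_8160_5920_6080_s3) (by decide) (by decide)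
    (CellR2.fin c16000_8000_8160_5920_6080_f))))

theorem c16000_8000_8160_6080_6240 : Cell2 16000 8000 8160 6080 6240 :=
  CellR2.step (Good.chk c16000_8000_8160_6080_6240_s0) (by decide) (by decide)
    (CellR2.step (Good.chk c16000_8000_8160_6080_6240_s1) (by decide) (by decide)
    (CellR2.step (Good.chk c16000_8000_8160_6080_6240_s2) (by decide) (by decide)
    (CellR2.step (Good.chk c16000_8000_8160_6080_6240_s3) (by decide) (by decide)
    (CellR2.step (Good.chk c16000_8000_8160_6080_6240_s4) (by decide) (by decide)
    (CellR2.step (Good.chk c16000_8000_8160_6080_6240_s5) (by decide) (by decide)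
    (CellR2.fin c16000_8000_8160_6080_6240_f))))))

theorem c16000_8000_8160_6240_6400 : Cell2 16000 8000 8160 6240 6400 :=
  CellR2.step (Good.chk c16000_8000_8160_6240_6400_s0) (by decide) (by decide)
    (CellR2.step (Good.chk c16000_8000_8160_6240_6400_s1) (by decide) (by decide)
    (CellR2.step (Good.chk c16000_8000_8160_6240_6400_s2) (by decide) (by decide)
    (CellR2.step (Good.chk c16000_8000_8160_6240_6400_s3) (by decide) (by decide)
    (CellR2.step (Good.chk c16000_8000_8160_6240_6400_s4) (by decide) (by decide)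
    (CellR2.step (Good.chk c16000_8000_8160_6240_6400_s5) (by decide) (by decide)
    (CellR2.step (Good.chk c16000_8000_8160_6240_6400_s6) (by decide) (by decide)
    (CellR2.fin c16000_8000_8160_6240_6400_f)))))))

theorem c16000_8000_8160_6400_6560 : Cell2 16000 8000 8160 6400 6560 :=
  CellR2.step (Good.chk c16000_8000_8160_6400_6560_s0) (by decide) (by decide)
    (CellR2.step (Good.chk c16000_8000_8160_6400_6560_s1) (by decide) (by decide)
    (CellR2.step (Good.chk c16000_8000_8160_6400_6560_s2) (by decide) (by decide)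
    (CellR2.step (Good.chk c16000_8000_8160_6400_6560_s3) (by decide) (by decide)
    (CellR2.step (Good.chk c16000_8000_8160_6400_6560_s4) (by decide) (by decide)
    (CellR2.fin c16000_8000_8160_6400_6560_f)))))

theorem c16000_8000_8160_6560_6720 : Cell2 16000 8000 8160 6560 6720 :=
  CellR2.step (Good.chk c16000_8000_8160_6560_6720_s0) (by decide) (by decide)
    (CellR2.step (Good.chk c16000_8000_8160_6560_6720_s1) (by decide) (by decide)
    (CellR2.step (Good.chk c16000_8000_8160_6560_6720_s2) (by decide) (by decide)
    (CellR2.step (Good.chk c16000_8000_8160_6560_6720_s3) (by decide) (by decide)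
    (CellR2.step (Good.chk c16000_8000_8160_6560_6720_s4) (by decide) (by decide)
    (CellR2.fin c16000_8000_8160_6560_6720_f)))))

theorem c16000_8000_8160_6720_6880 : Cell2 16000 8000 8160 6720 6880 :=
  CellR2.step (Good.chk c16000_8000_8160_6720_6880_s0) (by decide) (by decide)
    (CellR2.step (Good.chk c16000_8000_8160_6720_6880_s1) (by decide) (by decide)
    (CellR2.step (Good.chk c16000_8000_8160_6720_6880_s2) (by decide) (by decide)
    (CellR2.step (Good.chk c16000_8000_8160_6720_6880_s3) (by decide) (by decide)
    (CellR2.step (Good.chk c16000_8000_8160_6720_6880_s4) (by decide) (by decide)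
    (CellR2.fin c16000_8000_8160_6720_6880_f)))))

theorem c16000_8000_8160_6880_7040 : Cell2 16000 8000 8160 6880 7040 :=
  CellR2.step (Good.chk c16000_8000_8160_6880_7040_s0) (by decide) (by decide)
    (CellR2.step (Good.chk c16000_8000_8160_6880_7040_s1) (by decide) (by decide)
    (CellR2.step (Good.chk c16000_8000_8160_6880_7040_s2) (by decide) (by decide)
    (CellR2.step (Good.chk c16000_8000_8160_6880_7040_s3) (by decide) (by decide)
    (CellR2.fin c16000_8000_8160_6880_7040_f))))

theorem c16000_8000_8160_7040_7200 : Cell2 16000 8000 8160 7040 7200 :=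
  CellR2.step (Good.chk c16000_8000_8160_7040_7200_s0) (by decide) (by decide)
    (CellR2.fin c16000_8000_8160_7040_7200_f)

theorem c16000_8000_8160_7200_7360 : Cell2 16000 8000 8160 7200 7360 :=
  CellR2.fin c16000_8000_8160_7200_7360_f

theorem c16000_8000_8160_7360_7520 : Cell2 16000 8000 8160 7360 7520 :=
  CellR2.fin c16000_8000_8160_7360_7520_f

theorem c16000_8000_8160_7520_8000 : Cell2 16000 8000 8160 7520 8000 :=
  CellR2.fin c16000_8000_8160_7520_8000_f

theorem c16000_8160_8320_4000_4640 : Cell2 16000 8160 8320 4000 4640 :=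
  CellR2.fin c16000_8160_8320_4000_4640_f

theorem c16000_8160_8320_4640_4960 : Cell2 16000 8160 8320 4640 4960 :=
  CellR2.fin c16000_8160_8320_4640_4960_f

theorem c16000_8160_8320_4960_5120 : Cell2 16000 8160 8320 4960 5120 :=
  CellR2.fin c16000_8160_8320_4960_5120_f

theorem c16000_8160_8320_5120_5280 : Cell2 16000 8160 8320 5120 5280 :=
  CellR2.step (Good.chk c16000_8160_8320_5120_5280_s0) (by decide) (by decide)
    (CellR2.fin c16000_8160_8320_5120_5280_f)

theorem c16000_8160_8320_5280_5440 : Cell2 16000 8160 8320 5280 5440 :=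
  CellR2.step (Good.chk c16000_8160_8320_5280_5440_s0) (by decide) (by decide)
    (CellR2.fin c16000_8160_8320_5280_5440_f)

theorem c16000_8160_8320_5440_5600 : Cell2 16000 8160 8320 5440 5600 :=
  CellR2.step (Good.chk c16000_8160_8320_5440_5600_s0) (by decide) (by decide)
    (CellR2.fin c16000_8160_8320_5440_5600_f)

theorem c16000_8160_8320_5600_5760 : Cell2 16000 8160 8320 5600 5760 :=
  CellR2.step (Good.chk c16000_8160_8320_5600_5760_s0) (by decide) (by decide)
    (CellR2.step (Good.chk c16000_8160_8320_5600_5760_s1) (by decide) (by decide)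
    (CellR2.fin c16000_8160_8320_5600_5760_f))

theorem c16000_8160_8320_5760_5920 : Cell2 16000 8160 8320 5760 5920 :=
  CellR2.step (Good.chk c16000_8160_8320_5760_5920_s0) (by decide) (by decide)
    (CellR2.step (Good.chk c16000_8160_8320_5760_5920_s1) (by decide) (by decide)
    (CellR2.step (Good.chk c16000_8160_8320_5760_5920_s2) (by decide) (by decide)
    (CellR2.fin c16000_8160_8320_5760_5920_f)))

theorem c16000_8160_8320_5920_6080 : Cell2 16000 8160 8320 5920 6080 :=
  CellR2.step (Good.chk c16000_8160_8320_5920_6080_s0) (by decide) (by decide)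
    (CellR2.step (Good.chk c16000_8160_8320_5920_6080_s1) (by decide) (by decide)
    (CellR2.step (Good.chk c16000_8160_8320_5920_6080_s2) (by decide) (by decide)
    (CellR2.fin c16000_8160_8320_5920_6080_f)))

theorem c16000_8160_8320_6080_6240 : Cell2 16000 8160 8320 6080 6240 :=
  CellR2.step (Good.chk c16000_8160_8320_6080_6240_s0) (by decide) (by decide)
    (CellR2.step (Good.chk c16000_8160_8320_6080_6240_s1) (by decide) (by decide)
    (CellR2.step (Good.chk c16000_8160_8320_6080_6240_s2) (by decide) (by decide)
    (CellR2.step (Good.chk c16000_8160_8320_6080_6240_s3) (by decide) (by decide)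
    (CellR2.step (Good.chk c16000_8160_8320_6080_6240_s4) (by decide) (by decide)
    (CellR2.step (Good.chk c16000_8160_8320_6080_6240_s5) (by decide) (by decide)
    (CellR2.step (Good.chk c16000_8160_8320_6080_6240_s6) (by decide) (by decide)
    (CellR2.fin c16000_8160_8320_6080_6240_f)))))))

theorem c16000_8160_8320_6240_6400 : Cell2 16000 8160 8320 6240 6400 :=
  CellR2.step (Good.chk c16000_8160_8320_6240_6400_s0) (by decide) (by decide)
    (CellR2.step (Good.chk c16000_8160_8320_6240_6400_s1) (by decide) (by decide)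
    (CellR2.step (Good.chk c16000_8160_8320_6240_6400_s2) (by decide) (by decide)
    (CellR2.step (Good.chk c16000_8160_8320_6240_6400_s3) (by decide) (by decide)
    (CellR2.step (Good.chk c16000_8160_8320_6240_6400_s4) (by decide) (by decide)
    (CellR2.step (Good.chk c16000_8160_8320_6240_6400_s5) (by decide) (by decide)
    (CellR2.step (Good.chk c16000_8160_8320_6240_6400_s6) (by decide) (by decide)
    (CellR2.step (Good.chk c16000_8160_8320_6240_6400_s7) (by decide) (by decide)
    (CellR2.fin c16000_8160_8320_6240_6400_f))))))))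

theorem c16000_8160_8320_6400_6560 : Cell2 16000 8160 8320 6400 6560 :=
  CellR2.step (Good.chk c16000_8160_8320_6400_6560_s0) (by decide) (by decide)
    (CellR2.step (Good.chk c16000_8160_8320_6400_6560_s1) (by decide) (by decide)
    (CellR2.step (Good.chk c16000_8160_8320_6400_6560_s2) (by decide) (by decide)
    (CellR2.step (Good.chk c16000_8160_8320_6400_6560_s3) (by decide) (by decide)
    (CellR2.step (Good.chk c16000_8160_8320_6400_6560_s4) (by decide) (by decide)
    (CellR2.step (Good.chk c16000_8160_8320_6400_6560_s5) (by decide) (by decide)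
    (CellR2.step (Good.chk c16000_8160_8320_6400_6560_s6) (by decide) (by decide)
    (CellR2.fin c16000_8160_8320_6400_6560_f)))))))

theorem c16000_8160_8320_6560_6720 : Cell2 16000 8160 8320 6560 6720 :=
  CellR2.step (Good.chk c16000_8160_8320_6560_6720_s0) (by decide) (by decide)
    (CellR2.step (Good.chk c16000_8160_8320_6560_6720_s1) (by decide) (by decide)
    (CellR2.step (Good.chk c16000_8160_8320_6560_6720_s2) (by decide) (by decide)
    (CellR2.step (Good.chk c16000_8160_8320_6560_6720_s3) (by decide) (by decide)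
    (CellR2.step (Good.chk c16000_8160_8320_6560_6720_s4) (by decide) (by decide)
    (CellR2.fin c16000_8160_8320_6560_6720_f)))))

theorem c16000_8160_8320_6720_6880 : Cell2 16000 8160 8320 6720 6880 :=
  CellR2.step (Good.chk c16000_8160_8320_6720_6880_s0) (by decide) (by decide)
    (CellR2.step (Good.chk c16000_8160_8320_6720_6880_s1) (by decide) (by decide)
    (CellR2.step (Good.chk c16000_8160_8320_6720_6880_s2) (by decide) (by decide)
    (CellR2.step (Good.chk c16000_8160_8320_6720_6880_s3) (by decide) (by decide)
    (CellR2.fin c16000_8160_8320_6720_6880_f))))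

theorem c16000_8160_8320_6880_7040 : Cell2 16000 8160 8320 6880 7040 :=
  CellR2.step (Good.chk c16000_8160_8320_6880_7040_s0) (by decide) (by decide)
    (CellR2.fin c16000_8160_8320_6880_7040_f)

theorem c16000_8160_8320_7040_7200 : Cell2 16000 8160 8320 7040 7200 :=
  CellR2.step (Good.chk c16000_8160_8320_7040_7200_s0) (by decide) (by decide)
    (CellR2.fin c16000_8160_8320_7040_7200_f)

theorem c16000_8160_8320_7200_7360 : Cell2 16000 8160 8320 7200 7360 :=
  CellR2.fin c16000_8160_8320_7200_7360_f

theorem c16000_8160_8320_7360_7520 : Cell2 16000 8160 8320 7360 7520 :=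
  CellR2.fin c16000_8160_8320_7360_7520_f

theorem c16000_8160_8320_7520_8000 : Cell2 16000 8160 8320 7520 8000 :=
  CellR2.fin c16000_8160_8320_7520_8000_f

theorem c16000_8320_8480_4000_4640 : Cell2 16000 8320 8480 4000 4640 :=
  CellR2.fin c16000_8320_8480_4000_4640_f

theorem c16000_8320_8480_4640_4960 : Cell2 16000 8320 8480 4640 4960 :=
  CellR2.fin c16000_8320_8480_4640_4960_f

theorem c16000_8320_8480_4960_5120 : Cell2 16000 8320 8480 4960 5120 :=
  CellR2.fin c16000_8320_8480_4960_5120_f

theorem c16000_8320_8480_5120_5280 : Cell2 16000 8320 8480 5120 5280 :=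
  CellR2.step (Good.chk c16000_8320_8480_5120_5280_s0) (by decide) (by decide)
    (CellR2.fin c16000_8320_8480_5120_5280_f)

theorem c16000_8320_8480_5280_5440 : Cell2 16000 8320 8480 5280 5440 :=
  CellR2.step (Good.chk c16000_8320_8480_5280_5440_s0) (by decide) (by decide)
    (CellR2.fin c16000_8320_8480_5280_5440_f)

end Pool.Agent.Helper5.B54
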