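import Pool.Agent.Helper5.B54v2.Cell2
import Pool.Agent.Helper5.B54v2.T.A739
import Pool.Agent.Helper5.B54v2.T.A740
import Pool.Agent.Helper5.B54v2.T.A741
import Pool.Agent.Helper5.B54v2.T.A742
import Pool.Agent.Helper5.B54v2.T.A743
import Pool.Agent.Helper5.B54v2.T.A744
import Pool.Agent.Helper5.B54v2.T.A745
import Pool.Agent.Helper5.B54v2.T.A746
import Pool.Agent.Helper5.B54v2.T.A747
import Pool.Agent.Helper5.B54v2.T.A748
import Pool.Agent.Helper5.B54v2.T.A749
import Pool.Agent.Helper5.B54v2.T.A750
import Pool.Agent.Helper5.B54v2.T.A751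
import Pool.Agent.Helper5.B54v2.T.A752
import Pool.Agent.Helper5.B54v2.T.A753
import Pool.Agent.Helper5.B54v2.T.A754

/-!
# Cells
-/

namespace Pool.Agent.Helper5.B54

theorem c16000_8320_8480_5440_5600 : Cell2 16000 8320 8480 5440 5600 :=
  CellR2.step (Good.chk c16000_8320_8480_5440_5600_s0) (by decide) (by decide)
    (CellR2.fin c16000_8320_8480_5440_5600_f)

theorem c16000_8320_8480_5600_5760 : Cell2 16000 8320 8480 5600 5760 :=
  CellR2.step (Good.chk c16000_8320_8480_5600_5760_s0) (by decide) (by decide)
    (CellR2.fin c16000_8320_8480_5600_5760_f)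

theorem c16000_8320_8480_5760_5920 : Cell2 16000 8320 8480 5760 5920 :=
  CellR2.step (Good.chk c16000_8320_8480_5760_5920_s0) (by decide) (by decide)
    (CellR2.step (Good.chk c16000_8320_8480_5760_5920_s1) (by decide) (by decide)
    (CellR2.fin c16000_8320_8480_5760_5920_f))

theorem c16000_8320_8480_5920_6080 : Cell2 16000 8320 8480 5920 6080 :=
  CellR2.step (Good.chk c16000_8320_8480_5920_6080_s0) (by decide) (by decide)
    (CellR2.step (Good.chk c16000_8320_8480_5920_6080_s1) (by decide) (by decide)
    (CellR2.step (Good.chk c16000_8320_8480_5920_6080_s2) (by decide) (by decide)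
    (CellR2.fin c16000_8320_8480_5920_6080_f)))

theorem c16000_8320_8480_6080_6240 : Cell2 16000 8320 8480 6080 6240 :=
  CellR2.step (Good.chk c16000_8320_8480_6080_6240_s0) (by decide) (by decide)
    (CellR2.step (Good.chk c16000_8320_8480_6080_6240_s1) (by decide) (by decide)
    (CellR2.step (Good.chk c16000_8320_8480_6080_6240_s2) (by decide) (by decide)
    (CellR2.fin c16000_8320_8480_6080_6240_f)))

theorem c16000_8320_8480_6240_6400 : Cell2 16000 8320 8480 6240 6400 :=
  CellR2.step (Good.chk c16000_8320_8480_6240_6400_s0) (by decide) (by decide)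
    (CellR2.step (Good.chk c16000_8320_8480_6240_6400_s1) (by decide) (by decide)
    (CellR2.step (Good.chk c16000_8320_8480_6240_6400_s2) (by decide) (by decide)
    (CellR2.step (Good.chk c16000_8320_8480_6240_6400_s3) (by decide) (by decide)
    (CellR2.fin c16000_8320_8480_6240_6400_f))))

theorem c16000_8320_8480_6400_6560 : Cell2 16000 8320 8480 6400 6560 :=
  CellR2.step (Good.chk c16000_8320_8480_6400_6560_s0) (by decide) (by decide)
    (CellR2.step (Good.chk c16000_8320_8480_6400_6560_s1) (by decide) (by decide)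
    (CellR2.step (Good.chk c16000_8320_8480_6400_6560_s2) (by decide) (by decide)
    (CellR2.step (Good.chk c16000_8320_8480_6400_6560_s3) (by decide) (by decide)
    (CellR2.step (Good.chk c16000_8320_8480_6400_6560_s4) (by decide) (by decide)
    (CellR2.fin c16000_8320_8480_6400_6560_f)))))

theorem c16000_8320_8480_6560_6720 : Cell2 16000 8320 8480 6560 6720 :=
  CellR2.step (Good.chk c16000_8320_8480_6560_6720_s0) (by decide) (by decide)
    (CellR2.step (Good.chk c16000_8320_8480_6560_6720_s1) (by decide) (by decide)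
    (CellR2.step (Good.chk c16000_8320_8480_6560_6720_s2) (by decide) (by decide)
    (CellR2.step (Good.chk c16000_8320_8480_6560_6720_s3) (by decide) (by decide)
    (CellR2.step (Good.chk c16000_8320_8480_6560_6720_s4) (by decide) (by decide)
    (CellR2.fin c16000_8320_8480_6560_6720_f)))))

theorem c16000_8320_8480_6720_6880 : Cell2 16000 8320 8480 6720 6880 :=
  CellR2.step (Good.chk c16000_8320_8480_6720_6880_s0) (by decide) (by decide)
    (CellR2.step (Good.chk c16000_8320_8480_6720_6880_s1) (by decide) (by decide)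
    (CellR2.step (Good.chk c16000_8320_8480_6720_6880_s2) (by decide) (by decide)
    (CellR2.step (Good.chk c16000_8320_8480_6720_6880_s3) (by decide) (by decide)
    (CellR2.fin c16000_8320_8480_6720_6880_f))))

theorem c16000_8320_8480_6880_7040 : Cell2 16000 8320 8480 6880 7040 :=
  CellR2.step (Good.chk c16000_8320_8480_6880_7040_s0) (by decide) (by decide)
    (CellR2.fin c16000_8320_8480_6880_7040_f)

theorem c16000_8320_8480_7040_7200 : Cell2 16000 8320 8480 7040 7200 :=
  CellR2.fin c16000_8320_8480_7040_7200_f

theorem c16000_8320_8480_7200_7520 : Cell2 16000 8320 8480 7200 7520 :=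
  CellR2.fin c16000_8320_8480_7200_7520_f

theorem c16000_8320_8480_7520_8000 : Cell2 16000 8320 8480 7520 8000 :=
  CellR2.fin c16000_8320_8480_7520_8000_f

theorem c16000_8480_8800_0_4000 : Cell2 16000 8480 8800 0 4000 :=
  CellR2.fin c16000_8480_8800_0_4000_f

theorem c16000_8480_8640_4000_5120 : Cell2 16000 8480 8640 4000 5120 :=
  CellR2.fin c16000_8480_8640_4000_5120_f

theorem c16000_8480_8640_5120_5280 : Cell2 16000 8480 8640 5120 5280 :=
  CellR2.fin c16000_8480_8640_5120_5280_f

theorem c16000_8480_8640_5280_5440 : Cell2 16000 8480 8640 5280 5440 :=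
  CellR2.step (Good.chk c16000_8480_8640_5280_5440_s0) (by decide) (by decide)
    (CellR2.fin c16000_8480_8640_5280_5440_f)

theorem c16000_8480_8640_5440_5600 : Cell2 16000 8480 8640 5440 5600 :=
  CellR2.step (Good.chk c16000_8480_8640_5440_5600_s0) (by decide) (by decide)
    (CellR2.fin c16000_8480_8640_5440_5600_f)

theorem c16000_8480_8640_5600_5760 : Cell2 16000 8480 8640 5600 5760 :=
  CellR2.step (Good.chk c16000_8480_8640_5600_5760_s0) (by decide) (by decide)
    (CellR2.fin c16000_8480_8640_5600_5760_f)

theorem c16000_8480_8640_5760_5920 : Cell2 16000 8480 8640 5760 5920 :=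
  CellR2.step (Good.chk c16000_8480_8640_5760_5920_s0) (by decide) (by decide)
    (CellR2.step (Good.chk c16000_8480_8640_5760_5920_s1) (by decide) (by decide)
    (CellR2.fin c16000_8480_8640_5760_5920_f))

theorem c16000_8480_8640_5920_6080 : Cell2 16000 8480 8640 5920 6080 :=
  CellR2.step (Good.chk c16000_8480_8640_5920_6080_s0) (by decide) (by decide)
    (CellR2.step (Good.chk c16000_8480_8640_5920_6080_s1) (by decide) (by decide)
    (CellR2.step (Good.chk c16000_8480_8640_5920_6080_s2) (by decide) (by decide)
    (CellR2.fin c16000_8480_8640_5920_6080_f)))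

theorem c16000_8480_8640_6080_6240 : Cell2 16000 8480 8640 6080 6240 :=
  CellR2.step (Good.chk c16000_8480_8640_6080_6240_s0) (by decide) (by decide)
    (CellR2.step (Good.chk c16000_8480_8640_6080_6240_s1) (by decide) (by decide)
    (CellR2.step (Good.chk c16000_8480_8640_6080_6240_s2) (by decide) (by decide)
    (CellR2.fin c16000_8480_8640_6080_6240_f)))

theorem c16000_8480_8640_6240_6400 : Cell2 16000 8480 8640 6240 6400 :=
  CellR2.step (Good.chk c16000_8480_8640_6240_6400_s0) (by decide) (by decide)
    (CellR2.step (Good.chk c16000_8480_8640_6240_6400_s1) (by decide) (by decide)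
    (CellR2.step (Good.chk c16000_8480_8640_6240_6400_s2) (by decide) (by decide)
    (CellR2.step (Good.chk c16000_8480_8640_6240_6400_s3) (by decide) (by decide)
    (CellR2.fin c16000_8480_8640_6240_6400_f))))

theorem c16000_8480_8640_6400_6560 : Cell2 16000 8480 8640 6400 6560 :=
  CellR2.step (Good.chk c16000_8480_8640_6400_6560_s0) (by decide) (by decide)
    (CellR2.step (Good.chk c16000_8480_8640_6400_6560_s1) (by decide) (by decide)
    (CellR2.step (Good.chk c16000_8480_8640_6400_6560_s2) (by decide) (by decide)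
    (CellR2.step (Good.chk c16000_8480_8640_6400_6560_s3) (by decide) (by decide)
    (CellR2.fin c16000_8480_8640_6400_6560_f))))

theorem c16000_8480_8640_6560_6720 : Cell2 16000 8480 8640 6560 6720 :=
  CellR2.step (Good.chk c16000_8480_8640_6560_6720_s0) (by decide) (by decide)
    (CellR2.step (Good.chk c16000_8480_8640_6560_6720_s1) (by decide) (by decide)
    (CellR2.step (Good.chk c16000_8480_8640_6560_6720_s2) (by decide) (by decide)
    (CellR2.step (Good.chk c16000_8480_8640_6560_6720_s3) (by decide) (by decide)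
    (CellR2.step (Good.chk c16000_8480_8640_6560_6720_s4) (by decide) (by decide)
    (CellR2.fin c16000_8480_8640_6560_6720_f)))))

theorem c16000_8480_8640_6720_6880 : Cell2 16000 8480 8640 6720 6880 :=
  CellR2.step (Good.chk c16000_8480_8640_6720_6880_s0) (by decide) (by decide)
    (CellR2.fin c16000_8480_8640_6720_6880_f)

theorem c16000_8480_8640_6880_7040 : Cell2 16000 8480 8640 6880 7040 :=
  CellR2.step (Good.chk c16000_8480_8640_6880_7040_s0) (by decide) (by decide)
    (CellR2.fin c16000_8480_8640_6880_7040_f)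

theorem c16000_8480_8640_7040_7200 : Cell2 16000 8480 8640 7040 7200 :=
  CellR2.fin c16000_8480_8640_7040_7200_f

theorem c16000_8480_8640_7200_7360 : Cell2 16000 8480 8640 7200 7360 :=
  CellR2.fin c16000_8480_8640_7200_7360_f

theorem c16000_8480_8640_7360_7520 : Cell2 16000 8480 8640 7360 7520 :=
  CellR2.fin c16000_8480_8640_7360_7520_f

theorem c16000_8640_8800_4000_5120 : Cell2 16000 8640 8800 4000 5120 :=
  CellR2.fin c16000_8640_8800_4000_5120_f

theorem c16000_8640_8800_5120_5280 : Cell2 16000 8640 8800 5120 5280 :=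
  CellR2.fin c16000_8640_8800_5120_5280_f

theorem c16000_8640_8800_5280_5440 : Cell2 16000 8640 8800 5280 5440 :=
  CellR2.fin c16000_8640_8800_5280_5440_f

theorem c16000_8640_8800_5440_5600 : Cell2 16000 8640 8800 5440 5600 :=
  CellR2.step (Good.chk c16000_8640_8800_5440_5600_s0) (by decide) (by decide)
    (CellR2.fin c16000_8640_8800_5440_5600_f)

theorem c16000_8640_8800_5600_5760 : Cell2 16000 8640 8800 5600 5760 :=
  CellR2.step (Good.chk c16000_8640_8800_5600_5760_s0) (by decide) (by decide)
    (CellR2.fin c16000_8640_8800_5600_5760_f)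

theorem c16000_8640_8800_5760_5920 : Cell2 16000 8640 8800 5760 5920 :=
  CellR2.step (Good.chk c16000_8640_8800_5760_5920_s0) (by decide) (by decide)
    (CellR2.step (Good.chk c16000_8640_8800_5760_5920_s1) (by decide) (by decide)
    (CellR2.fin c16000_8640_8800_5760_5920_f))

theorem c16000_8640_8800_5920_6080 : Cell2 16000 8640 8800 5920 6080 :=
  CellR2.step (Good.chk c16000_8640_8800_5920_6080_s0) (by decide) (by decide)
    (CellR2.step (Good.chk c16000_8640_8800_5920_6080_s1) (by decide) (by decide)
    (CellR2.fin c16000_8640_8800_5920_6080_f))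

theorem c16000_8640_8800_6080_6240 : Cell2 16000 8640 8800 6080 6240 :=
  CellR2.step (Good.chk c16000_8640_8800_6080_6240_s0) (by decide) (by decide)
    (CellR2.step (Good.chk c16000_8640_8800_6080_6240_s1) (by decide) (by decide)
    (CellR2.step (Good.chk c16000_8640_8800_6080_6240_s2) (by decide) (by decide)
    (CellR2.fin c16000_8640_8800_6080_6240_f)))

theorem c16000_8640_8800_6240_6400 : Cell2 16000 8640 8800 6240 6400 :=
  CellR2.step (Good.chk c16000_8640_8800_6240_6400_s0) (by decide) (by decide)
    (CellR2.step (Good.chk c16000_8640_8800_6240_6400_s1) (by decide) (by decide)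
    (CellR2.step (Good.chk c16000_8640_8800_6240_6400_s2) (by decide) (by decide)
    (CellR2.step (Good.chk c16000_8640_8800_6240_6400_s3) (by decide) (by decide)
    (CellR2.fin c16000_8640_8800_6240_6400_f))))

theorem c16000_8640_8800_6400_6560 : Cell2 16000 8640 8800 6400 6560 :=
  CellR2.step (Good.chk c16000_8640_8800_6400_6560_s0) (by decide) (by decide)
    (CellR2.step (Good.chk c16000_8640_8800_6400_6560_s1) (by decide) (by decide)
    (CellR2.step (Good.chk c16000_8640_8800_6400_6560_s2) (by decide) (by decide)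
    (CellR2.step (Good.chk c16000_8640_8800_6400_6560_s3) (by decide) (by decide)
    (CellR2.step (Good.chk c16000_8640_8800_6400_6560_s4) (by decide) (by decide)
    (CellR2.fin c16000_8640_8800_6400_6560_f)))))

theorem c16000_8640_8800_6560_6720 : Cell2 16000 8640 8800 6560 6720 :=
  CellR2.step (Good.chk c16000_8640_8800_6560_6720_s0) (by decide) (by decide)
    (CellR2.step (Good.chk c16000_8640_8800_6560_6720_s1) (by decide) (by decide)
    (CellR2.step (Good.chk c16000_8640_8800_6560_6720_s2) (by decide) (by decide)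
    (CellR2.step (Good.chk c16000_8640_8800_6560_6720_s3) (by decide) (by decide)
    (CellR2.fin c16000_8640_8800_6560_6720_f))))

theorem c16000_8640_8800_6720_6880 : Cell2 16000 8640 8800 6720 6880 :=
  CellR2.step (Good.chk c16000_8640_8800_6720_6880_s0) (by decide) (by decide)
    (CellR2.fin c16000_8640_8800_6720_6880_f)

theorem c16000_8640_8800_6880_7040 : Cell2 16000 8640 8800 6880 7040 :=
  CellR2.step (Good.chk c16000_8640_8800_6880_7040_s0) (by decide) (by decide)
    (CellR2.fin c16000_8640_8800_6880_7040_f)

theorem c16000_8640_8800_7040_7200 : Cell2 16000 8640 8800 7040 7200 :=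
  CellR2.fin c16000_8640_8800_7040_7200_f

theorem c16000_8640_8800_7200_7360 : Cell2 16000 8640 8800 7200 7360 :=
  CellR2.fin c16000_8640_8800_7200_7360_f

theorem c16000_8800_9120_0_3680 : Cell2 16000 8800 9120 0 3680 :=
  CellR2.fin c16000_8800_9120_0_3680_f

theorem c16000_8800_8960_3680_4640 : Cell2 16000 8800 8960 3680 4640 :=
  CellR2.fin c16000_8800_8960_3680_4640_f

theorem c16000_8800_8960_4640_5120 : Cell2 16000 8800 8960 4640 5120 :=
  CellR2.fin c16000_8800_8960_4640_5120_f

theorem c16000_8800_8960_5120_5280 : Cell2 16000 8800 8960 5120 5280 :=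
  CellR2.fin c16000_8800_8960_5120_5280_f

theorem c16000_8800_8960_5280_5440 : Cell2 16000 8800 8960 5280 5440 :=
  CellR2.fin c16000_8800_8960_5280_5440_f

theorem c16000_8800_8960_5440_5600 : Cell2 16000 8800 8960 5440 5600 :=
  CellR2.step (Good.chk c16000_8800_8960_5440_5600_s0) (by decide) (by decide)
    (CellR2.fin c16000_8800_8960_5440_5600_f)

theorem c16000_8800_8960_5600_5760 : Cell2 16000 8800 8960 5600 5760 :=
  CellR2.step (Good.chk c16000_8800_8960_5600_5760_s0) (by decide) (by decide)
    (CellR2.fin c16000_8800_8960_5600_5760_f)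

theorem c16000_8800_8960_5760_5920 : Cell2 16000 8800 8960 5760 5920 :=
  CellR2.step (Good.chk c16000_8800_8960_5760_5920_s0) (by decide) (by decide)
    (CellR2.fin c16000_8800_8960_5760_5920_f)

theorem c16000_8800_8960_5920_6080 : Cell2 16000 8800 8960 5920 6080 :=
  CellR2.step (Good.chk c16000_8800_8960_5920_6080_s0) (by decide) (by decide)
    (CellR2.step (Good.chk c16000_8800_8960_5920_6080_s1) (by decide) (by decide)
    (CellR2.fin c16000_8800_8960_5920_6080_f))

theorem c16000_8800_8960_6080_6240 : Cell2 16000 8800 8960 6080 6240 :=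
  CellR2.step (Good.chk c16000_8800_8960_6080_6240_s0) (by decide) (by decide)
    (CellR2.step (Good.chk c16000_8800_8960_6080_6240_s1) (by decide) (by decide)
    (CellR2.step (Good.chk c16000_8800_8960_6080_6240_s2) (by decide) (by decide)
    (CellR2.fin c16000_8800_8960_6080_6240_f)))

theorem c16000_8800_8960_6240_6400 : Cell2 16000 8800 8960 6240 6400 :=
  CellR2.step (Good.chk c16000_8800_8960_6240_6400_s0) (by decide) (by decide)
    (CellR2.step (Good.chk c16000_8800_8960_6240_6400_s1) (by decide) (by decide)
    (CellR2.step (Good.chk c16000_8800_8960_6240_6400_s2) (by decide) (by decide)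
    (CellR2.step (Good.chk c16000_8800_8960_6240_6400_s3) (by decide) (by decide)
    (CellR2.fin c16000_8800_8960_6240_6400_f))))

theorem c16000_8800_8960_6400_6560 : Cell2 16000 8800 8960 6400 6560 :=
  CellR2.step (Good.chk c16000_8800_8960_6400_6560_s0) (by decide) (by decide)
    (CellR2.step (Good.chk c16000_8800_8960_6400_6560_s1) (by decide) (by decide)
    (CellR2.step (Good.chk c16000_8800_8960_6400_6560_s2) (by decide) (by decide)
    (CellR2.step (Good.chk c16000_8800_8960_6400_6560_s3) (by decide) (by decide)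
    (CellR2.step (Good.chk c16000_8800_8960_6400_6560_s4) (by decide) (by decide)
    (CellR2.fin c16000_8800_8960_6400_6560_f)))))

theorem c16000_8800_8960_6560_6720 : Cell2 16000 8800 8960 6560 6720 :=
  CellR2.step (Good.chk c16000_8800_8960_6560_6720_s0) (by decide) (by decide)
    (CellR2.step (Good.chk c16000_8800_8960_6560_6720_s1) (by decide) (by decide)
    (CellR2.step (Good.chk c16000_8800_8960_6560_6720_s2) (by decide) (by decide)
    (CellR2.step (Good.chk c16000_8800_8960_6560_6720_s3) (by decide) (by decide)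
    (CellR2.fin c16000_8800_8960_6560_6720_f))))

theorem c16000_8800_8960_6720_6880 : Cell2 16000 8800 8960 6720 6880 :=
  CellR2.step (Good.chk c16000_8800_8960_6720_6880_s0) (by decide) (by decide)
    (CellR2.fin c16000_8800_8960_6720_6880_f)

theorem c16000_8800_8960_6880_7040 : Cell2 16000 8800 8960 6880 7040 :=
  CellR2.step (Good.chk c16000_8800_8960_6880_7040_s0) (by decide) (by decide)
    (CellR2.fin c16000_8800_8960_6880_7040_f)

end Pool.Agent.Helper5.B54
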