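import Pool.Agent.Helper5.B54v2.T.A750

/-!
# Certificates
-/

namespace Pool.Agent.Helper5.B54

noncomputable section

def c16000_9120_9280_5760_5920_s0_d : List Nat := [0x11e9faea0ea3d3f5d60e91e9faea06c7a7ebaa0ec7a7ebaa1511e9faea3bc7a7ebaa0ec7a7ebaa1523d3f5d65f11e9faea02050017c6acdd180e54c8c7c6acdd180e54c8c80e54c8c83e1a108,
  0x7b000000800000007b000000800000008000000085000000,
  0x3b9aca0015773594005f7735940076018017d050f80800000007d050f8081fca05581fca05581fca055,
  0x362b0e7e5f773594005f2b4b9778208180001bbbf0fe005333d03a005333d044005333d010004197582a005333d0c4005333d03a005333d044001bbbf010007192382a001bdb315200418380081813b506d4e0ebb506d4e151afcea0e5f25f4fe442182023800000008000000080000000800000008000000086c561d0,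
  0x3a781f847f80800037ae781400128f80260037ae78440028a5c010003f32d02a0028a5c0c40037ae781400072f50260037ae7844000d8c9810006496002a000d8c98d800128f807a00369848081c11a7696087f450ee2b40ec50ee2b41524b746305f2f62f4e621828237f4413297f4413297f4413297f441329807d4890863e861f]

def c16000_9120_9280_5760_5920_s0_c : List Nat := [0x8234000000000104680829fd46400802383cf0022b0801bdfdd7e804021c00001f3d7e80010e08b820c580000003d09000001dcd6500012a012f23cb0502010e009468a3d3810087005054f1bf60804380000417b0800021c02f0808b841e78000008961e90001950d0f0382001600002363dfc000070000000000200d001d20f46002e4210c8000001b7acb8000070000000000200d011220dc4005c82000300000b2cafc0000381ecc800004e0bb100001c0000215c1e00000e0000000000401a0bd440c4600e740000010f46e80020e0000056db80000c701fa8000001fc2400006380000098c7800031c04a50000002571b80018e000000e0168000c7000005a2f3c00029a06f69210065800000f424000007735940008a85b21807ac0000000000200d0907a013b801c700000000000401a0ffb405bc0000000000080341a6e814300000000000100681eb504b40000001e84800000ee6b280011500b00]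

theorem c16000_9120_9280_5760_5920_s0 : chk2 true 16000 []
    ⟨1270, 2000, 2000, 768, 0, 0⟩ c16000_9120_9280_5760_5920_s0_d c16000_9120_9280_5760_5920_s0_c 0 9280 9120 9280 0 5920 5760 5920 0 1120 = true := by
  decide +kernel

def c16000_9120_9280_5760_5920_f_d : List Nat := [0x2cbc5ab97c2b5cd4017a0408001633a5f0001633a9e010627eea7ab3800000007fd1bf1e8000000081a047f380000000]

def c16000_9120_9280_5760_5920_f_c : List Nat := [0x6]

theorem c16000_9120_9280_5760_5920_f : chk2 false 16000 [⟨1270, 2000, 2000, 768, 0, 0⟩]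
    ⟨0, 0, 0, 0, 0, 0⟩ c16000_9120_9280_5760_5920_f_d c16000_9120_9280_5760_5920_f_c 0 0 9120 9280 0 0 5760 5920 0 0 = true := by
  decide +kernel

def c16000_9280_9440_5440_5760_f_d : List Nat := [0x113ed9ae5f113ed9ae5e810217e4683d5800000007e4683d58000000082963a4080000000]

def c16000_9280_9440_5440_5760_f_c : List Nat := [0x6]

theorem c16000_9280_9440_5440_5760_f : chk2 false 16000 []
    ⟨0, 0, 0, 0, 0, 0⟩ c16000_9280_9440_5440_5760_f_d c16000_9280_9440_5440_5760_f_c 0 0 9280 9440 0 0 5440 5760 0 0 = true := by
  decide +kernel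

def c16000_9280_9440_5760_5920_f_d : List Nat := [0x11745d185f11745d185e810217e4129e4800000007e4129e480000000829e412a80000000]

def c16000_9280_9440_5760_5920_f_c : List Nat := [0x6]

theorem c16000_9280_9440_5760_5920_f : chk2 false 16000 []
    ⟨0, 0, 0, 0, 0, 0⟩ c16000_9280_9440_5760_5920_f_d c16000_9280_9440_5760_5920_f_c 0 0 9280 9440 0 0 5760 5920 0 0 = true := by
  decide +kernel

def c16000_9440_9600_3680_5440_f_d : List Nat := [0x108d3dcc5f108d3dcc5e810217e58469f800000007e58469f80000000827b961280000000]

def c16000_9440_9600_3680_5440_f_c : List Nat := [0x6]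

theorem c16000_9440_9600_3680_5440_f : chk2 false 16000 []
    ⟨0, 0, 0, 0, 0, 0⟩ c16000_9440_9600_3680_5440_f_d c16000_9440_9600_3680_5440_f_c 0 0 9440 9600 0 0 3680 5440 0 0 = true := by
  decide +kernel

def c16000_9440_9600_5440_5920_f_d : List Nat := [0x108d3dcc5f108d3dcc5e810217e58469f800000007e58469f80000000827b961280000000]

def c16000_9440_9600_5440_5920_f_c : List Nat := [0x6]

theorem c16000_9440_9600_5440_5920_f : chk2 false 16000 []
    ⟨0, 0, 0, 0, 0, 0⟩ c16000_9440_9600_5440_5920_f_d c16000_9440_9600_5440_5920_f_c 0 0 9440 9600 0 0 5440 5920 0 0 = true := by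
  decide +kernel

end

end Pool.Agent.Helper5.B54
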