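import Pool.Agent.Helper5.B54v2.Cell2
import Pool.Agent.Helper5.B54v2.T.A754
import Pool.Agent.Helper5.B54v2.T.A755
import Pool.Agent.Helper5.B54v2.T.A756
import Pool.Agent.Helper5.B54v2.T.A757
import Pool.Agent.Helper5.B54v2.T.A758

/-!
# Cells
-/

namespace Pool.Agent.Helper5.B54

theorem c16000_8800_8960_7040_7200 : Cell2 16000 8800 8960 7040 7200 :=
  CellR2.fin c16000_8800_8960_7040_7200_f

theorem c16000_8960_9120_3680_5440 : Cell2 16000 8960 9120 3680 5440 :=
  CellR2.fin c16000_8960_9120_3680_5440_f

theorem c16000_8960_9120_5440_5600 : Cell2 16000 8960 9120 5440 5600 :=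
  CellR2.fin c16000_8960_9120_5440_5600_f

theorem c16000_8960_9120_5600_5760 : Cell2 16000 8960 9120 5600 5760 :=
  CellR2.step (Good.chk c16000_8960_9120_5600_5760_s0) (by decide) (by decide)
    (CellR2.fin c16000_8960_9120_5600_5760_f)

theorem c16000_8960_9120_5760_5920 : Cell2 16000 8960 9120 5760 5920 :=
  CellR2.step (Good.chk c16000_8960_9120_5760_5920_s0) (by decide) (by decide)
    (CellR2.fin c16000_8960_9120_5760_5920_f)

theorem c16000_8960_9120_5920_6080 : Cell2 16000 8960 9120 5920 6080 :=
  CellR2.step (Good.chk c16000_8960_9120_5920_6080_s0) (by decide) (by decide)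
    (CellR2.step (Good.chk c16000_8960_9120_5920_6080_s1) (by decide) (by decide)
    (CellR2.fin c16000_8960_9120_5920_6080_f))

theorem c16000_8960_9120_6080_6240 : Cell2 16000 8960 9120 6080 6240 :=
  CellR2.step (Good.chk c16000_8960_9120_6080_6240_s0) (by decide) (by decide)
    (CellR2.step (Good.chk c16000_8960_9120_6080_6240_s1) (by decide) (by decide)
    (CellR2.step (Good.chk c16000_8960_9120_6080_6240_s2) (by decide) (by decide)
    (CellR2.step (Good.chk c16000_8960_9120_6080_6240_s3) (by decide) (by decide)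
    (CellR2.fin c16000_8960_9120_6080_6240_f))))

theorem c16000_8960_9120_6240_6400 : Cell2 16000 8960 9120 6240 6400 :=
  CellR2.step (Good.chk c16000_8960_9120_6240_6400_s0) (by decide) (by decide)
    (CellR2.step (Good.chk c16000_8960_9120_6240_6400_s1) (by decide) (by decide)
    (CellR2.step (Good.chk c16000_8960_9120_6240_6400_s2) (by decide) (by decide)
    (CellR2.step (Good.chk c16000_8960_9120_6240_6400_s3) (by decide) (by decide)
    (CellR2.fin c16000_8960_9120_6240_6400_f))))

theorem c16000_8960_9120_6400_6560 : Cell2 16000 8960 9120 6400 6560 :=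
  CellR2.step (Good.chk c16000_8960_9120_6400_6560_s0) (by decide) (by decide)
    (CellR2.step (Good.chk c16000_8960_9120_6400_6560_s1) (by decide) (by decide)
    (CellR2.step (Good.chk c16000_8960_9120_6400_6560_s2) (by decide) (by decide)
    (CellR2.step (Good.chk c16000_8960_9120_6400_6560_s3) (by decide) (by decide)
    (CellR2.step (Good.chk c16000_8960_9120_6400_6560_s4) (by decide) (by decide)
    (CellR2.step (Good.chk c16000_8960_9120_6400_6560_s5) (by decide) (by decide)
    (CellR2.step (Good.chk c16000_8960_9120_6400_6560_s6) (by decide) (by decide)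
    (CellR2.fin c16000_8960_9120_6400_6560_f)))))))

theorem c16000_8960_9120_6560_6720 : Cell2 16000 8960 9120 6560 6720 :=
  CellR2.step (Good.chk c16000_8960_9120_6560_6720_s0) (by decide) (by decide)
    (CellR2.step (Good.chk c16000_8960_9120_6560_6720_s1) (by decide) (by decide)
    (CellR2.step (Good.chk c16000_8960_9120_6560_6720_s2) (by decide) (by decide)
    (CellR2.step (Good.chk c16000_8960_9120_6560_6720_s3) (by decide) (by decide)
    (CellR2.step (Good.chk c16000_8960_9120_6560_6720_s4) (by decide) (by decide)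
    (CellR2.fin c16000_8960_9120_6560_6720_f)))))

theorem c16000_8960_9120_6720_6880 : Cell2 16000 8960 9120 6720 6880 :=
  CellR2.step (Good.chk c16000_8960_9120_6720_6880_s0) (by decide) (by decide)
    (CellR2.fin c16000_8960_9120_6720_6880_f)

theorem c16000_8960_9120_6880_7040 : Cell2 16000 8960 9120 6880 7040 :=
  CellR2.step (Good.chk c16000_8960_9120_6880_7040_s0) (by decide) (by decide)
    (CellR2.fin c16000_8960_9120_6880_7040_f)

theorem c16000_9120_9600_0_3680 : Cell2 16000 9120 9600 0 3680 :=
  CellR2.fin c16000_9120_9600_0_3680_f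

theorem c16000_9120_9440_3680_5440 : Cell2 16000 9120 9440 3680 5440 :=
  CellR2.fin c16000_9120_9440_3680_5440_f

theorem c16000_9120_9280_5440_5600 : Cell2 16000 9120 9280 5440 5600 :=
  CellR2.fin c16000_9120_9280_5440_5600_f

theorem c16000_9120_9280_5600_5760 : Cell2 16000 9120 9280 5600 5760 :=
  CellR2.fin c16000_9120_9280_5600_5760_f

theorem c16000_9120_9280_5760_5920 : Cell2 16000 9120 9280 5760 5920 :=
  CellR2.step (Good.chk c16000_9120_9280_5760_5920_s0) (by decide) (by decide)
    (CellR2.fin c16000_9120_9280_5760_5920_f)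

theorem c16000_9280_9440_5440_5760 : Cell2 16000 9280 9440 5440 5760 :=
  CellR2.fin c16000_9280_9440_5440_5760_f

theorem c16000_9280_9440_5760_5920 : Cell2 16000 9280 9440 5760 5920 :=
  CellR2.fin c16000_9280_9440_5760_5920_f

theorem c16000_9440_9600_3680_5440 : Cell2 16000 9440 9600 3680 5440 :=
  CellR2.fin c16000_9440_9600_3680_5440_f

theorem c16000_9440_9600_5440_5920 : Cell2 16000 9440 9600 5440 5920 :=
  CellR2.fin c16000_9440_9600_5440_5920_f

end Pool.Agent.Helper5.B54
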