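import Pool.Agent.Helper5.B54v2.Cell2
import Pool.Agent.Helper5.B54v2.T.B000
import Pool.Agent.Helper5.B54v2.T.B001
import Pool.Agent.Helper5.B54v2.T.B002
import Pool.Agent.Helper5.B54v2.T.B003
import Pool.Agent.Helper5.B54v2.T.B004
import Pool.Agent.Helper5.B54v2.T.B005
import Pool.Agent.Helper5.B54v2.T.B006
import Pool.Agent.Helper5.B54v2.T.B007
import Pool.Agent.Helper5.B54v2.T.B008
import Pool.Agent.Helper5.B54v2.T.B009
import Pool.Agent.Helper5.B54v2.T.B010
import Pool.Agent.Helper5.B54v2.T.B011
import Pool.Agent.Helper5.B54v2.T.B012
import Pool.Agent.Helper5.B54v2.T.B013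
import Pool.Agent.Helper5.B54v2.T.B014
import Pool.Agent.Helper5.B54v2.T.B015
import Pool.Agent.Helper5.B54v2.T.B016
import Pool.Agent.Helper5.B54v2.T.B017
import Pool.Agent.Helper5.B54v2.T.B018
import Pool.Agent.Helper5.B54v2.T.B019
import Pool.Agent.Helper5.B54v2.T.B020
import Pool.Agent.Helper5.B54v2.T.B021
import Pool.Agent.Helper5.B54v2.T.B022
import Pool.Agent.Helper5.B54v2.T.B023
import Pool.Agent.Helper5.B54v2.T.B024
import Pool.Agent.Helper5.B54v2.T.B025
import Pool.Agent.Helper5.B54v2.T.B026
import Pool.Agent.Helper5.B54v2.T.B027
import Pool.Agent.Helper5.B54v2.T.B028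
import Pool.Agent.Helper5.B54v2.T.B029
import Pool.Agent.Helper5.B54v2.T.B030
import Pool.Agent.Helper5.B54v2.T.B031
import Pool.Agent.Helper5.B54v2.T.B032
import Pool.Agent.Helper5.B54v2.T.B033
import Pool.Agent.Helper5.B54v2.T.B034
import Pool.Agent.Helper5.B54v2.T.B035
import Pool.Agent.Helper5.B54v2.T.B036
import Pool.Agent.Helper5.B54v2.T.B037
import Pool.Agent.Helper5.B54v2.T.B038
import Pool.Agent.Helper5.B54v2.T.B039
import Pool.Agent.Helper5.B54v2.T.B040
import Pool.Agent.Helper5.B54v2.T.B041
import Pool.Agent.Helper5.B54v2.T.B042
import Pool.Agent.Helper5.B54v2.T.B043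
import Pool.Agent.Helper5.B54v2.T.B044
import Pool.Agent.Helper5.B54v2.T.B045
import Pool.Agent.Helper5.B54v2.T.B046
import Pool.Agent.Helper5.B54v2.T.B047
import Pool.Agent.Helper5.B54v2.T.B048
import Pool.Agent.Helper5.B54v2.T.B049
import Pool.Agent.Helper5.B54v2.T.B050
import Pool.Agent.Helper5.B54v2.T.B051
import Pool.Agent.Helper5.B54v2.T.B052
import Pool.Agent.Helper5.B54v2.T.B053
import Pool.Agent.Helper5.B54v2.T.B054
import Pool.Agent.Helper5.B54v2.T.B055
import Pool.Agent.Helper5.B54v2.T.B056
import Pool.Agent.Helper5.B54v2.T.B057
import Pool.Agent.Helper5.B54v2.T.B058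
import Pool.Agent.Helper5.B54v2.T.B059
import Pool.Agent.Helper5.B54v2.T.B060
import Pool.Agent.Helper5.B54v2.T.B061
import Pool.Agent.Helper5.B54v2.T.B062
import Pool.Agent.Helper5.B54v2.T.B063
import Pool.Agent.Helper5.B54v2.T.B064
import Pool.Agent.Helper5.B54v2.T.B065
import Pool.Agent.Helper5.B54v2.T.B066
import Pool.Agent.Helper5.B54v2.T.B067
import Pool.Agent.Helper5.B54v2.T.B068
import Pool.Agent.Helper5.B54v2.T.B069
import Pool.Agent.Helper5.B54v2.T.B070
import Pool.Agent.Helper5.B54v2.T.B071
import Pool.Agent.Helper5.B54v2.T.B072
import Pool.Agent.Helper5.B54v2.T.B073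
import Pool.Agent.Helper5.B54v2.T.B074
import Pool.Agent.Helper5.B54v2.T.B075
import Pool.Agent.Helper5.B54v2.T.B076
import Pool.Agent.Helper5.B54v2.T.B077
import Pool.Agent.Helper5.B54v2.T.B078
import Pool.Agent.Helper5.B54v2.T.B079
import Pool.Agent.Helper5.B54v2.T.B080
import Pool.Agent.Helper5.B54v2.T.B081
import Pool.Agent.Helper5.B54v2.T.B082
import Pool.Agent.Helper5.B54v2.T.B083
import Pool.Agent.Helper5.B54v2.T.B084
import Pool.Agent.Helper5.B54v2.T.B085
import Pool.Agent.Helper5.B54v2.T.B086
import Pool.Agent.Helper5.B54v2.T.B087
import Pool.Agent.Helper5.B54v2.T.B088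
import Pool.Agent.Helper5.B54v2.T.B089
import Pool.Agent.Helper5.B54v2.T.B090
import Pool.Agent.Helper5.B54v2.T.B091
import Pool.Agent.Helper5.B54v2.T.B092
import Pool.Agent.Helper5.B54v2.T.B093
import Pool.Agent.Helper5.B54v2.T.B094
import Pool.Agent.Helper5.B54v2.T.B095
import Pool.Agent.Helper5.B54v2.T.B096
import Pool.Agent.Helper5.B54v2.T.B097
import Pool.Agent.Helper5.B54v2.T.B098
import Pool.Agent.Helper5.B54v2.T.B099
import Pool.Agent.Helper5.B54v2.T.B100
import Pool.Agent.Helper5.B54v2.T.B101
import Pool.Agent.Helper5.B54v2.T.B102
import Pool.Agent.Helper5.B54v2.T.B103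
import Pool.Agent.Helper5.B54v2.T.B104
import Pool.Agent.Helper5.B54v2.T.B105
import Pool.Agent.Helper5.B54v2.T.B106
import Pool.Agent.Helper5.B54v2.T.B107
import Pool.Agent.Helper5.B54v2.T.B108
import Pool.Agent.Helper5.B54v2.T.B109
import Pool.Agent.Helper5.B54v2.T.B110
import Pool.Agent.Helper5.B54v2.T.B111
import Pool.Agent.Helper5.B54v2.T.B112
import Pool.Agent.Helper5.B54v2.T.B113
import Pool.Agent.Helper5.B54v2.T.B114
import Pool.Agent.Helper5.B54v2.T.B115
import Pool.Agent.Helper5.B54v2.T.B116
import Pool.Agent.Helper5.B54v2.T.B117
import Pool.Agent.Helper5.B54v2.T.B118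
import Pool.Agent.Helper5.B54v2.T.B119
import Pool.Agent.Helper5.B54v2.T.B120
import Pool.Agent.Helper5.B54v2.T.B121
import Pool.Agent.Helper5.B54v2.T.B122
import Pool.Agent.Helper5.B54v2.T.B123
import Pool.Agent.Helper5.B54v2.T.B124
import Pool.Agent.Helper5.B54v2.T.B125
import Pool.Agent.Helper5.B54v2.T.B126
import Pool.Agent.Helper5.B54v2.T.B127
import Pool.Agent.Helper5.B54v2.T.B128
import Pool.Agent.Helper5.B54v2.T.B129
import Pool.Agent.Helper5.B54v2.T.B130
import Pool.Agent.Helper5.B54v2.T.B131
import Pool.Agent.Helper5.B54v2.T.B132
import Pool.Agent.Helper5.B54v2.T.B133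
import Pool.Agent.Helper5.B54v2.T.B134
import Pool.Agent.Helper5.B54v2.T.B135
import Pool.Agent.Helper5.B54v2.T.B136
import Pool.Agent.Helper5.B54v2.T.B137
import Pool.Agent.Helper5.B54v2.T.B138
import Pool.Agent.Helper5.B54v2.T.B139
import Pool.Agent.Helper5.B54v2.T.B140
import Pool.Agent.Helper5.B54v2.T.B141
import Pool.Agent.Helper5.B54v2.T.B142
import Pool.Agent.Helper5.B54v2.T.B143
import Pool.Agent.Helper5.B54v2.T.B144
import Pool.Agent.Helper5.B54v2.T.B145
import Pool.Agent.Helper5.B54v2.T.B146
import Pool.Agent.Helper5.B54v2.T.B147
import Pool.Agent.Helper5.B54v2.T.B148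
import Pool.Agent.Helper5.B54v2.T.B149
import Pool.Agent.Helper5.B54v2.T.B150
import Pool.Agent.Helper5.B54v2.T.B151
import Pool.Agent.Helper5.B54v2.T.B152
import Pool.Agent.Helper5.B54v2.T.B153
import Pool.Agent.Helper5.B54v2.T.B154
import Pool.Agent.Helper5.B54v2.T.B155
import Pool.Agent.Helper5.B54v2.T.B156
import Pool.Agent.Helper5.B54v2.T.B157
import Pool.Agent.Helper5.B54v2.T.B158
import Pool.Agent.Helper5.B54v2.T.B159
import Pool.Agent.Helper5.B54v2.T.B160
import Pool.Agent.Helper5.B54v2.T.B161
import Pool.Agent.Helper5.B54v2.T.B162
import Pool.Agent.Helper5.B54v2.T.B163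
import Pool.Agent.Helper5.B54v2.T.B164
import Pool.Agent.Helper5.B54v2.T.B165
import Pool.Agent.Helper5.B54v2.T.B166
import Pool.Agent.Helper5.B54v2.T.B167
import Pool.Agent.Helper5.B54v2.T.B168
import Pool.Agent.Helper5.B54v2.T.B169
import Pool.Agent.Helper5.B54v2.T.B170
import Pool.Agent.Helper5.B54v2.T.B171
import Pool.Agent.Helper5.B54v2.T.B172
import Pool.Agent.Helper5.B54v2.T.B173
import Pool.Agent.Helper5.B54v2.T.B174
import Pool.Agent.Helper5.B54v2.T.B175
import Pool.Agent.Helper5.B54v2.T.B176
import Pool.Agent.Helper5.B54v2.T.B177
import Pool.Agent.Helper5.B54v2.T.B178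
import Pool.Agent.Helper5.B54v2.T.B179
import Pool.Agent.Helper5.B54v2.T.B180
import Pool.Agent.Helper5.B54v2.T.B181
import Pool.Agent.Helper5.B54v2.T.B182
import Pool.Agent.Helper5.B54v2.T.B183
import Pool.Agent.Helper5.B54v2.T.B184
import Pool.Agent.Helper5.B54v2.T.B185
import Pool.Agent.Helper5.B54v2.T.B186
import Pool.Agent.Helper5.B54v2.T.B187
import Pool.Agent.Helper5.B54v2.T.B188
import Pool.Agent.Helper5.B54v2.T.B189
import Pool.Agent.Helper5.B54v2.T.B190
import Pool.Agent.Helper5.B54v2.T.B191
import Pool.Agent.Helper5.B54v2.T.B192
import Pool.Agent.Helper5.B54v2.T.B193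
import Pool.Agent.Helper5.B54v2.T.B194
import Pool.Agent.Helper5.B54v2.T.B195
import Pool.Agent.Helper5.B54v2.T.B196
import Pool.Agent.Helper5.B54v2.T.B197
import Pool.Agent.Helper5.B54v2.T.B198
import Pool.Agent.Helper5.B54v2.T.B199
import Pool.Agent.Helper5.B54v2.T.B200
import Pool.Agent.Helper5.B54v2.T.B201
import Pool.Agent.Helper5.B54v2.T.B202
import Pool.Agent.Helper5.B54v2.T.B203
import Pool.Agent.Helper5.B54v2.T.B204
import Pool.Agent.Helper5.B54v2.T.B205
import Pool.Agent.Helper5.B54v2.T.B206
import Pool.Agent.Helper5.B54v2.T.B207
import Pool.Agent.Helper5.B54v2.T.B208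
import Pool.Agent.Helper5.B54v2.T.B209
import Pool.Agent.Helper5.B54v2.T.B210
import Pool.Agent.Helper5.B54v2.T.B211
import Pool.Agent.Helper5.B54v2.T.B212
import Pool.Agent.Helper5.B54v2.T.B213
import Pool.Agent.Helper5.B54v2.T.B214
import Pool.Agent.Helper5.B54v2.T.B215
import Pool.Agent.Helper5.B54v2.T.B216
import Pool.Agent.Helper5.B54v2.T.B217
import Pool.Agent.Helper5.B54v2.T.B218
import Pool.Agent.Helper5.B54v2.T.B219
import Pool.Agent.Helper5.B54v2.T.B220
import Pool.Agent.Helper5.B54v2.T.B221
import Pool.Agent.Helper5.B54v2.T.B222
import Pool.Agent.Helper5.B54v2.T.B223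
import Pool.Agent.Helper5.B54v2.T.B224
import Pool.Agent.Helper5.B54v2.T.B225
import Pool.Agent.Helper5.B54v2.T.B226
import Pool.Agent.Helper5.B54v2.T.B227
import Pool.Agent.Helper5.B54v2.T.B228
import Pool.Agent.Helper5.B54v2.T.B229
import Pool.Agent.Helper5.B54v2.T.B230
import Pool.Agent.Helper5.B54v2.T.B231
import Pool.Agent.Helper5.B54v2.T.B232
import Pool.Agent.Helper5.B54v2.T.B233
import Pool.Agent.Helper5.B54v2.T.B234
import Pool.Agent.Helper5.B54v2.T.B235
import Pool.Agent.Helper5.B54v2.T.B236
import Pool.Agent.Helper5.B54v2.T.B237
import Pool.Agent.Helper5.B54v2.T.B238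
import Pool.Agent.Helper5.B54v2.T.B239
import Pool.Agent.Helper5.B54v2.T.B240
import Pool.Agent.Helper5.B54v2.T.B241
import Pool.Agent.Helper5.B54v2.T.B242
import Pool.Agent.Helper5.B54v2.T.B243
import Pool.Agent.Helper5.B54v2.T.B244
import Pool.Agent.Helper5.B54v2.T.B245
import Pool.Agent.Helper5.B54v2.T.B246
import Pool.Agent.Helper5.B54v2.T.B247
import Pool.Agent.Helper5.B54v2.T.B248
import Pool.Agent.Helper5.B54v2.T.B249
import Pool.Agent.Helper5.B54v2.T.B250
import Pool.Agent.Helper5.B54v2.T.B251
import Pool.Agent.Helper5.B54v2.T.B252
import Pool.Agent.Helper5.B54v2.T.B253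
import Pool.Agent.Helper5.B54v2.T.B254
import Pool.Agent.Helper5.B54v2.T.B255
import Pool.Agent.Helper5.B54v2.T.B256
import Pool.Agent.Helper5.B54v2.T.B257
import Pool.Agent.Helper5.B54v2.T.B258
import Pool.Agent.Helper5.B54v2.T.B259
import Pool.Agent.Helper5.B54v2.T.B260
import Pool.Agent.Helper5.B54v2.T.B261
import Pool.Agent.Helper5.B54v2.T.B262
import Pool.Agent.Helper5.B54v2.T.B263
import Pool.Agent.Helper5.B54v2.T.B264
import Pool.Agent.Helper5.B54v2.T.B265
import Pool.Agent.Helper5.B54v2.T.B266
import Pool.Agent.Helper5.B54v2.T.B267
import Pool.Agent.Helper5.B54v2.T.B268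
import Pool.Agent.Helper5.B54v2.T.B269
import Pool.Agent.Helper5.B54v2.T.B270
import Pool.Agent.Helper5.B54v2.T.B271
import Pool.Agent.Helper5.B54v2.T.B272
import Pool.Agent.Helper5.B54v2.T.B273
import Pool.Agent.Helper5.B54v2.T.B274
import Pool.Agent.Helper5.B54v2.T.B275
import Pool.Agent.Helper5.B54v2.T.B276
import Pool.Agent.Helper5.B54v2.T.B277
import Pool.Agent.Helper5.B54v2.T.B278
import Pool.Agent.Helper5.B54v2.T.B279
import Pool.Agent.Helper5.B54v2.T.B280
import Pool.Agent.Helper5.B54v2.T.B281
import Pool.Agent.Helper5.B54v2.T.B282
import Pool.Agent.Helper5.B54v2.T.B283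
import Pool.Agent.Helper5.B54v2.T.B284
import Pool.Agent.Helper5.B54v2.T.B285
import Pool.Agent.Helper5.B54v2.T.B286
import Pool.Agent.Helper5.B54v2.T.B287
import Pool.Agent.Helper5.B54v2.T.B288
import Pool.Agent.Helper5.B54v2.T.B289
import Pool.Agent.Helper5.B54v2.T.B290
import Pool.Agent.Helper5.B54v2.T.B291
import Pool.Agent.Helper5.B54v2.T.B292
import Pool.Agent.Helper5.B54v2.T.B293
import Pool.Agent.Helper5.B54v2.T.B294
import Pool.Agent.Helper5.B54v2.T.B295
import Pool.Agent.Helper5.B54v2.T.B296
import Pool.Agent.Helper5.B54v2.T.B297
import Pool.Agent.Helper5.B54v2.T.B298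
import Pool.Agent.Helper5.B54v2.T.B299
import Pool.Agent.Helper5.B54v2.T.B300
import Pool.Agent.Helper5.B54v2.T.B301
import Pool.Agent.Helper5.B54v2.T.B302
import Pool.Agent.Helper5.B54v2.T.B303
import Pool.Agent.Helper5.B54v2.T.B304
import Pool.Agent.Helper5.B54v2.T.B305
import Pool.Agent.Helper5.B54v2.T.B306
import Pool.Agent.Helper5.B54v2.T.B307
import Pool.Agent.Helper5.B54v2.T.B308
import Pool.Agent.Helper5.B54v2.T.B309
import Pool.Agent.Helper5.B54v2.T.B310
import Pool.Agent.Helper5.B54v2.T.B311
import Pool.Agent.Helper5.B54v2.T.B312
import Pool.Agent.Helper5.B54v2.T.B313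
import Pool.Agent.Helper5.B54v2.T.B314
import Pool.Agent.Helper5.B54v2.T.B315
import Pool.Agent.Helper5.B54v2.T.B316
import Pool.Agent.Helper5.B54v2.T.B317
import Pool.Agent.Helper5.B54v2.T.B318
import Pool.Agent.Helper5.B54v2.T.B319
import Pool.Agent.Helper5.B54v2.T.B320
import Pool.Agent.Helper5.B54v2.T.B321
import Pool.Agent.Helper5.B54v2.T.B322
import Pool.Agent.Helper5.B54v2.T.B323
import Pool.Agent.Helper5.B54v2.T.B324
import Pool.Agent.Helper5.B54v2.T.B325
import Pool.Agent.Helper5.B54v2.T.B326
import Pool.Agent.Helper5.B54v2.T.B327
import Pool.Agent.Helper5.B54v2.T.B328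
import Pool.Agent.Helper5.B54v2.T.B329
import Pool.Agent.Helper5.B54v2.T.B330
import Pool.Agent.Helper5.B54v2.T.B331
import Pool.Agent.Helper5.B54v2.T.B332
import Pool.Agent.Helper5.B54v2.T.B333
import Pool.Agent.Helper5.B54v2.T.B334
import Pool.Agent.Helper5.B54v2.T.B335
import Pool.Agent.Helper5.B54v2.T.B336
import Pool.Agent.Helper5.B54v2.T.B337
import Pool.Agent.Helper5.B54v2.T.B338
import Pool.Agent.Helper5.B54v2.T.B339
import Pool.Agent.Helper5.B54v2.T.B340
import Pool.Agent.Helper5.B54v2.T.B341
import Pool.Agent.Helper5.B54v2.T.B342
import Pool.Agent.Helper5.B54v2.T.B343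
import Pool.Agent.Helper5.B54v2.T.B344
import Pool.Agent.Helper5.B54v2.T.B345
import Pool.Agent.Helper5.B54v2.T.B346
import Pool.Agent.Helper5.B54v2.T.B347
import Pool.Agent.Helper5.B54v2.T.B348
import Pool.Agent.Helper5.B54v2.T.B349

/-!
# Cells
-/

namespace Pool.Agent.Helper5.B54

theorem c16000_6720_6800_6240_6320 : Cell2 16000 6720 6800 6240 6320 :=
  CellR2.step (Good.chk c16000_6720_6800_6240_6320_s0) (by decide) (by decide)
    (CellR2.step (Good.chk c16000_6720_6800_6240_6320_s1) (by decide) (by decide)
    (CellR2.step (Good.chk c16000_6720_6800_6240_6320_s2) (by decide) (by decide)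
    (CellR2.step (Good.chk c16000_6720_6800_6240_6320_s3) (by decide) (by decide)
    (CellR2.step (Good.chk c16000_6720_6800_6240_6320_s4) (by decide) (by decide)
    (CellR2.step (Good.chk c16000_6720_6800_6240_6320_s5) (by decide) (by decide)
    (CellR2.step (Good.chk c16000_6720_6800_6240_6320_s6) (by decide) (by decide)
    (CellR2.step (Good.chk c16000_6720_6800_6240_6320_s7) (by decide) (by decide)
    (CellR2.step (Good.chk c16000_6720_6800_6240_6320_s8) (by decide) (by decide)
    (CellR2.step (Good.chk c16000_6720_6800_6240_6320_s9) (by decide) (by decide)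
    (CellR2.step (Good.chk c16000_6720_6800_6240_6320_s10) (by decide) (by decide)
    (CellR2.step (Good.chk c16000_6720_6800_6240_6320_s11) (by decide) (by decide)
    (CellR2.step (Good.chk c16000_6720_6800_6240_6320_s12) (by decide) (by decide)
    (CellR2.step (Good.chk c16000_6720_6800_6240_6320_s13) (by decide) (by decide)
    (CellR2.step (Good.chk c16000_6720_6800_6240_6320_s14) (by decide) (by decide)
    (CellR2.step (Good.chk c16000_6720_6800_6240_6320_s15) (by decide) (by decide)
    (CellR2.step (Good.chk c16000_6720_6800_6240_6320_s16) (by decide) (by decide)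
    (CellR2.step (Good.chk c16000_6720_6800_6240_6320_s17) (by decide) (by decide)
    (CellR2.fin c16000_6720_6800_6240_6320_f))))))))))))))))))

theorem c16000_6720_6800_6320_6400 : Cell2 16000 6720 6800 6320 6400 :=
  CellR2.step (Good.chk c16000_6720_6800_6320_6400_s0) (by decide) (by decide)
    (CellR2.step (Good.chk c16000_6720_6800_6320_6400_s1) (by decide) (by decide)
    (CellR2.step (Good.chk c16000_6720_6800_6320_6400_s2) (by decide) (by decide)
    (CellR2.step (Good.chk c16000_6720_6800_6320_6400_s3) (by decide) (by decide)
    (CellR2.step (Good.chk c16000_6720_6800_6320_6400_s4) (by decide) (by decide)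
    (CellR2.step (Good.chk c16000_6720_6800_6320_6400_s5) (by decide) (by decide)
    (CellR2.step (Good.chk c16000_6720_6800_6320_6400_s6) (by decide) (by decide)
    (CellR2.step (Good.chk c16000_6720_6800_6320_6400_s7) (by decide) (by decide)
    (CellR2.step (Good.chk c16000_6720_6800_6320_6400_s8) (by decide) (by decide)
    (CellR2.step (Good.chk c16000_6720_6800_6320_6400_s9) (by decide) (by decide)
    (CellR2.step (Good.chk c16000_6720_6800_6320_6400_s10) (by decide) (by decide)
    (CellR2.step (Good.chk c16000_6720_6800_6320_6400_s11) (by decide) (by decide)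
    (CellR2.fin c16000_6720_6800_6320_6400_f))))))))))))

theorem c16000_6720_6800_6400_6480 : Cell2 16000 6720 6800 6400 6480 :=
  CellR2.step (Good.chk c16000_6720_6800_6400_6480_s0) (by decide) (by decide)
    (CellR2.step (Good.chk c16000_6720_6800_6400_6480_s1) (by decide) (by decide)
    (CellR2.step (Good.chk c16000_6720_6800_6400_6480_s2) (by decide) (by decide)
    (CellR2.step (Good.chk c16000_6720_6800_6400_6480_s3) (by decide) (by decide)
    (CellR2.step (Good.chk c16000_6720_6800_6400_6480_s4) (by decide) (by decide)
    (CellR2.step (Good.chk c16000_6720_6800_6400_6480_s5) (by decide) (by decide)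
    (CellR2.step (Good.chk c16000_6720_6800_6400_6480_s6) (by decide) (by decide)
    (CellR2.step (Good.chk c16000_6720_6800_6400_6480_s7) (by decide) (by decide)
    (CellR2.step (Good.chk c16000_6720_6800_6400_6480_s8) (by decide) (by decide)
    (CellR2.step (Good.chk c16000_6720_6800_6400_6480_s9) (by decide) (by decide)
    (CellR2.step (Good.chk c16000_6720_6800_6400_6480_s10) (by decide) (by decide)
    (CellR2.step (Good.chk c16000_6720_6800_6400_6480_s11) (by decide) (by decide)
    (CellR2.step (Good.chk c16000_6720_6800_6400_6480_s12) (by decide) (by decide)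
    (CellR2.step (Good.chk c16000_6720_6800_6400_6480_s13) (by decide) (by decide)
    (CellR2.step (Good.chk c16000_6720_6800_6400_6480_s14) (by decide) (by decide)
    (CellR2.step (Good.chk c16000_6720_6800_6400_6480_s15) (by decide) (by decide)
    (CellR2.step (Good.chk c16000_6720_6800_6400_6480_s16) (by decide) (by decide)
    (CellR2.step (Good.chk c16000_6720_6800_6400_6480_s17) (by decide) (by decide)
    (CellR2.fin c16000_6720_6800_6400_6480_f))))))))))))))))))

theorem c16000_6720_6800_6480_6560 : Cell2 16000 6720 6800 6480 6560 :=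
  CellR2.step (Good.chk c16000_6720_6800_6480_6560_s0) (by decide) (by decide)
    (CellR2.step (Good.chk c16000_6720_6800_6480_6560_s1) (by decide) (by decide)
    (CellR2.step (Good.chk c16000_6720_6800_6480_6560_s2) (by decide) (by decide)
    (CellR2.step (Good.chk c16000_6720_6800_6480_6560_s3) (by decide) (by decide)
    (CellR2.step (Good.chk c16000_6720_6800_6480_6560_s4) (by decide) (by decide)
    (CellR2.step (Good.chk c16000_6720_6800_6480_6560_s5) (by decide) (by decide)
    (CellR2.step (Good.chk c16000_6720_6800_6480_6560_s6) (by decide) (by decide)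
    (CellR2.step (Good.chk c16000_6720_6800_6480_6560_s7) (by decide) (by decide)
    (CellR2.step (Good.chk c16000_6720_6800_6480_6560_s8) (by decide) (by decide)
    (CellR2.step (Good.chk c16000_6720_6800_6480_6560_s9) (by decide) (by decide)
    (CellR2.step (Good.chk c16000_6720_6800_6480_6560_s10) (by decide) (by decide)
    (CellR2.fin c16000_6720_6800_6480_6560_f)))))))))))

theorem c16000_6800_6880_6240_6320 : Cell2 16000 6800 6880 6240 6320 :=
  CellR2.step (Good.chk c16000_6800_6880_6240_6320_s0) (by decide) (by decide)
    (CellR2.step (Good.chk c16000_6800_6880_6240_6320_s1) (by decide) (by decide)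
    (CellR2.step (Good.chk c16000_6800_6880_6240_6320_s2) (by decide) (by decide)
    (CellR2.step (Good.chk c16000_6800_6880_6240_6320_s3) (by decide) (by decide)
    (CellR2.step (Good.chk c16000_6800_6880_6240_6320_s4) (by decide) (by decide)
    (CellR2.step (Good.chk c16000_6800_6880_6240_6320_s5) (by decide) (by decide)
    (CellR2.step (Good.chk c16000_6800_6880_6240_6320_s6) (by decide) (by decide)
    (CellR2.step (Good.chk c16000_6800_6880_6240_6320_s7) (by decide) (by decide)
    (CellR2.step (Good.chk c16000_6800_6880_6240_6320_s8) (by decide) (by decide)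
    (CellR2.step (Good.chk c16000_6800_6880_6240_6320_s9) (by decide) (by decide)
    (CellR2.step (Good.chk c16000_6800_6880_6240_6320_s10) (by decide) (by decide)
    (CellR2.step (Good.chk c16000_6800_6880_6240_6320_s11) (by decide) (by decide)
    (CellR2.step (Good.chk c16000_6800_6880_6240_6320_s12) (by decide) (by decide)
    (CellR2.step (Good.chk c16000_6800_6880_6240_6320_s13) (by decide) (by decide)
    (CellR2.step (Good.chk c16000_6800_6880_6240_6320_s14) (by decide) (by decide)
    (CellR2.step (Good.chk c16000_6800_6880_6240_6320_s15) (by decide) (by decide)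
    (CellR2.step (Good.chk c16000_6800_6880_6240_6320_s16) (by decide) (by decide)
    (CellR2.step (Good.chk c16000_6800_6880_6240_6320_s17) (by decide) (by decide)
    (CellR2.step (Good.chk c16000_6800_6880_6240_6320_s18) (by decide) (by decide)
    (CellR2.step (Good.chk c16000_6800_6880_6240_6320_s19) (by decide) (by decide)
    (CellR2.step (Good.chk c16000_6800_6880_6240_6320_s20) (by decide) (by decide)
    (CellR2.step (Good.chk c16000_6800_6880_6240_6320_s21) (by decide) (by decide)
    (CellR2.step (Good.chk c16000_6800_6880_6240_6320_s22) (by decide) (by decide)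
    (CellR2.fin c16000_6800_6880_6240_6320_f)))))))))))))))))))))))

theorem c16000_6800_6880_6320_6400 : Cell2 16000 6800 6880 6320 6400 :=
  CellR2.step (Good.chk c16000_6800_6880_6320_6400_s0) (by decide) (by decide)
    (CellR2.step (Good.chk c16000_6800_6880_6320_6400_s1) (by decide) (by decide)
    (CellR2.step (Good.chk c16000_6800_6880_6320_6400_s2) (by decide) (by decide)
    (CellR2.step (Good.chk c16000_6800_6880_6320_6400_s3) (by decide) (by decide)
    (CellR2.step (Good.chk c16000_6800_6880_6320_6400_s4) (by decide) (by decide)
    (CellR2.step (Good.chk c16000_6800_6880_6320_6400_s5) (by decide) (by decide)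
    (CellR2.step (Good.chk c16000_6800_6880_6320_6400_s6) (by decide) (by decide)
    (CellR2.step (Good.chk c16000_6800_6880_6320_6400_s7) (by decide) (by decide)
    (CellR2.step (Good.chk c16000_6800_6880_6320_6400_s8) (by decide) (by decide)
    (CellR2.step (Good.chk c16000_6800_6880_6320_6400_s9) (by decide) (by decide)
    (CellR2.step (Good.chk c16000_6800_6880_6320_6400_s10) (by decide) (by decide)
    (CellR2.step (Good.chk c16000_6800_6880_6320_6400_s11) (by decide) (by decide)
    (CellR2.step (Good.chk c16000_6800_6880_6320_6400_s12) (by decide) (by decide)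
    (CellR2.step (Good.chk c16000_6800_6880_6320_6400_s13) (by decide) (by decide)
    (CellR2.step (Good.chk c16000_6800_6880_6320_6400_s14) (by decide) (by decide)
    (CellR2.step (Good.chk c16000_6800_6880_6320_6400_s15) (by decide) (by decide)
    (CellR2.step (Good.chk c16000_6800_6880_6320_6400_s16) (by decide) (by decide)
    (CellR2.step (Good.chk c16000_6800_6880_6320_6400_s17) (by decide) (by decide)
    (CellR2.step (Good.chk c16000_6800_6880_6320_6400_s18) (by decide) (by decide)
    (CellR2.step (Good.chk c16000_6800_6880_6320_6400_s19) (by decide) (by decide)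
    (CellR2.step (Good.chk c16000_6800_6880_6320_6400_s20) (by decide) (by decide)
    (CellR2.step (Good.chk c16000_6800_6880_6320_6400_s21) (by decide) (by decide)
    (CellR2.step (Good.chk c16000_6800_6880_6320_6400_s22) (by decide) (by decide)
    (CellR2.step (Good.chk c16000_6800_6880_6320_6400_s23) (by decide) (by decide)
    (CellR2.step (Good.chk c16000_6800_6880_6320_6400_s24) (by decide) (by decide)
    (CellR2.step (Good.chk c16000_6800_6880_6320_6400_s25) (by decide) (by decide)
    (CellR2.step (Good.chk c16000_6800_6880_6320_6400_s26) (by decide) (by decide)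
    (CellR2.fin c16000_6800_6880_6320_6400_f)))))))))))))))))))))))))))

theorem c16000_6800_6880_6400_6480 : Cell2 16000 6800 6880 6400 6480 :=
  CellR2.step (Good.chk c16000_6800_6880_6400_6480_s0) (by decide) (by decide)
    (CellR2.step (Good.chk c16000_6800_6880_6400_6480_s1) (by decide) (by decide)
    (CellR2.step (Good.chk c16000_6800_6880_6400_6480_s2) (by decide) (by decide)
    (CellR2.step (Good.chk c16000_6800_6880_6400_6480_s3) (by decide) (by decide)
    (CellR2.step (Good.chk c16000_6800_6880_6400_6480_s4) (by decide) (by decide)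
    (CellR2.step (Good.chk c16000_6800_6880_6400_6480_s5) (by decide) (by decide)
    (CellR2.step (Good.chk c16000_6800_6880_6400_6480_s6) (by decide) (by decide)
    (CellR2.step (Good.chk c16000_6800_6880_6400_6480_s7) (by decide) (by decide)
    (CellR2.step (Good.chk c16000_6800_6880_6400_6480_s8) (by decide) (by decide)
    (CellR2.step (Good.chk c16000_6800_6880_6400_6480_s9) (by decide) (by decide)
    (CellR2.step (Good.chk c16000_6800_6880_6400_6480_s10) (by decide) (by decide)
    (CellR2.step (Good.chk c16000_6800_6880_6400_6480_s11) (by decide) (by decide)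
    (CellR2.step (Good.chk c16000_6800_6880_6400_6480_s12) (by decide) (by decide)
    (CellR2.step (Good.chk c16000_6800_6880_6400_6480_s13) (by decide) (by decide)
    (CellR2.step (Good.chk c16000_6800_6880_6400_6480_s14) (by decide) (by decide)
    (CellR2.step (Good.chk c16000_6800_6880_6400_6480_s15) (by decide) (by decide)
    (CellR2.step (Good.chk c16000_6800_6880_6400_6480_s16) (by decide) (by decide)
    (CellR2.step (Good.chk c16000_6800_6880_6400_6480_s17) (by decide) (by decide)
    (CellR2.step (Good.chk c16000_6800_6880_6400_6480_s18) (by decide) (by decide)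
    (CellR2.step (Good.chk c16000_6800_6880_6400_6480_s19) (by decide) (by decide)
    (CellR2.step (Good.chk c16000_6800_6880_6400_6480_s20) (by decide) (by decide)
    (CellR2.step (Good.chk c16000_6800_6880_6400_6480_s21) (by decide) (by decide)
    (CellR2.fin c16000_6800_6880_6400_6480_f))))))))))))))))))))))

theorem c16000_6800_6880_6480_6560 : Cell2 16000 6800 6880 6480 6560 :=
  CellR2.step (Good.chk c16000_6800_6880_6480_6560_s0) (by decide) (by decide)
    (CellR2.step (Good.chk c16000_6800_6880_6480_6560_s1) (by decide) (by decide)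
    (CellR2.step (Good.chk c16000_6800_6880_6480_6560_s2) (by decide) (by decide)
    (CellR2.step (Good.chk c16000_6800_6880_6480_6560_s3) (by decide) (by decide)
    (CellR2.step (Good.chk c16000_6800_6880_6480_6560_s4) (by decide) (by decide)
    (CellR2.step (Good.chk c16000_6800_6880_6480_6560_s5) (by decide) (by decide)
    (CellR2.step (Good.chk c16000_6800_6880_6480_6560_s6) (by decide) (by decide)
    (CellR2.step (Good.chk c16000_6800_6880_6480_6560_s7) (by decide) (by decide)
    (CellR2.step (Good.chk c16000_6800_6880_6480_6560_s8) (by decide) (by decide)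
    (CellR2.step (Good.chk c16000_6800_6880_6480_6560_s9) (by decide) (by decide)
    (CellR2.step (Good.chk c16000_6800_6880_6480_6560_s10) (by decide) (by decide)
    (CellR2.step (Good.chk c16000_6800_6880_6480_6560_s11) (by decide) (by decide)
    (CellR2.step (Good.chk c16000_6800_6880_6480_6560_s12) (by decide) (by decide)
    (CellR2.step (Good.chk c16000_6800_6880_6480_6560_s13) (by decide) (by decide)
    (CellR2.step (Good.chk c16000_6800_6880_6480_6560_s14) (by decide) (by decide)
    (CellR2.step (Good.chk c16000_6800_6880_6480_6560_s15) (by decide) (by decide)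
    (CellR2.step (Good.chk c16000_6800_6880_6480_6560_s16) (by decide) (by decide)
    (CellR2.step (Good.chk c16000_6800_6880_6480_6560_s17) (by decide) (by decide)
    (CellR2.fin c16000_6800_6880_6480_6560_f))))))))))))))))))

theorem c16000_6880_6960_6080_6160 : Cell2 16000 6880 6960 6080 6160 :=
  CellR2.step (Good.chk c16000_6880_6960_6080_6160_s0) (by decide) (by decide)
    (CellR2.step (Good.chk c16000_6880_6960_6080_6160_s1) (by decide) (by decide)
    (CellR2.step (Good.chk c16000_6880_6960_6080_6160_s2) (by decide) (by decide)
    (CellR2.step (Good.chk c16000_6880_6960_6080_6160_s3) (by decide) (by decide)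
    (CellR2.step (Good.chk c16000_6880_6960_6080_6160_s4) (by decide) (by decide)
    (CellR2.step (Good.chk c16000_6880_6960_6080_6160_s5) (by decide) (by decide)
    (CellR2.step (Good.chk c16000_6880_6960_6080_6160_s6) (by decide) (by decide)
    (CellR2.step (Good.chk c16000_6880_6960_6080_6160_s7) (by decide) (by decide)
    (CellR2.step (Good.chk c16000_6880_6960_6080_6160_s8) (by decide) (by decide)
    (CellR2.step (Good.chk c16000_6880_6960_6080_6160_s9) (by decide) (by decide)
    (CellR2.step (Good.chk c16000_6880_6960_6080_6160_s10) (by decide) (by decide)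
    (CellR2.step (Good.chk c16000_6880_6960_6080_6160_s11) (by decide) (by decide)
    (CellR2.step (Good.chk c16000_6880_6960_6080_6160_s12) (by decide) (by decide)
    (CellR2.step (Good.chk c16000_6880_6960_6080_6160_s13) (by decide) (by decide)
    (CellR2.step (Good.chk c16000_6880_6960_6080_6160_s14) (by decide) (by decide)
    (CellR2.step (Good.chk c16000_6880_6960_6080_6160_s15) (by decide) (by decide)
    (CellR2.step (Good.chk c16000_6880_6960_6080_6160_s16) (by decide) (by decide)
    (CellR2.step (Good.chk c16000_6880_6960_6080_6160_s17) (by decide) (by decide)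
    (CellR2.fin c16000_6880_6960_6080_6160_f))))))))))))))))))

theorem c16000_6880_6960_6160_6240 : Cell2 16000 6880 6960 6160 6240 :=
  CellR2.step (Good.chk c16000_6880_6960_6160_6240_s0) (by decide) (by decide)
    (CellR2.step (Good.chk c16000_6880_6960_6160_6240_s1) (by decide) (by decide)
    (CellR2.step (Good.chk c16000_6880_6960_6160_6240_s2) (by decide) (by decide)
    (CellR2.step (Good.chk c16000_6880_6960_6160_6240_s3) (by decide) (by decide)
    (CellR2.step (Good.chk c16000_6880_6960_6160_6240_s4) (by decide) (by decide)
    (CellR2.step (Good.chk c16000_6880_6960_6160_6240_s5) (by decide) (by decide)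
    (CellR2.step (Good.chk c16000_6880_6960_6160_6240_s6) (by decide) (by decide)
    (CellR2.step (Good.chk c16000_6880_6960_6160_6240_s7) (by decide) (by decide)
    (CellR2.step (Good.chk c16000_6880_6960_6160_6240_s8) (by decide) (by decide)
    (CellR2.step (Good.chk c16000_6880_6960_6160_6240_s9) (by decide) (by decide)
    (CellR2.step (Good.chk c16000_6880_6960_6160_6240_s10) (by decide) (by decide)
    (CellR2.step (Good.chk c16000_6880_6960_6160_6240_s11) (by decide) (by decide)
    (CellR2.step (Good.chk c16000_6880_6960_6160_6240_s12) (by decide) (by decide)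
    (CellR2.step (Good.chk c16000_6880_6960_6160_6240_s13) (by decide) (by decide)
    (CellR2.step (Good.chk c16000_6880_6960_6160_6240_s14) (by decide) (by decide)
    (CellR2.step (Good.chk c16000_6880_6960_6160_6240_s15) (by decide) (by decide)
    (CellR2.step (Good.chk c16000_6880_6960_6160_6240_s16) (by decide) (by decide)
    (CellR2.step (Good.chk c16000_6880_6960_6160_6240_s17) (by decide) (by decide)
    (CellR2.step (Good.chk c16000_6880_6960_6160_6240_s18) (by decide) (by decide)
    (CellR2.step (Good.chk c16000_6880_6960_6160_6240_s19) (by decide) (by decide)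
    (CellR2.step (Good.chk c16000_6880_6960_6160_6240_s20) (by decide) (by decide)
    (CellR2.step (Good.chk c16000_6880_6960_6160_6240_s21) (by decide) (by decide)
    (CellR2.step (Good.chk c16000_6880_6960_6160_6240_s22) (by decide) (by decide)
    (CellR2.step (Good.chk c16000_6880_6960_6160_6240_s23) (by decide) (by decide)
    (CellR2.step (Good.chk c16000_6880_6960_6160_6240_s24) (by decide) (by decide)
    (CellR2.fin c16000_6880_6960_6160_6240_f)))))))))))))))))))))))))

theorem c16000_6880_6960_6240_6320 : Cell2 16000 6880 6960 6240 6320 :=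
  CellR2.step (Good.chk c16000_6880_6960_6240_6320_s0) (by decide) (by decide)
    (CellR2.step (Good.chk c16000_6880_6960_6240_6320_s1) (by decide) (by decide)
    (CellR2.step (Good.chk c16000_6880_6960_6240_6320_s2) (by decide) (by decide)
    (CellR2.step (Good.chk c16000_6880_6960_6240_6320_s3) (by decide) (by decide)
    (CellR2.step (Good.chk c16000_6880_6960_6240_6320_s4) (by decide) (by decide)
    (CellR2.step (Good.chk c16000_6880_6960_6240_6320_s5) (by decide) (by decide)
    (CellR2.step (Good.chk c16000_6880_6960_6240_6320_s6) (by decide) (by decide)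
    (CellR2.step (Good.chk c16000_6880_6960_6240_6320_s7) (by decide) (by decide)
    (CellR2.step (Good.chk c16000_6880_6960_6240_6320_s8) (by decide) (by decide)
    (CellR2.step (Good.chk c16000_6880_6960_6240_6320_s9) (by decide) (by decide)
    (CellR2.step (Good.chk c16000_6880_6960_6240_6320_s10) (by decide) (by decide)
    (CellR2.step (Good.chk c16000_6880_6960_6240_6320_s11) (by decide) (by decide)
    (CellR2.step (Good.chk c16000_6880_6960_6240_6320_s12) (by decide) (by decide)
    (CellR2.step (Good.chk c16000_6880_6960_6240_6320_s13) (by decide) (by decide)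
    (CellR2.step (Good.chk c16000_6880_6960_6240_6320_s14) (by decide) (by decide)
    (CellR2.step (Good.chk c16000_6880_6960_6240_6320_s15) (by decide) (by decide)
    (CellR2.step (Good.chk c16000_6880_6960_6240_6320_s16) (by decide) (by decide)
    (CellR2.step (Good.chk c16000_6880_6960_6240_6320_s17) (by decide) (by decide)
    (CellR2.step (Good.chk c16000_6880_6960_6240_6320_s18) (by decide) (by decide)
    (CellR2.step (Good.chk c16000_6880_6960_6240_6320_s19) (by decide) (by decide)
    (CellR2.step (Good.chk c16000_6880_6960_6240_6320_s20) (by decide) (by decide)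
    (CellR2.step (Good.chk c16000_6880_6960_6240_6320_s21) (by decide) (by decide)
    (CellR2.fin c16000_6880_6960_6240_6320_f))))))))))))))))))))))

theorem c16000_6880_6960_6320_6400 : Cell2 16000 6880 6960 6320 6400 :=
  CellR2.step (Good.chk c16000_6880_6960_6320_6400_s0) (by decide) (by decide)
    (CellR2.step (Good.chk c16000_6880_6960_6320_6400_s1) (by decide) (by decide)
    (CellR2.step (Good.chk c16000_6880_6960_6320_6400_s2) (by decide) (by decide)
    (CellR2.step (Good.chk c16000_6880_6960_6320_6400_s3) (by decide) (by decide)
    (CellR2.step (Good.chk c16000_6880_6960_6320_6400_s4) (by decide) (by decide)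
    (CellR2.step (Good.chk c16000_6880_6960_6320_6400_s5) (by decide) (by decide)
    (CellR2.step (Good.chk c16000_6880_6960_6320_6400_s6) (by decide) (by decide)
    (CellR2.step (Good.chk c16000_6880_6960_6320_6400_s7) (by decide) (by decide)
    (CellR2.step (Good.chk c16000_6880_6960_6320_6400_s8) (by decide) (by decide)
    (CellR2.step (Good.chk c16000_6880_6960_6320_6400_s9) (by decide) (by decide)
    (CellR2.step (Good.chk c16000_6880_6960_6320_6400_s10) (by decide) (by decide)
    (CellR2.step (Good.chk c16000_6880_6960_6320_6400_s11) (by decide) (by decide)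
    (CellR2.step (Good.chk c16000_6880_6960_6320_6400_s12) (by decide) (by decide)
    (CellR2.step (Good.chk c16000_6880_6960_6320_6400_s13) (by decide) (by decide)
    (CellR2.step (Good.chk c16000_6880_6960_6320_6400_s14) (by decide) (by decide)
    (CellR2.step (Good.chk c16000_6880_6960_6320_6400_s15) (by decide) (by decide)
    (CellR2.step (Good.chk c16000_6880_6960_6320_6400_s16) (by decide) (by decide)
    (CellR2.step (Good.chk c16000_6880_6960_6320_6400_s17) (by decide) (by decide)
    (CellR2.step (Good.chk c16000_6880_6960_6320_6400_s18) (by decide) (by decide)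
    (CellR2.step (Good.chk c16000_6880_6960_6320_6400_s19) (by decide) (by decide)
    (CellR2.fin c16000_6880_6960_6320_6400_f))))))))))))))))))))

theorem c16000_6880_6960_6400_6480 : Cell2 16000 6880 6960 6400 6480 :=
  CellR2.step (Good.chk c16000_6880_6960_6400_6480_s0) (by decide) (by decide)
    (CellR2.step (Good.chk c16000_6880_6960_6400_6480_s1) (by decide) (by decide)
    (CellR2.step (Good.chk c16000_6880_6960_6400_6480_s2) (by decide) (by decide)
    (CellR2.step (Good.chk c16000_6880_6960_6400_6480_s3) (by decide) (by decide)
    (CellR2.step (Good.chk c16000_6880_6960_6400_6480_s4) (by decide) (by decide)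
    (CellR2.step (Good.chk c16000_6880_6960_6400_6480_s5) (by decide) (by decide)
    (CellR2.step (Good.chk c16000_6880_6960_6400_6480_s6) (by decide) (by decide)
    (CellR2.step (Good.chk c16000_6880_6960_6400_6480_s7) (by decide) (by decide)
    (CellR2.step (Good.chk c16000_6880_6960_6400_6480_s8) (by decide) (by decide)
    (CellR2.step (Good.chk c16000_6880_6960_6400_6480_s9) (by decide) (by decide)
    (CellR2.step (Good.chk c16000_6880_6960_6400_6480_s10) (by decide) (by decide)
    (CellR2.step (Good.chk c16000_6880_6960_6400_6480_s11) (by decide) (by decide)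
    (CellR2.step (Good.chk c16000_6880_6960_6400_6480_s12) (by decide) (by decide)
    (CellR2.step (Good.chk c16000_6880_6960_6400_6480_s13) (by decide) (by decide)
    (CellR2.step (Good.chk c16000_6880_6960_6400_6480_s14) (by decide) (by decide)
    (CellR2.step (Good.chk c16000_6880_6960_6400_6480_s15) (by decide) (by decide)
    (CellR2.step (Good.chk c16000_6880_6960_6400_6480_s16) (by decide) (by decide)
    (CellR2.step (Good.chk c16000_6880_6960_6400_6480_s17) (by decide) (by decide)
    (CellR2.step (Good.chk c16000_6880_6960_6400_6480_s18) (by decide) (by decide)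
    (CellR2.step (Good.chk c16000_6880_6960_6400_6480_s19) (by decide) (by decide)
    (CellR2.step (Good.chk c16000_6880_6960_6400_6480_s20) (by decide) (by decide)
    (CellR2.step (Good.chk c16000_6880_6960_6400_6480_s21) (by decide) (by decide)
    (CellR2.step (Good.chk c16000_6880_6960_6400_6480_s22) (by decide) (by decide)
    (CellR2.fin c16000_6880_6960_6400_6480_f)))))))))))))))))))))))

theorem c16000_6880_6960_6480_6560 : Cell2 16000 6880 6960 6480 6560 :=
  CellR2.step (Good.chk c16000_6880_6960_6480_6560_s0) (by decide) (by decide)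
    (CellR2.step (Good.chk c16000_6880_6960_6480_6560_s1) (by decide) (by decide)
    (CellR2.step (Good.chk c16000_6880_6960_6480_6560_s2) (by decide) (by decide)
    (CellR2.step (Good.chk c16000_6880_6960_6480_6560_s3) (by decide) (by decide)
    (CellR2.step (Good.chk c16000_6880_6960_6480_6560_s4) (by decide) (by decide)
    (CellR2.step (Good.chk c16000_6880_6960_6480_6560_s5) (by decide) (by decide)
    (CellR2.step (Good.chk c16000_6880_6960_6480_6560_s6) (by decide) (by decide)
    (CellR2.step (Good.chk c16000_6880_6960_6480_6560_s7) (by decide) (by decide)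
    (CellR2.step (Good.chk c16000_6880_6960_6480_6560_s8) (by decide) (by decide)
    (CellR2.step (Good.chk c16000_6880_6960_6480_6560_s9) (by decide) (by decide)
    (CellR2.step (Good.chk c16000_6880_6960_6480_6560_s10) (by decide) (by decide)
    (CellR2.step (Good.chk c16000_6880_6960_6480_6560_s11) (by decide) (by decide)
    (CellR2.step (Good.chk c16000_6880_6960_6480_6560_s12) (by decide) (by decide)
    (CellR2.step (Good.chk c16000_6880_6960_6480_6560_s13) (by decide) (by decide)
    (CellR2.fin c16000_6880_6960_6480_6560_f))))))))))))))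

theorem c16000_6960_7040_6080_6160 : Cell2 16000 6960 7040 6080 6160 :=
  CellR2.step (Good.chk c16000_6960_7040_6080_6160_s0) (by decide) (by decide)
    (CellR2.step (Good.chk c16000_6960_7040_6080_6160_s1) (by decide) (by decide)
    (CellR2.step (Good.chk c16000_6960_7040_6080_6160_s2) (by decide) (by decide)
    (CellR2.step (Good.chk c16000_6960_7040_6080_6160_s3) (by decide) (by decide)
    (CellR2.step (Good.chk c16000_6960_7040_6080_6160_s4) (by decide) (by decide)
    (CellR2.step (Good.chk c16000_6960_7040_6080_6160_s5) (by decide) (by decide)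
    (CellR2.step (Good.chk c16000_6960_7040_6080_6160_s6) (by decide) (by decide)
    (CellR2.step (Good.chk c16000_6960_7040_6080_6160_s7) (by decide) (by decide)
    (CellR2.step (Good.chk c16000_6960_7040_6080_6160_s8) (by decide) (by decide)
    (CellR2.step (Good.chk c16000_6960_7040_6080_6160_s9) (by decide) (by decide)
    (CellR2.step (Good.chk c16000_6960_7040_6080_6160_s10) (by decide) (by decide)
    (CellR2.step (Good.chk c16000_6960_7040_6080_6160_s11) (by decide) (by decide)
    (CellR2.fin c16000_6960_7040_6080_6160_f))))))))))))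

theorem c16000_6960_7040_6160_6240 : Cell2 16000 6960 7040 6160 6240 :=
  CellR2.step (Good.chk c16000_6960_7040_6160_6240_s0) (by decide) (by decide)
    (CellR2.step (Good.chk c16000_6960_7040_6160_6240_s1) (by decide) (by decide)
    (CellR2.step (Good.chk c16000_6960_7040_6160_6240_s2) (by decide) (by decide)
    (CellR2.step (Good.chk c16000_6960_7040_6160_6240_s3) (by decide) (by decide)
    (CellR2.step (Good.chk c16000_6960_7040_6160_6240_s4) (by decide) (by decide)
    (CellR2.step (Good.chk c16000_6960_7040_6160_6240_s5) (by decide) (by decide)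
    (CellR2.step (Good.chk c16000_6960_7040_6160_6240_s6) (by decide) (by decide)
    (CellR2.step (Good.chk c16000_6960_7040_6160_6240_s7) (by decide) (by decide)
    (CellR2.step (Good.chk c16000_6960_7040_6160_6240_s8) (by decide) (by decide)
    (CellR2.step (Good.chk c16000_6960_7040_6160_6240_s9) (by decide) (by decide)
    (CellR2.step (Good.chk c16000_6960_7040_6160_6240_s10) (by decide) (by decide)
    (CellR2.step (Good.chk c16000_6960_7040_6160_6240_s11) (by decide) (by decide)
    (CellR2.step (Good.chk c16000_6960_7040_6160_6240_s12) (by decide) (by decide)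
    (CellR2.step (Good.chk c16000_6960_7040_6160_6240_s13) (by decide) (by decide)
    (CellR2.step (Good.chk c16000_6960_7040_6160_6240_s14) (by decide) (by decide)
    (CellR2.step (Good.chk c16000_6960_7040_6160_6240_s15) (by decide) (by decide)
    (CellR2.step (Good.chk c16000_6960_7040_6160_6240_s16) (by decide) (by decide)
    (CellR2.step (Good.chk c16000_6960_7040_6160_6240_s17) (by decide) (by decide)
    (CellR2.step (Good.chk c16000_6960_7040_6160_6240_s18) (by decide) (by decide)
    (CellR2.step (Good.chk c16000_6960_7040_6160_6240_s19) (by decide) (by decide)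
    (CellR2.step (Good.chk c16000_6960_7040_6160_6240_s20) (by decide) (by decide)
    (CellR2.step (Good.chk c16000_6960_7040_6160_6240_s21) (by decide) (by decide)
    (CellR2.step (Good.chk c16000_6960_7040_6160_6240_s22) (by decide) (by decide)
    (CellR2.step (Good.chk c16000_6960_7040_6160_6240_s23) (by decide) (by decide)
    (CellR2.step (Good.chk c16000_6960_7040_6160_6240_s24) (by decide) (by decide)
    (CellR2.step (Good.chk c16000_6960_7040_6160_6240_s25) (by decide) (by decide)
    (CellR2.step (Good.chk c16000_6960_7040_6160_6240_s26) (by decide) (by decide)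
    (CellR2.fin c16000_6960_7040_6160_6240_f)))))))))))))))))))))))))))

theorem c16000_6960_7040_6240_6320 : Cell2 16000 6960 7040 6240 6320 :=
  CellR2.step (Good.chk c16000_6960_7040_6240_6320_s0) (by decide) (by decide)
    (CellR2.step (Good.chk c16000_6960_7040_6240_6320_s1) (by decide) (by decide)
    (CellR2.step (Good.chk c16000_6960_7040_6240_6320_s2) (by decide) (by decide)
    (CellR2.step (Good.chk c16000_6960_7040_6240_6320_s3) (by decide) (by decide)
    (CellR2.step (Good.chk c16000_6960_7040_6240_6320_s4) (by decide) (by decide)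
    (CellR2.step (Good.chk c16000_6960_7040_6240_6320_s5) (by decide) (by decide)
    (CellR2.step (Good.chk c16000_6960_7040_6240_6320_s6) (by decide) (by decide)
    (CellR2.step (Good.chk c16000_6960_7040_6240_6320_s7) (by decide) (by decide)
    (CellR2.step (Good.chk c16000_6960_7040_6240_6320_s8) (by decide) (by decide)
    (CellR2.step (Good.chk c16000_6960_7040_6240_6320_s9) (by decide) (by decide)
    (CellR2.step (Good.chk c16000_6960_7040_6240_6320_s10) (by decide) (by decide)
    (CellR2.step (Good.chk c16000_6960_7040_6240_6320_s11) (by decide) (by decide)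
    (CellR2.step (Good.chk c16000_6960_7040_6240_6320_s12) (by decide) (by decide)
    (CellR2.step (Good.chk c16000_6960_7040_6240_6320_s13) (by decide) (by decide)
    (CellR2.step (Good.chk c16000_6960_7040_6240_6320_s14) (by decide) (by decide)
    (CellR2.step (Good.chk c16000_6960_7040_6240_6320_s15) (by decide) (by decide)
    (CellR2.step (Good.chk c16000_6960_7040_6240_6320_s16) (by decide) (by decide)
    (CellR2.step (Good.chk c16000_6960_7040_6240_6320_s17) (by decide) (by decide)
    (CellR2.step (Good.chk c16000_6960_7040_6240_6320_s18) (by decide) (by decide)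
    (CellR2.step (Good.chk c16000_6960_7040_6240_6320_s19) (by decide) (by decide)
    (CellR2.step (Good.chk c16000_6960_7040_6240_6320_s20) (by decide) (by decide)
    (CellR2.step (Good.chk c16000_6960_7040_6240_6320_s21) (by decide) (by decide)
    (CellR2.step (Good.chk c16000_6960_7040_6240_6320_s22) (by decide) (by decide)
    (CellR2.step (Good.chk c16000_6960_7040_6240_6320_s23) (by decide) (by decide)
    (CellR2.step (Good.chk c16000_6960_7040_6240_6320_s24) (by decide) (by decide)
    (CellR2.step (Good.chk c16000_6960_7040_6240_6320_s25) (by decide) (by decide)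
    (CellR2.step (Good.chk c16000_6960_7040_6240_6320_s26) (by decide) (by decide)
    (CellR2.step (Good.chk c16000_6960_7040_6240_6320_s27) (by decide) (by decide)
    (CellR2.step (Good.chk c16000_6960_7040_6240_6320_s28) (by decide) (by decide)
    (CellR2.step (Good.chk c16000_6960_7040_6240_6320_s29) (by decide) (by decide)
    (CellR2.step (Good.chk c16000_6960_7040_6240_6320_s30) (by decide) (by decide)
    (CellR2.fin c16000_6960_7040_6240_6320_f)))))))))))))))))))))))))))))))

theorem c16000_6960_7040_6400_6480 : Cell2 16000 6960 7040 6400 6480 :=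
  CellR2.step (Good.chk c16000_6960_7040_6400_6480_s0) (by decide) (by decide)
    (CellR2.step (Good.chk c16000_6960_7040_6400_6480_s1) (by decide) (by decide)
    (CellR2.step (Good.chk c16000_6960_7040_6400_6480_s2) (by decide) (by decide)
    (CellR2.step (Good.chk c16000_6960_7040_6400_6480_s3) (by decide) (by decide)
    (CellR2.step (Good.chk c16000_6960_7040_6400_6480_s4) (by decide) (by decide)
    (CellR2.step (Good.chk c16000_6960_7040_6400_6480_s5) (by decide) (by decide)
    (CellR2.step (Good.chk c16000_6960_7040_6400_6480_s6) (by decide) (by decide)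
    (CellR2.step (Good.chk c16000_6960_7040_6400_6480_s7) (by decide) (by decide)
    (CellR2.step (Good.chk c16000_6960_7040_6400_6480_s8) (by decide) (by decide)
    (CellR2.step (Good.chk c16000_6960_7040_6400_6480_s9) (by decide) (by decide)
    (CellR2.step (Good.chk c16000_6960_7040_6400_6480_s10) (by decide) (by decide)
    (CellR2.step (Good.chk c16000_6960_7040_6400_6480_s11) (by decide) (by decide)
    (CellR2.step (Good.chk c16000_6960_7040_6400_6480_s12) (by decide) (by decide)
    (CellR2.step (Good.chk c16000_6960_7040_6400_6480_s13) (by decide) (by decide)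
    (CellR2.step (Good.chk c16000_6960_7040_6400_6480_s14) (by decide) (by decide)
    (CellR2.step (Good.chk c16000_6960_7040_6400_6480_s15) (by decide) (by decide)
    (CellR2.step (Good.chk c16000_6960_7040_6400_6480_s16) (by decide) (by decide)
    (CellR2.step (Good.chk c16000_6960_7040_6400_6480_s17) (by decide) (by decide)
    (CellR2.step (Good.chk c16000_6960_7040_6400_6480_s18) (by decide) (by decide)
    (CellR2.fin c16000_6960_7040_6400_6480_f)))))))))))))))))))

theorem c16000_6960_7040_6480_6560 : Cell2 16000 6960 7040 6480 6560 :=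
  CellR2.step (Good.chk c16000_6960_7040_6480_6560_s0) (by decide) (by decide)
    (CellR2.step (Good.chk c16000_6960_7040_6480_6560_s1) (by decide) (by decide)
    (CellR2.step (Good.chk c16000_6960_7040_6480_6560_s2) (by decide) (by decide)
    (CellR2.step (Good.chk c16000_6960_7040_6480_6560_s3) (by decide) (by decide)
    (CellR2.step (Good.chk c16000_6960_7040_6480_6560_s4) (by decide) (by decide)
    (CellR2.step (Good.chk c16000_6960_7040_6480_6560_s5) (by decide) (by decide)
    (CellR2.step (Good.chk c16000_6960_7040_6480_6560_s6) (by decide) (by decide)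
    (CellR2.step (Good.chk c16000_6960_7040_6480_6560_s7) (by decide) (by decide)
    (CellR2.step (Good.chk c16000_6960_7040_6480_6560_s8) (by decide) (by decide)
    (CellR2.step (Good.chk c16000_6960_7040_6480_6560_s9) (by decide) (by decide)
    (CellR2.step (Good.chk c16000_6960_7040_6480_6560_s10) (by decide) (by decide)
    (CellR2.step (Good.chk c16000_6960_7040_6480_6560_s11) (by decide) (by decide)
    (CellR2.step (Good.chk c16000_6960_7040_6480_6560_s12) (by decide) (by decide)
    (CellR2.step (Good.chk c16000_6960_7040_6480_6560_s13) (by decide) (by decide)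
    (CellR2.step (Good.chk c16000_6960_7040_6480_6560_s14) (by decide) (by decide)
    (CellR2.step (Good.chk c16000_6960_7040_6480_6560_s15) (by decide) (by decide)
    (CellR2.fin c16000_6960_7040_6480_6560_f))))))))))))))))

theorem c16000_7040_7120_6240_6320 : Cell2 16000 7040 7120 6240 6320 :=
  CellR2.step (Good.chk c16000_7040_7120_6240_6320_s0) (by decide) (by decide)
    (CellR2.step (Good.chk c16000_7040_7120_6240_6320_s1) (by decide) (by decide)
    (CellR2.step (Good.chk c16000_7040_7120_6240_6320_s2) (by decide) (by decide)
    (CellR2.step (Good.chk c16000_7040_7120_6240_6320_s3) (by decide) (by decide)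
    (CellR2.step (Good.chk c16000_7040_7120_6240_6320_s4) (by decide) (by decide)
    (CellR2.step (Good.chk c16000_7040_7120_6240_6320_s5) (by decide) (by decide)
    (CellR2.step (Good.chk c16000_7040_7120_6240_6320_s6) (by decide) (by decide)
    (CellR2.step (Good.chk c16000_7040_7120_6240_6320_s7) (by decide) (by decide)
    (CellR2.step (Good.chk c16000_7040_7120_6240_6320_s8) (by decide) (by decide)
    (CellR2.step (Good.chk c16000_7040_7120_6240_6320_s9) (by decide) (by decide)
    (CellR2.step (Good.chk c16000_7040_7120_6240_6320_s10) (by decide) (by decide)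
    (CellR2.step (Good.chk c16000_7040_7120_6240_6320_s11) (by decide) (by decide)
    (CellR2.step (Good.chk c16000_7040_7120_6240_6320_s12) (by decide) (by decide)
    (CellR2.step (Good.chk c16000_7040_7120_6240_6320_s13) (by decide) (by decide)
    (CellR2.step (Good.chk c16000_7040_7120_6240_6320_s14) (by decide) (by decide)
    (CellR2.step (Good.chk c16000_7040_7120_6240_6320_s15) (by decide) (by decide)
    (CellR2.step (Good.chk c16000_7040_7120_6240_6320_s16) (by decide) (by decide)
    (CellR2.step (Good.chk c16000_7040_7120_6240_6320_s17) (by decide) (by decide)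
    (CellR2.step (Good.chk c16000_7040_7120_6240_6320_s18) (by decide) (by decide)
    (CellR2.step (Good.chk c16000_7040_7120_6240_6320_s19) (by decide) (by decide)
    (CellR2.step (Good.chk c16000_7040_7120_6240_6320_s20) (by decide) (by decide)
    (CellR2.step (Good.chk c16000_7040_7120_6240_6320_s21) (by decide) (by decide)
    (CellR2.step (Good.chk c16000_7040_7120_6240_6320_s22) (by decide) (by decide)
    (CellR2.step (Good.chk c16000_7040_7120_6240_6320_s23) (by decide) (by decide)
    (CellR2.step (Good.chk c16000_7040_7120_6240_6320_s24) (by decide) (by decide)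
    (CellR2.step (Good.chk c16000_7040_7120_6240_6320_s25) (by decide) (by decide)
    (CellR2.fin c16000_7040_7120_6240_6320_f))))))))))))))))))))))))))

theorem c16000_7040_7120_6320_6400 : Cell2 16000 7040 7120 6320 6400 :=
  CellR2.step (Good.chk c16000_7040_7120_6320_6400_s0) (by decide) (by decide)
    (CellR2.step (Good.chk c16000_7040_7120_6320_6400_s1) (by decide) (by decide)
    (CellR2.step (Good.chk c16000_7040_7120_6320_6400_s2) (by decide) (by decide)
    (CellR2.step (Good.chk c16000_7040_7120_6320_6400_s3) (by decide) (by decide)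
    (CellR2.step (Good.chk c16000_7040_7120_6320_6400_s4) (by decide) (by decide)
    (CellR2.step (Good.chk c16000_7040_7120_6320_6400_s5) (by decide) (by decide)
    (CellR2.step (Good.chk c16000_7040_7120_6320_6400_s6) (by decide) (by decide)
    (CellR2.step (Good.chk c16000_7040_7120_6320_6400_s7) (by decide) (by decide)
    (CellR2.step (Good.chk c16000_7040_7120_6320_6400_s8) (by decide) (by decide)
    (CellR2.step (Good.chk c16000_7040_7120_6320_6400_s9) (by decide) (by decide)
    (CellR2.step (Good.chk c16000_7040_7120_6320_6400_s10) (by decide) (by decide)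
    (CellR2.step (Good.chk c16000_7040_7120_6320_6400_s11) (by decide) (by decide)
    (CellR2.step (Good.chk c16000_7040_7120_6320_6400_s12) (by decide) (by decide)
    (CellR2.step (Good.chk c16000_7040_7120_6320_6400_s13) (by decide) (by decide)
    (CellR2.step (Good.chk c16000_7040_7120_6320_6400_s14) (by decide) (by decide)
    (CellR2.step (Good.chk c16000_7040_7120_6320_6400_s15) (by decide) (by decide)
    (CellR2.step (Good.chk c16000_7040_7120_6320_6400_s16) (by decide) (by decide)
    (CellR2.step (Good.chk c16000_7040_7120_6320_6400_s17) (by decide) (by decide)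
    (CellR2.step (Good.chk c16000_7040_7120_6320_6400_s18) (by decide) (by decide)
    (CellR2.step (Good.chk c16000_7040_7120_6320_6400_s19) (by decide) (by decide)
    (CellR2.step (Good.chk c16000_7040_7120_6320_6400_s20) (by decide) (by decide)
    (CellR2.step (Good.chk c16000_7040_7120_6320_6400_s21) (by decide) (by decide)
    (CellR2.step (Good.chk c16000_7040_7120_6320_6400_s22) (by decide) (by decide)
    (CellR2.step (Good.chk c16000_7040_7120_6320_6400_s23) (by decide) (by decide)
    (CellR2.step (Good.chk c16000_7040_7120_6320_6400_s24) (by decide) (by decide)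
    (CellR2.fin c16000_7040_7120_6320_6400_f)))))))))))))))))))))))))

theorem c16000_7040_7120_6400_6480 : Cell2 16000 7040 7120 6400 6480 :=
  CellR2.step (Good.chk c16000_7040_7120_6400_6480_s0) (by decide) (by decide)
    (CellR2.step (Good.chk c16000_7040_7120_6400_6480_s1) (by decide) (by decide)
    (CellR2.step (Good.chk c16000_7040_7120_6400_6480_s2) (by decide) (by decide)
    (CellR2.step (Good.chk c16000_7040_7120_6400_6480_s3) (by decide) (by decide)
    (CellR2.step (Good.chk c16000_7040_7120_6400_6480_s4) (by decide) (by decide)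
    (CellR2.step (Good.chk c16000_7040_7120_6400_6480_s5) (by decide) (by decide)
    (CellR2.step (Good.chk c16000_7040_7120_6400_6480_s6) (by decide) (by decide)
    (CellR2.step (Good.chk c16000_7040_7120_6400_6480_s7) (by decide) (by decide)
    (CellR2.step (Good.chk c16000_7040_7120_6400_6480_s8) (by decide) (by decide)
    (CellR2.step (Good.chk c16000_7040_7120_6400_6480_s9) (by decide) (by decide)
    (CellR2.step (Good.chk c16000_7040_7120_6400_6480_s10) (by decide) (by decide)
    (CellR2.step (Good.chk c16000_7040_7120_6400_6480_s11) (by decide) (by decide)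
    (CellR2.step (Good.chk c16000_7040_7120_6400_6480_s12) (by decide) (by decide)
    (CellR2.step (Good.chk c16000_7040_7120_6400_6480_s13) (by decide) (by decide)
    (CellR2.step (Good.chk c16000_7040_7120_6400_6480_s14) (by decide) (by decide)
    (CellR2.step (Good.chk c16000_7040_7120_6400_6480_s15) (by decide) (by decide)
    (CellR2.step (Good.chk c16000_7040_7120_6400_6480_s16) (by decide) (by decide)
    (CellR2.step (Good.chk c16000_7040_7120_6400_6480_s17) (by decide) (by decide)
    (CellR2.step (Good.chk c16000_7040_7120_6400_6480_s18) (by decide) (by decide)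
    (CellR2.step (Good.chk c16000_7040_7120_6400_6480_s19) (by decide) (by decide)
    (CellR2.step (Good.chk c16000_7040_7120_6400_6480_s20) (by decide) (by decide)
    (CellR2.step (Good.chk c16000_7040_7120_6400_6480_s21) (by decide) (by decide)
    (CellR2.step (Good.chk c16000_7040_7120_6400_6480_s22) (by decide) (by decide)
    (CellR2.step (Good.chk c16000_7040_7120_6400_6480_s23) (by decide) (by decide)
    (CellR2.step (Good.chk c16000_7040_7120_6400_6480_s24) (by decide) (by decide)
    (CellR2.step (Good.chk c16000_7040_7120_6400_6480_s25) (by decide) (by decide)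
    (CellR2.step (Good.chk c16000_7040_7120_6400_6480_s26) (by decide) (by decide)
    (CellR2.step (Good.chk c16000_7040_7120_6400_6480_s27) (by decide) (by decide)
    (CellR2.step (Good.chk c16000_7040_7120_6400_6480_s28) (by decide) (by decide)
    (CellR2.step (Good.chk c16000_7040_7120_6400_6480_s29) (by decide) (by decide)
    (CellR2.fin c16000_7040_7120_6400_6480_f))))))))))))))))))))))))))))))

theorem c16000_7040_7120_6480_6560 : Cell2 16000 7040 7120 6480 6560 :=
  CellR2.step (Good.chk c16000_7040_7120_6480_6560_s0) (by decide) (by decide)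
    (CellR2.step (Good.chk c16000_7040_7120_6480_6560_s1) (by decide) (by decide)
    (CellR2.step (Good.chk c16000_7040_7120_6480_6560_s2) (by decide) (by decide)
    (CellR2.step (Good.chk c16000_7040_7120_6480_6560_s3) (by decide) (by decide)
    (CellR2.step (Good.chk c16000_7040_7120_6480_6560_s4) (by decide) (by decide)
    (CellR2.step (Good.chk c16000_7040_7120_6480_6560_s5) (by decide) (by decide)
    (CellR2.step (Good.chk c16000_7040_7120_6480_6560_s6) (by decide) (by decide)
    (CellR2.step (Good.chk c16000_7040_7120_6480_6560_s7) (by decide) (by decide)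
    (CellR2.step (Good.chk c16000_7040_7120_6480_6560_s8) (by decide) (by decide)
    (CellR2.step (Good.chk c16000_7040_7120_6480_6560_s9) (by decide) (by decide)
    (CellR2.step (Good.chk c16000_7040_7120_6480_6560_s10) (by decide) (by decide)
    (CellR2.step (Good.chk c16000_7040_7120_6480_6560_s11) (by decide) (by decide)
    (CellR2.step (Good.chk c16000_7040_7120_6480_6560_s12) (by decide) (by decide)
    (CellR2.step (Good.chk c16000_7040_7120_6480_6560_s13) (by decide) (by decide)
    (CellR2.step (Good.chk c16000_7040_7120_6480_6560_s14) (by decide) (by decide)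
    (CellR2.step (Good.chk c16000_7040_7120_6480_6560_s15) (by decide) (by decide)
    (CellR2.step (Good.chk c16000_7040_7120_6480_6560_s16) (by decide) (by decide)
    (CellR2.step (Good.chk c16000_7040_7120_6480_6560_s17) (by decide) (by decide)
    (CellR2.step (Good.chk c16000_7040_7120_6480_6560_s18) (by decide) (by decide)
    (CellR2.step (Good.chk c16000_7040_7120_6480_6560_s19) (by decide) (by decide)
    (CellR2.step (Good.chk c16000_7040_7120_6480_6560_s20) (by decide) (by decide)
    (CellR2.step (Good.chk c16000_7040_7120_6480_6560_s21) (by decide) (by decide)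
    (CellR2.step (Good.chk c16000_7040_7120_6480_6560_s22) (by decide) (by decide)
    (CellR2.fin c16000_7040_7120_6480_6560_f)))))))))))))))))))))))

theorem c16000_7040_7120_6640_6720 : Cell2 16000 7040 7120 6640 6720 :=
  CellR2.step (Good.chk c16000_7040_7120_6640_6720_s0) (by decide) (by decide)
    (CellR2.step (Good.chk c16000_7040_7120_6640_6720_s1) (by decide) (by decide)
    (CellR2.step (Good.chk c16000_7040_7120_6640_6720_s2) (by decide) (by decide)
    (CellR2.step (Good.chk c16000_7040_7120_6640_6720_s3) (by decide) (by decide)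
    (CellR2.step (Good.chk c16000_7040_7120_6640_6720_s4) (by decide) (by decide)
    (CellR2.step (Good.chk c16000_7040_7120_6640_6720_s5) (by decide) (by decide)
    (CellR2.step (Good.chk c16000_7040_7120_6640_6720_s6) (by decide) (by decide)
    (CellR2.step (Good.chk c16000_7040_7120_6640_6720_s7) (by decide) (by decide)
    (CellR2.step (Good.chk c16000_7040_7120_6640_6720_s8) (by decide) (by decide)
    (CellR2.step (Good.chk c16000_7040_7120_6640_6720_s9) (by decide) (by decide)
    (CellR2.step (Good.chk c16000_7040_7120_6640_6720_s10) (by decide) (by decide)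
    (CellR2.step (Good.chk c16000_7040_7120_6640_6720_s11) (by decide) (by decide)
    (CellR2.step (Good.chk c16000_7040_7120_6640_6720_s12) (by decide) (by decide)
    (CellR2.step (Good.chk c16000_7040_7120_6640_6720_s13) (by decide) (by decide)
    (CellR2.step (Good.chk c16000_7040_7120_6640_6720_s14) (by decide) (by decide)
    (CellR2.step (Good.chk c16000_7040_7120_6640_6720_s15) (by decide) (by decide)
    (CellR2.step (Good.chk c16000_7040_7120_6640_6720_s16) (by decide) (by decide)
    (CellR2.step (Good.chk c16000_7040_7120_6640_6720_s17) (by decide) (by decide)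
    (CellR2.step (Good.chk c16000_7040_7120_6640_6720_s18) (by decide) (by decide)
    (CellR2.step (Good.chk c16000_7040_7120_6640_6720_s19) (by decide) (by decide)
    (CellR2.fin c16000_7040_7120_6640_6720_f))))))))))))))))))))

theorem c16000_7120_7160_6240_6280 : Cell2 16000 7120 7160 6240 6280 :=
  CellR2.step (Good.chk c16000_7120_7160_6240_6280_s0) (by decide) (by decide)
    (CellR2.step (Good.chk c16000_7120_7160_6240_6280_s1) (by decide) (by decide)
    (CellR2.step (Good.chk c16000_7120_7160_6240_6280_s2) (by decide) (by decide)
    (CellR2.step (Good.chk c16000_7120_7160_6240_6280_s3) (by decide) (by decide)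
    (CellR2.step (Good.chk c16000_7120_7160_6240_6280_s4) (by decide) (by decide)
    (CellR2.step (Good.chk c16000_7120_7160_6240_6280_s5) (by decide) (by decide)
    (CellR2.step (Good.chk c16000_7120_7160_6240_6280_s6) (by decide) (by decide)
    (CellR2.step (Good.chk c16000_7120_7160_6240_6280_s7) (by decide) (by decide)
    (CellR2.step (Good.chk c16000_7120_7160_6240_6280_s8) (by decide) (by decide)
    (CellR2.step (Good.chk c16000_7120_7160_6240_6280_s9) (by decide) (by decide)
    (CellR2.step (Good.chk c16000_7120_7160_6240_6280_s10) (by decide) (by decide)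
    (CellR2.step (Good.chk c16000_7120_7160_6240_6280_s11) (by decide) (by decide)
    (CellR2.step (Good.chk c16000_7120_7160_6240_6280_s12) (by decide) (by decide)
    (CellR2.step (Good.chk c16000_7120_7160_6240_6280_s13) (by decide) (by decide)
    (CellR2.step (Good.chk c16000_7120_7160_6240_6280_s14) (by decide) (by decide)
    (CellR2.step (Good.chk c16000_7120_7160_6240_6280_s15) (by decide) (by decide)
    (CellR2.step (Good.chk c16000_7120_7160_6240_6280_s16) (by decide) (by decide)
    (CellR2.step (Good.chk c16000_7120_7160_6240_6280_s17) (by decide) (by decide)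
    (CellR2.step (Good.chk c16000_7120_7160_6240_6280_s18) (by decide) (by decide)
    (CellR2.fin c16000_7120_7160_6240_6280_f)))))))))))))))))))

theorem c16000_7120_7160_6280_6320 : Cell2 16000 7120 7160 6280 6320 :=
  CellR2.step (Good.chk c16000_7120_7160_6280_6320_s0) (by decide) (by decide)
    (CellR2.step (Good.chk c16000_7120_7160_6280_6320_s1) (by decide) (by decide)
    (CellR2.step (Good.chk c16000_7120_7160_6280_6320_s2) (by decide) (by decide)
    (CellR2.step (Good.chk c16000_7120_7160_6280_6320_s3) (by decide) (by decide)
    (CellR2.step (Good.chk c16000_7120_7160_6280_6320_s4) (by decide) (by decide)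
    (CellR2.step (Good.chk c16000_7120_7160_6280_6320_s5) (by decide) (by decide)
    (CellR2.step (Good.chk c16000_7120_7160_6280_6320_s6) (by decide) (by decide)
    (CellR2.step (Good.chk c16000_7120_7160_6280_6320_s7) (by decide) (by decide)
    (CellR2.step (Good.chk c16000_7120_7160_6280_6320_s8) (by decide) (by decide)
    (CellR2.step (Good.chk c16000_7120_7160_6280_6320_s9) (by decide) (by decide)
    (CellR2.step (Good.chk c16000_7120_7160_6280_6320_s10) (by decide) (by decide)
    (CellR2.step (Good.chk c16000_7120_7160_6280_6320_s11) (by decide) (by decide)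
    (CellR2.step (Good.chk c16000_7120_7160_6280_6320_s12) (by decide) (by decide)
    (CellR2.step (Good.chk c16000_7120_7160_6280_6320_s13) (by decide) (by decide)
    (CellR2.step (Good.chk c16000_7120_7160_6280_6320_s14) (by decide) (by decide)
    (CellR2.step (Good.chk c16000_7120_7160_6280_6320_s15) (by decide) (by decide)
    (CellR2.step (Good.chk c16000_7120_7160_6280_6320_s16) (by decide) (by decide)
    (CellR2.step (Good.chk c16000_7120_7160_6280_6320_s17) (by decide) (by decide)
    (CellR2.step (Good.chk c16000_7120_7160_6280_6320_s18) (by decide) (by decide)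
    (CellR2.fin c16000_7120_7160_6280_6320_f)))))))))))))))))))

theorem c16000_7120_7160_6320_6360 : Cell2 16000 7120 7160 6320 6360 :=
  CellR2.step (Good.chk c16000_7120_7160_6320_6360_s0) (by decide) (by decide)
    (CellR2.step (Good.chk c16000_7120_7160_6320_6360_s1) (by decide) (by decide)
    (CellR2.step (Good.chk c16000_7120_7160_6320_6360_s2) (by decide) (by decide)
    (CellR2.step (Good.chk c16000_7120_7160_6320_6360_s3) (by decide) (by decide)
    (CellR2.step (Good.chk c16000_7120_7160_6320_6360_s4) (by decide) (by decide)
    (CellR2.step (Good.chk c16000_7120_7160_6320_6360_s5) (by decide) (by decide)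
    (CellR2.step (Good.chk c16000_7120_7160_6320_6360_s6) (by decide) (by decide)
    (CellR2.step (Good.chk c16000_7120_7160_6320_6360_s7) (by decide) (by decide)
    (CellR2.step (Good.chk c16000_7120_7160_6320_6360_s8) (by decide) (by decide)
    (CellR2.step (Good.chk c16000_7120_7160_6320_6360_s9) (by decide) (by decide)
    (CellR2.step (Good.chk c16000_7120_7160_6320_6360_s10) (by decide) (by decide)
    (CellR2.step (Good.chk c16000_7120_7160_6320_6360_s11) (by decide) (by decide)
    (CellR2.step (Good.chk c16000_7120_7160_6320_6360_s12) (by decide) (by decide)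
    (CellR2.step (Good.chk c16000_7120_7160_6320_6360_s13) (by decide) (by decide)
    (CellR2.step (Good.chk c16000_7120_7160_6320_6360_s14) (by decide) (by decide)
    (CellR2.step (Good.chk c16000_7120_7160_6320_6360_s15) (by decide) (by decide)
    (CellR2.step (Good.chk c16000_7120_7160_6320_6360_s16) (by decide) (by decide)
    (CellR2.fin c16000_7120_7160_6320_6360_f)))))))))))))))))

theorem c16000_7120_7160_6360_6400 : Cell2 16000 7120 7160 6360 6400 :=
  CellR2.step (Good.chk c16000_7120_7160_6360_6400_s0) (by decide) (by decide)
    (CellR2.step (Good.chk c16000_7120_7160_6360_6400_s1) (by decide) (by decide)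
    (CellR2.step (Good.chk c16000_7120_7160_6360_6400_s2) (by decide) (by decide)
    (CellR2.step (Good.chk c16000_7120_7160_6360_6400_s3) (by decide) (by decide)
    (CellR2.step (Good.chk c16000_7120_7160_6360_6400_s4) (by decide) (by decide)
    (CellR2.step (Good.chk c16000_7120_7160_6360_6400_s5) (by decide) (by decide)
    (CellR2.step (Good.chk c16000_7120_7160_6360_6400_s6) (by decide) (by decide)
    (CellR2.step (Good.chk c16000_7120_7160_6360_6400_s7) (by decide) (by decide)
    (CellR2.step (Good.chk c16000_7120_7160_6360_6400_s8) (by decide) (by decide)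
    (CellR2.step (Good.chk c16000_7120_7160_6360_6400_s9) (by decide) (by decide)
    (CellR2.step (Good.chk c16000_7120_7160_6360_6400_s10) (by decide) (by decide)
    (CellR2.step (Good.chk c16000_7120_7160_6360_6400_s11) (by decide) (by decide)
    (CellR2.step (Good.chk c16000_7120_7160_6360_6400_s12) (by decide) (by decide)
    (CellR2.step (Good.chk c16000_7120_7160_6360_6400_s13) (by decide) (by decide)
    (CellR2.step (Good.chk c16000_7120_7160_6360_6400_s14) (by decide) (by decide)
    (CellR2.step (Good.chk c16000_7120_7160_6360_6400_s15) (by decide) (by decide)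
    (CellR2.step (Good.chk c16000_7120_7160_6360_6400_s16) (by decide) (by decide)
    (CellR2.step (Good.chk c16000_7120_7160_6360_6400_s17) (by decide) (by decide)
    (CellR2.fin c16000_7120_7160_6360_6400_f))))))))))))))))))

theorem c16000_7120_7160_6400_6440 : Cell2 16000 7120 7160 6400 6440 :=
  CellR2.step (Good.chk c16000_7120_7160_6400_6440_s0) (by decide) (by decide)
    (CellR2.step (Good.chk c16000_7120_7160_6400_6440_s1) (by decide) (by decide)
    (CellR2.step (Good.chk c16000_7120_7160_6400_6440_s2) (by decide) (by decide)
    (CellR2.step (Good.chk c16000_7120_7160_6400_6440_s3) (by decide) (by decide)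
    (CellR2.step (Good.chk c16000_7120_7160_6400_6440_s4) (by decide) (by decide)
    (CellR2.step (Good.chk c16000_7120_7160_6400_6440_s5) (by decide) (by decide)
    (CellR2.step (Good.chk c16000_7120_7160_6400_6440_s6) (by decide) (by decide)
    (CellR2.step (Good.chk c16000_7120_7160_6400_6440_s7) (by decide) (by decide)
    (CellR2.step (Good.chk c16000_7120_7160_6400_6440_s8) (by decide) (by decide)
    (CellR2.step (Good.chk c16000_7120_7160_6400_6440_s9) (by decide) (by decide)
    (CellR2.step (Good.chk c16000_7120_7160_6400_6440_s10) (by decide) (by decide)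
    (CellR2.step (Good.chk c16000_7120_7160_6400_6440_s11) (by decide) (by decide)
    (CellR2.step (Good.chk c16000_7120_7160_6400_6440_s12) (by decide) (by decide)
    (CellR2.step (Good.chk c16000_7120_7160_6400_6440_s13) (by decide) (by decide)
    (CellR2.step (Good.chk c16000_7120_7160_6400_6440_s14) (by decide) (by decide)
    (CellR2.step (Good.chk c16000_7120_7160_6400_6440_s15) (by decide) (by decide)
    (CellR2.step (Good.chk c16000_7120_7160_6400_6440_s16) (by decide) (by decide)
    (CellR2.step (Good.chk c16000_7120_7160_6400_6440_s17) (by decide) (by decide)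
    (CellR2.step (Good.chk c16000_7120_7160_6400_6440_s18) (by decide) (by decide)
    (CellR2.step (Good.chk c16000_7120_7160_6400_6440_s19) (by decide) (by decide)
    (CellR2.step (Good.chk c16000_7120_7160_6400_6440_s20) (by decide) (by decide)
    (CellR2.step (Good.chk c16000_7120_7160_6400_6440_s21) (by decide) (by decide)
    (CellR2.fin c16000_7120_7160_6400_6440_f))))))))))))))))))))))

theorem c16000_7120_7160_6440_6480 : Cell2 16000 7120 7160 6440 6480 :=
  CellR2.step (Good.chk c16000_7120_7160_6440_6480_s0) (by decide) (by decide)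
    (CellR2.step (Good.chk c16000_7120_7160_6440_6480_s1) (by decide) (by decide)
    (CellR2.step (Good.chk c16000_7120_7160_6440_6480_s2) (by decide) (by decide)
    (CellR2.step (Good.chk c16000_7120_7160_6440_6480_s3) (by decide) (by decide)
    (CellR2.step (Good.chk c16000_7120_7160_6440_6480_s4) (by decide) (by decide)
    (CellR2.step (Good.chk c16000_7120_7160_6440_6480_s5) (by decide) (by decide)
    (CellR2.step (Good.chk c16000_7120_7160_6440_6480_s6) (by decide) (by decide)
    (CellR2.step (Good.chk c16000_7120_7160_6440_6480_s7) (by decide) (by decide)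
    (CellR2.step (Good.chk c16000_7120_7160_6440_6480_s8) (by decide) (by decide)
    (CellR2.step (Good.chk c16000_7120_7160_6440_6480_s9) (by decide) (by decide)
    (CellR2.step (Good.chk c16000_7120_7160_6440_6480_s10) (by decide) (by decide)
    (CellR2.step (Good.chk c16000_7120_7160_6440_6480_s11) (by decide) (by decide)
    (CellR2.step (Good.chk c16000_7120_7160_6440_6480_s12) (by decide) (by decide)
    (CellR2.step (Good.chk c16000_7120_7160_6440_6480_s13) (by decide) (by decide)
    (CellR2.step (Good.chk c16000_7120_7160_6440_6480_s14) (by decide) (by decide)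
    (CellR2.step (Good.chk c16000_7120_7160_6440_6480_s15) (by decide) (by decide)
    (CellR2.step (Good.chk c16000_7120_7160_6440_6480_s16) (by decide) (by decide)
    (CellR2.step (Good.chk c16000_7120_7160_6440_6480_s17) (by decide) (by decide)
    (CellR2.step (Good.chk c16000_7120_7160_6440_6480_s18) (by decide) (by decide)
    (CellR2.step (Good.chk c16000_7120_7160_6440_6480_s19) (by decide) (by decide)
    (CellR2.fin c16000_7120_7160_6440_6480_f))))))))))))))))))))

theorem c16000_7120_7160_6480_6520 : Cell2 16000 7120 7160 6480 6520 :=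
  CellR2.step (Good.chk c16000_7120_7160_6480_6520_s0) (by decide) (by decide)
    (CellR2.step (Good.chk c16000_7120_7160_6480_6520_s1) (by decide) (by decide)
    (CellR2.step (Good.chk c16000_7120_7160_6480_6520_s2) (by decide) (by decide)
    (CellR2.step (Good.chk c16000_7120_7160_6480_6520_s3) (by decide) (by decide)
    (CellR2.step (Good.chk c16000_7120_7160_6480_6520_s4) (by decide) (by decide)
    (CellR2.step (Good.chk c16000_7120_7160_6480_6520_s5) (by decide) (by decide)
    (CellR2.step (Good.chk c16000_7120_7160_6480_6520_s6) (by decide) (by decide)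
    (CellR2.step (Good.chk c16000_7120_7160_6480_6520_s7) (by decide) (by decide)
    (CellR2.step (Good.chk c16000_7120_7160_6480_6520_s8) (by decide) (by decide)
    (CellR2.step (Good.chk c16000_7120_7160_6480_6520_s9) (by decide) (by decide)
    (CellR2.step (Good.chk c16000_7120_7160_6480_6520_s10) (by decide) (by decide)
    (CellR2.step (Good.chk c16000_7120_7160_6480_6520_s11) (by decide) (by decide)
    (CellR2.step (Good.chk c16000_7120_7160_6480_6520_s12) (by decide) (by decide)
    (CellR2.step (Good.chk c16000_7120_7160_6480_6520_s13) (by decide) (by decide)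
    (CellR2.step (Good.chk c16000_7120_7160_6480_6520_s14) (by decide) (by decide)
    (CellR2.fin c16000_7120_7160_6480_6520_f)))))))))))))))

theorem c16000_7120_7160_6520_6560 : Cell2 16000 7120 7160 6520 6560 :=
  CellR2.step (Good.chk c16000_7120_7160_6520_6560_s0) (by decide) (by decide)
    (CellR2.step (Good.chk c16000_7120_7160_6520_6560_s1) (by decide) (by decide)
    (CellR2.step (Good.chk c16000_7120_7160_6520_6560_s2) (by decide) (by decide)
    (CellR2.step (Good.chk c16000_7120_7160_6520_6560_s3) (by decide) (by decide)
    (CellR2.step (Good.chk c16000_7120_7160_6520_6560_s4) (by decide) (by decide)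
    (CellR2.step (Good.chk c16000_7120_7160_6520_6560_s5) (by decide) (by decide)
    (CellR2.step (Good.chk c16000_7120_7160_6520_6560_s6) (by decide) (by decide)
    (CellR2.step (Good.chk c16000_7120_7160_6520_6560_s7) (by decide) (by decide)
    (CellR2.step (Good.chk c16000_7120_7160_6520_6560_s8) (by decide) (by decide)
    (CellR2.step (Good.chk c16000_7120_7160_6520_6560_s9) (by decide) (by decide)
    (CellR2.step (Good.chk c16000_7120_7160_6520_6560_s10) (by decide) (by decide)
    (CellR2.step (Good.chk c16000_7120_7160_6520_6560_s11) (by decide) (by decide)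
    (CellR2.step (Good.chk c16000_7120_7160_6520_6560_s12) (by decide) (by decide)
    (CellR2.step (Good.chk c16000_7120_7160_6520_6560_s13) (by decide) (by decide)
    (CellR2.step (Good.chk c16000_7120_7160_6520_6560_s14) (by decide) (by decide)
    (CellR2.step (Good.chk c16000_7120_7160_6520_6560_s15) (by decide) (by decide)
    (CellR2.step (Good.chk c16000_7120_7160_6520_6560_s16) (by decide) (by decide)
    (CellR2.step (Good.chk c16000_7120_7160_6520_6560_s17) (by decide) (by decide)
    (CellR2.step (Good.chk c16000_7120_7160_6520_6560_s18) (by decide) (by decide)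
    (CellR2.step (Good.chk c16000_7120_7160_6520_6560_s19) (by decide) (by decide)
    (CellR2.step (Good.chk c16000_7120_7160_6520_6560_s20) (by decide) (by decide)
    (CellR2.step (Good.chk c16000_7120_7160_6520_6560_s21) (by decide) (by decide)
    (CellR2.step (Good.chk c16000_7120_7160_6520_6560_s22) (by decide) (by decide)
    (CellR2.step (Good.chk c16000_7120_7160_6520_6560_s23) (by decide) (by decide)
    (CellR2.step (Good.chk c16000_7120_7160_6520_6560_s24) (by decide) (by decide)
    (CellR2.step (Good.chk c16000_7120_7160_6520_6560_s25) (by decide) (by decide)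
    (CellR2.step (Good.chk c16000_7120_7160_6520_6560_s26) (by decide) (by decide)
    (CellR2.fin c16000_7120_7160_6520_6560_f)))))))))))))))))))))))))))

theorem c16000_7120_7200_6640_6720 : Cell2 16000 7120 7200 6640 6720 :=
  CellR2.step (Good.chk c16000_7120_7200_6640_6720_s0) (by decide) (by decide)
    (CellR2.step (Good.chk c16000_7120_7200_6640_6720_s1) (by decide) (by decide)
    (CellR2.step (Good.chk c16000_7120_7200_6640_6720_s2) (by decide) (by decide)
    (CellR2.step (Good.chk c16000_7120_7200_6640_6720_s3) (by decide) (by decide)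
    (CellR2.step (Good.chk c16000_7120_7200_6640_6720_s4) (by decide) (by decide)
    (CellR2.step (Good.chk c16000_7120_7200_6640_6720_s5) (by decide) (by decide)
    (CellR2.step (Good.chk c16000_7120_7200_6640_6720_s6) (by decide) (by decide)
    (CellR2.step (Good.chk c16000_7120_7200_6640_6720_s7) (by decide) (by decide)
    (CellR2.step (Good.chk c16000_7120_7200_6640_6720_s8) (by decide) (by decide)
    (CellR2.step (Good.chk c16000_7120_7200_6640_6720_s9) (by decide) (by decide)
    (CellR2.step (Good.chk c16000_7120_7200_6640_6720_s10) (by decide) (by decide)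
    (CellR2.step (Good.chk c16000_7120_7200_6640_6720_s11) (by decide) (by decide)
    (CellR2.step (Good.chk c16000_7120_7200_6640_6720_s12) (by decide) (by decide)
    (CellR2.step (Good.chk c16000_7120_7200_6640_6720_s13) (by decide) (by decide)
    (CellR2.step (Good.chk c16000_7120_7200_6640_6720_s14) (by decide) (by decide)
    (CellR2.step (Good.chk c16000_7120_7200_6640_6720_s15) (by decide) (by decide)
    (CellR2.step (Good.chk c16000_7120_7200_6640_6720_s16) (by decide) (by decide)
    (CellR2.step (Good.chk c16000_7120_7200_6640_6720_s17) (by decide) (by decide)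
    (CellR2.step (Good.chk c16000_7120_7200_6640_6720_s18) (by decide) (by decide)
    (CellR2.step (Good.chk c16000_7120_7200_6640_6720_s19) (by decide) (by decide)
    (CellR2.step (Good.chk c16000_7120_7200_6640_6720_s20) (by decide) (by decide)
    (CellR2.step (Good.chk c16000_7120_7200_6640_6720_s21) (by decide) (by decide)
    (CellR2.step (Good.chk c16000_7120_7200_6640_6720_s22) (by decide) (by decide)
    (CellR2.step (Good.chk c16000_7120_7200_6640_6720_s23) (by decide) (by decide)
    (CellR2.step (Good.chk c16000_7120_7200_6640_6720_s24) (by decide) (by decide)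
    (CellR2.fin c16000_7120_7200_6640_6720_f)))))))))))))))))))))))))

theorem c16000_7160_7200_6240_6280 : Cell2 16000 7160 7200 6240 6280 :=
  CellR2.step (Good.chk c16000_7160_7200_6240_6280_s0) (by decide) (by decide)
    (CellR2.step (Good.chk c16000_7160_7200_6240_6280_s1) (by decide) (by decide)
    (CellR2.step (Good.chk c16000_7160_7200_6240_6280_s2) (by decide) (by decide)
    (CellR2.step (Good.chk c16000_7160_7200_6240_6280_s3) (by decide) (by decide)
    (CellR2.step (Good.chk c16000_7160_7200_6240_6280_s4) (by decide) (by decide)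
    (CellR2.step (Good.chk c16000_7160_7200_6240_6280_s5) (by decide) (by decide)
    (CellR2.step (Good.chk c16000_7160_7200_6240_6280_s6) (by decide) (by decide)
    (CellR2.step (Good.chk c16000_7160_7200_6240_6280_s7) (by decide) (by decide)
    (CellR2.step (Good.chk c16000_7160_7200_6240_6280_s8) (by decide) (by decide)
    (CellR2.step (Good.chk c16000_7160_7200_6240_6280_s9) (by decide) (by decide)
    (CellR2.step (Good.chk c16000_7160_7200_6240_6280_s10) (by decide) (by decide)
    (CellR2.step (Good.chk c16000_7160_7200_6240_6280_s11) (by decide) (by decide)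
    (CellR2.step (Good.chk c16000_7160_7200_6240_6280_s12) (by decide) (by decide)
    (CellR2.step (Good.chk c16000_7160_7200_6240_6280_s13) (by decide) (by decide)
    (CellR2.fin c16000_7160_7200_6240_6280_f))))))))))))))

theorem c16000_7160_7200_6280_6320 : Cell2 16000 7160 7200 6280 6320 :=
  CellR2.step (Good.chk c16000_7160_7200_6280_6320_s0) (by decide) (by decide)
    (CellR2.step (Good.chk c16000_7160_7200_6280_6320_s1) (by decide) (by decide)
    (CellR2.step (Good.chk c16000_7160_7200_6280_6320_s2) (by decide) (by decide)
    (CellR2.step (Good.chk c16000_7160_7200_6280_6320_s3) (by decide) (by decide)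
    (CellR2.step (Good.chk c16000_7160_7200_6280_6320_s4) (by decide) (by decide)
    (CellR2.step (Good.chk c16000_7160_7200_6280_6320_s5) (by decide) (by decide)
    (CellR2.step (Good.chk c16000_7160_7200_6280_6320_s6) (by decide) (by decide)
    (CellR2.step (Good.chk c16000_7160_7200_6280_6320_s7) (by decide) (by decide)
    (CellR2.step (Good.chk c16000_7160_7200_6280_6320_s8) (by decide) (by decide)
    (CellR2.step (Good.chk c16000_7160_7200_6280_6320_s9) (by decide) (by decide)
    (CellR2.step (Good.chk c16000_7160_7200_6280_6320_s10) (by decide) (by decide)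
    (CellR2.step (Good.chk c16000_7160_7200_6280_6320_s11) (by decide) (by decide)
    (CellR2.step (Good.chk c16000_7160_7200_6280_6320_s12) (by decide) (by decide)
    (CellR2.step (Good.chk c16000_7160_7200_6280_6320_s13) (by decide) (by decide)
    (CellR2.step (Good.chk c16000_7160_7200_6280_6320_s14) (by decide) (by decide)
    (CellR2.fin c16000_7160_7200_6280_6320_f)))))))))))))))

theorem c16000_7160_7200_6320_6360 : Cell2 16000 7160 7200 6320 6360 :=
  CellR2.step (Good.chk c16000_7160_7200_6320_6360_s0) (by decide) (by decide)
    (CellR2.step (Good.chk c16000_7160_7200_6320_6360_s1) (by decide) (by decide)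
    (CellR2.step (Good.chk c16000_7160_7200_6320_6360_s2) (by decide) (by decide)
    (CellR2.step (Good.chk c16000_7160_7200_6320_6360_s3) (by decide) (by decide)
    (CellR2.step (Good.chk c16000_7160_7200_6320_6360_s4) (by decide) (by decide)
    (CellR2.step (Good.chk c16000_7160_7200_6320_6360_s5) (by decide) (by decide)
    (CellR2.step (Good.chk c16000_7160_7200_6320_6360_s6) (by decide) (by decide)
    (CellR2.step (Good.chk c16000_7160_7200_6320_6360_s7) (by decide) (by decide)
    (CellR2.step (Good.chk c16000_7160_7200_6320_6360_s8) (by decide) (by decide)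
    (CellR2.step (Good.chk c16000_7160_7200_6320_6360_s9) (by decide) (by decide)
    (CellR2.step (Good.chk c16000_7160_7200_6320_6360_s10) (by decide) (by decide)
    (CellR2.step (Good.chk c16000_7160_7200_6320_6360_s11) (by decide) (by decide)
    (CellR2.step (Good.chk c16000_7160_7200_6320_6360_s12) (by decide) (by decide)
    (CellR2.fin c16000_7160_7200_6320_6360_f)))))))))))))

theorem c16000_7160_7200_6360_6400 : Cell2 16000 7160 7200 6360 6400 :=
  CellR2.step (Good.chk c16000_7160_7200_6360_6400_s0) (by decide) (by decide)
    (CellR2.step (Good.chk c16000_7160_7200_6360_6400_s1) (by decide) (by decide)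
    (CellR2.step (Good.chk c16000_7160_7200_6360_6400_s2) (by decide) (by decide)
    (CellR2.step (Good.chk c16000_7160_7200_6360_6400_s3) (by decide) (by decide)
    (CellR2.step (Good.chk c16000_7160_7200_6360_6400_s4) (by decide) (by decide)
    (CellR2.step (Good.chk c16000_7160_7200_6360_6400_s5) (by decide) (by decide)
    (CellR2.step (Good.chk c16000_7160_7200_6360_6400_s6) (by decide) (by decide)
    (CellR2.step (Good.chk c16000_7160_7200_6360_6400_s7) (by decide) (by decide)
    (CellR2.step (Good.chk c16000_7160_7200_6360_6400_s8) (by decide) (by decide)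
    (CellR2.step (Good.chk c16000_7160_7200_6360_6400_s9) (by decide) (by decide)
    (CellR2.step (Good.chk c16000_7160_7200_6360_6400_s10) (by decide) (by decide)
    (CellR2.step (Good.chk c16000_7160_7200_6360_6400_s11) (by decide) (by decide)
    (CellR2.fin c16000_7160_7200_6360_6400_f))))))))))))

theorem c16000_7160_7200_6400_6440 : Cell2 16000 7160 7200 6400 6440 :=
  CellR2.step (Good.chk c16000_7160_7200_6400_6440_s0) (by decide) (by decide)
    (CellR2.step (Good.chk c16000_7160_7200_6400_6440_s1) (by decide) (by decide)
    (CellR2.step (Good.chk c16000_7160_7200_6400_6440_s2) (by decide) (by decide)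
    (CellR2.step (Good.chk c16000_7160_7200_6400_6440_s3) (by decide) (by decide)
    (CellR2.step (Good.chk c16000_7160_7200_6400_6440_s4) (by decide) (by decide)
    (CellR2.step (Good.chk c16000_7160_7200_6400_6440_s5) (by decide) (by decide)
    (CellR2.step (Good.chk c16000_7160_7200_6400_6440_s6) (by decide) (by decide)
    (CellR2.step (Good.chk c16000_7160_7200_6400_6440_s7) (by decide) (by decide)
    (CellR2.step (Good.chk c16000_7160_7200_6400_6440_s8) (by decide) (by decide)
    (CellR2.step (Good.chk c16000_7160_7200_6400_6440_s9) (by decide) (by decide)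
    (CellR2.step (Good.chk c16000_7160_7200_6400_6440_s10) (by decide) (by decide)
    (CellR2.step (Good.chk c16000_7160_7200_6400_6440_s11) (by decide) (by decide)
    (CellR2.step (Good.chk c16000_7160_7200_6400_6440_s12) (by decide) (by decide)
    (CellR2.step (Good.chk c16000_7160_7200_6400_6440_s13) (by decide) (by decide)
    (CellR2.step (Good.chk c16000_7160_7200_6400_6440_s14) (by decide) (by decide)
    (CellR2.step (Good.chk c16000_7160_7200_6400_6440_s15) (by decide) (by decide)
    (CellR2.step (Good.chk c16000_7160_7200_6400_6440_s16) (by decide) (by decide)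
    (CellR2.step (Good.chk c16000_7160_7200_6400_6440_s17) (by decide) (by decide)
    (CellR2.step (Good.chk c16000_7160_7200_6400_6440_s18) (by decide) (by decide)
    (CellR2.step (Good.chk c16000_7160_7200_6400_6440_s19) (by decide) (by decide)
    (CellR2.step (Good.chk c16000_7160_7200_6400_6440_s20) (by decide) (by decide)
    (CellR2.step (Good.chk c16000_7160_7200_6400_6440_s21) (by decide) (by decide)
    (CellR2.step (Good.chk c16000_7160_7200_6400_6440_s22) (by decide) (by decide)
    (CellR2.fin c16000_7160_7200_6400_6440_f)))))))))))))))))))))))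

theorem c16000_7160_7200_6440_6480 : Cell2 16000 7160 7200 6440 6480 :=
  CellR2.step (Good.chk c16000_7160_7200_6440_6480_s0) (by decide) (by decide)
    (CellR2.step (Good.chk c16000_7160_7200_6440_6480_s1) (by decide) (by decide)
    (CellR2.step (Good.chk c16000_7160_7200_6440_6480_s2) (by decide) (by decide)
    (CellR2.step (Good.chk c16000_7160_7200_6440_6480_s3) (by decide) (by decide)
    (CellR2.step (Good.chk c16000_7160_7200_6440_6480_s4) (by decide) (by decide)
    (CellR2.step (Good.chk c16000_7160_7200_6440_6480_s5) (by decide) (by decide)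
    (CellR2.step (Good.chk c16000_7160_7200_6440_6480_s6) (by decide) (by decide)
    (CellR2.step (Good.chk c16000_7160_7200_6440_6480_s7) (by decide) (by decide)
    (CellR2.step (Good.chk c16000_7160_7200_6440_6480_s8) (by decide) (by decide)
    (CellR2.step (Good.chk c16000_7160_7200_6440_6480_s9) (by decide) (by decide)
    (CellR2.step (Good.chk c16000_7160_7200_6440_6480_s10) (by decide) (by decide)
    (CellR2.step (Good.chk c16000_7160_7200_6440_6480_s11) (by decide) (by decide)
    (CellR2.step (Good.chk c16000_7160_7200_6440_6480_s12) (by decide) (by decide)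
    (CellR2.step (Good.chk c16000_7160_7200_6440_6480_s13) (by decide) (by decide)
    (CellR2.step (Good.chk c16000_7160_7200_6440_6480_s14) (by decide) (by decide)
    (CellR2.step (Good.chk c16000_7160_7200_6440_6480_s15) (by decide) (by decide)
    (CellR2.step (Good.chk c16000_7160_7200_6440_6480_s16) (by decide) (by decide)
    (CellR2.step (Good.chk c16000_7160_7200_6440_6480_s17) (by decide) (by decide)
    (CellR2.step (Good.chk c16000_7160_7200_6440_6480_s18) (by decide) (by decide)
    (CellR2.step (Good.chk c16000_7160_7200_6440_6480_s19) (by decide) (by decide)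
    (CellR2.step (Good.chk c16000_7160_7200_6440_6480_s20) (by decide) (by decide)
    (CellR2.step (Good.chk c16000_7160_7200_6440_6480_s21) (by decide) (by decide)
    (CellR2.fin c16000_7160_7200_6440_6480_f))))))))))))))))))))))

theorem c16000_7160_7200_6480_6520 : Cell2 16000 7160 7200 6480 6520 :=
  CellR2.step (Good.chk c16000_7160_7200_6480_6520_s0) (by decide) (by decide)
    (CellR2.step (Good.chk c16000_7160_7200_6480_6520_s1) (by decide) (by decide)
    (CellR2.step (Good.chk c16000_7160_7200_6480_6520_s2) (by decide) (by decide)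
    (CellR2.step (Good.chk c16000_7160_7200_6480_6520_s3) (by decide) (by decide)
    (CellR2.step (Good.chk c16000_7160_7200_6480_6520_s4) (by decide) (by decide)
    (CellR2.step (Good.chk c16000_7160_7200_6480_6520_s5) (by decide) (by decide)
    (CellR2.step (Good.chk c16000_7160_7200_6480_6520_s6) (by decide) (by decide)
    (CellR2.step (Good.chk c16000_7160_7200_6480_6520_s7) (by decide) (by decide)
    (CellR2.step (Good.chk c16000_7160_7200_6480_6520_s8) (by decide) (by decide)
    (CellR2.step (Good.chk c16000_7160_7200_6480_6520_s9) (by decide) (by decide)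
    (CellR2.step (Good.chk c16000_7160_7200_6480_6520_s10) (by decide) (by decide)
    (CellR2.step (Good.chk c16000_7160_7200_6480_6520_s11) (by decide) (by decide)
    (CellR2.step (Good.chk c16000_7160_7200_6480_6520_s12) (by decide) (by decide)
    (CellR2.step (Good.chk c16000_7160_7200_6480_6520_s13) (by decide) (by decide)
    (CellR2.step (Good.chk c16000_7160_7200_6480_6520_s14) (by decide) (by decide)
    (CellR2.step (Good.chk c16000_7160_7200_6480_6520_s15) (by decide) (by decide)
    (CellR2.step (Good.chk c16000_7160_7200_6480_6520_s16) (by decide) (by decide)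
    (CellR2.step (Good.chk c16000_7160_7200_6480_6520_s17) (by decide) (by decide)
    (CellR2.step (Good.chk c16000_7160_7200_6480_6520_s18) (by decide) (by decide)
    (CellR2.step (Good.chk c16000_7160_7200_6480_6520_s19) (by decide) (by decide)
    (CellR2.step (Good.chk c16000_7160_7200_6480_6520_s20) (by decide) (by decide)
    (CellR2.step (Good.chk c16000_7160_7200_6480_6520_s21) (by decide) (by decide)
    (CellR2.step (Good.chk c16000_7160_7200_6480_6520_s22) (by decide) (by decide)
    (CellR2.fin c16000_7160_7200_6480_6520_f)))))))))))))))))))))))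

theorem c16000_7160_7200_6520_6560 : Cell2 16000 7160 7200 6520 6560 :=
  CellR2.step (Good.chk c16000_7160_7200_6520_6560_s0) (by decide) (by decide)
    (CellR2.step (Good.chk c16000_7160_7200_6520_6560_s1) (by decide) (by decide)
    (CellR2.step (Good.chk c16000_7160_7200_6520_6560_s2) (by decide) (by decide)
    (CellR2.step (Good.chk c16000_7160_7200_6520_6560_s3) (by decide) (by decide)
    (CellR2.step (Good.chk c16000_7160_7200_6520_6560_s4) (by decide) (by decide)
    (CellR2.step (Good.chk c16000_7160_7200_6520_6560_s5) (by decide) (by decide)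
    (CellR2.step (Good.chk c16000_7160_7200_6520_6560_s6) (by decide) (by decide)
    (CellR2.step (Good.chk c16000_7160_7200_6520_6560_s7) (by decide) (by decide)
    (CellR2.step (Good.chk c16000_7160_7200_6520_6560_s8) (by decide) (by decide)
    (CellR2.step (Good.chk c16000_7160_7200_6520_6560_s9) (by decide) (by decide)
    (CellR2.step (Good.chk c16000_7160_7200_6520_6560_s10) (by decide) (by decide)
    (CellR2.step (Good.chk c16000_7160_7200_6520_6560_s11) (by decide) (by decide)
    (CellR2.step (Good.chk c16000_7160_7200_6520_6560_s12) (by decide) (by decide)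
    (CellR2.step (Good.chk c16000_7160_7200_6520_6560_s13) (by decide) (by decide)
    (CellR2.step (Good.chk c16000_7160_7200_6520_6560_s14) (by decide) (by decide)
    (CellR2.step (Good.chk c16000_7160_7200_6520_6560_s15) (by decide) (by decide)
    (CellR2.step (Good.chk c16000_7160_7200_6520_6560_s16) (by decide) (by decide)
    (CellR2.step (Good.chk c16000_7160_7200_6520_6560_s17) (by decide) (by decide)
    (CellR2.step (Good.chk c16000_7160_7200_6520_6560_s18) (by decide) (by decide)
    (CellR2.step (Good.chk c16000_7160_7200_6520_6560_s19) (by decide) (by decide)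
    (CellR2.step (Good.chk c16000_7160_7200_6520_6560_s20) (by decide) (by decide)
    (CellR2.step (Good.chk c16000_7160_7200_6520_6560_s21) (by decide) (by decide)
    (CellR2.step (Good.chk c16000_7160_7200_6520_6560_s22) (by decide) (by decide)
    (CellR2.step (Good.chk c16000_7160_7200_6520_6560_s23) (by decide) (by decide)
    (CellR2.step (Good.chk c16000_7160_7200_6520_6560_s24) (by decide) (by decide)
    (CellR2.fin c16000_7160_7200_6520_6560_f)))))))))))))))))))))))))

theorem c16000_7200_7280_6320_6400 : Cell2 16000 7200 7280 6320 6400 :=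
  CellR2.step (Good.chk c16000_7200_7280_6320_6400_s0) (by decide) (by decide)
    (CellR2.step (Good.chk c16000_7200_7280_6320_6400_s1) (by decide) (by decide)
    (CellR2.step (Good.chk c16000_7200_7280_6320_6400_s2) (by decide) (by decide)
    (CellR2.step (Good.chk c16000_7200_7280_6320_6400_s3) (by decide) (by decide)
    (CellR2.step (Good.chk c16000_7200_7280_6320_6400_s4) (by decide) (by decide)
    (CellR2.step (Good.chk c16000_7200_7280_6320_6400_s5) (by decide) (by decide)
    (CellR2.step (Good.chk c16000_7200_7280_6320_6400_s6) (by decide) (by decide)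
    (CellR2.step (Good.chk c16000_7200_7280_6320_6400_s7) (by decide) (by decide)
    (CellR2.step (Good.chk c16000_7200_7280_6320_6400_s8) (by decide) (by decide)
    (CellR2.step (Good.chk c16000_7200_7280_6320_6400_s9) (by decide) (by decide)
    (CellR2.step (Good.chk c16000_7200_7280_6320_6400_s10) (by decide) (by decide)
    (CellR2.step (Good.chk c16000_7200_7280_6320_6400_s11) (by decide) (by decide)
    (CellR2.step (Good.chk c16000_7200_7280_6320_6400_s12) (by decide) (by decide)
    (CellR2.step (Good.chk c16000_7200_7280_6320_6400_s13) (by decide) (by decide)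
    (CellR2.step (Good.chk c16000_7200_7280_6320_6400_s14) (by decide) (by decide)
    (CellR2.step (Good.chk c16000_7200_7280_6320_6400_s15) (by decide) (by decide)
    (CellR2.step (Good.chk c16000_7200_7280_6320_6400_s16) (by decide) (by decide)
    (CellR2.step (Good.chk c16000_7200_7280_6320_6400_s17) (by decide) (by decide)
    (CellR2.step (Good.chk c16000_7200_7280_6320_6400_s18) (by decide) (by decide)
    (CellR2.step (Good.chk c16000_7200_7280_6320_6400_s19) (by decide) (by decide)
    (CellR2.step (Good.chk c16000_7200_7280_6320_6400_s20) (by decide) (by decide)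
    (CellR2.step (Good.chk c16000_7200_7280_6320_6400_s21) (by decide) (by decide)
    (CellR2.step (Good.chk c16000_7200_7280_6320_6400_s22) (by decide) (by decide)
    (CellR2.step (Good.chk c16000_7200_7280_6320_6400_s23) (by decide) (by decide)
    (CellR2.step (Good.chk c16000_7200_7280_6320_6400_s24) (by decide) (by decide)
    (CellR2.step (Good.chk c16000_7200_7280_6320_6400_s25) (by decide) (by decide)
    (CellR2.step (Good.chk c16000_7200_7280_6320_6400_s26) (by decide) (by decide)
    (CellR2.step (Good.chk c16000_7200_7280_6320_6400_s27) (by decide) (by decide)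
    (CellR2.step (Good.chk c16000_7200_7280_6320_6400_s28) (by decide) (by decide)
    (CellR2.step (Good.chk c16000_7200_7280_6320_6400_s29) (by decide) (by decide)
    (CellR2.step (Good.chk c16000_7200_7280_6320_6400_s30) (by decide) (by decide)
    (CellR2.fin c16000_7200_7280_6320_6400_f)))))))))))))))))))))))))))))))

theorem c16000_7200_7280_6480_6560 : Cell2 16000 7200 7280 6480 6560 :=
  CellR2.step (Good.chk c16000_7200_7280_6480_6560_s0) (by decide) (by decide)
    (CellR2.step (Good.chk c16000_7200_7280_6480_6560_s1) (by decide) (by decide)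
    (CellR2.step (Good.chk c16000_7200_7280_6480_6560_s2) (by decide) (by decide)
    (CellR2.step (Good.chk c16000_7200_7280_6480_6560_s3) (by decide) (by decide)
    (CellR2.step (Good.chk c16000_7200_7280_6480_6560_s4) (by decide) (by decide)
    (CellR2.step (Good.chk c16000_7200_7280_6480_6560_s5) (by decide) (by decide)
    (CellR2.step (Good.chk c16000_7200_7280_6480_6560_s6) (by decide) (by decide)
    (CellR2.step (Good.chk c16000_7200_7280_6480_6560_s7) (by decide) (by decide)
    (CellR2.step (Good.chk c16000_7200_7280_6480_6560_s8) (by decide) (by decide)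
    (CellR2.step (Good.chk c16000_7200_7280_6480_6560_s9) (by decide) (by decide)
    (CellR2.step (Good.chk c16000_7200_7280_6480_6560_s10) (by decide) (by decide)
    (CellR2.step (Good.chk c16000_7200_7280_6480_6560_s11) (by decide) (by decide)
    (CellR2.step (Good.chk c16000_7200_7280_6480_6560_s12) (by decide) (by decide)
    (CellR2.step (Good.chk c16000_7200_7280_6480_6560_s13) (by decide) (by decide)
    (CellR2.step (Good.chk c16000_7200_7280_6480_6560_s14) (by decide) (by decide)
    (CellR2.step (Good.chk c16000_7200_7280_6480_6560_s15) (by decide) (by decide)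
    (CellR2.step (Good.chk c16000_7200_7280_6480_6560_s16) (by decide) (by decide)
    (CellR2.step (Good.chk c16000_7200_7280_6480_6560_s17) (by decide) (by decide)
    (CellR2.step (Good.chk c16000_7200_7280_6480_6560_s18) (by decide) (by decide)
    (CellR2.step (Good.chk c16000_7200_7280_6480_6560_s19) (by decide) (by decide)
    (CellR2.step (Good.chk c16000_7200_7280_6480_6560_s20) (by decide) (by decide)
    (CellR2.step (Good.chk c16000_7200_7280_6480_6560_s21) (by decide) (by decide)
    (CellR2.step (Good.chk c16000_7200_7280_6480_6560_s22) (by decide) (by decide)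
    (CellR2.step (Good.chk c16000_7200_7280_6480_6560_s23) (by decide) (by decide)
    (CellR2.step (Good.chk c16000_7200_7280_6480_6560_s24) (by decide) (by decide)
    (CellR2.step (Good.chk c16000_7200_7280_6480_6560_s25) (by decide) (by decide)
    (CellR2.step (Good.chk c16000_7200_7280_6480_6560_s26) (by decide) (by decide)
    (CellR2.fin c16000_7200_7280_6480_6560_f)))))))))))))))))))))))))))

theorem c16000_7200_7280_6560_6640 : Cell2 16000 7200 7280 6560 6640 :=
  CellR2.step (Good.chk c16000_7200_7280_6560_6640_s0) (by decide) (by decide)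
    (CellR2.step (Good.chk c16000_7200_7280_6560_6640_s1) (by decide) (by decide)
    (CellR2.step (Good.chk c16000_7200_7280_6560_6640_s2) (by decide) (by decide)
    (CellR2.step (Good.chk c16000_7200_7280_6560_6640_s3) (by decide) (by decide)
    (CellR2.step (Good.chk c16000_7200_7280_6560_6640_s4) (by decide) (by decide)
    (CellR2.step (Good.chk c16000_7200_7280_6560_6640_s5) (by decide) (by decide)
    (CellR2.step (Good.chk c16000_7200_7280_6560_6640_s6) (by decide) (by decide)
    (CellR2.step (Good.chk c16000_7200_7280_6560_6640_s7) (by decide) (by decide)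
    (CellR2.step (Good.chk c16000_7200_7280_6560_6640_s8) (by decide) (by decide)
    (CellR2.step (Good.chk c16000_7200_7280_6560_6640_s9) (by decide) (by decide)
    (CellR2.step (Good.chk c16000_7200_7280_6560_6640_s10) (by decide) (by decide)
    (CellR2.step (Good.chk c16000_7200_7280_6560_6640_s11) (by decide) (by decide)
    (CellR2.step (Good.chk c16000_7200_7280_6560_6640_s12) (by decide) (by decide)
    (CellR2.step (Good.chk c16000_7200_7280_6560_6640_s13) (by decide) (by decide)
    (CellR2.step (Good.chk c16000_7200_7280_6560_6640_s14) (by decide) (by decide)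
    (CellR2.step (Good.chk c16000_7200_7280_6560_6640_s15) (by decide) (by decide)
    (CellR2.step (Good.chk c16000_7200_7280_6560_6640_s16) (by decide) (by decide)
    (CellR2.step (Good.chk c16000_7200_7280_6560_6640_s17) (by decide) (by decide)
    (CellR2.step (Good.chk c16000_7200_7280_6560_6640_s18) (by decide) (by decide)
    (CellR2.step (Good.chk c16000_7200_7280_6560_6640_s19) (by decide) (by decide)
    (CellR2.step (Good.chk c16000_7200_7280_6560_6640_s20) (by decide) (by decide)
    (CellR2.step (Good.chk c16000_7200_7280_6560_6640_s21) (by decide) (by decide)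
    (CellR2.step (Good.chk c16000_7200_7280_6560_6640_s22) (by decide) (by decide)
    (CellR2.step (Good.chk c16000_7200_7280_6560_6640_s23) (by decide) (by decide)
    (CellR2.step (Good.chk c16000_7200_7280_6560_6640_s24) (by decide) (by decide)
    (CellR2.fin c16000_7200_7280_6560_6640_f)))))))))))))))))))))))))

theorem c16000_7200_7280_6640_6720 : Cell2 16000 7200 7280 6640 6720 :=
  CellR2.step (Good.chk c16000_7200_7280_6640_6720_s0) (by decide) (by decide)
    (CellR2.step (Good.chk c16000_7200_7280_6640_6720_s1) (by decide) (by decide)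
    (CellR2.step (Good.chk c16000_7200_7280_6640_6720_s2) (by decide) (by decide)
    (CellR2.step (Good.chk c16000_7200_7280_6640_6720_s3) (by decide) (by decide)
    (CellR2.step (Good.chk c16000_7200_7280_6640_6720_s4) (by decide) (by decide)
    (CellR2.step (Good.chk c16000_7200_7280_6640_6720_s5) (by decide) (by decide)
    (CellR2.step (Good.chk c16000_7200_7280_6640_6720_s6) (by decide) (by decide)
    (CellR2.step (Good.chk c16000_7200_7280_6640_6720_s7) (by decide) (by decide)
    (CellR2.step (Good.chk c16000_7200_7280_6640_6720_s8) (by decide) (by decide)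
    (CellR2.step (Good.chk c16000_7200_7280_6640_6720_s9) (by decide) (by decide)
    (CellR2.step (Good.chk c16000_7200_7280_6640_6720_s10) (by decide) (by decide)
    (CellR2.step (Good.chk c16000_7200_7280_6640_6720_s11) (by decide) (by decide)
    (CellR2.step (Good.chk c16000_7200_7280_6640_6720_s12) (by decide) (by decide)
    (CellR2.step (Good.chk c16000_7200_7280_6640_6720_s13) (by decide) (by decide)
    (CellR2.step (Good.chk c16000_7200_7280_6640_6720_s14) (by decide) (by decide)
    (CellR2.step (Good.chk c16000_7200_7280_6640_6720_s15) (by decide) (by decide)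
    (CellR2.step (Good.chk c16000_7200_7280_6640_6720_s16) (by decide) (by decide)
    (CellR2.step (Good.chk c16000_7200_7280_6640_6720_s17) (by decide) (by decide)
    (CellR2.step (Good.chk c16000_7200_7280_6640_6720_s18) (by decide) (by decide)
    (CellR2.step (Good.chk c16000_7200_7280_6640_6720_s19) (by decide) (by decide)
    (CellR2.step (Good.chk c16000_7200_7280_6640_6720_s20) (by decide) (by decide)
    (CellR2.step (Good.chk c16000_7200_7280_6640_6720_s21) (by decide) (by decide)
    (CellR2.step (Good.chk c16000_7200_7280_6640_6720_s22) (by decide) (by decide)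
    (CellR2.step (Good.chk c16000_7200_7280_6640_6720_s23) (by decide) (by decide)
    (CellR2.step (Good.chk c16000_7200_7280_6640_6720_s24) (by decide) (by decide)
    (CellR2.step (Good.chk c16000_7200_7280_6640_6720_s25) (by decide) (by decide)
    (CellR2.step (Good.chk c16000_7200_7280_6640_6720_s26) (by decide) (by decide)
    (CellR2.step (Good.chk c16000_7200_7280_6640_6720_s27) (by decide) (by decide)
    (CellR2.step (Good.chk c16000_7200_7280_6640_6720_s28) (by decide) (by decide)
    (CellR2.step (Good.chk c16000_7200_7280_6640_6720_s29) (by decide) (by decide)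
    (CellR2.fin c16000_7200_7280_6640_6720_f))))))))))))))))))))))))))))))

theorem c16000_7280_7360_6240_6320 : Cell2 16000 7280 7360 6240 6320 :=
  CellR2.step (Good.chk c16000_7280_7360_6240_6320_s0) (by decide) (by decide)
    (CellR2.step (Good.chk c16000_7280_7360_6240_6320_s1) (by decide) (by decide)
    (CellR2.step (Good.chk c16000_7280_7360_6240_6320_s2) (by decide) (by decide)
    (CellR2.step (Good.chk c16000_7280_7360_6240_6320_s3) (by decide) (by decide)
    (CellR2.step (Good.chk c16000_7280_7360_6240_6320_s4) (by decide) (by decide)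
    (CellR2.step (Good.chk c16000_7280_7360_6240_6320_s5) (by decide) (by decide)
    (CellR2.step (Good.chk c16000_7280_7360_6240_6320_s6) (by decide) (by decide)
    (CellR2.step (Good.chk c16000_7280_7360_6240_6320_s7) (by decide) (by decide)
    (CellR2.step (Good.chk c16000_7280_7360_6240_6320_s8) (by decide) (by decide)
    (CellR2.step (Good.chk c16000_7280_7360_6240_6320_s9) (by decide) (by decide)
    (CellR2.step (Good.chk c16000_7280_7360_6240_6320_s10) (by decide) (by decide)
    (CellR2.step (Good.chk c16000_7280_7360_6240_6320_s11) (by decide) (by decide)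
    (CellR2.step (Good.chk c16000_7280_7360_6240_6320_s12) (by decide) (by decide)
    (CellR2.step (Good.chk c16000_7280_7360_6240_6320_s13) (by decide) (by decide)
    (CellR2.step (Good.chk c16000_7280_7360_6240_6320_s14) (by decide) (by decide)
    (CellR2.step (Good.chk c16000_7280_7360_6240_6320_s15) (by decide) (by decide)
    (CellR2.step (Good.chk c16000_7280_7360_6240_6320_s16) (by decide) (by decide)
    (CellR2.step (Good.chk c16000_7280_7360_6240_6320_s17) (by decide) (by decide)
    (CellR2.step (Good.chk c16000_7280_7360_6240_6320_s18) (by decide) (by decide)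
    (CellR2.step (Good.chk c16000_7280_7360_6240_6320_s19) (by decide) (by decide)
    (CellR2.step (Good.chk c16000_7280_7360_6240_6320_s20) (by decide) (by decide)
    (CellR2.step (Good.chk c16000_7280_7360_6240_6320_s21) (by decide) (by decide)
    (CellR2.step (Good.chk c16000_7280_7360_6240_6320_s22) (by decide) (by decide)
    (CellR2.step (Good.chk c16000_7280_7360_6240_6320_s23) (by decide) (by decide)
    (CellR2.step (Good.chk c16000_7280_7360_6240_6320_s24) (by decide) (by decide)
    (CellR2.step (Good.chk c16000_7280_7360_6240_6320_s25) (by decide) (by decide)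
    (CellR2.step (Good.chk c16000_7280_7360_6240_6320_s26) (by decide) (by decide)
    (CellR2.step (Good.chk c16000_7280_7360_6240_6320_s27) (by decide) (by decide)
    (CellR2.step (Good.chk c16000_7280_7360_6240_6320_s28) (by decide) (by decide)
    (CellR2.step (Good.chk c16000_7280_7360_6240_6320_s29) (by decide) (by decide)
    (CellR2.fin c16000_7280_7360_6240_6320_f))))))))))))))))))))))))))))))

theorem c16000_7280_7360_6400_6480 : Cell2 16000 7280 7360 6400 6480 :=
  CellR2.step (Good.chk c16000_7280_7360_6400_6480_s0) (by decide) (by decide)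
    (CellR2.step (Good.chk c16000_7280_7360_6400_6480_s1) (by decide) (by decide)
    (CellR2.step (Good.chk c16000_7280_7360_6400_6480_s2) (by decide) (by decide)
    (CellR2.step (Good.chk c16000_7280_7360_6400_6480_s3) (by decide) (by decide)
    (CellR2.step (Good.chk c16000_7280_7360_6400_6480_s4) (by decide) (by decide)
    (CellR2.step (Good.chk c16000_7280_7360_6400_6480_s5) (by decide) (by decide)
    (CellR2.step (Good.chk c16000_7280_7360_6400_6480_s6) (by decide) (by decide)
    (CellR2.step (Good.chk c16000_7280_7360_6400_6480_s7) (by decide) (by decide)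
    (CellR2.step (Good.chk c16000_7280_7360_6400_6480_s8) (by decide) (by decide)
    (CellR2.step (Good.chk c16000_7280_7360_6400_6480_s9) (by decide) (by decide)
    (CellR2.step (Good.chk c16000_7280_7360_6400_6480_s10) (by decide) (by decide)
    (CellR2.step (Good.chk c16000_7280_7360_6400_6480_s11) (by decide) (by decide)
    (CellR2.step (Good.chk c16000_7280_7360_6400_6480_s12) (by decide) (by decide)
    (CellR2.step (Good.chk c16000_7280_7360_6400_6480_s13) (by decide) (by decide)
    (CellR2.step (Good.chk c16000_7280_7360_6400_6480_s14) (by decide) (by decide)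
    (CellR2.step (Good.chk c16000_7280_7360_6400_6480_s15) (by decide) (by decide)
    (CellR2.step (Good.chk c16000_7280_7360_6400_6480_s16) (by decide) (by decide)
    (CellR2.step (Good.chk c16000_7280_7360_6400_6480_s17) (by decide) (by decide)
    (CellR2.step (Good.chk c16000_7280_7360_6400_6480_s18) (by decide) (by decide)
    (CellR2.step (Good.chk c16000_7280_7360_6400_6480_s19) (by decide) (by decide)
    (CellR2.step (Good.chk c16000_7280_7360_6400_6480_s20) (by decide) (by decide)
    (CellR2.step (Good.chk c16000_7280_7360_6400_6480_s21) (by decide) (by decide)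
    (CellR2.step (Good.chk c16000_7280_7360_6400_6480_s22) (by decide) (by decide)
    (CellR2.fin c16000_7280_7360_6400_6480_f)))))))))))))))))))))))

theorem c16000_7280_7360_6480_6560 : Cell2 16000 7280 7360 6480 6560 :=
  CellR2.step (Good.chk c16000_7280_7360_6480_6560_s0) (by decide) (by decide)
    (CellR2.step (Good.chk c16000_7280_7360_6480_6560_s1) (by decide) (by decide)
    (CellR2.step (Good.chk c16000_7280_7360_6480_6560_s2) (by decide) (by decide)
    (CellR2.step (Good.chk c16000_7280_7360_6480_6560_s3) (by decide) (by decide)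
    (CellR2.step (Good.chk c16000_7280_7360_6480_6560_s4) (by decide) (by decide)
    (CellR2.step (Good.chk c16000_7280_7360_6480_6560_s5) (by decide) (by decide)
    (CellR2.step (Good.chk c16000_7280_7360_6480_6560_s6) (by decide) (by decide)
    (CellR2.step (Good.chk c16000_7280_7360_6480_6560_s7) (by decide) (by decide)
    (CellR2.step (Good.chk c16000_7280_7360_6480_6560_s8) (by decide) (by decide)
    (CellR2.step (Good.chk c16000_7280_7360_6480_6560_s9) (by decide) (by decide)
    (CellR2.step (Good.chk c16000_7280_7360_6480_6560_s10) (by decide) (by decide)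
    (CellR2.step (Good.chk c16000_7280_7360_6480_6560_s11) (by decide) (by decide)
    (CellR2.step (Good.chk c16000_7280_7360_6480_6560_s12) (by decide) (by decide)
    (CellR2.step (Good.chk c16000_7280_7360_6480_6560_s13) (by decide) (by decide)
    (CellR2.step (Good.chk c16000_7280_7360_6480_6560_s14) (by decide) (by decide)
    (CellR2.step (Good.chk c16000_7280_7360_6480_6560_s15) (by decide) (by decide)
    (CellR2.step (Good.chk c16000_7280_7360_6480_6560_s16) (by decide) (by decide)
    (CellR2.step (Good.chk c16000_7280_7360_6480_6560_s17) (by decide) (by decide)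
    (CellR2.step (Good.chk c16000_7280_7360_6480_6560_s18) (by decide) (by decide)
    (CellR2.step (Good.chk c16000_7280_7360_6480_6560_s19) (by decide) (by decide)
    (CellR2.step (Good.chk c16000_7280_7360_6480_6560_s20) (by decide) (by decide)
    (CellR2.step (Good.chk c16000_7280_7360_6480_6560_s21) (by decide) (by decide)
    (CellR2.step (Good.chk c16000_7280_7360_6480_6560_s22) (by decide) (by decide)
    (CellR2.step (Good.chk c16000_7280_7360_6480_6560_s23) (by decide) (by decide)
    (CellR2.step (Good.chk c16000_7280_7360_6480_6560_s24) (by decide) (by decide)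
    (CellR2.step (Good.chk c16000_7280_7360_6480_6560_s25) (by decide) (by decide)
    (CellR2.step (Good.chk c16000_7280_7360_6480_6560_s26) (by decide) (by decide)
    (CellR2.step (Good.chk c16000_7280_7360_6480_6560_s27) (by decide) (by decide)
    (CellR2.step (Good.chk c16000_7280_7360_6480_6560_s28) (by decide) (by decide)
    (CellR2.step (Good.chk c16000_7280_7360_6480_6560_s29) (by decide) (by decide)
    (CellR2.fin c16000_7280_7360_6480_6560_f))))))))))))))))))))))))))))))

theorem c16000_7280_7360_6640_6720 : Cell2 16000 7280 7360 6640 6720 :=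
  CellR2.step (Good.chk c16000_7280_7360_6640_6720_s0) (by decide) (by decide)
    (CellR2.step (Good.chk c16000_7280_7360_6640_6720_s1) (by decide) (by decide)
    (CellR2.step (Good.chk c16000_7280_7360_6640_6720_s2) (by decide) (by decide)
    (CellR2.step (Good.chk c16000_7280_7360_6640_6720_s3) (by decide) (by decide)
    (CellR2.step (Good.chk c16000_7280_7360_6640_6720_s4) (by decide) (by decide)
    (CellR2.step (Good.chk c16000_7280_7360_6640_6720_s5) (by decide) (by decide)
    (CellR2.step (Good.chk c16000_7280_7360_6640_6720_s6) (by decide) (by decide)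
    (CellR2.step (Good.chk c16000_7280_7360_6640_6720_s7) (by decide) (by decide)
    (CellR2.step (Good.chk c16000_7280_7360_6640_6720_s8) (by decide) (by decide)
    (CellR2.step (Good.chk c16000_7280_7360_6640_6720_s9) (by decide) (by decide)
    (CellR2.step (Good.chk c16000_7280_7360_6640_6720_s10) (by decide) (by decide)
    (CellR2.step (Good.chk c16000_7280_7360_6640_6720_s11) (by decide) (by decide)
    (CellR2.step (Good.chk c16000_7280_7360_6640_6720_s12) (by decide) (by decide)
    (CellR2.step (Good.chk c16000_7280_7360_6640_6720_s13) (by decide) (by decide)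
    (CellR2.step (Good.chk c16000_7280_7360_6640_6720_s14) (by decide) (by decide)
    (CellR2.step (Good.chk c16000_7280_7360_6640_6720_s15) (by decide) (by decide)
    (CellR2.step (Good.chk c16000_7280_7360_6640_6720_s16) (by decide) (by decide)
    (CellR2.step (Good.chk c16000_7280_7360_6640_6720_s17) (by decide) (by decide)
    (CellR2.step (Good.chk c16000_7280_7360_6640_6720_s18) (by decide) (by decide)
    (CellR2.step (Good.chk c16000_7280_7360_6640_6720_s19) (by decide) (by decide)
    (CellR2.fin c16000_7280_7360_6640_6720_f))))))))))))))))))))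

end Pool.Agent.Helper5.B54
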