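import Pool.Agent.Helper5.B54v2.Cell2
import Pool.Agent.Helper5.B54v2.T.C000
import Pool.Agent.Helper5.B54v2.T.C001
import Pool.Agent.Helper5.B54v2.T.C002
import Pool.Agent.Helper5.B54v2.T.C003
import Pool.Agent.Helper5.B54v2.T.C004
import Pool.Agent.Helper5.B54v2.T.C005
import Pool.Agent.Helper5.B54v2.T.C006
import Pool.Agent.Helper5.B54v2.T.C007
import Pool.Agent.Helper5.B54v2.T.C008
import Pool.Agent.Helper5.B54v2.T.C009
import Pool.Agent.Helper5.B54v2.T.C010
import Pool.Agent.Helper5.B54v2.T.C011
import Pool.Agent.Helper5.B54v2.T.C012
import Pool.Agent.Helper5.B54v2.T.C013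
import Pool.Agent.Helper5.B54v2.T.C014
import Pool.Agent.Helper5.B54v2.T.C015
import Pool.Agent.Helper5.B54v2.T.C016
import Pool.Agent.Helper5.B54v2.T.C017
import Pool.Agent.Helper5.B54v2.T.C018
import Pool.Agent.Helper5.B54v2.T.C019
import Pool.Agent.Helper5.B54v2.T.C020
import Pool.Agent.Helper5.B54v2.T.C021
import Pool.Agent.Helper5.B54v2.T.C022
import Pool.Agent.Helper5.B54v2.T.C023
import Pool.Agent.Helper5.B54v2.T.C024
import Pool.Agent.Helper5.B54v2.T.C025
import Pool.Agent.Helper5.B54v2.T.C026
import Pool.Agent.Helper5.B54v2.T.C027
import Pool.Agent.Helper5.B54v2.T.C028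
import Pool.Agent.Helper5.B54v2.T.C029
import Pool.Agent.Helper5.B54v2.T.C030
import Pool.Agent.Helper5.B54v2.T.C031

/-!
# Cells
-/

namespace Pool.Agent.Helper5.B54

theorem c16000_7200_7240_6240_6280 : Cell2 16000 7200 7240 6240 6280 :=
  CellR2.step (Good.chk c16000_7200_7240_6240_6280_s0) (by decide) (by decide)
    (CellR2.step (Good.chk c16000_7200_7240_6240_6280_s1) (by decide) (by decide)
    (CellR2.step (Good.chk c16000_7200_7240_6240_6280_s2) (by decide) (by decide)
    (CellR2.step (Good.chk c16000_7200_7240_6240_6280_s3) (by decide) (by decide)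
    (CellR2.step (Good.chk c16000_7200_7240_6240_6280_s4) (by decide) (by decide)
    (CellR2.step (Good.chk c16000_7200_7240_6240_6280_s5) (by decide) (by decide)
    (CellR2.step (Good.chk c16000_7200_7240_6240_6280_s6) (by decide) (by decide)
    (CellR2.step (Good.chk c16000_7200_7240_6240_6280_s7) (by decide) (by decide)
    (CellR2.step (Good.chk c16000_7200_7240_6240_6280_s8) (by decide) (by decide)
    (CellR2.step (Good.chk c16000_7200_7240_6240_6280_s9) (by decide) (by decide)
    (CellR2.step (Good.chk c16000_7200_7240_6240_6280_s10) (by decide) (by decide)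
    (CellR2.step (Good.chk c16000_7200_7240_6240_6280_s11) (by decide) (by decide)
    (CellR2.step (Good.chk c16000_7200_7240_6240_6280_s12) (by decide) (by decide)
    (CellR2.step (Good.chk c16000_7200_7240_6240_6280_s13) (by decide) (by decide)
    (CellR2.fin c16000_7200_7240_6240_6280_f))))))))))))))

theorem c16000_7200_7240_6280_6320 : Cell2 16000 7200 7240 6280 6320 :=
  CellR2.step (Good.chk c16000_7200_7240_6280_6320_s0) (by decide) (by decide)
    (CellR2.step (Good.chk c16000_7200_7240_6280_6320_s1) (by decide) (by decide)
    (CellR2.step (Good.chk c16000_7200_7240_6280_6320_s2) (by decide) (by decide)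
    (CellR2.step (Good.chk c16000_7200_7240_6280_6320_s3) (by decide) (by decide)
    (CellR2.step (Good.chk c16000_7200_7240_6280_6320_s4) (by decide) (by decide)
    (CellR2.step (Good.chk c16000_7200_7240_6280_6320_s5) (by decide) (by decide)
    (CellR2.step (Good.chk c16000_7200_7240_6280_6320_s6) (by decide) (by decide)
    (CellR2.step (Good.chk c16000_7200_7240_6280_6320_s7) (by decide) (by decide)
    (CellR2.step (Good.chk c16000_7200_7240_6280_6320_s8) (by decide) (by decide)
    (CellR2.step (Good.chk c16000_7200_7240_6280_6320_s9) (by decide) (by decide)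
    (CellR2.step (Good.chk c16000_7200_7240_6280_6320_s10) (by decide) (by decide)
    (CellR2.step (Good.chk c16000_7200_7240_6280_6320_s11) (by decide) (by decide)
    (CellR2.step (Good.chk c16000_7200_7240_6280_6320_s12) (by decide) (by decide)
    (CellR2.step (Good.chk c16000_7200_7240_6280_6320_s13) (by decide) (by decide)
    (CellR2.step (Good.chk c16000_7200_7240_6280_6320_s14) (by decide) (by decide)
    (CellR2.fin c16000_7200_7240_6280_6320_f)))))))))))))))

theorem c16000_7240_7280_6240_6280 : Cell2 16000 7240 7280 6240 6280 :=
  CellR2.step (Good.chk c16000_7240_7280_6240_6280_s0) (by decide) (by decide)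
    (CellR2.step (Good.chk c16000_7240_7280_6240_6280_s1) (by decide) (by decide)
    (CellR2.step (Good.chk c16000_7240_7280_6240_6280_s2) (by decide) (by decide)
    (CellR2.step (Good.chk c16000_7240_7280_6240_6280_s3) (by decide) (by decide)
    (CellR2.step (Good.chk c16000_7240_7280_6240_6280_s4) (by decide) (by decide)
    (CellR2.step (Good.chk c16000_7240_7280_6240_6280_s5) (by decide) (by decide)
    (CellR2.step (Good.chk c16000_7240_7280_6240_6280_s6) (by decide) (by decide)
    (CellR2.step (Good.chk c16000_7240_7280_6240_6280_s7) (by decide) (by decide)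
    (CellR2.step (Good.chk c16000_7240_7280_6240_6280_s8) (by decide) (by decide)
    (CellR2.step (Good.chk c16000_7240_7280_6240_6280_s9) (by decide) (by decide)
    (CellR2.step (Good.chk c16000_7240_7280_6240_6280_s10) (by decide) (by decide)
    (CellR2.step (Good.chk c16000_7240_7280_6240_6280_s11) (by decide) (by decide)
    (CellR2.step (Good.chk c16000_7240_7280_6240_6280_s12) (by decide) (by decide)
    (CellR2.step (Good.chk c16000_7240_7280_6240_6280_s13) (by decide) (by decide)
    (CellR2.step (Good.chk c16000_7240_7280_6240_6280_s14) (by decide) (by decide)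
    (CellR2.step (Good.chk c16000_7240_7280_6240_6280_s15) (by decide) (by decide)
    (CellR2.step (Good.chk c16000_7240_7280_6240_6280_s16) (by decide) (by decide)
    (CellR2.step (Good.chk c16000_7240_7280_6240_6280_s17) (by decide) (by decide)
    (CellR2.fin c16000_7240_7280_6240_6280_f))))))))))))))))))

theorem c16000_7240_7280_6280_6320 : Cell2 16000 7240 7280 6280 6320 :=
  CellR2.step (Good.chk c16000_7240_7280_6280_6320_s0) (by decide) (by decide)
    (CellR2.step (Good.chk c16000_7240_7280_6280_6320_s1) (by decide) (by decide)
    (CellR2.step (Good.chk c16000_7240_7280_6280_6320_s2) (by decide) (by decide)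
    (CellR2.step (Good.chk c16000_7240_7280_6280_6320_s3) (by decide) (by decide)
    (CellR2.step (Good.chk c16000_7240_7280_6280_6320_s4) (by decide) (by decide)
    (CellR2.step (Good.chk c16000_7240_7280_6280_6320_s5) (by decide) (by decide)
    (CellR2.step (Good.chk c16000_7240_7280_6280_6320_s6) (by decide) (by decide)
    (CellR2.step (Good.chk c16000_7240_7280_6280_6320_s7) (by decide) (by decide)
    (CellR2.step (Good.chk c16000_7240_7280_6280_6320_s8) (by decide) (by decide)
    (CellR2.step (Good.chk c16000_7240_7280_6280_6320_s9) (by decide) (by decide)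
    (CellR2.step (Good.chk c16000_7240_7280_6280_6320_s10) (by decide) (by decide)
    (CellR2.step (Good.chk c16000_7240_7280_6280_6320_s11) (by decide) (by decide)
    (CellR2.step (Good.chk c16000_7240_7280_6280_6320_s12) (by decide) (by decide)
    (CellR2.step (Good.chk c16000_7240_7280_6280_6320_s13) (by decide) (by decide)
    (CellR2.step (Good.chk c16000_7240_7280_6280_6320_s14) (by decide) (by decide)
    (CellR2.fin c16000_7240_7280_6280_6320_f)))))))))))))))

theorem c16000_7280_7360_6320_6400 : Cell2 16000 7280 7360 6320 6400 :=
  CellR2.step (Good.chk c16000_7280_7360_6320_6400_s0) (by decide) (by decide)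
    (CellR2.step (Good.chk c16000_7280_7360_6320_6400_s1) (by decide) (by decide)
    (CellR2.step (Good.chk c16000_7280_7360_6320_6400_s2) (by decide) (by decide)
    (CellR2.step (Good.chk c16000_7280_7360_6320_6400_s3) (by decide) (by decide)
    (CellR2.step (Good.chk c16000_7280_7360_6320_6400_s4) (by decide) (by decide)
    (CellR2.step (Good.chk c16000_7280_7360_6320_6400_s5) (by decide) (by decide)
    (CellR2.step (Good.chk c16000_7280_7360_6320_6400_s6) (by decide) (by decide)
    (CellR2.step (Good.chk c16000_7280_7360_6320_6400_s7) (by decide) (by decide)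
    (CellR2.step (Good.chk c16000_7280_7360_6320_6400_s8) (by decide) (by decide)
    (CellR2.step (Good.chk c16000_7280_7360_6320_6400_s9) (by decide) (by decide)
    (CellR2.step (Good.chk c16000_7280_7360_6320_6400_s10) (by decide) (by decide)
    (CellR2.step (Good.chk c16000_7280_7360_6320_6400_s11) (by decide) (by decide)
    (CellR2.step (Good.chk c16000_7280_7360_6320_6400_s12) (by decide) (by decide)
    (CellR2.step (Good.chk c16000_7280_7360_6320_6400_s13) (by decide) (by decide)
    (CellR2.step (Good.chk c16000_7280_7360_6320_6400_s14) (by decide) (by decide)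
    (CellR2.step (Good.chk c16000_7280_7360_6320_6400_s15) (by decide) (by decide)
    (CellR2.step (Good.chk c16000_7280_7360_6320_6400_s16) (by decide) (by decide)
    (CellR2.step (Good.chk c16000_7280_7360_6320_6400_s17) (by decide) (by decide)
    (CellR2.step (Good.chk c16000_7280_7360_6320_6400_s18) (by decide) (by decide)
    (CellR2.step (Good.chk c16000_7280_7360_6320_6400_s19) (by decide) (by decide)
    (CellR2.step (Good.chk c16000_7280_7360_6320_6400_s20) (by decide) (by decide)
    (CellR2.step (Good.chk c16000_7280_7360_6320_6400_s21) (by decide) (by decide)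
    (CellR2.step (Good.chk c16000_7280_7360_6320_6400_s22) (by decide) (by decide)
    (CellR2.step (Good.chk c16000_7280_7360_6320_6400_s23) (by decide) (by decide)
    (CellR2.step (Good.chk c16000_7280_7360_6320_6400_s24) (by decide) (by decide)
    (CellR2.step (Good.chk c16000_7280_7360_6320_6400_s25) (by decide) (by decide)
    (CellR2.step (Good.chk c16000_7280_7360_6320_6400_s26) (by decide) (by decide)
    (CellR2.step (Good.chk c16000_7280_7360_6320_6400_s27) (by decide) (by decide)
    (CellR2.step (Good.chk c16000_7280_7360_6320_6400_s28) (by decide) (by decide)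
    (CellR2.fin c16000_7280_7360_6320_6400_f)))))))))))))))))))))))))))))

theorem c16000_7280_7320_6560_6600 : Cell2 16000 7280 7320 6560 6600 :=
  CellR2.step (Good.chk c16000_7280_7320_6560_6600_s0) (by decide) (by decide)
    (CellR2.step (Good.chk c16000_7280_7320_6560_6600_s1) (by decide) (by decide)
    (CellR2.step (Good.chk c16000_7280_7320_6560_6600_s2) (by decide) (by decide)
    (CellR2.step (Good.chk c16000_7280_7320_6560_6600_s3) (by decide) (by decide)
    (CellR2.step (Good.chk c16000_7280_7320_6560_6600_s4) (by decide) (by decide)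
    (CellR2.step (Good.chk c16000_7280_7320_6560_6600_s5) (by decide) (by decide)
    (CellR2.step (Good.chk c16000_7280_7320_6560_6600_s6) (by decide) (by decide)
    (CellR2.step (Good.chk c16000_7280_7320_6560_6600_s7) (by decide) (by decide)
    (CellR2.step (Good.chk c16000_7280_7320_6560_6600_s8) (by decide) (by decide)
    (CellR2.step (Good.chk c16000_7280_7320_6560_6600_s9) (by decide) (by decide)
    (CellR2.step (Good.chk c16000_7280_7320_6560_6600_s10) (by decide) (by decide)
    (CellR2.step (Good.chk c16000_7280_7320_6560_6600_s11) (by decide) (by decide)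
    (CellR2.step (Good.chk c16000_7280_7320_6560_6600_s12) (by decide) (by decide)
    (CellR2.step (Good.chk c16000_7280_7320_6560_6600_s13) (by decide) (by decide)
    (CellR2.step (Good.chk c16000_7280_7320_6560_6600_s14) (by decide) (by decide)
    (CellR2.step (Good.chk c16000_7280_7320_6560_6600_s15) (by decide) (by decide)
    (CellR2.fin c16000_7280_7320_6560_6600_f))))))))))))))))

theorem c16000_7280_7320_6600_6640 : Cell2 16000 7280 7320 6600 6640 :=
  CellR2.step (Good.chk c16000_7280_7320_6600_6640_s0) (by decide) (by decide)
    (CellR2.step (Good.chk c16000_7280_7320_6600_6640_s1) (by decide) (by decide)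
    (CellR2.step (Good.chk c16000_7280_7320_6600_6640_s2) (by decide) (by decide)
    (CellR2.step (Good.chk c16000_7280_7320_6600_6640_s3) (by decide) (by decide)
    (CellR2.step (Good.chk c16000_7280_7320_6600_6640_s4) (by decide) (by decide)
    (CellR2.step (Good.chk c16000_7280_7320_6600_6640_s5) (by decide) (by decide)
    (CellR2.step (Good.chk c16000_7280_7320_6600_6640_s6) (by decide) (by decide)
    (CellR2.step (Good.chk c16000_7280_7320_6600_6640_s7) (by decide) (by decide)
    (CellR2.step (Good.chk c16000_7280_7320_6600_6640_s8) (by decide) (by decide)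
    (CellR2.step (Good.chk c16000_7280_7320_6600_6640_s9) (by decide) (by decide)
    (CellR2.step (Good.chk c16000_7280_7320_6600_6640_s10) (by decide) (by decide)
    (CellR2.step (Good.chk c16000_7280_7320_6600_6640_s11) (by decide) (by decide)
    (CellR2.step (Good.chk c16000_7280_7320_6600_6640_s12) (by decide) (by decide)
    (CellR2.step (Good.chk c16000_7280_7320_6600_6640_s13) (by decide) (by decide)
    (CellR2.step (Good.chk c16000_7280_7320_6600_6640_s14) (by decide) (by decide)
    (CellR2.step (Good.chk c16000_7280_7320_6600_6640_s15) (by decide) (by decide)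
    (CellR2.step (Good.chk c16000_7280_7320_6600_6640_s16) (by decide) (by decide)
    (CellR2.fin c16000_7280_7320_6600_6640_f)))))))))))))))))

theorem c16000_7320_7360_6560_6600 : Cell2 16000 7320 7360 6560 6600 :=
  CellR2.step (Good.chk c16000_7320_7360_6560_6600_s0) (by decide) (by decide)
    (CellR2.step (Good.chk c16000_7320_7360_6560_6600_s1) (by decide) (by decide)
    (CellR2.step (Good.chk c16000_7320_7360_6560_6600_s2) (by decide) (by decide)
    (CellR2.step (Good.chk c16000_7320_7360_6560_6600_s3) (by decide) (by decide)
    (CellR2.step (Good.chk c16000_7320_7360_6560_6600_s4) (by decide) (by decide)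
    (CellR2.step (Good.chk c16000_7320_7360_6560_6600_s5) (by decide) (by decide)
    (CellR2.step (Good.chk c16000_7320_7360_6560_6600_s6) (by decide) (by decide)
    (CellR2.step (Good.chk c16000_7320_7360_6560_6600_s7) (by decide) (by decide)
    (CellR2.step (Good.chk c16000_7320_7360_6560_6600_s8) (by decide) (by decide)
    (CellR2.step (Good.chk c16000_7320_7360_6560_6600_s9) (by decide) (by decide)
    (CellR2.fin c16000_7320_7360_6560_6600_f))))))))))

theorem c16000_7320_7360_6600_6640 : Cell2 16000 7320 7360 6600 6640 :=
  CellR2.step (Good.chk c16000_7320_7360_6600_6640_s0) (by decide) (by decide)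
    (CellR2.step (Good.chk c16000_7320_7360_6600_6640_s1) (by decide) (by decide)
    (CellR2.step (Good.chk c16000_7320_7360_6600_6640_s2) (by decide) (by decide)
    (CellR2.step (Good.chk c16000_7320_7360_6600_6640_s3) (by decide) (by decide)
    (CellR2.step (Good.chk c16000_7320_7360_6600_6640_s4) (by decide) (by decide)
    (CellR2.step (Good.chk c16000_7320_7360_6600_6640_s5) (by decide) (by decide)
    (CellR2.step (Good.chk c16000_7320_7360_6600_6640_s6) (by decide) (by decide)
    (CellR2.step (Good.chk c16000_7320_7360_6600_6640_s7) (by decide) (by decide)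
    (CellR2.step (Good.chk c16000_7320_7360_6600_6640_s8) (by decide) (by decide)
    (CellR2.step (Good.chk c16000_7320_7360_6600_6640_s9) (by decide) (by decide)
    (CellR2.step (Good.chk c16000_7320_7360_6600_6640_s10) (by decide) (by decide)
    (CellR2.step (Good.chk c16000_7320_7360_6600_6640_s11) (by decide) (by decide)
    (CellR2.step (Good.chk c16000_7320_7360_6600_6640_s12) (by decide) (by decide)
    (CellR2.step (Good.chk c16000_7320_7360_6600_6640_s13) (by decide) (by decide)
    (CellR2.step (Good.chk c16000_7320_7360_6600_6640_s14) (by decide) (by decide)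
    (CellR2.step (Good.chk c16000_7320_7360_6600_6640_s15) (by decide) (by decide)
    (CellR2.fin c16000_7320_7360_6600_6640_f))))))))))))))))

end Pool.Agent.Helper5.B54
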