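import Pool.Agent.Helper5.B54v2.Cell2
import Pool.Agent.Helper5.B54v2.T.D000
import Pool.Agent.Helper5.B54v2.T.D001
import Pool.Agent.Helper5.B54v2.T.D002
import Pool.Agent.Helper5.B54v2.T.D003
import Pool.Agent.Helper5.B54v2.T.D004
import Pool.Agent.Helper5.B54v2.T.D005
import Pool.Agent.Helper5.B54v2.T.D006
import Pool.Agent.Helper5.B54v2.T.D007
import Pool.Agent.Helper5.B54v2.T.D008
import Pool.Agent.Helper5.B54v2.T.D009
import Pool.Agent.Helper5.B54v2.T.D010
import Pool.Agent.Helper5.B54v2.T.D011
import Pool.Agent.Helper5.B54v2.T.D012
import Pool.Agent.Helper5.B54v2.T.D013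
import Pool.Agent.Helper5.B54v2.T.D014
import Pool.Agent.Helper5.B54v2.T.D015
import Pool.Agent.Helper5.B54v2.T.D016
import Pool.Agent.Helper5.B54v2.T.D017
import Pool.Agent.Helper5.B54v2.T.D018
import Pool.Agent.Helper5.B54v2.T.D019
import Pool.Agent.Helper5.B54v2.T.D020
import Pool.Agent.Helper5.B54v2.T.D021
import Pool.Agent.Helper5.B54v2.T.D022
import Pool.Agent.Helper5.B54v2.T.D023
import Pool.Agent.Helper5.B54v2.T.D024
import Pool.Agent.Helper5.B54v2.T.D025
import Pool.Agent.Helper5.B54v2.T.D026
import Pool.Agent.Helper5.B54v2.T.D027
import Pool.Agent.Helper5.B54v2.T.D028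
import Pool.Agent.Helper5.B54v2.T.D029
import Pool.Agent.Helper5.B54v2.T.D030
import Pool.Agent.Helper5.B54v2.T.D031
import Pool.Agent.Helper5.B54v2.T.D032
import Pool.Agent.Helper5.B54v2.T.D033
import Pool.Agent.Helper5.B54v2.T.D034
import Pool.Agent.Helper5.B54v2.T.D035
import Pool.Agent.Helper5.B54v2.T.D036
import Pool.Agent.Helper5.B54v2.T.D037
import Pool.Agent.Helper5.B54v2.T.D038
import Pool.Agent.Helper5.B54v2.T.D039
import Pool.Agent.Helper5.B54v2.T.D040
import Pool.Agent.Helper5.B54v2.T.D041
import Pool.Agent.Helper5.B54v2.T.D042
import Pool.Agent.Helper5.B54v2.T.D043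
import Pool.Agent.Helper5.B54v2.T.D044
import Pool.Agent.Helper5.B54v2.T.D045
import Pool.Agent.Helper5.B54v2.T.D046
import Pool.Agent.Helper5.B54v2.T.D047
import Pool.Agent.Helper5.B54v2.T.D048
import Pool.Agent.Helper5.B54v2.T.D049
import Pool.Agent.Helper5.B54v2.T.D050
import Pool.Agent.Helper5.B54v2.T.D051
import Pool.Agent.Helper5.B54v2.T.D052
import Pool.Agent.Helper5.B54v2.T.D053
import Pool.Agent.Helper5.B54v2.T.D054
import Pool.Agent.Helper5.B54v2.T.D055
import Pool.Agent.Helper5.B54v2.T.D056
import Pool.Agent.Helper5.B54v2.T.D057

/-!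
# Cells
-/

namespace Pool.Agent.Helper5.B54

theorem c16000_6960_7040_6320_6400 : Cell2 16000 6960 7040 6320 6400 :=
  CellR2.step (Good.chk c16000_6960_7040_6320_6400_s0) (by decide) (by decide)
    (CellR2.step (Good.chk c16000_6960_7040_6320_6400_s1) (by decide) (by decide)
    (CellR2.step (Good.chk c16000_6960_7040_6320_6400_s2) (by decide) (by decide)
    (CellR2.step (Good.chk c16000_6960_7040_6320_6400_s3) (by decide) (by decide)
    (CellR2.step (Good.chk c16000_6960_7040_6320_6400_s4) (by decide) (by decide)
    (CellR2.step (Good.chk c16000_6960_7040_6320_6400_s5) (by decide) (by decide)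
    (CellR2.step (Good.chk c16000_6960_7040_6320_6400_s6) (by decide) (by decide)
    (CellR2.step (Good.chk c16000_6960_7040_6320_6400_s7) (by decide) (by decide)
    (CellR2.step (Good.chk c16000_6960_7040_6320_6400_s8) (by decide) (by decide)
    (CellR2.step (Good.chk c16000_6960_7040_6320_6400_s9) (by decide) (by decide)
    (CellR2.step (Good.chk c16000_6960_7040_6320_6400_s10) (by decide) (by decide)
    (CellR2.step (Good.chk c16000_6960_7040_6320_6400_s11) (by decide) (by decide)
    (CellR2.step (Good.chk c16000_6960_7040_6320_6400_s12) (by decide) (by decide)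
    (CellR2.step (Good.chk c16000_6960_7040_6320_6400_s13) (by decide) (by decide)
    (CellR2.step (Good.chk c16000_6960_7040_6320_6400_s14) (by decide) (by decide)
    (CellR2.step (Good.chk c16000_6960_7040_6320_6400_s15) (by decide) (by decide)
    (CellR2.step (Good.chk c16000_6960_7040_6320_6400_s16) (by decide) (by decide)
    (CellR2.step (Good.chk c16000_6960_7040_6320_6400_s17) (by decide) (by decide)
    (CellR2.step (Good.chk c16000_6960_7040_6320_6400_s18) (by decide) (by decide)
    (CellR2.step (Good.chk c16000_6960_7040_6320_6400_s19) (by decide) (by decide)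
    (CellR2.step (Good.chk c16000_6960_7040_6320_6400_s20) (by decide) (by decide)
    (CellR2.step (Good.chk c16000_6960_7040_6320_6400_s21) (by decide) (by decide)
    (CellR2.step (Good.chk c16000_6960_7040_6320_6400_s22) (by decide) (by decide)
    (CellR2.step (Good.chk c16000_6960_7040_6320_6400_s23) (by decide) (by decide)
    (CellR2.step (Good.chk c16000_6960_7040_6320_6400_s24) (by decide) (by decide)
    (CellR2.step (Good.chk c16000_6960_7040_6320_6400_s25) (by decide) (by decide)
    (CellR2.step (Good.chk c16000_6960_7040_6320_6400_s26) (by decide) (by decide)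
    (CellR2.step (Good.chk c16000_6960_7040_6320_6400_s27) (by decide) (by decide)
    (CellR2.step (Good.chk c16000_6960_7040_6320_6400_s28) (by decide) (by decide)
    (CellR2.step (Good.chk c16000_6960_7040_6320_6400_s29) (by decide) (by decide)
    (CellR2.step (Good.chk c16000_6960_7040_6320_6400_s30) (by decide) (by decide)
    (CellR2.fin c16000_6960_7040_6320_6400_f)))))))))))))))))))))))))))))))

theorem c16000_7040_7120_6560_6640 : Cell2 16000 7040 7120 6560 6640 :=
  CellR2.step (Good.chk c16000_7040_7120_6560_6640_s0) (by decide) (by decide)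
    (CellR2.step (Good.chk c16000_7040_7120_6560_6640_s1) (by decide) (by decide)
    (CellR2.step (Good.chk c16000_7040_7120_6560_6640_s2) (by decide) (by decide)
    (CellR2.step (Good.chk c16000_7040_7120_6560_6640_s3) (by decide) (by decide)
    (CellR2.step (Good.chk c16000_7040_7120_6560_6640_s4) (by decide) (by decide)
    (CellR2.step (Good.chk c16000_7040_7120_6560_6640_s5) (by decide) (by decide)
    (CellR2.step (Good.chk c16000_7040_7120_6560_6640_s6) (by decide) (by decide)
    (CellR2.step (Good.chk c16000_7040_7120_6560_6640_s7) (by decide) (by decide)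
    (CellR2.step (Good.chk c16000_7040_7120_6560_6640_s8) (by decide) (by decide)
    (CellR2.step (Good.chk c16000_7040_7120_6560_6640_s9) (by decide) (by decide)
    (CellR2.step (Good.chk c16000_7040_7120_6560_6640_s10) (by decide) (by decide)
    (CellR2.step (Good.chk c16000_7040_7120_6560_6640_s11) (by decide) (by decide)
    (CellR2.step (Good.chk c16000_7040_7120_6560_6640_s12) (by decide) (by decide)
    (CellR2.step (Good.chk c16000_7040_7120_6560_6640_s13) (by decide) (by decide)
    (CellR2.step (Good.chk c16000_7040_7120_6560_6640_s14) (by decide) (by decide)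
    (CellR2.step (Good.chk c16000_7040_7120_6560_6640_s15) (by decide) (by decide)
    (CellR2.step (Good.chk c16000_7040_7120_6560_6640_s16) (by decide) (by decide)
    (CellR2.step (Good.chk c16000_7040_7120_6560_6640_s17) (by decide) (by decide)
    (CellR2.step (Good.chk c16000_7040_7120_6560_6640_s18) (by decide) (by decide)
    (CellR2.step (Good.chk c16000_7040_7120_6560_6640_s19) (by decide) (by decide)
    (CellR2.step (Good.chk c16000_7040_7120_6560_6640_s20) (by decide) (by decide)
    (CellR2.step (Good.chk c16000_7040_7120_6560_6640_s21) (by decide) (by decide)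
    (CellR2.step (Good.chk c16000_7040_7120_6560_6640_s22) (by decide) (by decide)
    (CellR2.step (Good.chk c16000_7040_7120_6560_6640_s23) (by decide) (by decide)
    (CellR2.step (Good.chk c16000_7040_7120_6560_6640_s24) (by decide) (by decide)
    (CellR2.step (Good.chk c16000_7040_7120_6560_6640_s25) (by decide) (by decide)
    (CellR2.step (Good.chk c16000_7040_7120_6560_6640_s26) (by decide) (by decide)
    (CellR2.step (Good.chk c16000_7040_7120_6560_6640_s27) (by decide) (by decide)
    (CellR2.step (Good.chk c16000_7040_7120_6560_6640_s28) (by decide) (by decide)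
    (CellR2.step (Good.chk c16000_7040_7120_6560_6640_s29) (by decide) (by decide)
    (CellR2.step (Good.chk c16000_7040_7120_6560_6640_s30) (by decide) (by decide)
    (CellR2.step (Good.chk c16000_7040_7120_6560_6640_s31) (by decide) (by decide)
    (CellR2.fin c16000_7040_7120_6560_6640_f))))))))))))))))))))))))))))))))

theorem c16000_7120_7160_6560_6600 : Cell2 16000 7120 7160 6560 6600 :=
  CellR2.step (Good.chk c16000_7120_7160_6560_6600_s0) (by decide) (by decide)
    (CellR2.step (Good.chk c16000_7120_7160_6560_6600_s1) (by decide) (by decide)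
    (CellR2.step (Good.chk c16000_7120_7160_6560_6600_s2) (by decide) (by decide)
    (CellR2.step (Good.chk c16000_7120_7160_6560_6600_s3) (by decide) (by decide)
    (CellR2.step (Good.chk c16000_7120_7160_6560_6600_s4) (by decide) (by decide)
    (CellR2.step (Good.chk c16000_7120_7160_6560_6600_s5) (by decide) (by decide)
    (CellR2.step (Good.chk c16000_7120_7160_6560_6600_s6) (by decide) (by decide)
    (CellR2.step (Good.chk c16000_7120_7160_6560_6600_s7) (by decide) (by decide)
    (CellR2.step (Good.chk c16000_7120_7160_6560_6600_s8) (by decide) (by decide)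
    (CellR2.step (Good.chk c16000_7120_7160_6560_6600_s9) (by decide) (by decide)
    (CellR2.step (Good.chk c16000_7120_7160_6560_6600_s10) (by decide) (by decide)
    (CellR2.step (Good.chk c16000_7120_7160_6560_6600_s11) (by decide) (by decide)
    (CellR2.step (Good.chk c16000_7120_7160_6560_6600_s12) (by decide) (by decide)
    (CellR2.step (Good.chk c16000_7120_7160_6560_6600_s13) (by decide) (by decide)
    (CellR2.step (Good.chk c16000_7120_7160_6560_6600_s14) (by decide) (by decide)
    (CellR2.step (Good.chk c16000_7120_7160_6560_6600_s15) (by decide) (by decide)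
    (CellR2.step (Good.chk c16000_7120_7160_6560_6600_s16) (by decide) (by decide)
    (CellR2.fin c16000_7120_7160_6560_6600_f)))))))))))))))))

theorem c16000_7120_7160_6600_6640 : Cell2 16000 7120 7160 6600 6640 :=
  CellR2.step (Good.chk c16000_7120_7160_6600_6640_s0) (by decide) (by decide)
    (CellR2.step (Good.chk c16000_7120_7160_6600_6640_s1) (by decide) (by decide)
    (CellR2.step (Good.chk c16000_7120_7160_6600_6640_s2) (by decide) (by decide)
    (CellR2.step (Good.chk c16000_7120_7160_6600_6640_s3) (by decide) (by decide)
    (CellR2.step (Good.chk c16000_7120_7160_6600_6640_s4) (by decide) (by decide)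
    (CellR2.step (Good.chk c16000_7120_7160_6600_6640_s5) (by decide) (by decide)
    (CellR2.step (Good.chk c16000_7120_7160_6600_6640_s6) (by decide) (by decide)
    (CellR2.step (Good.chk c16000_7120_7160_6600_6640_s7) (by decide) (by decide)
    (CellR2.step (Good.chk c16000_7120_7160_6600_6640_s8) (by decide) (by decide)
    (CellR2.step (Good.chk c16000_7120_7160_6600_6640_s9) (by decide) (by decide)
    (CellR2.step (Good.chk c16000_7120_7160_6600_6640_s10) (by decide) (by decide)
    (CellR2.step (Good.chk c16000_7120_7160_6600_6640_s11) (by decide) (by decide)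
    (CellR2.step (Good.chk c16000_7120_7160_6600_6640_s12) (by decide) (by decide)
    (CellR2.step (Good.chk c16000_7120_7160_6600_6640_s13) (by decide) (by decide)
    (CellR2.step (Good.chk c16000_7120_7160_6600_6640_s14) (by decide) (by decide)
    (CellR2.step (Good.chk c16000_7120_7160_6600_6640_s15) (by decide) (by decide)
    (CellR2.step (Good.chk c16000_7120_7160_6600_6640_s16) (by decide) (by decide)
    (CellR2.step (Good.chk c16000_7120_7160_6600_6640_s17) (by decide) (by decide)
    (CellR2.step (Good.chk c16000_7120_7160_6600_6640_s18) (by decide) (by decide)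
    (CellR2.step (Good.chk c16000_7120_7160_6600_6640_s19) (by decide) (by decide)
    (CellR2.step (Good.chk c16000_7120_7160_6600_6640_s20) (by decide) (by decide)
    (CellR2.step (Good.chk c16000_7120_7160_6600_6640_s21) (by decide) (by decide)
    (CellR2.fin c16000_7120_7160_6600_6640_f))))))))))))))))))))))

theorem c16000_7160_7200_6560_6600 : Cell2 16000 7160 7200 6560 6600 :=
  CellR2.step (Good.chk c16000_7160_7200_6560_6600_s0) (by decide) (by decide)
    (CellR2.step (Good.chk c16000_7160_7200_6560_6600_s1) (by decide) (by decide)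
    (CellR2.step (Good.chk c16000_7160_7200_6560_6600_s2) (by decide) (by decide)
    (CellR2.step (Good.chk c16000_7160_7200_6560_6600_s3) (by decide) (by decide)
    (CellR2.step (Good.chk c16000_7160_7200_6560_6600_s4) (by decide) (by decide)
    (CellR2.step (Good.chk c16000_7160_7200_6560_6600_s5) (by decide) (by decide)
    (CellR2.step (Good.chk c16000_7160_7200_6560_6600_s6) (by decide) (by decide)
    (CellR2.step (Good.chk c16000_7160_7200_6560_6600_s7) (by decide) (by decide)
    (CellR2.step (Good.chk c16000_7160_7200_6560_6600_s8) (by decide) (by decide)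
    (CellR2.step (Good.chk c16000_7160_7200_6560_6600_s9) (by decide) (by decide)
    (CellR2.step (Good.chk c16000_7160_7200_6560_6600_s10) (by decide) (by decide)
    (CellR2.step (Good.chk c16000_7160_7200_6560_6600_s11) (by decide) (by decide)
    (CellR2.step (Good.chk c16000_7160_7200_6560_6600_s12) (by decide) (by decide)
    (CellR2.step (Good.chk c16000_7160_7200_6560_6600_s13) (by decide) (by decide)
    (CellR2.fin c16000_7160_7200_6560_6600_f))))))))))))))

theorem c16000_7160_7200_6600_6640 : Cell2 16000 7160 7200 6600 6640 :=
  CellR2.step (Good.chk c16000_7160_7200_6600_6640_s0) (by decide) (by decide)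
    (CellR2.step (Good.chk c16000_7160_7200_6600_6640_s1) (by decide) (by decide)
    (CellR2.step (Good.chk c16000_7160_7200_6600_6640_s2) (by decide) (by decide)
    (CellR2.step (Good.chk c16000_7160_7200_6600_6640_s3) (by decide) (by decide)
    (CellR2.step (Good.chk c16000_7160_7200_6600_6640_s4) (by decide) (by decide)
    (CellR2.step (Good.chk c16000_7160_7200_6600_6640_s5) (by decide) (by decide)
    (CellR2.step (Good.chk c16000_7160_7200_6600_6640_s6) (by decide) (by decide)
    (CellR2.step (Good.chk c16000_7160_7200_6600_6640_s7) (by decide) (by decide)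
    (CellR2.step (Good.chk c16000_7160_7200_6600_6640_s8) (by decide) (by decide)
    (CellR2.step (Good.chk c16000_7160_7200_6600_6640_s9) (by decide) (by decide)
    (CellR2.step (Good.chk c16000_7160_7200_6600_6640_s10) (by decide) (by decide)
    (CellR2.step (Good.chk c16000_7160_7200_6600_6640_s11) (by decide) (by decide)
    (CellR2.step (Good.chk c16000_7160_7200_6600_6640_s12) (by decide) (by decide)
    (CellR2.step (Good.chk c16000_7160_7200_6600_6640_s13) (by decide) (by decide)
    (CellR2.step (Good.chk c16000_7160_7200_6600_6640_s14) (by decide) (by decide)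
    (CellR2.step (Good.chk c16000_7160_7200_6600_6640_s15) (by decide) (by decide)
    (CellR2.step (Good.chk c16000_7160_7200_6600_6640_s16) (by decide) (by decide)
    (CellR2.step (Good.chk c16000_7160_7200_6600_6640_s17) (by decide) (by decide)
    (CellR2.step (Good.chk c16000_7160_7200_6600_6640_s18) (by decide) (by decide)
    (CellR2.step (Good.chk c16000_7160_7200_6600_6640_s19) (by decide) (by decide)
    (CellR2.step (Good.chk c16000_7160_7200_6600_6640_s20) (by decide) (by decide)
    (CellR2.fin c16000_7160_7200_6600_6640_f)))))))))))))))))))))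

theorem c16000_7200_7240_6400_6440 : Cell2 16000 7200 7240 6400 6440 :=
  CellR2.step (Good.chk c16000_7200_7240_6400_6440_s0) (by decide) (by decide)
    (CellR2.step (Good.chk c16000_7200_7240_6400_6440_s1) (by decide) (by decide)
    (CellR2.step (Good.chk c16000_7200_7240_6400_6440_s2) (by decide) (by decide)
    (CellR2.step (Good.chk c16000_7200_7240_6400_6440_s3) (by decide) (by decide)
    (CellR2.step (Good.chk c16000_7200_7240_6400_6440_s4) (by decide) (by decide)
    (CellR2.step (Good.chk c16000_7200_7240_6400_6440_s5) (by decide) (by decide)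
    (CellR2.step (Good.chk c16000_7200_7240_6400_6440_s6) (by decide) (by decide)
    (CellR2.step (Good.chk c16000_7200_7240_6400_6440_s7) (by decide) (by decide)
    (CellR2.step (Good.chk c16000_7200_7240_6400_6440_s8) (by decide) (by decide)
    (CellR2.step (Good.chk c16000_7200_7240_6400_6440_s9) (by decide) (by decide)
    (CellR2.step (Good.chk c16000_7200_7240_6400_6440_s10) (by decide) (by decide)
    (CellR2.step (Good.chk c16000_7200_7240_6400_6440_s11) (by decide) (by decide)
    (CellR2.step (Good.chk c16000_7200_7240_6400_6440_s12) (by decide) (by decide)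
    (CellR2.step (Good.chk c16000_7200_7240_6400_6440_s13) (by decide) (by decide)
    (CellR2.step (Good.chk c16000_7200_7240_6400_6440_s14) (by decide) (by decide)
    (CellR2.step (Good.chk c16000_7200_7240_6400_6440_s15) (by decide) (by decide)
    (CellR2.step (Good.chk c16000_7200_7240_6400_6440_s16) (by decide) (by decide)
    (CellR2.step (Good.chk c16000_7200_7240_6400_6440_s17) (by decide) (by decide)
    (CellR2.step (Good.chk c16000_7200_7240_6400_6440_s18) (by decide) (by decide)
    (CellR2.step (Good.chk c16000_7200_7240_6400_6440_s19) (by decide) (by decide)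
    (CellR2.step (Good.chk c16000_7200_7240_6400_6440_s20) (by decide) (by decide)
    (CellR2.fin c16000_7200_7240_6400_6440_f)))))))))))))))))))))

theorem c16000_7200_7240_6440_6480 : Cell2 16000 7200 7240 6440 6480 :=
  CellR2.step (Good.chk c16000_7200_7240_6440_6480_s0) (by decide) (by decide)
    (CellR2.step (Good.chk c16000_7200_7240_6440_6480_s1) (by decide) (by decide)
    (CellR2.step (Good.chk c16000_7200_7240_6440_6480_s2) (by decide) (by decide)
    (CellR2.step (Good.chk c16000_7200_7240_6440_6480_s3) (by decide) (by decide)
    (CellR2.step (Good.chk c16000_7200_7240_6440_6480_s4) (by decide) (by decide)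
    (CellR2.step (Good.chk c16000_7200_7240_6440_6480_s5) (by decide) (by decide)
    (CellR2.step (Good.chk c16000_7200_7240_6440_6480_s6) (by decide) (by decide)
    (CellR2.step (Good.chk c16000_7200_7240_6440_6480_s7) (by decide) (by decide)
    (CellR2.step (Good.chk c16000_7200_7240_6440_6480_s8) (by decide) (by decide)
    (CellR2.step (Good.chk c16000_7200_7240_6440_6480_s9) (by decide) (by decide)
    (CellR2.step (Good.chk c16000_7200_7240_6440_6480_s10) (by decide) (by decide)
    (CellR2.step (Good.chk c16000_7200_7240_6440_6480_s11) (by decide) (by decide)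
    (CellR2.step (Good.chk c16000_7200_7240_6440_6480_s12) (by decide) (by decide)
    (CellR2.step (Good.chk c16000_7200_7240_6440_6480_s13) (by decide) (by decide)
    (CellR2.step (Good.chk c16000_7200_7240_6440_6480_s14) (by decide) (by decide)
    (CellR2.step (Good.chk c16000_7200_7240_6440_6480_s15) (by decide) (by decide)
    (CellR2.fin c16000_7200_7240_6440_6480_f))))))))))))))))

theorem c16000_7240_7280_6400_6440 : Cell2 16000 7240 7280 6400 6440 :=
  CellR2.step (Good.chk c16000_7240_7280_6400_6440_s0) (by decide) (by decide)
    (CellR2.step (Good.chk c16000_7240_7280_6400_6440_s1) (by decide) (by decide)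
    (CellR2.step (Good.chk c16000_7240_7280_6400_6440_s2) (by decide) (by decide)
    (CellR2.step (Good.chk c16000_7240_7280_6400_6440_s3) (by decide) (by decide)
    (CellR2.step (Good.chk c16000_7240_7280_6400_6440_s4) (by decide) (by decide)
    (CellR2.step (Good.chk c16000_7240_7280_6400_6440_s5) (by decide) (by decide)
    (CellR2.step (Good.chk c16000_7240_7280_6400_6440_s6) (by decide) (by decide)
    (CellR2.step (Good.chk c16000_7240_7280_6400_6440_s7) (by decide) (by decide)
    (CellR2.step (Good.chk c16000_7240_7280_6400_6440_s8) (by decide) (by decide)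
    (CellR2.step (Good.chk c16000_7240_7280_6400_6440_s9) (by decide) (by decide)
    (CellR2.step (Good.chk c16000_7240_7280_6400_6440_s10) (by decide) (by decide)
    (CellR2.step (Good.chk c16000_7240_7280_6400_6440_s11) (by decide) (by decide)
    (CellR2.step (Good.chk c16000_7240_7280_6400_6440_s12) (by decide) (by decide)
    (CellR2.step (Good.chk c16000_7240_7280_6400_6440_s13) (by decide) (by decide)
    (CellR2.step (Good.chk c16000_7240_7280_6400_6440_s14) (by decide) (by decide)
    (CellR2.step (Good.chk c16000_7240_7280_6400_6440_s15) (by decide) (by decide)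
    (CellR2.step (Good.chk c16000_7240_7280_6400_6440_s16) (by decide) (by decide)
    (CellR2.fin c16000_7240_7280_6400_6440_f)))))))))))))))))

theorem c16000_7240_7280_6440_6480 : Cell2 16000 7240 7280 6440 6480 :=
  CellR2.step (Good.chk c16000_7240_7280_6440_6480_s0) (by decide) (by decide)
    (CellR2.step (Good.chk c16000_7240_7280_6440_6480_s1) (by decide) (by decide)
    (CellR2.step (Good.chk c16000_7240_7280_6440_6480_s2) (by decide) (by decide)
    (CellR2.step (Good.chk c16000_7240_7280_6440_6480_s3) (by decide) (by decide)
    (CellR2.step (Good.chk c16000_7240_7280_6440_6480_s4) (by decide) (by decide)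
    (CellR2.step (Good.chk c16000_7240_7280_6440_6480_s5) (by decide) (by decide)
    (CellR2.step (Good.chk c16000_7240_7280_6440_6480_s6) (by decide) (by decide)
    (CellR2.step (Good.chk c16000_7240_7280_6440_6480_s7) (by decide) (by decide)
    (CellR2.step (Good.chk c16000_7240_7280_6440_6480_s8) (by decide) (by decide)
    (CellR2.step (Good.chk c16000_7240_7280_6440_6480_s9) (by decide) (by decide)
    (CellR2.step (Good.chk c16000_7240_7280_6440_6480_s10) (by decide) (by decide)
    (CellR2.step (Good.chk c16000_7240_7280_6440_6480_s11) (by decide) (by decide)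
    (CellR2.step (Good.chk c16000_7240_7280_6440_6480_s12) (by decide) (by decide)
    (CellR2.step (Good.chk c16000_7240_7280_6440_6480_s13) (by decide) (by decide)
    (CellR2.step (Good.chk c16000_7240_7280_6440_6480_s14) (by decide) (by decide)
    (CellR2.step (Good.chk c16000_7240_7280_6440_6480_s15) (by decide) (by decide)
    (CellR2.step (Good.chk c16000_7240_7280_6440_6480_s16) (by decide) (by decide)
    (CellR2.step (Good.chk c16000_7240_7280_6440_6480_s17) (by decide) (by decide)
    (CellR2.step (Good.chk c16000_7240_7280_6440_6480_s18) (by decide) (by decide)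
    (CellR2.step (Good.chk c16000_7240_7280_6440_6480_s19) (by decide) (by decide)
    (CellR2.fin c16000_7240_7280_6440_6480_f))))))))))))))))))))

end Pool.Agent.Helper5.B54
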